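import Pool.Agent.Lib.TWC.ThetaB
import Pool.Agent.Lib.TWC.PairW
import Pool.Agent.Lib.TWM.X1

/-!
# TANK W, the infinite first floor (row R): letters of the field `W` (LEMMA TRI, T4)

`W` closed, `t 0 ∈ W`, `t (n + 1) ^ p = t n`, the roots of order `p` of the elements of `W` are
polynomials in `t 1` over `W`, the distance of `t 1` to `W` is `(v (t 0) + ν) / p`: `Lt p v W t ν`.

* `exists_Lt`: for every `δ > 0` there is such a `t` with `ν ≤ δ`, `t 0 = x - g ^ p`;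
* `Lt.jet1`: the jets of order `F < p` at `t 1` have norm `≤ F (v (t 0) + ν) / p`;
* `Lt.nbx`: the jets of order `F < p ^ n` at `t n` have norm `≤ F (v (t 0) + ν p / (p - 1)) / p ^ n`;
* `Lt.ld`, `Lt.ld'`: **linear dominance**: for `f ∈ W(t (i + 1))` the norm of the derivative
  `t (i + 1) f'` is the distance of `f` to `W(t i)`, up to `ν / p ^ (i + 1)`;
* `near_bound`: the distances of `y` to the roots of order `p ^ j` of `W` are bounded by
  `m / p ^ (j + 1)`, `m = c₀ p / (p - 1)`.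
-/

set_option autoImplicit false
set_option linter.unusedSectionVars false

open Polynomial

namespace Pool.Agent.TWTR

open Pool.Agent.H15JM (RVal)
open Pool.Agent.LU1 (VPos adj)
open Pool.Agent.D2 (Ctx0)
open Pool.Agent.D2P (clI mem_clI)
open Pool.Agent.TW (PBasis pcomb mon)
open Pool.Agent.TWM Pool.Agent.TWM.C
open Pool.Agent.TWC

universe u

variable {k Ω : Type u} [Field k] [Field Ω] [Algebra k Ω] {v : RVal Ω}
  {W C : IntermediateField k Ω} {t : ℕ → Ω} {ν δ c c₀ : ℝ} {p : ℕ} {x y a : Ω}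

/-- A letter of `W`. -/
structure Lt (p : ℕ) (v : RVal Ω) (W : IntermediateField k Ω) (t : ℕ → Ω) (ν : ℝ) : Prop where
  cld : Cld v W
  mem : t 0 ∈ W
  root : ∀ n, t (n + 1) ^ p = t n
  ne : t 0 ≠ 0
  gen : ∀ a ∈ W, ∃ Q ∈ PI W, (Q.eval (t 1)) ^ p = a
  dst : Dst v W (t 1) ((v (t 0) + ν) / p)

theorem lt_comp_PI {G H : Polynomial Ω} (hG : G ∈ PI W) (hH : H ∈ PI W) : G.comp H ∈ PI W := by
  rw [comp_eq_sum_left, Polynomial.sum]
  exact sum_mem fun i _ => mul_mem (C_mem_PI (hG i)) (pow_mem hH i)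

variable [hp : Fact p.Prime] [CharP k p] [CharP Ω p] [IsAlgClosed Ω]

/-- **Letters with small `ν` exist.** -/
theorem exists_Lt (hW : Cld v W) (hx : x ∈ W) (hxp : ∀ a ∈ W, a ^ p ≠ x) {x₁ : Ω}
    (hx₁ : x₁ ^ p = x) (hgen : ∀ a ∈ W, ∃ Q ∈ PI W, (Q.eval x₁) ^ p = a) (hδ : 0 < δ) :
    ∃ (t : ℕ → Ω) (ν : ℝ) (g : Ω), Lt p v W t ν ∧ ν ≤ δ ∧ g ∈ W ∧ t 0 = x - g ^ p ∧
      t 1 = x₁ - g := by
  have hp0 : (0 : ℝ) < p := by exact_mod_cast hp.out.pos
  have hx₁W : x₁ ∉ W := fun h => hxp x₁ h hx₁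
  obtain ⟨c, hc⟩ := Dst.exists hW hx₁W
  obtain ⟨g, hg, h1⟩ := hc.near (δ / p) (by positivity)
  obtain ⟨h2, h3⟩ := hc.le hg
  obtain ⟨t, ht0, ht⟩ := exists_rts p (x - g ^ p)
  have ht1 : t 1 = x₁ - g := by
    have h4 : (t 1 - (x₁ - g)) ^ p = 0 := by
      rw [sub_pow_char, sub_pow_char, ht 0, ht0, hx₁]
      ring
    exact sub_eq_zero.1 (pow_eq_zero_iff hp.out.ne_zero |>.1 h4)
  have ht0' : t 0 ≠ 0 := by
    rw [← ht 0, zero_add, ht1]
    exact pow_ne_zero _ h2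
  have hv : v (t 0) = p * v (x₁ - g) := by
    rw [← ht 0, zero_add, ht1, v.map_pow h2]
  refine ⟨t, p * c - v (t 0), g, ⟨hW, ?_, ht, ht0', fun a ha => ?_, ?_⟩, ?_, hg, ht0, ht1⟩
  · rw [ht0]
    exact sub_mem hx (pow_mem hg p)
  · obtain ⟨Q, hQ, h4⟩ := hgen a ha
    refine ⟨Q.comp (X + C g), lt_comp_PI hQ (add_mem X_mem_PI (C_mem_PI hg)), ?_⟩
    rw [eval_comp, eval_add, eval_X, eval_C, ht1, sub_add_cancel, h4]
  · have h4 : (v (t 0) + (p * c - v (t 0))) / p = c := by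
      field_simp
      ring
    rw [h4, ht1]
    refine ⟨?_, fun ε hε => ?_⟩
    · rintro ⟨b, hb, h5⟩
      refine hc.far ⟨g + b, add_mem hg hb, ?_⟩
      rwa [← sub_sub]
    · obtain ⟨b, hb, h5⟩ := hc.near ε hε
      refine ⟨b - g, sub_mem hb hg, ?_⟩
      have e : x₁ - g - (b - g) = x₁ - b := by ring
      rwa [e]
  · have h4 := h1 h2
    have h5 : (p : ℝ) * (c - δ / p) ≤ p * v (x₁ - g) := mul_le_mul_of_nonneg_left h4 hp0.le
    rw [mul_sub, mul_div_cancel₀ _ hp0.ne'] at h5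
    linarith

namespace Lt

theorem tne (h : Lt p v W t ν) (n : ℕ) : t n ≠ 0 := root_ne_zero h.root h.ne n

theorem val (h : Lt p v W t ν) (n : ℕ) : v (t n) = v (t 0) / p ^ n := val_rt h.root h.ne n

theorem nonneg (h : Lt p v W t ν) : 0 ≤ ν := by
  have hp0 : (0 : ℝ) < p := by exact_mod_cast hp.out.pos
  have h1 := (h.dst.le (zero_mem W)).2
  rw [sub_zero, h.val 1, pow_one, div_le_div_iff_of_pos_right hp0] at h1
  linarith

theorem notin (h : Lt p v W t ν) : t 1 ∉ W := fun h1 =>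
  (h.dst.le h1).1 (sub_self _)

theorem exists_rd' (hc : CompleteV v) (h : Lt p v W t ν) :
    ∃ e : ℕ → ℝ, RD p v W t e (fun n => v (t 0) / p ^ n) ∧
      (∀ n, e (n + 1) ≤ (v (t 0) + ν) / p ^ (n + 1)) ∧ e 1 = (v (t 0) + ν) / p := by
  have hp0 : (0 : ℝ) < p := by exact_mod_cast hp.out.pos
  obtain ⟨e, hrd, hd, he, -⟩ := RD.exists_rd h.cld hc h.mem h.root h.notin
  have h1 : adj W (t 0) = W := le_antisymm
    (D2P.adj_le le_rfl h.mem) (D2P.mem_adj_self W (t 0)).2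
  have h2 := hd 0
  rw [h1] at h2
  have h3 : e 1 = (v (t 0) + ν) / p := Dst.uniq h2 h.dst
  refine ⟨e, hrd, fun n => ?_, h3⟩
  have h4 := he n
  rwa [h3, mul_div_cancel₀ _ hp0.ne'] at h4

/-- **The norm of the jets.** -/
theorem nbx (h0 : Ctx0 k v) (hc : CompleteV v) (h : Lt p v W t ν) :
    NBX p v W t fun n F => F * (v (t 0) + ν * (p / (p - 1))) / p ^ n := by
  have hp1 : (0 : ℝ) < (p : ℝ) - 1 := by
    have : (1 : ℝ) < p := by exact_mod_cast hp.out.one_lt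
    linarith
  obtain ⟨e, hrd, he, -⟩ := h.exists_rd' hc
  have h1 := hrd.nbx h0 hc (r := v (t 0) + ν) (δ := v (t 0)) he (fun n => le_rfl)
    (by linarith [h.nonneg])
  have h2 : v (t 0) + ν + (v (t 0) + ν - v (t 0)) / (p - 1) =
      v (t 0) + ν * (p / (p - 1)) := by
    field_simp
    ring
  rwa [h2] at h1

/-- The jets at `t 1`. -/
theorem jet1 (h0 : Ctx0 k v) (hc : CompleteV v) (h : Lt p v W t ν) {G : Polynomial Ω}
    (hG : G ∈ PI W) {b : ℝ} (hb : v.Ge b (G.eval (t 1))) {F : ℕ} (hF : F < p) :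
    v.Ge (b - F * ((v (t 0) + ν) / p)) ((taylor (t 1) G).coeff F) := by
  have hp0 : (0 : ℝ) < p := by exact_mod_cast hp.out.pos
  obtain ⟨e, hrd, -, he⟩ := h.exists_rd' hc
  set d : ℕ → ℝ := fun n => v (t 0) / p ^ n with hd
  -- the weights
  set A : ℕ → ℝ := fun n => Nat.rec (-(|e 1 - d 1| + p * |e 1|))
    (fun n a => if n = 0 then e 1 else max (e (n + 1)) ((a + |e (n + 1) - d (n + 1)|) / p)) n
    with hA
  have hA0 : A 0 = -(|e 1 - d 1| + p * |e 1|) := rfl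
  have hA1 : A 1 = e 1 := rfl
  have hA2 : ∀ n, A (n + 2) = max (e (n + 2)) ((A (n + 1) + |e (n + 2) - d (n + 2)|) / p) := by
    intro n
    rfl
  have hup : ∀ n (j : ℕ), 1 ≤ j → (j : ℝ) * A n + |e (n + 1) - d (n + 1)| ≤
      ((p * j : ℕ) : ℝ) * A (n + 1) := by
    intro n j hj
    have hj' : (1 : ℝ) ≤ j := by exact_mod_cast hj
    push_cast
    rcases Nat.eq_zero_or_pos n with rfl | hn
    · rw [zero_add, hA0, hA1]
      have h1 : 0 ≤ |e 1 - d 1| := abs_nonneg _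
      have h2 := neg_abs_le (e 1)
      have h3 : (p : ℝ) * j * (-|e 1|) ≤ p * j * e 1 :=
        mul_le_mul_of_nonneg_left h2 (by positivity)
      nlinarith
    · obtain ⟨m, rfl⟩ := Nat.exists_eq_succ_of_ne_zero hn.ne'
      have h1 : (A (m + 1) + |e (m + 2) - d (m + 2)|) / p ≤ A (m + 2) := by
        rw [hA2]
        exact le_max_right _ _
      rw [div_le_iff₀ hp0] at h1
      have h2 : 0 ≤ |e (m + 2) - d (m + 2)| := abs_nonneg _
      have h3 := mul_le_mul_of_nonneg_left h1 (show (0 : ℝ) ≤ j by linarith)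
      change (j : ℝ) * A (m + 1) + |e (m + 2) - d (m + 2)| ≤ p * j * A (m + 2)
      nlinarith
  have hw : Wts p e d fun n F => F * A n := by
    refine ⟨fun n => by simp, fun n i j => by push_cast; linarith, fun n => ?_,
      fun n j hj => ?_, fun n j hj => ?_⟩
    · rw [Nat.cast_one, one_mul]
      rcases Nat.eq_zero_or_pos n with rfl | hn
      · rw [zero_add, hA1]
      · obtain ⟨m, rfl⟩ := Nat.exists_eq_succ_of_ne_zero hn.ne'
        change e (m + 2) ≤ A (m + 2)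
        rw [hA2]
        exact le_max_left _ _
    · have := hup n j hj
      linarith [abs_nonneg (e (n + 1) - d (n + 1))]
    · have := hup n j hj
      linarith [le_abs_self (e (n + 1) - d (n + 1))]
  have h1 := hrd.norm h0 hc hw 1 G hG b hb F (by rwa [pow_one])
  simp only [hA1] at h1
  rwa [he] at h1

/-- A polynomial which vanishes at `t n` has no jets of order `< p ^ n`. -/
theorem jet_zero (h0 : Ctx0 k v) (hc : CompleteV v) (h : Lt p v W t ν) {G : Polynomial Ω}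
    (hG : G ∈ PI W) {n : ℕ} (hb : G.eval (t n) = 0) {F : ℕ} (hF : F < p ^ n) :
    (taylor (t n) G).coeff F = 0 := by
  by_contra hne
  have h1 := (h.nbx h0 hc).nb n G hG F hF
    (v ((taylor (t n) G).coeff F) + 1 + F * (v (t 0) + ν * (p / (p - 1))) / p ^ n)
    (by rw [hb]; exact RVal.Ge.zero) hne
  linarith

/-- Linear dominance at `t 1`. -/
theorem ld_one (h0 : Ctx0 k v) (hc : CompleteV v) (h : Lt p v W t ν) {G : Polynomial Ω}
    (hG : G ∈ PI W) {c : ℝ} (hb : v.Ge c (t 1 * (derivative G).eval (t 1))) {ε : ℝ} (hε : 0 < ε) :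
    ∃ a ∈ W, v.Ge (c + ν / p - ε) (G.eval (t 1) - a) := by
  have hp0 : (0 : ℝ) < p := by exact_mod_cast hp.out.pos
  -- reduction to the degree `< p`
  obtain ⟨Q, hQ, hdeg, hev⟩ := exists_red h.root h.mem 1 hG
  rw [pow_one] at hdeg
  have hder : (derivative Q).eval (t 1) = (derivative G).eval (t 1) := by
    have h1 := h.jet_zero h0 hc (sub_mem hQ hG) (n := 1) (by rw [eval_sub, hev, sub_self])
      (F := 1) (by rw [pow_one]; exact hp.out.one_lt)
    rw [map_sub, coeff_sub, taylor_coeff_one, taylor_coeff_one, sub_eq_zero] at h1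
    exact h1
  rw [← hev]
  rw [← hder] at hb
  clear hev hder hG G
  set ρ : ℝ := (v (t 0) + ν) / p with hρ
  have hv1 : v (t 1) = v (t 0) / p := by rw [h.val 1, pow_one]
  have hb' : v.Ge (c - v (t 1)) ((derivative Q).eval (t 1)) := fun h1 => by
    have h2 := hb (mul_ne_zero (h.tne 1) h1)
    rw [v.map_mul (h.tne 1) h1] at h2
    linarith
  have hdQ : derivative Q ∈ PI W := fun i => by
    rw [coeff_derivative]
    exact mul_mem (hQ _) (by exact_mod_cast natCast_mem W (i + 1))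
  -- the jets
  have hj : ∀ j, 1 ≤ j → j < p → v.Ge (c - v (t 1) - (j - 1) * ρ) ((taylor (t 1) Q).coeff j) := by
    intro j hj1 hjp
    obtain ⟨i, rfl⟩ : ∃ i, j = i + 1 := ⟨j - 1, by omega⟩
    have h1 := h.jet1 h0 hc hdQ hb' (F := i) (by omega)
    have h2 : taylor (t 1) (derivative Q) = derivative (taylor (t 1) Q) := by
      rw [taylor_apply, taylor_apply, derivative_comp, derivative_add, derivative_X,
        derivative_C, add_zero, one_mul]
    rw [h2, coeff_derivative] at h1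
    have h3 : ((i : Ω) + 1) ≠ 0 := by
      have h4 : ((i + 1 : ℕ) : Ω) ≠ 0 := by
        rw [Ne, CharP.cast_eq_zero_iff Ω p]
        exact fun h5 => absurd (Nat.le_of_dvd (by omega) h5) (by omega)
      exact_mod_cast h4
    have h4 : v ((i : Ω) + 1) = 0 := by
      have h5 : ((i : Ω) + 1) = algebraMap k Ω ((i : k) + 1) := by simp
      rw [h5]
      refine h0.triv _ fun h6 => h3 ?_
      rw [h5, h6, map_zero]
    intro h5
    have h6 := h1 (mul_ne_zero h5 h3)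
    rw [v.map_mul h5 h3, h4] at h6
    push_cast
    linarith
  -- the approximation
  obtain ⟨g, hg, h1⟩ := h.dst.near (ε / p) (by positivity)
  rw [← hρ] at h1
  refine ⟨Q.eval g, TWM.eval_mem hQ hg, ?_⟩
  have e1 : Q.eval g = ∑ F ∈ Finset.range p, (taylor (t 1) Q).coeff F * (g - t 1) ^ F := by
    have e2 : (taylor (t 1) Q).eval (g - t 1) = Q.eval g := by
      rw [taylor_eval, sub_add_cancel]
    rw [← e2, eval_eq_sum_range' (n := p)]
    rwa [natDegree_taylor]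
  have e2 : Q.eval (t 1) = (taylor (t 1) Q).coeff 0 := by rw [taylor_coeff_zero]
  obtain ⟨q, hq⟩ : ∃ q, p = q + 1 := ⟨p - 1, by
    have := hp.out.pos
    omega⟩
  have e3 : Q.eval (t 1) - Q.eval g =
      -∑ F ∈ Finset.range q, (taylor (t 1) Q).coeff (F + 1) * (g - t 1) ^ (F + 1) := by
    rw [e1, e2, hq, Finset.sum_range_succ']
    simp
  rw [e3]
  refine (RVal.Ge.sum _ _ fun F hF => ?_).neg
  have hF' := Finset.mem_range.1 hF
  have h2 := hj (F + 1) (by omega) (by omega)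
  have h3 : v.Ge (ρ - ε / p) (g - t 1) := by
    have := h1.neg
    rwa [neg_sub] at this
  refine (h2.mul (ge_pow h3 (F + 1))).mono ?_
  have h4 : ((F + 1 : ℕ) : ℝ) ≤ p := by exact_mod_cast (by omega : F + 1 ≤ p)
  have h5 : ((F + 1 : ℕ) : ℝ) * (ε / p) ≤ ε := by
    have h6 := mul_le_mul_of_nonneg_right h4 (show 0 ≤ ε / p by positivity)
    rwa [mul_div_cancel₀ _ hp0.ne'] at h6
  have h6 : ρ - v (t 1) = ν / p := by
    rw [hρ, hv1]
    ring
  push_cast at h5 ⊢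
  nlinarith

/-- Linear dominance at `t 1`, converse. -/
theorem ld_one' (h0 : Ctx0 k v) (hc : CompleteV v) (h : Lt p v W t ν) {G : Polynomial Ω}
    (hG : G ∈ PI W) {a : Ω} (ha : a ∈ W) {b : ℝ} (hb : v.Ge b (G.eval (t 1) - a)) :
    v.Ge (b - ν / p) (t 1 * (derivative G).eval (t 1)) := by
  have hv1 : v (t 1) = v (t 0) / p := by rw [h.val 1, pow_one]
  have h1 := h.jet1 h0 hc (sub_mem hG (C_mem_PI ha)) (b := b)
    (by rwa [eval_sub, eval_C]) (F := 1) hp.out.one_lt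
  rw [map_sub, taylor_C, coeff_sub, coeff_C, if_neg one_ne_zero, sub_zero, taylor_coeff_one,
    Nat.cast_one, one_mul] at h1
  refine ((RVal.ge_self (v := v) (t 1)).mul h1).mono (le_of_eq ?_)
  rw [hv1]
  ring

/-! ### The roots of the elements of `W` -/

/-- The roots of order `p ^ n` of the elements of `W` are polynomials in `t n`. -/
theorem rts (h : Lt p v W t ν) {n : ℕ} {a : Ω} (ha : a ^ p ^ n ∈ W) :
    ∃ Q ∈ PI W, Q.eval (t n) = a := by
  obtain ⟨Q, hQ, h1⟩ := rts_poly h.root h.gen n _ ha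
  refine ⟨Q, hQ, ?_⟩
  have h2 : (Q.eval (t n) - a) ^ p ^ n = 0 := by rw [sub_pow_char_pow, h1, sub_self]
  exact sub_eq_zero.1 (pow_eq_zero_iff (pow_ne_zero n hp.out.ne_zero) |>.1 h2)

theorem tpow (h : Lt p v W t ν) (n j : ℕ) : t (n + j) ^ p ^ j = t n := root_pow_add h.root n j

theorem eval_frob (G : Polynomial Ω) (z : Ω) (i : ℕ) :
    (G.map (iterateFrobenius Ω p i)).eval (z ^ p ^ i) = (G.eval z) ^ p ^ i := by
  rw [eval_map, ← iterateFrobenius_def, ← iterateFrobenius_def, eval₂_at_apply]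

theorem map_frob_mem {G : Polynomial Ω} (hG : G ∈ PI W) (i : ℕ) :
    G.map (iterateFrobenius Ω p i) ∈ PI W := fun j => by
  rw [coeff_map, iterateFrobenius_def]
  exact pow_mem (hG j) _

theorem pow_mem' (h : Lt p v W t ν) (n : ℕ) {Q : Polynomial Ω} (hQ : Q ∈ PI W) :
    Q.eval (t n) ^ p ^ n ∈ W := by
  have h1 := h.tpow 0 n
  rw [zero_add] at h1
  rw [← eval_frob, h1]
  exact TWM.eval_mem (map_frob_mem hQ n) h.mem

/-- **Linear dominance.** -/
theorem ld (h0 : Ctx0 k v) (hc : CompleteV v) (h : Lt p v W t ν) {G : Polynomial Ω}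
    (hG : G ∈ PI W) (i : ℕ) {c : ℝ}
    (hb : v.Ge c (t (i + 1) * (derivative G).eval (t (i + 1)))) {ε : ℝ} (hε : 0 < ε) :
    ∃ a : Ω, a ^ p ^ i ∈ W ∧ v.Ge (c + ν / p ^ (i + 1) - ε) (G.eval (t (i + 1)) - a) := by
  have hp0 : (0 : ℝ) < p := by exact_mod_cast hp.out.pos
  have hpi : (0 : ℝ) < (p : ℝ) ^ i := pow_pos hp0 i
  have ht : t (i + 1) ^ p ^ i = t 1 := by
    have := h.tpow 1 i
    rwa [add_comm] at this
  have h1 : v.Ge (p ^ i * c)
      (t 1 * (derivative (G.map (iterateFrobenius Ω p i))).eval (t 1)) := by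
    rw [derivative_map, ← ht, eval_frob, ← mul_pow]
    have := ge_pow hb (p ^ i)
    push_cast at this
    exact this
  obtain ⟨a₁, ha₁, h2⟩ := h.ld_one h0 hc (map_frob_mem hG i) h1 (ε := p ^ i * ε) (by positivity)
  obtain ⟨a, rfl⟩ := IsAlgClosed.exists_pow_nat_eq a₁ (pow_pos hp.out.pos i)
  refine ⟨a, ha₁, ?_⟩
  rw [← ht, eval_frob, ← sub_pow_char_pow] at h2
  refine (ge_pow_iff (v := v) (pow_pos hp.out.pos i)).1 ?_
  have e : ((p ^ i : ℕ) : ℝ) * (c + ν / p ^ (i + 1) - ε) = p ^ i * c + ν / p - p ^ i * ε := by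
    push_cast
    rw [pow_succ]
    field_simp
  rw [e]
  exact h2

/-- Linear dominance, converse. -/
theorem ld' (h0 : Ctx0 k v) (hc : CompleteV v) (h : Lt p v W t ν) {G : Polynomial Ω}
    (hG : G ∈ PI W) (i : ℕ) {a : Ω} (ha : a ^ p ^ i ∈ W) {b : ℝ}
    (hb : v.Ge b (G.eval (t (i + 1)) - a)) :
    v.Ge (b - ν / p ^ (i + 1)) (t (i + 1) * (derivative G).eval (t (i + 1))) := by
  have hp0 : (0 : ℝ) < p := by exact_mod_cast hp.out.pos
  have ht : t (i + 1) ^ p ^ i = t 1 := by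
    have := h.tpow 1 i
    rwa [add_comm] at this
  have h1 : v.Ge (p ^ i * b)
      ((G.map (iterateFrobenius Ω p i)).eval (t 1) - a ^ p ^ i) := by
    rw [← ht, eval_frob, ← sub_pow_char_pow]
    have := ge_pow hb (p ^ i)
    push_cast at this
    exact this
  have h2 := h.ld_one' h0 hc (map_frob_mem hG i) ha h1
  rw [derivative_map, ← ht, eval_frob, ← mul_pow] at h2
  refine (ge_pow_iff (v := v) (pow_pos hp.out.pos i)).1 ?_
  have e : ((p ^ i : ℕ) : ℝ) * (b - ν / p ^ (i + 1)) = p ^ i * b - ν / p := by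
    push_cast
    rw [pow_succ]
    field_simp
  rw [e]
  exact h2

/-- **The elements of `W ^ (1 / p ^ (i + 1))` at distance `≤ m / p ^ (i + 1)` of `W ^ (1 / p ^ i)`,
modulo those at a smaller distance, are a line over `k`.** -/
theorem line (h0 : Ctx0 k v) (hc : CompleteV v) (h : Lt p v W t ν) (i : ℕ) {m : ℝ} {b b' : Ω}
    (hb : b ^ p ^ (i + 1) ∈ W) (hb' : b' ^ p ^ (i + 1) ∈ W)
    (hn : ∀ ε : ℝ, 0 < ε → ∃ a : Ω, a ^ p ^ i ∈ W ∧ v.Ge (-(m / p ^ (i + 1)) - ε) (b - a))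
    (hn' : ∀ ε : ℝ, 0 < ε → ∃ a : Ω, a ^ p ^ i ∈ W ∧ v.Ge (-(m / p ^ (i + 1)) - ε) (b' - a)) :
    ∃ l l' : k, (l ≠ 0 ∨ l' ≠ 0) ∧ ∃ m' < m, ∀ ε : ℝ, 0 < ε → ∃ a : Ω, a ^ p ^ i ∈ W ∧
      v.Ge (-(m' / p ^ (i + 1)) - ε) (algebraMap k Ω l * b + algebraMap k Ω l' * b' - a) := by
  have hp0 : (0 : ℝ) < p := by exact_mod_cast hp.out.pos
  have hpi : (0 : ℝ) < (p : ℝ) ^ (i + 1) := pow_pos hp0 _
  -- smaller derivative, smaller distance
  have key : ∀ G ∈ PI W, Gt v (-((m + ν) / p ^ (i + 1)))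
      (t (i + 1) * (derivative G).eval (t (i + 1))) → ∃ m' < m, ∀ ε : ℝ, 0 < ε →
        ∃ a : Ω, a ^ p ^ i ∈ W ∧ v.Ge (-(m' / p ^ (i + 1)) - ε) (G.eval (t (i + 1)) - a) := by
    intro G hG h1
    obtain ⟨s, hs, h2⟩ : ∃ s : ℝ, -((m + ν) / p ^ (i + 1)) < s ∧
        v.Ge s (t (i + 1) * (derivative G).eval (t (i + 1))) := by
      by_cases h3 : t (i + 1) * (derivative G).eval (t (i + 1)) = 0
      · exact ⟨-((m + ν) / p ^ (i + 1)) + 1, by linarith, by rw [h3]; exact RVal.Ge.zero⟩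
      · exact ⟨_, h1 h3, RVal.ge_self _⟩
    refine ⟨-(p ^ (i + 1) * s + ν), ?_, fun ε hε => ?_⟩
    · have h3 := mul_lt_mul_of_pos_left hs hpi
      have h4 : (p : ℝ) ^ (i + 1) * -((m + ν) / p ^ (i + 1)) = -(m + ν) := by
        field_simp
      rw [h4] at h3
      linarith
    · obtain ⟨a, ha, h3⟩ := h.ld h0 hc hG i h2 hε
      refine ⟨a, ha, ?_⟩
      have h4 : -(-(p ^ (i + 1) * s + ν) / (p : ℝ) ^ (i + 1)) - ε =
          s + ν / p ^ (i + 1) - ε := by
        field_simp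
      rwa [h4]
  obtain ⟨G, hG, rfl⟩ := h.rts hb
  obtain ⟨G', hG', rfl⟩ := h.rts hb'
  have hle : ∀ G ∈ PI W, (∀ ε : ℝ, 0 < ε → ∃ a : Ω, a ^ p ^ i ∈ W ∧
      v.Ge (-(m / p ^ (i + 1)) - ε) (G.eval (t (i + 1)) - a)) →
      v.Ge (-((m + ν) / p ^ (i + 1))) (t (i + 1) * (derivative G).eval (t (i + 1))) := by
    intro G hG h1
    refine TWC.ge_of_eps fun ε hε => ?_
    obtain ⟨a, ha, h2⟩ := h1 ε hε
    refine (h.ld' h0 hc hG i ha h2).mono (le_of_eq ?_)
    ring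
  have h1 := hle G hG hn
  have h2 := hle G' hG' hn'
  by_cases h3 : Gt v (-((m + ν) / p ^ (i + 1)))
      (t (i + 1) * (derivative G).eval (t (i + 1)))
  · obtain ⟨m', hm', h4⟩ := key G hG h3
    refine ⟨1, 0, Or.inl one_ne_zero, m', hm', fun ε hε => ?_⟩
    obtain ⟨a, ha, h5⟩ := h4 ε hε
    refine ⟨a, ha, ?_⟩
    rwa [map_one, map_zero, one_mul, zero_mul, add_zero]
  by_cases h4 : Gt v (-((m + ν) / p ^ (i + 1)))
      (t (i + 1) * (derivative G').eval (t (i + 1)))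
  · obtain ⟨m', hm', h5⟩ := key G' hG' h4
    refine ⟨0, 1, Or.inr one_ne_zero, m', hm', fun ε hε => ?_⟩
    obtain ⟨a, ha, h6⟩ := h5 ε hε
    refine ⟨a, ha, ?_⟩
    rwa [map_one, map_zero, one_mul, zero_mul, zero_add]
  -- both have the maximal size
  set A := t (i + 1) * (derivative G).eval (t (i + 1)) with hA
  set B := t (i + 1) * (derivative G').eval (t (i + 1)) with hB
  have hA0 : A ≠ 0 := fun e => h3 (by rw [e]; exact Gt.zero)
  have hB0 : B ≠ 0 := fun e => h4 (by rw [e]; exact Gt.zero)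
  have hvA : v A = -((m + ν) / p ^ (i + 1)) := le_antisymm
    (not_lt.1 fun e => h3 fun _ => e) (h1 hA0)
  have hvB : v B = -((m + ν) / p ^ (i + 1)) := le_antisymm
    (not_lt.1 fun e => h4 fun _ => e) (h2 hB0)
  have hq0 : A / B ≠ 0 := div_ne_zero hA0 hB0
  have hvq : v (A / B) = 0 := by
    have h5 : v (A / B * B) = v (A / B) + v B := v.map_mul hq0 hB0
    rw [div_mul_cancel₀ _ hB0] at h5
    linarith
  obtain ⟨c, hc0, h5⟩ := h0.res _ hq0 hvq
  have h6 : Gt v (-((m + ν) / p ^ (i + 1))) (A - algebraMap k Ω c * B) := by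
    have e : A - algebraMap k Ω c * B = (A / B - algebraMap k Ω c) * B := by
      rw [sub_mul, div_mul_cancel₀ _ hB0]
    rw [e]
    intro h7
    have h8 : A / B - algebraMap k Ω c ≠ 0 := fun e => h7 (by rw [e, zero_mul])
    rw [v.map_mul h8 hB0, hvB]
    have := h5 h8
    linarith
  have hGc : G - C (algebraMap k Ω c) * G' ∈ PI W :=
    sub_mem hG (mul_mem (C_mem_PI (W.algebraMap_mem c)) hG')
  obtain ⟨m', hm', h7⟩ := key _ hGc (by
    have e : t (i + 1) * (derivative (G - C (algebraMap k Ω c) * G')).eval (t (i + 1)) =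
        A - algebraMap k Ω c * B := by
      rw [derivative_sub, derivative_C_mul, eval_sub, eval_mul, eval_C, hA, hB]
      ring
    rw [e]
    exact h6)
  refine ⟨1, -c, Or.inl one_ne_zero, m', hm', fun ε hε => ?_⟩
  obtain ⟨a, ha, h8⟩ := h7 ε hε
  refine ⟨a, ha, ?_⟩
  have e : algebraMap k Ω 1 * G.eval (t (i + 1)) + algebraMap k Ω (-c) * G'.eval (t (i + 1)) - a =
      (G - C (algebraMap k Ω c) * G').eval (t (i + 1)) - a := by
    rw [eval_sub, eval_mul, eval_C, map_one, map_neg]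
    ring
  rwa [e]

end Lt

/-! ### The distances of `y` are bounded -/

omit [CharP k p] in
/-- One step down. -/
theorem near_step (hWC : W ≤ C) (hy : y ∈ C)
    (hgen : ∀ b ∈ W, ∃ e : Fin p → Ω, (∀ i, e i ∈ W) ∧ b = ∑ i, e i ^ p * x ^ (i : ℕ))
    (hoi : ∀ e : Fin p → Ω, (∀ i, e i ∈ C) → ∀ r : ℝ, v.Ge r (∑ i, e i ^ p * x ^ (i : ℕ)) →
      ∀ i, v.Ge (r - c₀) (e i ^ p * x ^ (i : ℕ))) {j : ℕ} (ha : a ^ p ^ (j + 1) ∈ W) {ρ : ℝ}
    (h1 : v.Ge (-ρ) (y - a)) :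
    ∃ a' : Ω, a' ^ p ^ j ∈ W ∧ v.Ge (-(ρ + c₀ / p ^ (j + 1))) (y - a') := by
  classical
  have hp0 : (0 : ℝ) < p := by exact_mod_cast hp.out.pos
  have hpj : (0 : ℝ) < (p : ℝ) ^ (j + 1) := pow_pos hp0 _
  obtain ⟨e, he, h2⟩ := hgen _ ha
  obtain ⟨q, hq⟩ : ∃ q, p = q + 1 := ⟨p - 1, by
    have := hp.out.pos
    omega⟩
  set z : Fin p := ⟨0, hp.out.pos⟩ with hz
  obtain ⟨a', ha'⟩ := IsAlgClosed.exists_pow_nat_eq (e z) (pow_pos hp.out.pos j)
  have hsum : ∀ f : Fin p → Ω, ∑ i, f i ^ p * x ^ (i : ℕ) =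
      f z ^ p + ∑ i ∈ Finset.univ.erase z, f i ^ p * x ^ (i : ℕ) := by
    intro f
    rw [← Finset.add_sum_erase _ _ (Finset.mem_univ z)]
    simp [hz]
  set e' : Fin p → Ω := fun i => if i = z then e z - y ^ p ^ j else e i with he'
  have h3 : ∑ i, e' i ^ p * x ^ (i : ℕ) = (a - y) ^ p ^ (j + 1) := by
    rw [hsum e', sub_pow_char_pow, h2, hsum e]
    have h4 : e' z ^ p = e z ^ p - y ^ p ^ (j + 1) := by
      simp only [he', if_pos]
      rw [sub_pow_char, ← pow_mul, ← pow_succ]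
    rw [h4]
    have h5 : ∑ i ∈ Finset.univ.erase z, e' i ^ p * x ^ (i : ℕ) =
        ∑ i ∈ Finset.univ.erase z, e i ^ p * x ^ (i : ℕ) := by
      refine Finset.sum_congr rfl fun i hi => ?_
      simp only [he', if_neg (Finset.ne_of_mem_erase hi)]
    rw [h5]
    ring
  have h4 : v.Ge (-(p ^ (j + 1) * ρ)) (∑ i, e' i ^ p * x ^ (i : ℕ)) := by
    rw [h3]
    have h5 : v.Ge (-ρ) (a - y) := by
      have := h1.neg
      rwa [neg_sub] at this
    have := ge_pow h5 (p ^ (j + 1))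
    push_cast at this
    refine this.mono (le_of_eq (by ring))
  have h5 := hoi e' (fun i => by
    simp only [he']
    split_ifs
    · exact sub_mem (hWC (he z)) (pow_mem hy _)
    · exact hWC (he i)) _ h4
  have h6 : v.Ge (-(p ^ (j + 1) * ρ) - c₀) ((a - a') ^ p ^ (j + 1)) := by
    have h7 : (a - a') ^ p ^ (j + 1) = ∑ i ∈ Finset.univ.erase z, e i ^ p * x ^ (i : ℕ) := by
      rw [sub_pow_char_pow, h2, hsum e, pow_succ (n := j), pow_mul a', ha']
      ring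
    rw [h7]
    refine RVal.Ge.sum _ _ fun i hi => ?_
    have := h5 i
    simp only [he', if_neg (Finset.ne_of_mem_erase hi)] at this
    exact this
  refine ⟨a', by rw [ha']; exact he z, ?_⟩
  have h7 : v.Ge (-(ρ + c₀ / p ^ (j + 1))) (a - a') := by
    refine (ge_pow_iff (v := v) (pow_pos hp.out.pos (j + 1))).1 (h6.mono (le_of_eq ?_))
    push_cast
    field_simp
    ring
  have e1 : y - a' = (y - a) + (a - a') := by ring
  rw [e1]
  refine RVal.Ge.add ?_ h7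
  by_cases hc : 0 ≤ c₀
  · exact h1.mono (by have : 0 ≤ c₀ / p ^ (j + 1) := by positivity
                      linarith)
  · -- `c₀ < 0` is impossible for a non zero element; then `1 = 0`
    exfalso
    have h8 := hoi (fun i => if i = z then 1 else 0) (fun i => by
      split_ifs
      · exact one_mem _
      · exact zero_mem _) 0 (by
        rw [hsum]
        have h9 : ∑ i ∈ Finset.univ.erase z, (if i = z then (1 : Ω) else 0) ^ p * x ^ (i : ℕ) = 0 := by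
          refine Finset.sum_eq_zero fun i hi => ?_
          rw [if_neg (Finset.ne_of_mem_erase hi), zero_pow hp.out.ne_zero, zero_mul]
        rw [h9, if_pos rfl, one_pow, add_zero]
        intro _
        rw [v.map_one]) z
    simp only [if_pos, one_pow, hz, pow_zero, mul_one] at h8
    have h9 := h8 one_ne_zero
    rw [v.map_one] at h9
    linarith

omit [CharP k p] in
/-- **The distances of `y` to the roots of `W` are bounded**, any radius `s`. -/
theorem near_bound_s (hWC : W ≤ C) (hy : y ∈ C)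
    (hgen : ∀ b ∈ W, ∃ e : Fin p → Ω, (∀ i, e i ∈ W) ∧ b = ∑ i, e i ^ p * x ^ (i : ℕ))
    (hoi : ∀ e : Fin p → Ω, (∀ i, e i ∈ C) → ∀ r : ℝ, v.Ge r (∑ i, e i ^ p * x ^ (i : ℕ)) →
      ∀ i, v.Ge (r - c₀) (e i ^ p * x ^ (i : ℕ))) (hc₀ : 0 ≤ c₀) {s : ℝ}
    (hlim : ∀ ε : ℝ, 0 < ε → ∃ (j : ℕ) (a : Ω), a ^ p ^ j ∈ W ∧ v.Ge (s - ε) (y - a)) (j : ℕ)
    {ε : ℝ} (hε : 0 < ε) :
    ∃ a : Ω, a ^ p ^ j ∈ W ∧ v.Ge (s - c₀ * (p / (p - 1)) / p ^ (j + 1) - ε) (y - a) := by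
  have hp0 : (0 : ℝ) < p := by exact_mod_cast hp.out.pos
  have hp1 : (0 : ℝ) < (p : ℝ) - 1 := by
    have : (1 : ℝ) < p := by exact_mod_cast hp.out.one_lt
    linarith
  set B : ℕ → ℝ := fun j => c₀ * (p / (p - 1)) / p ^ (j + 1) with hB
  have hB0 : ∀ j, 0 ≤ B j := fun j => by positivity
  have hBs : ∀ j, B (j + 1) + c₀ / p ^ (j + 1) = B j := by
    intro j
    simp only [hB]
    rw [pow_succ _ (j + 1)]
    field_simp
    ring
  have key : ∀ (d j : ℕ) (a : Ω), a ^ p ^ (j + d) ∈ W → v.Ge (s - ε) (y - a) →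
      ∃ a' : Ω, a' ^ p ^ j ∈ W ∧ v.Ge (-(ε - s + B j)) (y - a') := by
    intro d
    induction d with
    | zero =>
      intro j a ha h1
      exact ⟨a, ha, h1.mono (by linarith [hB0 j])⟩
    | succ d ih =>
      intro j a ha h1
      obtain ⟨a', ha', h2⟩ := ih (j + 1) a (by rwa [show j + 1 + d = j + (d + 1) by ring]) h1
      obtain ⟨a'', ha'', h3⟩ := near_step hWC hy hgen hoi ha' h2
      refine ⟨a'', ha'', h3.mono (le_of_eq ?_)⟩
      rw [add_assoc, hBs]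
  obtain ⟨J, a, ha, h1⟩ := hlim ε hε
  obtain ⟨a', ha', h2⟩ := key J j a (by
    rw [add_comm, pow_add, pow_mul]
    exact pow_mem ha _) h1
  exact ⟨a', ha', h2.mono (by linarith)⟩

omit [CharP k p] in
/-- **The distances of `y` to the roots of `W` are bounded.** -/
theorem near_bound (hWC : W ≤ C) (hy : y ∈ C)
    (hgen : ∀ b ∈ W, ∃ e : Fin p → Ω, (∀ i, e i ∈ W) ∧ b = ∑ i, e i ^ p * x ^ (i : ℕ))
    (hoi : ∀ e : Fin p → Ω, (∀ i, e i ∈ C) → ∀ r : ℝ, v.Ge r (∑ i, e i ^ p * x ^ (i : ℕ)) →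
      ∀ i, v.Ge (r - c₀) (e i ^ p * x ^ (i : ℕ))) (hc₀ : 0 ≤ c₀)
    (hlim : ∀ ε : ℝ, 0 < ε → ∃ (j : ℕ) (a : Ω), a ^ p ^ j ∈ W ∧ v.Ge (-ε) (y - a)) (j : ℕ)
    {ε : ℝ} (hε : 0 < ε) :
    ∃ a : Ω, a ^ p ^ j ∈ W ∧ v.Ge (-(c₀ * (p / (p - 1)) / p ^ (j + 1)) - ε) (y - a) := by
  obtain ⟨a, ha, h1⟩ := near_bound_s hWC hy hgen hoi hc₀ (s := 0) (fun ε hε => by
    obtain ⟨j, a, ha, h1⟩ := hlim ε hε
    exact ⟨j, a, ha, by rwa [zero_sub]⟩) j hε
  exact ⟨a, ha, by rwa [zero_sub] at h1⟩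

end Pool.Agent.TWTR
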