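import Pool.Agent.Lib.TWTR.Boot2
import Pool.Agent.Lib.TWTR.Letter
import Pool.Agent.Lib.TWC.Rect

/-!
# TANK W, the cover: BOOT for a field with a letter

* `Lt.shf`: the precision of `C` on the roots of `W`;
* `lim_letter`: the distance of the roots of a letter of `W` to `C`.
-/

set_option autoImplicit false
set_option linter.unusedSectionVars false

open Polynomial

namespace Pool.Agent.TWTR

open Pool.Agent.H15JM (RVal)
open Pool.Agent.LU1 (VPos adj)
open Pool.Agent.D2 (Ctx0)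
open Pool.Agent.D2P (clI mem_clI rootF mem_rootF)
open Pool.Agent.TWM
open Pool.Agent.TWC (Dst root_pow_add)

universe u

variable {k Ω : Type u} [Field k] [Field Ω] [Algebra k Ω] {v : RVal Ω}
  {W C : IntermediateField k Ω} {t X : ℕ → Ω} {z : Ω} {m ν q : ℝ} {p : ℕ}
  [hp : Fact p.Prime] [CharP Ω p]

theorem Lt.hgen [CharP k p] [IsAlgClosed Ω] (h : Lt p v W t ν) (j : ℕ) (u : Ω)
    (hu : u ^ p ^ (j + 1) ∈ W) (hu' : u ^ p ^ j ∉ W) (a : Ω) (ha : a ^ p ^ (j + 1) ∈ W) :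
    a ∈ adj (rootF p j W) u := by
  have hWF : W ≤ rootF p j W := fun b hb => mem_rootF.2 (pow_mem hb _)
  have htp : t (j + 1) ^ p ∈ rootF p j W := by
    rw [h.root, mem_rootF]
    have h1 := h.tpow 0 j
    rw [zero_add] at h1
    rw [h1]
    exact h.mem
  have hup : u ^ p ∈ rootF p j W := by
    rw [mem_rootF, ← pow_mul, ← pow_succ']
    exact hu
  obtain ⟨Q, hQ, rfl⟩ := h.rts hu
  have h1 : Q.eval (t (j + 1)) ∈ adj (rootF p j W) (t (j + 1)) :=
    TWM.eval_mem (PI_mono (hWF.trans (D2P.mem_adj_self _ _).2) hQ) (D2P.mem_adj_self _ _).1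
  have h2 : t (j + 1) ∈ adj (rootF p j W) (Q.eval (t (j + 1))) :=
    exchange p hup htp (fun h3 => hu' (mem_rootF.1 h3)) h1
  obtain ⟨Q', hQ', rfl⟩ := h.rts ha
  exact TWM.eval_mem (PI_mono (hWF.trans (D2P.mem_adj_self _ _).2) hQ') h2

theorem nearB_zero {j : ℕ} {m : ℝ} {z : Ω} : NearB p v W 0 j m z ↔
    ∀ ε : ℝ, 0 < ε → ∃ a : Ω, a ^ p ^ j ∈ W ∧ v.Ge (-(m / (p : ℝ) ^ (j + 1)) - ε) (z - a) := by
  simp only [NearB, zero_sub]

/-- **The precision of `C` on the roots of `W`.** -/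
theorem Lt.shf [CharP k p] [IsAlgClosed Ω] (h0 : Ctx0 k v) (h : Lt p v W t ν) (hm : 0 < m)
    (hWC : W ≤ C) (hB : BH p v W C m) (n : ℕ) (hn : 1 ≤ n) :
    Shf p v W C n (m / (p : ℝ) ^ n) :=
  boot h0 hm hWC (fun j => TWC.cld_rootFn p j h.cld) h.hgen hB n hn

/-- **The hypothesis of BOOT for a field with a letter.** -/
theorem Lt.bh [CharP k p] [IsAlgClosed Ω] (h0 : Ctx0 k v) (hc : CompleteV v) (h : Lt p v W t ν)
    (hm : 0 < m) (hz : z ∈ C) (hnear : ∀ j, NearB p v W 0 j m z)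
    (hmin : ∀ A : Polynomial k, A ≠ 0 → ∀ m' < m, ∀ j₀ : ℕ, ∃ j ≥ j₀,
      ¬ NearB p v W 0 j m' (opB p A z)) : BH p v W C m := by
  refine bh_of_min h0 hm hz hnear (fun i b b' hb hb' h1 h2 => ?_) hmin
  obtain ⟨l, l', hl, m', hm', h3⟩ := h.line h0 hc i hb hb' (nearB_zero.1 h1) (nearB_zero.1 h2)
  exact ⟨l, l', hl, m', hm', nearB_zero.2 h3⟩

/-- **The distance of the roots of a letter to `C`.** -/
theorem lim_letter [IsAlgClosed Ω] (hm : 0 < m) (hWC : W ≤ C)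
    (hs : ∀ n, 1 ≤ n → Shf p v W C n (m / (p : ℝ) ^ n)) (hX0 : X 0 ∈ W) (hX : X 0 ≠ 0)
    (hr : ∀ n, X (n + 1) ^ p = X n) (hd : Dst v W (X 1) (q / p))
    (hq : q - v (X 0) ≤ (p - 1) * m) (n : ℕ) :
    Lim v C ((q + m) / (p : ℝ) ^ (n + 1)) (X (n + 1)) := by
  have hp0 : (0 : ℝ) < p := by exact_mod_cast hp.out.pos
  have hpn : (0 : ℝ) < (p : ℝ) ^ n := pow_pos hp0 n
  have hpn1 : (0 : ℝ) < (p : ℝ) ^ (n + 1) := pow_pos hp0 _
  have hpn2 : (p : ℝ) ^ (n + 1) = p * p ^ n := pow_succ' _ _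
  have hXn : X (n + 1) ≠ 0 := TWC.root_ne_zero hr hX _
  have hvX : v (X (n + 1)) = v (X 0) / (p : ℝ) ^ (n + 1) := TWC.val_rt hr hX _
  have hvq : v (X 0) ≤ q := by
    have h1 := (hd.le (zero_mem W)).2
    rw [sub_zero, TWC.val_rt hr hX, pow_one] at h1
    exact (div_le_div_iff_of_pos_right hp0).1 h1
  refine lim_closed fun ε hε => ?_
  obtain ⟨a, ha, h1⟩ := hd.near ((p : ℝ) ^ n * ε) (mul_pos hpn hε)
  obtain ⟨b, hb⟩ := IsAlgClosed.exists_pow_nat_eq a (pow_pos hp.out.pos n)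
  have hbW : b ^ p ^ n ∈ W := by rw [hb]; exact ha
  have hXp : X (n + 1) ^ p ^ n = X 1 := by
    have := root_pow_add hr 1 n
    rwa [add_comm 1 n] at this
  have hXp' : X (n + 1) ^ p ^ (n + 1) = X 0 := by
    rw [pow_succ, pow_mul, hXp]
    exact hr 0
  have hw : v.Ge (q / (p : ℝ) ^ (n + 1) - ε) (X (n + 1) - b) := by
    intro hne
    have h2 : X 1 - a = (X (n + 1) - b) ^ p ^ n := by rw [sub_pow_char_pow, hXp, hb]
    rw [h2] at h1
    have h3 := h1 (pow_ne_zero _ hne)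
    rw [v.map_pow hne] at h3
    push_cast at h3
    have h4 : q / p - (p : ℝ) ^ n * ε = (p : ℝ) ^ n * (q / (p : ℝ) ^ (n + 1) - ε) := by
      rw [hpn2]
      field_simp
    rw [h4] at h3
    exact le_of_mul_le_mul_left h3 hpn
  have hwW : (X (n + 1) - b) ^ p ^ (n + 1) ∈ W := by
    rw [sub_pow_char_pow, hXp', pow_succ, pow_mul b]
    exact sub_mem hX0 (pow_mem hbW p)
  have h2 : Lim v C ((q + m) / (p : ℝ) ^ (n + 1) - ε) (X (n + 1) - b) := by
    refine lim_mono (hs (n + 1) (by omega) _ hwW _ hw) ?_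
    rw [add_div]
    linarith
  have h3 : Lim v C ((q + m) / (p : ℝ) ^ (n + 1) - ε) b := by
    rcases Nat.eq_zero_or_pos n with rfl | hn
    · refine lim_of_mem (hWC ?_) _
      simpa using hbW
    · have h4 : v.Ge (v (X 0) / (p : ℝ) ^ (n + 1) - ε) b := by
        have h5 : b = X (n + 1) - (X (n + 1) - b) := by ring
        rw [h5]
        refine RVal.Ge.sub (fun _ => ?_) (hw.mono ?_)
        · rw [hvX]
          linarith
        · have := div_le_div_of_nonneg_right hvq hpn1.le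
          linarith
      refine lim_mono (hs n hn _ hbW _ h4) ?_
      have h5 : (q + m) / (p : ℝ) ^ (n + 1) ≤ v (X 0) / (p : ℝ) ^ (n + 1) + m / (p : ℝ) ^ n := by
        have h6 : m / (p : ℝ) ^ n = p * m / (p : ℝ) ^ (n + 1) := by
          rw [hpn2]
          field_simp
        rw [h6, ← add_div]
        exact div_le_div_of_nonneg_right (by linarith) hpn1.le
      linarith
  have h4 := lim_add h2 h3
  rwa [sub_add_cancel] at h4

end Pool.Agent.TWTR
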