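import Pool.Agent.Lib.TWTR.CritW

/-!
# TANK W: Lemma R over tame `W`

* `lt_tame`, `hl_tame`: over tame `W` (`v (X 0) / p` is not a value of `W`) the roots `X n` are a
  letter with `ν = 0`;
* `strW_of_gaps`: if infinitely many gaps of `z` are larger than all later gaps (with a margin), then
  `z` is strict over `W`.
-/

set_option autoImplicit false

open Polynomial

namespace Pool.Agent.TWTR

open Pool.Agent.H15JM (RVal)
open Pool.Agent.LU1 (VPos adj)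
open Pool.Agent.D2 (Ctx0)
open Pool.Agent.D2P (clI mem_clI rootF mem_rootF)
open Pool.Agent.TWS (VG)
open Pool.Agent.TWM Pool.Agent.TWM.C
open Pool.Agent.TWC

universe u

variable {k Ω : Type u} [Field k] [Field Ω] [Algebra k Ω] {v : RVal Ω}
  {W : IntermediateField k Ω} {z : Ω} {s : ℝ} {p : ℕ} [hp : Fact p.Prime] [CharP Ω p]
  {X : ℕ → Ω}

omit [CharP Ω p] in
/-- **Over tame `W` the roots are a letter with `ν = 0`.** -/
theorem lt_tame (hW : Cld v W) (hr : ∀ n, X (n + 1) ^ p = X n) (hx : X 0 ∈ W) (hx0 : X 0 ≠ 0)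
    (hgen : ∀ a ∈ W, ∃ Q ∈ PI W, (Q.eval (X 1)) ^ p = a) (hV : v (X 0) / p ∉ VG v W) :
    Lt p v W X 0 := by
  have hp0 : (p : ℝ) ≠ 0 := by exact_mod_cast hp.out.ne_zero
  have h1 : X 1 ≠ 0 := by
    intro h
    apply hx0
    rw [← hr 0, zero_add, h, zero_pow hp.out.ne_zero]
  have hv : v (X 0) = p * v (X 1) := by
    rw [← hr 0, zero_add, v.map_pow h1]
  have hv1 : (v (X 0) + 0) / p = v (X 1) := by
    rw [add_zero, hv, mul_div_cancel_left₀ _ hp0]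
  refine ⟨hW, hx, hr, hx0, hgen, ?_⟩
  rw [hv1]
  have hX1 : ∀ a ∈ W, X 1 - a ≠ 0 ∧ v (X 1 - a) ≤ v (X 1) := by
    intro a ha
    rcases eq_or_ne a 0 with rfl | ha0
    · rw [sub_zero]
      exact ⟨h1, le_rfl⟩
    have hne : v (X 1) ≠ v a := by
      intro h
      apply hV
      rw [hv, mul_div_cancel_left₀ _ hp0, h]
      exact ⟨a, ha, ha0, rfl⟩
    have h2 : X 1 - a ≠ 0 := by
      intro h
      apply hne
      rw [sub_eq_zero.1 h]
    refine ⟨h2, ?_⟩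
    by_contra h3
    push Not at h3
    have g1 : v.Ge (v (X 1 - a)) (X 1 - a) := fun _ => le_rfl
    have g2 : v (X 1) ≤ v a := by
      have e : a = X 1 - (X 1 - a) := by ring
      have h4 : v.Ge (v (X 1)) a := by
        rw [e]
        exact RVal.Ge.sub (fun _ => le_rfl) (g1.mono h3.le)
      exact h4 ha0
    have g3 : v a ≤ v (X 1) := by
      by_contra h5
      push Not at h5
      have e : X 1 = (X 1 - a) + a := by ring
      have h4 : v.Ge (min (v (X 1 - a)) (v a)) (X 1) := by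
        rw [e]
        refine RVal.Ge.add ?_ ?_
        · rw [← e]
          exact g1.mono (min_le_left _ _)
        · exact fun _ => min_le_right _ _
      exact absurd (h4 h1) (not_le.2 (lt_min h3 h5))
    exact hne (le_antisymm g2 g3)
  refine ⟨?_, fun ε hε => ⟨0, zero_mem _, ?_⟩⟩
  · rintro ⟨a, ha, h2⟩
    obtain ⟨h3, h4⟩ := hX1 a ha
    exact absurd (h2 h3) (not_lt.2 h4)
  · rw [sub_zero]
    exact fun _ => by linarith

omit [CharP Ω p] in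
/-- Over tame `W` there are letters with `ν = 0`. -/
theorem hl_tame (hW : Cld v W) (hr : ∀ n, X (n + 1) ^ p = X n) (hx : X 0 ∈ W) (hx0 : X 0 ≠ 0)
    (hgen : ∀ a ∈ W, ∃ Q ∈ PI W, (Q.eval (X 1)) ^ p = a) (hV : v (X 0) / p ∉ VG v W) :
    HL p v W := fun _ hδ =>
  ⟨X, 0, lt_tame hW hr hx hx0 hgen hV, hδ.le⟩

variable [CharP k p] [IsAlgClosed Ω]

/-- **Strictness from the gaps**: if infinitely many gaps of `z` are larger than all later gaps, then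
`z` is strict over `W`. -/
theorem strW_of_gaps (h0 : Ctx0 k v) (hc : CompleteV v) (hL : HL p v W)
    (hfar : ∀ θ : Ω, IsAlgebraic W θ → z ≠ θ ∧ v (z - θ) < s)
    (hlim : ∀ ε : ℝ, 0 < ε → ∃ (n : ℕ) (a : Ω), a ^ p ^ n ∈ W ∧ v.Ge (s - ε) (z - a))
    (hg : ∀ j₀ : ℕ, ∃ j, j₀ ≤ j ∧ ∃ m : ℝ, (∀ j', j < j' → NearB p v W s j' m z) ∧
      ¬ NearB p v W s j m z) :
    ∀ l, 1 ≤ l → Sd v W z l (l * s) := by
  by_contra hS
  obtain ⟨j₀, h1⟩ := lemR_of_not h0 hc hL hfar hlim hS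
  obtain ⟨j, hj, m, h2, h3⟩ := hg j₀
  exact h3 (h1 j hj m h2)

omit [CharP k p] [IsAlgClosed Ω] in
theorem not_nearB_of_dst {j : ℕ} {g m : ℝ} (hd : Dst v (rootF p j W) z (s - g / p ^ (j + 1)))
    (h : m < g) : ¬ NearB p v W s j m z := by
  intro h1
  have hp0 : (0 : ℝ) < (p : ℝ) ^ (j + 1) := pow_pos p_pos _
  have h2 : m / (p : ℝ) ^ (j + 1) < g / (p : ℝ) ^ (j + 1) := div_lt_div_of_pos_right h hp0
  obtain ⟨a, ha, h3⟩ := h1 ((g / (p : ℝ) ^ (j + 1) - m / (p : ℝ) ^ (j + 1)) / 2) (by linarith)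
  obtain ⟨h4, h5⟩ := hd.le (mem_rootF.2 ha)
  have h6 := h3 h4
  linarith

omit [CharP k p] [IsAlgClosed Ω] in
theorem nearB_of_dst {j : ℕ} {g m : ℝ} (hd : Dst v (rootF p j W) z (s - g / p ^ (j + 1)))
    (h : g ≤ m) : NearB p v W s j m z := by
  intro ε hε
  have hp0 : (0 : ℝ) < (p : ℝ) ^ (j + 1) := pow_pos p_pos _
  have h2 : g / (p : ℝ) ^ (j + 1) ≤ m / (p : ℝ) ^ (j + 1) := div_le_div_of_nonneg_right h hp0.le
  obtain ⟨a, ha, h3⟩ := hd.near ε hε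
  exact ⟨a, mem_rootF.1 ha, h3.mono (by linarith)⟩

/-- **Strictness from the distances** `s - g j / p ^ (j + 1)`: for infinitely many `j` there is
`m < g j` with `g j' ≤ m` for all `j' > j`. -/
theorem strW_of_dst (h0 : Ctx0 k v) (hc : CompleteV v) (hL : HL p v W)
    (hfar : ∀ θ : Ω, IsAlgebraic W θ → z ≠ θ ∧ v (z - θ) < s)
    (hlim : ∀ ε : ℝ, 0 < ε → ∃ (n : ℕ) (a : Ω), a ^ p ^ n ∈ W ∧ v.Ge (s - ε) (z - a)) {g : ℕ → ℝ}
    (hd : ∀ j, Dst v (rootF p j W) z (s - g j / p ^ (j + 1)))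
    (hg : ∀ j₀ : ℕ, ∃ j, j₀ ≤ j ∧ ∃ m : ℝ, m < g j ∧ ∀ j', j < j' → g j' ≤ m) :
    ∀ l, 1 ≤ l → Sd v W z l (l * s) :=
  strW_of_gaps h0 hc hL hfar hlim fun j₀ => by
    obtain ⟨j, hj, m, h1, h2⟩ := hg j₀
    exact ⟨j, hj, m, fun j' hj' => nearB_of_dst (hd j') (h2 j' hj'), not_nearB_of_dst (hd j) h1⟩

end Pool.Agent.TWTR
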