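import Pool.Agent.Lib.TWTR.LetterF
import Pool.Agent.Lib.TWC.Lv0S

/-!
# TANK W, the infinite first floor (row R): letters and gaps from the data of a floor

* `gen_of_notin`: if the roots of order `p` of the elements of `W` are polynomials in `x₁`, `x₁ ^ p ∈ W`,
  then they are polynomials in every `t₁ ∉ W`, `t₁ ^ p ∈ W`;
* `lt_of_dst`: every letter of `W`;
* `gap_bound`: the distances of `z` to the roots of `W` are bounded, if `x` is at a bounded distance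
  of the `p`-th powers of the elements of `C`.
-/

set_option autoImplicit false
set_option linter.unusedSectionVars false

open Polynomial

namespace Pool.Agent.TWTR

open Pool.Agent.H15JM (RVal)
open Pool.Agent.LU1 (VPos adj)
open Pool.Agent.D2 (Ctx0)
open Pool.Agent.D2P (clI mem_clI rootF mem_rootF)
open Pool.Agent.TW (PBasis pcomb mon)
open Pool.Agent.TWM Pool.Agent.TWM.C
open Pool.Agent.TWC
open Pool.Agent.TWF
open Pool.Agent.TWJ (adj_eq_of_mem)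

universe u

variable {k Ω : Type u} [Field k] [Field Ω] [Algebra k Ω] {v : RVal Ω}
  {W C : IntermediateField k Ω} {t X : ℕ → Ω} {ν δ c₀ s q : ℝ} {p : ℕ} {x y z : Ω}
  [hp : Fact p.Prime] [CharP k p] [CharP Ω p] [IsAlgClosed Ω]

omit [CharP k p] [IsAlgClosed Ω] in
/-- The roots are polynomials in every new root. -/
theorem gen_of_notin {x₁ t₁ : Ω} (hx : x₁ ^ p ∈ W)
    (hgen : ∀ a ∈ W, ∃ Q ∈ PI W, (Q.eval x₁) ^ p = a) (ht : t₁ ^ p ∈ W) (htW : t₁ ∉ W) :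
    ∀ a ∈ W, ∃ Q ∈ PI W, (Q.eval t₁) ^ p = a := by
  have hroot : ∀ b : Ω, b ^ p ∈ W → b ∈ adj W x₁ := by
    intro b hb
    obtain ⟨Q, hQ, h1⟩ := hgen _ hb
    have h2 : (Q.eval x₁ - b) ^ p = 0 := by rw [sub_pow_char, h1, sub_self]
    have h3 : Q.eval x₁ = b := sub_eq_zero.1 (pow_eq_zero_iff hp.out.ne_zero |>.1 h2)
    rw [← h3]
    exact TWM.eval_mem (PI_mono (D2P.mem_adj_self W x₁).2 hQ) (D2P.mem_adj_self W x₁).1
  have heq : adj W t₁ = adj W x₁ := adj_eq_of_mem p hx (hroot t₁ ht) htW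
  intro a ha
  obtain ⟨Q, hQ, h1⟩ := hgen a ha
  have h2 : Q.eval x₁ ∈ adj W t₁ := by
    rw [heq]
    exact hroot _ (by rw [h1]; exact ha)
  obtain ⟨P, hP, -, h3⟩ := exists_rep p ht h2
  exact ⟨P, hP, by rw [h3, h1]⟩

/-- **Every letter of `W`.** -/
theorem lt_of_dst (hW : Cld v W) {x₁ : Ω} (hx : x₁ ^ p ∈ W)
    (hgen : ∀ a ∈ W, ∃ Q ∈ PI W, (Q.eval x₁) ^ p = a) (hX : X 0 ∈ W) (hX0 : X 0 ≠ 0)
    (hr : ∀ n, X (n + 1) ^ p = X n) (hd : Dst v W (X 1) (q / p)) : Lt p v W X (q - v (X 0)) := by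
  refine ⟨hW, hX, hr, hX0, ?_, ?_⟩
  · refine gen_of_notin hx hgen (by rw [hr 0]; exact hX) fun h1 => ?_
    exact (hd.le h1).1 (sub_self _)
  · rwa [add_sub_cancel]

/-- The `p`-basis in the form of polynomials. -/
theorem gen_of_pb {x₁ : Ω} (hx₁ : x₁ ^ p = x) (hpb : PBasis p W ![x]) :
    ∀ a ∈ W, ∃ Q ∈ PI W, (Q.eval x₁) ^ p = a := by
  intro a ha
  obtain ⟨c, hcm, h1⟩ := hpb.span a ha
  rw [pcomb_one] at h1
  refine ⟨∑ i : Fin p, Polynomial.C (c ![i]) * X ^ (i : ℕ),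
    sum_mem fun i _ => mul_mem (C_mem_PI (hcm _)) (pow_mem X_mem_PI _), ?_⟩
  rw [eval_finsetSum, sum_pow_char, h1]
  refine Finset.sum_congr rfl fun i _ => ?_
  rw [eval_mul, eval_C, eval_pow, eval_X, mul_pow, ← pow_mul, mul_comm (i : ℕ) p, pow_mul, hx₁]

omit [CharP k p] [IsAlgClosed Ω] in
/-- Iteration. -/
theorem bound_of_step (hc₀ : 0 ≤ c₀)
    (hstep : ∀ (j : ℕ) (a : Ω) (ρ : ℝ), a ^ p ^ (j + 1) ∈ W → v.Ge (-ρ) (y - a) →
      ∃ a' : Ω, a' ^ p ^ j ∈ W ∧ v.Ge (-(ρ + c₀ / p ^ (j + 1))) (y - a'))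
    (hlim : ∀ ε : ℝ, 0 < ε → ∃ (j : ℕ) (a : Ω), a ^ p ^ j ∈ W ∧ v.Ge (s - ε) (y - a)) (j : ℕ)
    {ε : ℝ} (hε : 0 < ε) :
    ∃ a : Ω, a ^ p ^ j ∈ W ∧ v.Ge (s - c₀ * (p / (p - 1)) / p ^ (j + 1) - ε) (y - a) := by
  have hp0 : (0 : ℝ) < p := by exact_mod_cast hp.out.pos
  have hp1 : (0 : ℝ) < (p : ℝ) - 1 := by
    have : (1 : ℝ) < p := by exact_mod_cast hp.out.one_lt
    linarith
  set B : ℕ → ℝ := fun j => c₀ * (p / (p - 1)) / p ^ (j + 1) with hB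
  have hB0 : ∀ j, 0 ≤ B j := fun j => by positivity
  have hBs : ∀ j, B (j + 1) + c₀ / p ^ (j + 1) = B j := by
    intro j
    simp only [hB]
    rw [pow_succ _ (j + 1)]
    field_simp
    ring
  have key : ∀ (d j : ℕ) (a : Ω), a ^ p ^ (j + d) ∈ W → v.Ge (s - ε) (y - a) →
      ∃ a' : Ω, a' ^ p ^ j ∈ W ∧ v.Ge (-(ε - s + B j)) (y - a') := by
    intro d
    induction d with
    | zero =>
      intro j a ha h1
      exact ⟨a, ha, h1.mono (by linarith [hB0 j])⟩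
    | succ d ih =>
      intro j a ha h1
      obtain ⟨a', ha', h2⟩ := ih (j + 1) a (by rwa [show j + 1 + d = j + (d + 1) by ring]) h1
      obtain ⟨a'', ha'', h3⟩ := hstep j a' _ ha' h2
      refine ⟨a'', ha'', h3.mono (le_of_eq ?_)⟩
      rw [add_assoc, hBs]
  obtain ⟨J, a, ha, h1⟩ := hlim ε hε
  obtain ⟨a', ha', h2⟩ := key J j a (by
    rw [add_comm, pow_add, pow_mul]
    exact pow_mem ha _) h1
  exact ⟨a', ha', h2.mono (by linarith)⟩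

/-- One step, by the jets over `C`. -/
theorem gap_step (h0 : Ctx0 k v) (hc : CompleteV v) (h : Lt p v W t ν) (hWC : W ≤ C) {A : ℝ}
    (hN : NBX p v C t fun n F => F * A / p ^ n) (hy : y ∈ C) {j : ℕ} {a : Ω}
    (ha : a ^ p ^ (j + 1) ∈ W) {ρ : ℝ} (h1 : v.Ge (-ρ) (y - a)) :
    ∃ a' : Ω, a' ^ p ^ j ∈ W ∧
      v.Ge (-(ρ + (|A - v (t 0) - ν| + 1) / p ^ (j + 1))) (y - a') := by
  have hp0 : (0 : ℝ) < p := by exact_mod_cast hp.out.pos
  have hpj : (0 : ℝ) < (p : ℝ) ^ (j + 1) := pow_pos hp0 _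
  obtain ⟨G, hG, rfl⟩ := h.rts ha
  have h2 := hN.nb (j + 1) (Polynomial.C y - G) (sub_mem (C_mem_PI hy) (PI_mono hWC hG)) 1
    (one_lt_pow₀ hp.out.one_lt (Nat.succ_ne_zero j)) (-ρ) (by rwa [eval_sub, eval_C])
  rw [map_sub, taylor_C, coeff_sub, coeff_C, if_neg one_ne_zero, zero_sub, taylor_coeff_one,
    Nat.cast_one, one_mul] at h2
  have h3 : v.Ge (-ρ - A / p ^ (j + 1)) ((derivative G).eval (t (j + 1))) := by
    have := h2.neg
    rwa [neg_neg] at this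
  have h4 := (RVal.ge_self (v := v) (t (j + 1))).mul h3
  obtain ⟨a', ha', h5⟩ := h.ld h0 hc hG j h4 (ε := 1 / p ^ (j + 1)) (by positivity)
  refine ⟨a', ha', ?_⟩
  have e1 : y - a' = (y - G.eval (t (j + 1))) + (G.eval (t (j + 1)) - a') := by ring
  rw [e1]
  refine RVal.Ge.add (h1.mono ?_) (h5.mono ?_)
  · have : 0 ≤ (|A - v (t 0) - ν| + 1) / (p : ℝ) ^ (j + 1) := by positivity
    linarith
  · have h6 : A - v (t 0) - ν ≤ |A - v (t 0) - ν| := le_abs_self _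
    have h7 := div_le_div_of_nonneg_right h6 hpj.le
    rw [h.val (j + 1), add_div]
    have h8 : (A - v (t 0) - ν) / (p : ℝ) ^ (j + 1) =
        A / p ^ (j + 1) - v (t 0) / p ^ (j + 1) - ν / p ^ (j + 1) := by ring
    rw [h8] at h7
    linarith

/-- **The gaps are bounded.** -/
theorem gap_bound (h0 : Ctx0 k v) (hc : CompleteV v) (h : Lt p v W t ν) (hC : Cld v C)
    (hWC : W ≤ C) (htC : t 1 ∉ C) (hy : y ∈ C)
    (hlim : ∀ ε : ℝ, 0 < ε → ∃ (j : ℕ) (a : Ω), a ^ p ^ j ∈ W ∧ v.Ge (s - ε) (y - a)) :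
    ∃ m : ℝ, 0 ≤ m ∧ ∀ (j : ℕ) (ε : ℝ), 0 < ε →
      ∃ a : Ω, a ^ p ^ j ∈ W ∧ v.Ge (s - m / p ^ (j + 1) - ε) (y - a) := by
  have hp0 : (0 : ℝ) < p := by exact_mod_cast hp.out.pos
  have hp1 : (0 : ℝ) < (p : ℝ) - 1 := by
    have : (1 : ℝ) < p := by exact_mod_cast hp.out.one_lt
    linarith
  obtain ⟨A, hN, -⟩ := exists_nbx h0 hc hC (hWC h.mem) h.root htC
  refine ⟨(|A - v (t 0) - ν| + 1) * (p / (p - 1)), by positivity, fun j ε hε => ?_⟩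
  exact bound_of_step (by positivity)
    (fun j a ρ ha h1 => gap_step h0 hc h hWC hN hy ha h1) hlim j hε

end Pool.Agent.TWTR
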