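import Pool.Agent.Lib.TWC.LinDom

/-!
# TANK W, the cover: the uniform precision (BOOT)

`W ≤ C`, `W_n = W ^ (1 / p ^ n)`.
* `shf_step`: one element of `W_n`, at distance `ρ` from `W_(n-1)`, gives the precision of `C` on
  `W_n`;
* `boot`: if for every level `n` there is `f ∈ C` with a gap near `m` at the level `n` and smaller
  gaps at the levels below, then the elements `w` of `W_n` are near to `C` up to `v w + m / p ^ n`.
-/

set_option autoImplicit false
set_option linter.unusedSectionVars false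

open Polynomial

namespace Pool.Agent.TWTR

open Pool.Agent.H15JM (RVal)
open Pool.Agent.LU1 (VPos adj)
open Pool.Agent.D2 (Ctx0)
open Pool.Agent.D2P (clI mem_clI rootF mem_rootF)
open Pool.Agent.TWM
open Pool.Agent.TWM.C (PStep exists_rep)

universe u

variable {k Ω : Type u} [Field k] [Field Ω] [Algebra k Ω] {v : RVal Ω}
  {W C M : IntermediateField k Ω} {u w f f' : Ω} {ρ c E b m : ℝ}

/-! ### Limits -/

theorem lim_of_mem (h : f ∈ C) (r : ℝ) : Lim v C r f := fun _ _ => ⟨f, h, by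
  rw [sub_self]; exact RVal.Ge.zero⟩

theorem lim_of_ge {r : ℝ} (h : v.Ge r f) : Lim v C r f := fun ε hε => ⟨0, zero_mem C, by
  rw [sub_zero]; exact h.mono (by linarith)⟩

theorem lim_mono {r r' : ℝ} (h : Lim v C r f) (hr : r' ≤ r) : Lim v C r' f := fun ε hε => by
  obtain ⟨a, ha, h1⟩ := h ε hε
  exact ⟨a, ha, h1.mono (by linarith)⟩

theorem lim_closed {r : ℝ} (h : ∀ ε : ℝ, 0 < ε → Lim v C (r - ε) f) : Lim v C r f := fun ε hε => by
  obtain ⟨a, ha, h1⟩ := h (ε / 2) (by linarith) (ε / 2) (by linarith)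
  exact ⟨a, ha, h1.mono (by linarith)⟩

theorem lim_add {r : ℝ} (h : Lim v C r f) (h' : Lim v C r f') : Lim v C r (f + f') :=
  fun ε hε => by
    obtain ⟨a, ha, h1⟩ := h ε hε
    obtain ⟨a', ha', h2⟩ := h' ε hε
    exact ⟨a + a', add_mem ha ha', by rw [add_sub_add_comm]; exact h1.add h2⟩

theorem lim_neg {r : ℝ} (h : Lim v C r f) : Lim v C r (-f) := fun ε hε => by
  obtain ⟨a, ha, h1⟩ := h ε hε
  refine ⟨-a, neg_mem ha, ?_⟩
  have h2 := h1.neg
  rwa [show -(f - a) = -f - -a by ring] at h2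

theorem lim_sub {r : ℝ} (h : Lim v C r f) (h' : Lim v C r f') : Lim v C r (f - f') := by
  rw [sub_eq_add_neg]
  exact lim_add h (lim_neg h')

theorem lim_sum {r : ℝ} {ι : Type*} (S : Finset ι) (g : ι → Ω) (h : ∀ i ∈ S, Lim v C r (g i)) :
    Lim v C r (∑ i ∈ S, g i) := by
  classical
  induction S using Finset.induction_on with
  | empty => rw [Finset.sum_empty]; exact lim_of_mem (zero_mem C) r
  | insert a S ha ih =>
    rw [Finset.sum_insert ha]
    exact lim_add (h a (Finset.mem_insert_self a S))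
      (ih fun i hi => h i (Finset.mem_insert_of_mem hi))

section

variable (p : ℕ) [hp : Fact p.Prime] [CharP k p] [CharP Ω p] [IsAlgClosed Ω]

/-- **One element gives the precision.** -/
theorem shf_step (h0 : Ctx0 k v) (hs : PStep p v M u ρ) {ε : ℝ} (hε : 0 ≤ ε)
    (hu : v.Ge (ρ - ε) u) (hM : ∀ a ∈ M, ∀ b : ℝ, v.Ge b a → Lim v C (b + E) a) (hc : 0 ≤ c)
    (hcu : Lim v C (ρ + c) u) (hw : w ∈ adj M u) (hb : v.Ge b w) :
    Lim v C (min (b + c) (b + E) - 2 * p * ε) w := by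
  intro ε' hε'
  have hp0 : (0 : ℝ) < p := by exact_mod_cast hp.out.pos
  have hpε : 0 ≤ 2 * p * ε := by positivity
  rcases eq_or_lt_of_le hc with hc0 | hc0
  · refine ⟨0, zero_mem C, ?_⟩
    rw [sub_zero]
    refine hb.mono ?_
    have := min_le_left (b + c) (b + E)
    linarith
  set e : ℝ := min ε' (c / 2) with he
  have he0 : 0 < e := lt_min hε' (by linarith)
  have he1 : e ≤ ε' := min_le_left _ _
  have he2 : e ≤ c / 2 := min_le_right _ _
  obtain ⟨cu, hcuC, hcu'⟩ := hcu e he0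
  obtain ⟨P, hP, hdeg, rfl⟩ := exists_rep p hs.pw hw
  by_cases hP0 : P = 0
  · refine ⟨0, zero_mem C, ?_⟩
    rw [hP0, eval_zero, sub_zero]
    exact RVal.Ge.zero
  have hroots : ∀ θ, P.IsRoot θ → u ≠ θ ∧ v (u - θ) ≤ ρ := fun θ hθ =>
    hs.root p h0 hP hP0 hdeg hθ
  have hPu : P.eval u ≠ 0 := fun h => (hroots u h).1 rfl
  have hvb : b ≤ v (P.eval u) := hb hPu
  have hcoef : ∀ l : ℕ, v.Ge (b - l * ρ) ((taylor u P).coeff l) := fun l =>
    (Roots.taylor_ge hP0 hroots l).mono (by linarith)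
  have htd : (taylor u P).natDegree < p := by rwa [natDegree_taylor]
  -- the first error
  have hA : v.Ge (b + c - e) (P.eval u - P.eval cu) := by
    have h1 : P.eval cu = (taylor u P).eval (cu - u) := by
      rw [taylor_eval, sub_add_cancel]
    have h2 : P.eval u - P.eval cu =
        -∑ l ∈ Finset.range (p - 1), (taylor u P).coeff (l + 1) * (cu - u) ^ (l + 1) := by
      obtain ⟨p', hp'⟩ : ∃ p', p = p' + 1 := ⟨p - 1, by have := hp.out.pos; omega⟩
      have h3 : P.eval cu = ∑ l ∈ Finset.range (p' + 1), (taylor u P).coeff l * (cu - u) ^ l := by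
        rw [h1]
        exact eval_eq_sum_range' (by omega) _
      rw [h3, Finset.sum_range_succ', pow_zero, mul_one, taylor_coeff_zero,
        show p - 1 = p' by omega]
      ring
    rw [h2]
    refine (RVal.Ge.sum _ _ fun l _ => ?_).neg
    have h3 : v.Ge (ρ + c - e) (cu - u) := by
      have := hcu'.neg
      rwa [neg_sub] at this
    refine ((hcoef (l + 1)).mul (ge_pow h3 (l + 1))).mono ?_
    push_cast
    have h4 : (0 : ℝ) ≤ l * (c - e) := mul_nonneg (Nat.cast_nonneg l) (by linarith)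
    nlinarith
  -- the coefficients
  have hlp : ∀ l : ℕ, l < p → (l : ℝ) * ε ≤ p * ε := fun l hl =>
    mul_le_mul_of_nonneg_right (by exact_mod_cast hl.le) hε
  have hai : ∀ i : ℕ, v.Ge (b - i * ρ - p * ε) (P.coeff i) := by
    intro i
    have h1 : P = taylor (-u) (taylor u P) := by
      rw [taylor_taylor, neg_add_cancel, taylor_zero]
    rw [h1, taylor_coeff, hasseDeriv_apply, Polynomial.sum, eval_finsetSum]
    refine RVal.Ge.sum _ _ fun l hl => ?_
    rw [eval_monomial]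
    by_cases hli : l < i
    · rw [Nat.choose_eq_zero_of_lt hli, Nat.cast_zero, zero_mul, zero_mul]
      exact RVal.Ge.zero
    · have hlp' : l < p := lt_of_le_of_lt (le_natDegree_of_mem_supp l hl) htd
      have h2 : v.Ge (ρ - ε) (-u) := hu.neg
      refine (((ge_natCast v (l.choose i)).mul (hcoef l)).mul (ge_pow h2 (l - i))).mono ?_
      rw [Nat.cast_sub (not_lt.1 hli)]
      have h3 := hlp l hlp'
      have h4 : (0 : ℝ) ≤ i * ε := mul_nonneg (Nat.cast_nonneg i) hε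
      nlinarith
  have happ : ∀ i : ℕ, ∃ a' ∈ C, v.Ge (b - i * ρ - p * ε + E - ε') (P.coeff i - a') := fun i =>
    hM _ (hP i) _ (hai i) ε' hε'
  choose a' ha' haa using happ
  have hcuv : v.Ge (ρ - ε) cu := by
    have h1 : cu = u - (u - cu) := by ring
    rw [h1]
    exact hu.sub (hcu'.mono (by linarith))
  refine ⟨∑ i ∈ Finset.range p, a' i * cu ^ i, sum_mem fun i _ =>
    mul_mem (ha' i) (pow_mem hcuC i), ?_⟩
  have h2 : P.eval cu - ∑ i ∈ Finset.range p, a' i * cu ^ i =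
      ∑ i ∈ Finset.range p, (P.coeff i - a' i) * cu ^ i := by
    rw [eval_eq_sum_range' hdeg, ← Finset.sum_sub_distrib]
    exact Finset.sum_congr rfl fun i _ => by ring
  have hB : v.Ge (b + E - ε' - 2 * p * ε) (P.eval cu - ∑ i ∈ Finset.range p, a' i * cu ^ i) := by
    rw [h2]
    refine RVal.Ge.sum _ _ fun i hi => ?_
    refine ((haa i).mul (ge_pow hcuv i)).mono ?_
    have h3 := hlp i (Finset.mem_range.1 hi)
    nlinarith
  have h3 : P.eval u - ∑ i ∈ Finset.range p, a' i * cu ^ i =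
      (P.eval u - P.eval cu) + (P.eval cu - ∑ i ∈ Finset.range p, a' i * cu ^ i) := by ring
  rw [h3]
  refine (hA.mono ?_).add (hB.mono ?_)
  · have := min_le_left (b + c) (b + E)
    linarith
  · have := min_le_right (b + c) (b + E)
    linarith

/-! ### The levels -/

/-- `z` is near to `W ^ (1 / p ^ j)` up to `m / p ^ (j + 1)`, relatively to the radius `s`. -/
def NearB (p : ℕ) (v : RVal Ω) (W : IntermediateField k Ω) (s : ℝ) (j : ℕ) (m : ℝ) (z : Ω) :
    Prop :=
  ∀ ε : ℝ, 0 < ε → ∃ a : Ω, a ^ p ^ j ∈ W ∧ v.Ge (s - m / (p : ℝ) ^ (j + 1) - ε) (z - a)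

/-- The precision `e` on `W ^ (1 / p ^ n)`. -/
def Shf (p : ℕ) (v : RVal Ω) (W C : IntermediateField k Ω) (n : ℕ) (e : ℝ) : Prop :=
  ∀ w : Ω, w ^ p ^ n ∈ W → ∀ b : ℝ, v.Ge b w → Lim v C (b + e) w

/-- The hypothesis: elements of `C` with a gap near `m` at the level `j + 1`, smaller gaps below. -/
def BH (p : ℕ) (v : RVal Ω) (W C : IntermediateField k Ω) (m : ℝ) : Prop :=
  ∀ (j : ℕ) (η₀ : ℝ), 0 < η₀ → ∃ η : ℝ, 0 < η ∧ η ≤ η₀ ∧ ∃ f ∈ C, ∃ s : ℝ,
    (∀ i, NearB p v W s i m f) ∧ (∀ i < j, NearB p v W s i (m - η) f) ∧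
    ¬ NearB p v W s j (m - η) f

variable {p}

omit hp [CharP k p] [CharP Ω p] [IsAlgClosed Ω] in
theorem Shf.mono {n : ℕ} {e e' : ℝ} (h : Shf p v W C n e) (he : e' ≤ e) : Shf p v W C n e' :=
  fun w hw b hb => lim_mono (h w hw b hb) (by linarith)

omit hp [CharP k p] [CharP Ω p] [IsAlgClosed Ω] in
theorem shf_nonpos {n : ℕ} {e : ℝ} (he : e ≤ 0) : Shf p v W C n e :=
  fun w hw b hb => lim_mono (lim_of_ge hb) (by linarith)

/-- **One level.** -/
theorem shf_level (h0 : Ctx0 k v) (hm : 0 < m) (hWC : W ≤ C)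
    (hcl : ∀ j, Cld v (rootF p j W))
    (hgen : ∀ (j : ℕ) (u : Ω), u ^ p ^ (j + 1) ∈ W → u ^ p ^ j ∉ W → ∀ a : Ω,
      a ^ p ^ (j + 1) ∈ W → a ∈ adj (rootF p j W) u)
    (hB : BH p v W C m) (j : ℕ) {S S' : ℝ} (hS0 : 0 ≤ S') (hSS : S' < S)
    (hS : ∀ i, 1 ≤ i → Shf p v W C i (m / (p : ℝ) ^ i - S))
    (hS' : ∀ i, j + 1 < i → Shf p v W C i (m / (p : ℝ) ^ i - S')) :
    ∃ S'' < S, S' ≤ S'' ∧ Shf p v W C (j + 1) (m / (p : ℝ) ^ (j + 1) - S'') := by
  classical
  have hp2 : (2 : ℝ) ≤ p := by exact_mod_cast hp.out.two_le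
  have hp0 : (0 : ℝ) < p := by linarith
  have hp1 : (1 : ℝ) ≤ p := by linarith
  have hpow : ∀ i : ℕ, (0 : ℝ) < (p : ℝ) ^ i := fun i => pow_pos hp0 i
  set q : ℝ := (p : ℝ) ^ (j + 1) with hq
  have hq0 : 0 < q := hpow _
  have hqj : q = p * (p : ℝ) ^ j := pow_succ' _ _
  obtain ⟨η, hη0, hηle, f, hfC, s, hfm, hflow, hfar⟩ := hB j (min (q * (S - S') / 2) (m / 4))
    (lt_min (by have := mul_pos hq0 (sub_pos.2 hSS); linarith) (by linarith))
  have hη1 : η ≤ q * (S - S') / 2 := hηle.trans (min_le_left _ _)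
  have hη2 : η ≤ m / 4 := hηle.trans (min_le_right _ _)
  have hηq : η / q ≤ (S - S') / 2 := by
    rw [div_le_iff₀ hq0]
    linarith
  -- far
  rw [NearB] at hfar
  push Not at hfar
  obtain ⟨ε₀, hε₀, hfar⟩ := hfar
  have hfar' : ∀ a : Ω, a ^ p ^ j ∈ W → f - a ≠ 0 ∧ v (f - a) < s - (m - η) / q - ε₀ := by
    intro a ha
    have h1 := hfar a ha
    rw [RVal.Ge] at h1
    push Not at h1
    exact h1
  -- the distance
  set D : Set ℝ := {r | ∃ a : Ω, a ^ p ^ j ∈ W ∧ r = v (f - a)} with hD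
  have hDne : D.Nonempty := ⟨_, 0, by rw [zero_pow (pow_pos hp.out.pos j).ne']; exact zero_mem W,
    rfl⟩
  have hDb : ∀ r ∈ D, r ≤ s - (m - η) / q - ε₀ := by
    rintro _ ⟨a, ha, rfl⟩
    exact (hfar' a ha).2.le
  set ρ : ℝ := sSup D with hρ
  have hρ1 : ρ ≤ s - (m - η) / q - ε₀ := csSup_le hDne hDb
  have hρle : ∀ a : Ω, a ^ p ^ j ∈ W → v (f - a) ≤ ρ := fun a ha =>
    le_csSup ⟨_, hDb⟩ ⟨a, ha, rfl⟩
  have hρ2 : s - m / q ≤ ρ := by
    by_contra h1
    push Not at h1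
    obtain ⟨a, ha, h2⟩ := hfm j ((s - m / q - ρ) / 2) (by linarith)
    have h3 := h2 (hfar' a ha).1
    have h4 := hρle a ha
    linarith
  -- sizes
  have hmq : m / (p : ℝ) ^ (j + 1 + 1) ≤ m / q / 2 := by
    rw [pow_succ, div_div, ← hq]
    exact div_le_div_of_nonneg_left hm.le (by positivity) (by nlinarith)
  have hmηq : m / q * (3 / 4) ≤ (m - η) / q := by
    rw [div_mul_eq_mul_div]
    exact div_le_div_of_nonneg_right (by linarith) hq0.le
  have hmq0 : 0 < m / q := div_pos hm hq0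
  set S'' : ℝ := max (max (S' + η / q) (S - η / (p : ℝ) ^ j + η / q))
    (S - m / (p : ℝ) ^ j + m / q) with hS''
  have hlt : ∀ x : ℝ, 0 < x → x / q < x / (p : ℝ) ^ j := by
    intro x hx
    refine div_lt_div_of_pos_left hx (hpow j) ?_
    rw [hqj]
    nlinarith [hpow j]
  have hS''1 : S' + η / q ≤ S'' := (le_max_left _ _).trans (le_max_left _ _)
  have hS''2 : S - η / (p : ℝ) ^ j + η / q ≤ S'' := (le_max_right _ _).trans (le_max_left _ _)
  have hS''3 : S - m / (p : ℝ) ^ j + m / q ≤ S'' := le_max_right _ _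
  have hηq0 : 0 < η / q := div_pos hη0 hq0
  refine ⟨S'', max_lt (max_lt (by linarith) ?_) ?_, by linarith, fun w hw b hb => ?_⟩
  · have := hlt η hη0
    linarith
  · have := hlt m hm
    linarith
  set δ : ℝ := max S' (S - η / (p : ℝ) ^ j) with hδ
  have hδ0 : 0 ≤ δ := hS0.trans (le_max_left _ _)
  have hδS : δ + η / q ≤ S'' := by
    rcases le_total S' (S - η / (p : ℝ) ^ j) with h1 | h1
    · rw [hδ, max_eq_right h1]
      exact hS''2
    · rw [hδ, max_eq_left h1]
      exact hS''1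
  -- closure
  refine lim_closed fun ε₁ hε₁ => ?_
  set ε : ℝ := min (ε₁ / (2 * p + 2)) (m / q / 8) with hε
  have hε0 : 0 < ε := lt_min (by positivity) (by linarith)
  have hε2 : ε ≤ m / q / 8 := min_le_right _ _
  have hε1 : (2 * p + 2) * ε ≤ ε₁ := by
    have h1 : ε ≤ ε₁ / (2 * p + 2) := min_le_left _ _
    rw [le_div_iff₀ (by positivity)] at h1
    linarith
  -- near elements
  have hex : ∀ i : ℕ, ∃ a : Ω, a ^ p ^ i ∈ W ∧
      (i < j → v.Ge (s - (m - η) / (p : ℝ) ^ (i + 1) - ε) (f - a)) ∧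
      (i = j → v.Ge (ρ - ε) (f - a)) ∧ v.Ge (s - m / (p : ℝ) ^ (i + 1) - ε) (f - a) := by
    intro i
    rcases lt_trichotomy i j with h1 | rfl | h1
    · obtain ⟨a, ha, h2⟩ := hflow i h1 ε hε0
      refine ⟨a, ha, fun _ => h2, fun h => absurd h h1.ne, h2.mono ?_⟩
      have h3 : (m - η) / (p : ℝ) ^ (i + 1) ≤ m / (p : ℝ) ^ (i + 1) :=
        div_le_div_of_nonneg_right (by linarith) (hpow _).le
      linarith
    · obtain ⟨_, ⟨a, ha, rfl⟩, h2⟩ := exists_lt_of_lt_csSup hDne (show ρ - ε < sSup D by linarith)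
      refine ⟨a, ha, fun h => absurd h (lt_irrefl _), fun _ _ => h2.le, fun _ => ?_⟩
      rw [← hq]
      linarith
    · obtain ⟨a, ha, h2⟩ := hfm i ε hε0
      exact ⟨a, ha, fun h => absurd h (by omega), fun h => absurd h (by omega), h2⟩
  choose a haW ha1 ha2 ha3 using hex
  -- the new generator
  set u := a (j + 1) - a j with hu
  have hpowW : ∀ {i i' : ℕ} {z : Ω}, i ≤ i' → z ^ p ^ i ∈ W → z ^ p ^ i' ∈ W := by
    intro i i' z hi hz
    obtain ⟨s, rfl⟩ := Nat.exists_eq_add_of_le hi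
    rw [pow_add, pow_mul]
    exact pow_mem hz _
  have hdW : ∀ i, (a (i + 1) - a i) ^ p ^ (i + 1) ∈ W := by
    intro i
    rw [sub_pow_char_pow]
    exact sub_mem (haW (i + 1)) (hpowW (Nat.le_succ i) (haW i))
  have huW : u ^ p ^ (j + 1) ∈ W := hdW j
  have hbig : v.Ge (s - m / (p : ℝ) ^ (j + 1 + 1) - ε) (f - a (j + 1)) := ha3 (j + 1)
  have hρbig : ρ < s - m / (p : ℝ) ^ (j + 1 + 1) - ε := by linarith
  have huge : v.Ge (ρ - ε) u := by
    have h1 : u = (f - a j) - (f - a (j + 1)) := by rw [hu]; ring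
    rw [h1]
    exact (ha2 j rfl).sub (hbig.mono (by linarith))
  have hufar : ¬ Nr' v (rootF p j W) ρ u := by
    rintro ⟨h, hh, h1⟩
    have h2 : a j + h ∈ rootF p j W := add_mem (mem_rootF.2 (haW j)) hh
    have h3 := mem_rootF.1 h2
    have h4 : Gt v ρ (f - (a j + h)) := by
      have h5 : f - (a j + h) = (u - h) + (f - a (j + 1)) := by rw [hu]; ring
      rw [h5]
      exact h1.add (Gt.of_ge hbig hρbig)
    have h5 := h4 (hfar' _ h3).1
    have h6 := hρle _ h3
    linarith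
  have hs : PStep p v (rootF p j W) u ρ := by
    refine ⟨hcl j, mem_rootF.2 ?_, hufar⟩
    rw [← pow_mul, ← pow_succ']
    exact huW
  -- `u` is near to `C`
  have huC : Lim v C (s - δ - 2 * ε) u := by
    obtain ⟨K, hKj, hK⟩ : ∃ K, j + 1 ≤ K ∧ m / (p : ℝ) ^ (K + 1) ≤ ε := by
      obtain ⟨K, hK⟩ := pow_unbounded_of_one_lt (m / ε) (show (1 : ℝ) < p by linarith)
      refine ⟨max K (j + 1), le_max_right _ _, ?_⟩
      rw [div_lt_iff₀ hε0] at hK
      rw [div_le_iff₀ (hpow _)]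
      have h1 : (p : ℝ) ^ K ≤ p ^ (max K (j + 1) + 1) :=
        pow_le_pow_right₀ hp1 (by have := le_max_left K (j + 1); omega)
      nlinarith
    have htel : u = f - (f - a K) - a 0 - ∑ i ∈ (Finset.range K).erase j, (a (i + 1) - a i) := by
      have h1 := Finset.sum_range_sub a K
      rw [← Finset.add_sum_erase _ _ (Finset.mem_range.2 (by omega : j < K))] at h1
      rw [hu]
      linear_combination h1
    rw [htel]
    refine lim_sub (lim_sub (lim_sub (lim_of_mem hfC _) (lim_of_ge ((ha3 K).mono (by linarith))))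
      (lim_of_mem (hWC (by simpa using haW 0)) _)) (lim_sum _ _ fun i hi => ?_)
    have hij : i ≠ j := Finset.ne_of_mem_erase hi
    rcases lt_or_gt_of_ne hij with h1 | h1
    · -- below
      have h2 : v.Ge (s - (m - η) / (p : ℝ) ^ (i + 1) - ε) (a (i + 1) - a i) := by
        have h3 : a (i + 1) - a i = (f - a i) - (f - a (i + 1)) := by ring
        rw [h3]
        refine (ha1 i h1).sub ?_
        rcases Nat.lt_or_ge (i + 1) j with h4 | h4
        · refine (ha1 (i + 1) h4).mono ?_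
          have h5 : (m - η) / (p : ℝ) ^ (i + 1 + 1) ≤ (m - η) / (p : ℝ) ^ (i + 1) :=
            div_le_div_of_nonneg_left (by linarith) (hpow _)
              (pow_le_pow_right₀ hp1 (Nat.le_succ _))
          linarith
        · have h5 : i + 1 = j := by omega
          rw [h5]
          refine (ha2 j rfl).mono ?_
          have h6 : m / q ≤ (m - η) / (p : ℝ) ^ j := by
            rw [div_le_div_iff₀ hq0 (hpow j), hqj]
            have h7 : m ≤ (m - η) * p := by nlinarith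
            have h8 := mul_le_mul_of_nonneg_right h7 (hpow j).le
            linarith [mul_assoc (m - η) (p : ℝ) ((p : ℝ) ^ j)]
          linarith
      refine lim_mono (hS (i + 1) (by omega) _ (hdW i) _ h2) ?_
      have h3 : S - η / (p : ℝ) ^ j ≤ δ := le_max_right _ _
      have h4 : η / (p : ℝ) ^ j ≤ η / (p : ℝ) ^ (i + 1) :=
        div_le_div_of_nonneg_left hη0.le (hpow _) (pow_le_pow_right₀ hp1 (by omega))
      rw [sub_div]
      linarith
    · -- above
      have h2 : v.Ge (s - m / (p : ℝ) ^ (i + 1) - ε) (a (i + 1) - a i) := by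
        have h3 : a (i + 1) - a i = (f - a i) - (f - a (i + 1)) := by ring
        rw [h3]
        refine (ha3 i).sub ((ha3 (i + 1)).mono ?_)
        have h5 : m / (p : ℝ) ^ (i + 1 + 1) ≤ m / (p : ℝ) ^ (i + 1) :=
          div_le_div_of_nonneg_left hm.le (hpow _) (pow_le_pow_right₀ hp1 (Nat.le_succ _))
        linarith
      refine lim_mono (hS' (i + 1) (by omega) _ (hdW i) _ h2) ?_
      have h3 : S' ≤ δ := le_max_left _ _
      linarith
  -- the end
  have hρη : s - ρ ≥ m / q - η / q := by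
    rw [← sub_div]
    linarith
  by_cases hc : 0 ≤ s - δ - 2 * ε - ρ
  · have h1 : w ∈ adj (rootF p j W) u := hgen j u huW (fun h => by
      refine hufar ⟨u, mem_rootF.2 h, ?_⟩
      rw [sub_self]
      exact Gt.zero) w hw
    have h2 := shf_step p (E := m / (p : ℝ) ^ j - S) h0 hs hε0.le huge (fun a ha b hb => ?_) hc
      (by
        have e1 : ρ + (s - δ - 2 * ε - ρ) = s - δ - 2 * ε := by ring
        rw [e1]
        exact huC) h1 hb
    · refine lim_mono h2 ?_
      rcases le_total (b + (s - δ - 2 * ε - ρ)) (b + (m / (p : ℝ) ^ j - S)) with h3 | h3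
      · rw [min_eq_left h3]
        linarith
      · rw [min_eq_right h3]
        linarith
    · rcases Nat.eq_zero_or_pos j with rfl | hj
      · refine lim_of_mem (hWC ?_) _
        have := mem_rootF.1 ha
        simpa using this
      · exact hS j hj _ (mem_rootF.1 ha) _ hb
  · refine lim_mono (lim_of_ge hb) ?_
    push Not at hc
    have h4 : 2 * ε ≤ ε₁ := by nlinarith [mul_pos hp0 hε0]
    linarith

/-- **BOOT.** -/
theorem boot (h0 : Ctx0 k v) (hm : 0 < m) (hWC : W ≤ C) (hcl : ∀ j, Cld v (rootF p j W))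
    (hgen : ∀ (j : ℕ) (u : Ω), u ^ p ^ (j + 1) ∈ W → u ^ p ^ j ∉ W → ∀ a : Ω,
      a ^ p ^ (j + 1) ∈ W → a ∈ adj (rootF p j W) u)
    (hB : BH p v W C m) (n : ℕ) (hn : 1 ≤ n) : Shf p v W C n (m / (p : ℝ) ^ n) := by
  classical
  have hp2 : (2 : ℝ) ≤ p := by exact_mod_cast hp.out.two_le
  have hp0 : (0 : ℝ) < p := by linarith
  have hp1 : (1 : ℝ) ≤ p := by linarith
  have hpow : ∀ i : ℕ, (0 : ℝ) < (p : ℝ) ^ i := fun i => pow_pos hp0 i
  set U : Set ℝ := {δ | 0 ≤ δ ∧ ∀ i, 1 ≤ i → Shf p v W C i (m / (p : ℝ) ^ i - δ)} with hU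
  have hUm : m ∈ U := by
    refine ⟨hm.le, fun i hi => shf_nonpos ?_⟩
    have h1 : m / (p : ℝ) ^ i ≤ m := div_le_self hm.le (one_le_pow₀ hp1)
    linarith
  have hUb : BddBelow U := ⟨0, fun δ hδ => hδ.1⟩
  set S := sInf U with hS
  have hS0 : 0 ≤ S := le_csInf ⟨m, hUm⟩ fun δ hδ => hδ.1
  have hSU : ∀ i, 1 ≤ i → Shf p v W C i (m / (p : ℝ) ^ i - S) := by
    intro i hi w hw b hb
    refine lim_closed fun ε hε => ?_
    obtain ⟨δ, hδ, h1⟩ := exists_lt_of_csInf_lt ⟨m, hUm⟩ (show sInf U < S + ε by linarith)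
    exact lim_mono (hδ.2 i hi w hw b hb) (by linarith)
  rcases eq_or_lt_of_le hS0 with hS1 | hS1
  · have h1 := hSU n hn
    rwa [← hS1, sub_zero] at h1
  exfalso
  have hP : ∃ n : ℕ, ∃ S' : ℝ, 0 ≤ S' ∧ S' < S ∧
      ∀ i, n < i → Shf p v W C i (m / (p : ℝ) ^ i - S') := by
    obtain ⟨N, hN⟩ := pow_unbounded_of_one_lt (m / (S / 2)) (show (1 : ℝ) < p by linarith)
    rw [div_lt_iff₀ (by linarith)] at hN
    refine ⟨N, S / 2, by linarith, by linarith, fun i hi => shf_nonpos ?_⟩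
    have h1 : m / (p : ℝ) ^ i ≤ S / 2 := by
      rw [div_le_iff₀ (hpow i)]
      have h2 : (p : ℝ) ^ N ≤ p ^ i := pow_le_pow_right₀ hp1 hi.le
      nlinarith
    linarith
  obtain ⟨S', hS'0, hS'1, hS'2⟩ := Nat.find_spec hP
  rcases Nat.eq_zero_or_pos (Nat.find hP) with h1 | h1
  · rw [h1] at hS'2
    have h2 : S ≤ S' := csInf_le hUb ⟨hS'0, fun i hi => hS'2 i hi⟩
    linarith
  · obtain ⟨j, hj⟩ : ∃ j, Nat.find hP = j + 1 := ⟨Nat.find hP - 1, by omega⟩
    rw [hj] at hS'2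
    obtain ⟨S'', h2, h3, h4⟩ := shf_level h0 hm hWC hcl hgen hB j hS'0 hS'1 hSU hS'2
    refine Nat.find_min hP (m := j) (by omega) ⟨S'', hS'0.trans h3, h2, fun i hi => ?_⟩
    rcases Nat.lt_or_ge (j + 1) i with h5 | h5
    · exact (hS'2 i h5).mono (by linarith)
    · have h6 : i = j + 1 := by omega
      rw [h6]
      exact h4

end

end Pool.Agent.TWTR
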