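import Pool.Agent.Lib.TWTR.AStep

/-!
# TANK W, LEMMA TRI: strict translations go up one step

`z` far from the algebraic elements of `W`, `c ∈ k`, `aP p c z = z ^ p - c z`.

* `StrP v W z ζ`: the translation `z ↦ z + ζ` is strict on `W[z]`;
* `Far0.step_far`: `z` at positive distance of `W(aP p c z)`: if `aP p c ζ` is strict on
  `W[aP p c z]` then `ζ` is strict on `W[z]`;
* `Far0.step_near`: the other case: `ζ - ξ` is strict for some `ξ`, `ξ ^ p = c ξ`;
* `step_aut`: both;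
* `StrP.dist`: `ξ ^ p = c ξ`, `ξ ≠ 0` strict: the distance is positive;
* `root_aut`: `c = 0`.
-/

set_option autoImplicit false

open Polynomial

namespace Pool.Agent.TWTR

open Pool.Agent.H15JM (RVal)
open Pool.Agent.LU1 (VPos adj)
open Pool.Agent.D2 (Ctx0)
open Pool.Agent.D2P (hen clI mem_clI)
open Pool.Agent.TWM Pool.Agent.TWM.C
open Pool.Agent.TWC

universe u

variable {k Ω : Type u} [Field k] [Field Ω] [Algebra k Ω] {v : RVal Ω}
  {A M W F : IntermediateField k Ω} {y z : Ω} {r : ℝ} {c : k}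

/-- The translation `z ↦ z + ζ` is strict on `W[z]`. -/
def StrP (v : RVal Ω) (W : IntermediateField k Ω) (z ζ : Ω) : Prop :=
  ∃ μ : ℝ, 0 < μ ∧ ∀ P ∈ PI W, v.Ge (v (P.eval z) + μ) (P.eval (z + ζ) - P.eval z)

/-- The same with a bound. -/
theorem str_of_bound {ζ : Ω} {μ : ℝ} (hF : Far0 v W z) (h : ∀ P ∈ PI W,
    v.Ge (v (P.eval z) + μ) (P.eval (z + ζ) - P.eval z)) {P : Polynomial Ω} (hP : P ∈ PI W)
    (hr : v.Ge r (P.eval z)) : v.Ge (r + μ) (P.eval (z + ζ) - P.eval z) := by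
  by_cases h0 : P = 0
  · rw [h0, eval_zero, eval_zero, sub_zero]
    exact RVal.Ge.zero
  · have h1 : P.eval z ≠ 0 := fun h2 => (hF z (isAlgebraic_root hP h0 h2)).1 rfl
    exact (h P hP).mono (by linarith [hr h1])

theorem StrP.zero : StrP v W z 0 := ⟨1, one_pos, fun P _ => by
  rw [add_zero, sub_self]
  exact RVal.Ge.zero⟩

section Prod

variable [IsAlgClosed Ω] {ζ : Ω} {η a a' : ℝ} {U U' : Polynomial Ω}

/-- Products. -/
theorem Far0.mulS (hF : Far0 v W z) (hζ : v.Ge 0 ζ) (hU : U ∈ PI W)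
    (h1 : v.Ge a (U.eval z)) (h2 : v.Ge a' (U'.eval z))
    (h3 : v.Ge (a + η) (U.eval (z + ζ) - U.eval z))
    (h4 : v.Ge (a' + η) (U'.eval (z + ζ) - U'.eval z)) :
    v.Ge (a + a' + η) ((U * U').eval (z + ζ) - (U * U').eval z) := by
  have h5 := hF.ge_shift hU hζ h1
  rw [eval_mul, eval_mul, show U.eval (z + ζ) * U'.eval (z + ζ) - U.eval z * U'.eval z =
    U.eval (z + ζ) * (U'.eval (z + ζ) - U'.eval z) + (U.eval (z + ζ) - U.eval z) * U'.eval z by
    ring]
  exact ((h5.mul h4).mono (by linarith)).add ((h3.mul h2).mono (by linarith))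

/-- Powers. -/
theorem Far0.powS (hF : Far0 v W z) (hζ : v.Ge 0 ζ) (hU : U ∈ PI W)
    (h1 : v.Ge a (U.eval z)) (h3 : v.Ge (a + η) (U.eval (z + ζ) - U.eval z)) (n : ℕ) :
    v.Ge (n * a + η) ((U ^ n).eval (z + ζ) - (U ^ n).eval z) := by
  induction n with
  | zero =>
    rw [pow_zero, eval_one, eval_one, sub_self]
    exact RVal.Ge.zero
  | succ n ih =>
    rw [pow_succ]
    have h4 := hF.mulS (U := U ^ n) (U' := U) hζ (pow_mem hU n) (a := n * a) (a' := a) (η := η)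
      (by rw [eval_pow]; exact ge_pow h1 n) h1 ih h3
    refine h4.mono ?_
    push_cast
    linarith

end Prod

section Step

variable (p : ℕ) [hp : Fact p.Prime] [CharP k p] [CharP Ω p] [IsAlgClosed k] [IsAlgClosed Ω]

omit [CharP k p] [IsAlgClosed k] in
/-- The data of one step: a centre `a = G / H`. -/
theorem Far0.core (hF : Far0 v W z) {ζ : Ω} (hζ : v.Ge 0 ζ) {σ γ μ μ' : ℝ} (hγ : 0 ≤ γ)
    (hAO : ∀ a ∈ adj W (aP p c z), v.Ge (σ - γ) (z - a) →
      AO v (cadj v W (aP p c z)) (fun i : Fin p => (z - a) ^ (i : ℕ)) (p * γ))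
    (hμ : ∀ P ∈ PI W, ∀ r : ℝ, v.Ge r (P.eval (aP p c z)) →
      v.Ge (r + μ) (P.eval (aP p c z + aP p c ζ) - P.eval (aP p c z)))
    {G H : Polynomial Ω} (hG : G ∈ PI W) (hH : H ∈ PI W) (hH0 : H.eval (aP p c z) ≠ 0)
    {a : Ω} (ha : a ∈ adj W (aP p c z)) (hGH : a * H.eval (aP p c z) = G.eval (aP p c z))
    (hza : z ≠ a) (hd : σ - γ ≤ v (z - a)) (hμ' : μ' ≤ μ)
    (hP : v.Ge (v (z - a) + v (H.eval (aP p c z)) + μ')
      ((z + ζ) * H.eval (aP p c z + aP p c ζ) - G.eval (aP p c z + aP p c ζ) -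
        (z - a) * H.eval (aP p c z))) :
    ∀ f ∈ PI W, v.Ge (v (f.eval z) + (μ' - p * γ)) (f.eval (z + ζ) - f.eval z) := by
  classical
  intro f hf
  set z' := aP p c z with hz'
  have hcm : ∀ f ∈ PI W, f.comp (APol p c) ∈ PI W := fun f hf => comp_mem_PI hf (APol_mem p c)
  have hce : ∀ f : Polynomial Ω, ∀ t : Ω, (f.comp (APol p c)).eval t = f.eval (aP p c t) :=
    fun f t => by rw [eval_comp, eval_APol]
  have hsh : aP p c (z + ζ) = z' + aP p c ζ := by rw [aP_add]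
  set P : Polynomial Ω := X * H.comp (APol p c) - G.comp (APol p c) with hPd
  have hPW : P ∈ PI W := sub_mem (mul_mem X_mem_PI (hcm H hH)) (hcm G hG)
  have hPz : P.eval z = (z - a) * H.eval z' := by
    rw [hPd, eval_sub, eval_mul, eval_X, hce, hce, sub_mul, hGH]
  have hPs : P.eval (z + ζ) = (z + ζ) * H.eval (z' + aP p c ζ) - G.eval (z' + aP p c ζ) := by
    rw [hPd, eval_sub, eval_mul, eval_X, hce, hce, hsh]
  have hza0 : z - a ≠ 0 := sub_ne_zero.2 hza
  have hP0 : P.eval z ≠ 0 := by rw [hPz]; exact mul_ne_zero hza0 hH0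
  have hvP : v (P.eval z) = v (z - a) + v (H.eval z') := by rw [hPz, v.map_mul hza0 hH0]
  have hPS : v.Ge (v (P.eval z) + μ') (P.eval (z + ζ) - P.eval z) := by
    rw [hvP, hPs, hPz]
    exact hP
  have hcS : ∀ b ∈ PI W, ∀ r : ℝ, v.Ge r (b.eval z') →
      v.Ge (r + μ') ((b.comp (APol p c)).eval (z + ζ) - (b.comp (APol p c)).eval z) := by
    intro b hb r hr
    rw [hce, hce, hsh]
    exact (hμ b hb r hr).mono (by linarith)
  by_cases hf0 : f = 0
  · rw [hf0, eval_zero, eval_zero, sub_zero]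
    exact RVal.Ge.zero
  have hfz : f.eval z ≠ 0 := fun h => (hF z (isAlgebraic_root hf hf0 h)).1 rfl
  obtain ⟨b, hb, hfb⟩ := exists_digA_frac p c hf hG hH
  rw [← hPd] at hfb
  set Q : Polynomial Ω := H.comp (APol p c) ^ (p - 1) with hQd
  have hQW : Q ∈ PI W := pow_mem (hcm H hH) _
  have hQz : Q.eval z = H.eval z' ^ (p - 1) := by rw [hQd, eval_pow, hce]
  have hQ0 : Q.eval z ≠ 0 := by rw [hQz]; exact pow_ne_zero _ hH0
  set R := v (f.eval z) + v (Q.eval z) with hR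
  have hfQ : v.Ge R ((f * Q).eval z) := by
    rw [eval_mul]
    exact (RVal.ge_self _).mul (RVal.ge_self _)
  -- the terms
  have hao := hAO a ha fun _ => hd
  have hterm : ∀ j : Fin p, v.Ge (R - p * γ) ((b j).eval z' * P.eval z ^ (j : ℕ)) := by
    intro j
    have hm : ∀ g ∈ PI W, g.eval z' ∈ cadj v W z' := fun g hg =>
      eval_mem (PI_mono (le_cadj v W _) hg) (self_mem_cadj v W _)
    have h1 := hao (fun i => (b i).eval z' * H.eval z' ^ (i : ℕ)) (fun i =>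
      mul_mem (hm _ (hb i)) (pow_mem (hm _ hH) _)) R (by
      have h2 : ∑ i : Fin p, (b i).eval z' * H.eval z' ^ (i : ℕ) * (z - a) ^ (i : ℕ) =
          (f * Q).eval z := by
        rw [hfb, eval_finsetSum, Finset.sum_range]
        refine Finset.sum_congr rfl fun i _ => ?_
        rw [eval_mul, hce, eval_pow, hPz, mul_pow]
        ring
      rw [h2]
      exact hfQ) j
    change v.Ge _ ((b j).eval z' * H.eval z' ^ (j : ℕ) * (z - a) ^ (j : ℕ)) at h1
    rw [hPz, mul_pow, show (b j).eval z' * ((z - a) ^ (j : ℕ) * H.eval z' ^ (j : ℕ)) =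
      (b j).eval z' * H.eval z' ^ (j : ℕ) * (z - a) ^ (j : ℕ) by ring]
    exact h1
  have hsum : v.Ge (R - p * γ + μ') ((f * Q).eval (z + ζ) - (f * Q).eval z) := by
    rw [hfb, eval_finsetSum, eval_finsetSum, ← Finset.sum_sub_distrib]
    refine RVal.Ge.sum _ _ fun j hj => ?_
    rw [Finset.mem_range] at hj
    by_cases hbj : (b j).eval z' = 0
    · have hbj0 : (b j).comp (APol p c) = 0 := by
        by_contra h1
        exact (hF z (isAlgebraic_root (hcm _ (hb j)) h1 (by rw [hce]; exact hbj))).1 rfl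
      rw [hbj0, zero_mul, eval_zero, eval_zero, sub_zero]
      exact RVal.Ge.zero
    · have h1 := hF.mulS (U := (b j).comp (APol p c)) (U' := P ^ j) hζ (hcm _ (hb j))
        (a := v ((b j).eval z')) (a' := j * v (P.eval z)) (η := μ')
        (by rw [hce]; exact RVal.ge_self _)
        (by rw [eval_pow]; exact ge_pow (RVal.ge_self _) j) (hcS _ (hb j) _ (RVal.ge_self _))
        (hF.powS hζ hPW (RVal.ge_self _) hPS j)
      have h2 := hterm ⟨j, hj⟩ (mul_ne_zero hbj (pow_ne_zero _ hP0))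
      change _ ≤ v ((b j).eval z' * P.eval z ^ j) at h2
      rw [v.map_mul hbj (pow_ne_zero _ hP0), v.map_pow hP0] at h2
      exact h1.mono (by linarith)
  -- division by `Q`
  have hQne : Q ≠ 0 := by
    rintro h
    rw [h, eval_zero] at hQ0
    exact hQ0 rfl
  obtain ⟨-, hQs, hvQ⟩ := hF.eval_shift hQW hQne hζ
  have hQS : v.Ge (v (Q.eval z) + μ') (Q.eval (z + ζ) - Q.eval z) := by
    have e : Q = (H ^ (p - 1)).comp (APol p c) := by rw [hQd, pow_comp]
    rw [e]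
    refine hcS _ (pow_mem hH _) _ ?_
    rw [hce]
    exact RVal.ge_self _
  have hγ' : 0 ≤ p * γ := mul_nonneg (Nat.cast_nonneg _) hγ
  have h1 : v.Ge (R - p * γ + μ') ((f.eval (z + ζ) - f.eval z) * Q.eval (z + ζ)) := by
    rw [show (f.eval (z + ζ) - f.eval z) * Q.eval (z + ζ) =
      ((f * Q).eval (z + ζ) - (f * Q).eval z) - f.eval z * (Q.eval (z + ζ) - Q.eval z) by
      rw [eval_mul, eval_mul]; ring]
    exact hsum.sub (((RVal.ge_self (v := v) _).mul hQS).mono (by linarith))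
  intro h2
  have h3 := h1 (mul_ne_zero h2 hQs)
  rw [v.map_mul h2 hQs, hvQ] at h3
  linarith

omit [CharP k p] [IsAlgClosed k] in
/-- The displacement of a centre `a = G / H`. -/
theorem Far0.disp (h0 : Ctx0 k v) (hF : Far0 v W z) {ζ : Ω} (hζ : v.Ge 0 ζ) {μ : ℝ}
    (hμ : ∀ P ∈ PI W, ∀ r : ℝ, v.Ge r (P.eval (aP p c z)) →
      v.Ge (r + μ) (P.eval (aP p c z + aP p c ζ) - P.eval (aP p c z)))
    {G H : Polynomial Ω} (hG : G ∈ PI W) (hH : H ∈ PI W) (hH0 : H.eval (aP p c z) ≠ 0)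
    {a : Ω} (hGH : a * H.eval (aP p c z) = G.eval (aP p c z)) (hr : v (z - a) ≤ 0) :
    H.eval (aP p c z + aP p c ζ) ≠ 0 ∧
      v (H.eval (aP p c z + aP p c ζ)) = v (H.eval (aP p c z)) ∧
      v.Ge (v (H.eval (aP p c z)) + μ)
        (H.eval (aP p c z + aP p c ζ) - H.eval (aP p c z)) ∧
      ∃ s : Ω, (z + ζ) * H.eval (aP p c z + aP p c ζ) - G.eval (aP p c z + aP p c ζ) =
        (z - a + s) * H.eval (aP p c z + aP p c ζ) ∧
        v.Ge (p * v (z - a) + μ) (aP p c s) := by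
  set z' := aP p c z with hz'
  set ζ' := aP p c ζ with hζ'
  set x0 := z - a with hx0
  have hcm : ∀ f ∈ PI W, f.comp (APol p c) ∈ PI W := fun f hf => comp_mem_PI hf (APol_mem p c)
  have hce : ∀ f : Polynomial Ω, ∀ t : Ω, (f.comp (APol p c)).eval t = f.eval (aP p c t) :=
    fun f t => by rw [eval_comp, eval_APol]
  have hsh : aP p c (z + ζ) = z' + ζ' := by rw [aP_add]
  have hHne : H.comp (APol p c) ≠ 0 := by
    intro h
    have h1 := hce H z
    rw [h, eval_zero] at h1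
    exact hH0 h1.symm
  obtain ⟨-, h1, h2⟩ := hF.eval_shift (hcm H hH) hHne hζ
  rw [hce, hsh] at h1 h2
  rw [hce] at h2
  refine ⟨h1, h2, hμ H hH _ (RVal.ge_self _), ?_⟩
  set H1 := H.eval (z' + ζ') with hH1
  set G1 := G.eval (z' + ζ') with hG1
  set H0 := H.eval z' with hH0d
  refine ⟨z + ζ - G1 / H1 - x0, ?_, ?_⟩
  · rw [show x0 + (z + ζ - G1 / H1 - x0) = z + ζ - G1 / H1 by ring, sub_mul,
      div_mul_cancel₀ _ h1]
  -- the polynomial `X H ^ p - G ^ p + c G H ^ (p - 1)`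
  set R : Polynomial Ω := X * H ^ p - G ^ p + C (algebraMap k Ω c) * G * H ^ (p - 1) with hRd
  have hRW : R ∈ PI W := add_mem (sub_mem (mul_mem X_mem_PI (pow_mem hH _)) (pow_mem hG _))
    (mul_mem (mul_mem (C_mem_PI (W.algebraMap_mem c)) hG) (pow_mem hH _))
  have hR : ∀ t b : Ω, H.eval t ≠ 0 → b * H.eval t = G.eval t →
      R.eval t = (t - aP p c b) * H.eval t ^ p := by
    intro t b ht hb
    have hpp : H.eval t ^ p = H.eval t * H.eval t ^ (p - 1) := by
      rw [← pow_succ', Nat.sub_add_cancel hp.out.one_lt.le]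
    rw [hRd, eval_add, eval_sub, eval_mul, eval_mul, eval_mul, eval_pow, eval_pow, eval_pow,
      eval_X, eval_C, ← hb, mul_pow, aP]
    rw [sub_mul, sub_mul, mul_assoc (algebraMap k Ω c) b (H.eval t ^ p), hpp]
    ring
  have hR0 : R.eval z' = aP p c x0 * H0 ^ p := by
    rw [hR z' a hH0 hGH, hx0, aP_sub]
  have hR1 : R.eval (z' + ζ') = aP p c (z + ζ - G1 / H1) * H1 ^ p := by
    rw [hR (z' + ζ') (G1 / H1) h1 (div_mul_cancel₀ _ h1), aP_sub, hsh]
  have h3 : v.Ge (p * v x0 + p * v H0) (R.eval z') := by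
    rw [hR0]
    exact (aP_ge p h0 hr (RVal.ge_self _)).mul (ge_pow (RVal.ge_self _) p)
  have h4 := hμ R hRW _ h3
  have h5 : v.Ge (p * v H0 + μ) (H1 ^ p - H0 ^ p) := by
    have := hμ (H ^ p) (pow_mem hH p) (p * v H0)
      (by rw [eval_pow]; exact ge_pow (RVal.ge_self _) p)
    rwa [eval_pow, eval_pow] at this
  have h6 : v.Ge (p * v x0 + μ + p * v H0) (aP p c (z + ζ - G1 / H1 - x0) * H1 ^ p) := by
    rw [show aP p c (z + ζ - G1 / H1 - x0) * H1 ^ p =
      (R.eval (z' + ζ') - R.eval z') - aP p c x0 * (H1 ^ p - H0 ^ p) by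
      rw [hR0, hR1, aP_sub]; ring]
    exact (h4.mono (by linarith)).sub
      (((aP_ge p h0 hr (RVal.ge_self _)).mul h5).mono (by linarith))
  intro h7
  have h8 := h6 (mul_ne_zero h7 (pow_ne_zero p h1))
  rw [v.map_mul h7 (pow_ne_zero p h1), v.map_pow h1, h2] at h8
  linarith

/-- `z` at positive distance of `W(aP p c z)`. -/
theorem Far0.step_far (h0 : Ctx0 k v) (hF : Far0 v W z) {ζ : Ω} (hζ : v.Ge 0 ζ) (hc : c ≠ 0)
    {σ : ℝ} (hσ : σ < 0) (hst : AStep p v (cadj v W (aP p c z)) z c σ)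
    (hle : ∀ a ∈ adj W (aP p c z), v (z - a) ≤ σ)
    (happ : ∀ ε : ℝ, 0 < ε → ∃ a ∈ adj W (aP p c z), σ - ε < v (z - a)) {μ : ℝ} (hμ0 : 0 < μ)
    (hμ : ∀ P ∈ PI W, ∀ r : ℝ, v.Ge r (P.eval (aP p c z)) →
      v.Ge (r + μ) (P.eval (aP p c z + aP p c ζ) - P.eval (aP p c z))) : StrP v W z ζ := by
  have hp1 : (1 : ℝ) < p := by exact_mod_cast hp.out.one_lt
  have hp0 : (0 : ℝ) < p := by linarith
  set μ' := min (μ / p) (-σ) with hμ'
  have hm0 : 0 < μ' := lt_min (div_pos hμ0 hp0) (by linarith)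
  have hm1 : μ' ≤ μ / p := min_le_left _ _
  have hm2 : μ' ≤ -σ := min_le_right _ _
  have hm3 : μ' ≤ μ := hm1.trans (div_le_self hμ0.le hp1.le)
  set γ := μ' / (2 * p) with hγ
  have hγ0 : 0 < γ := div_pos hm0 (by linarith)
  have hpγ : p * γ = μ' / 2 := by
    rw [hγ]
    field_simp
  obtain ⟨a, ha, hσa⟩ := happ γ hγ0
  obtain ⟨G, hG, H, hH, hH0, hGH⟩ := exists_frac' ha
  have hza := (hF.dist_adj p h0 hc ha).1
  have hza0 : z - a ≠ 0 := sub_ne_zero.2 hza
  have hr0 : v (z - a) ≤ σ := hle a ha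
  obtain ⟨h1, h2, h3, s, hs, hAs⟩ := hF.disp p h0 hζ hμ hG hH hH0 hGH (hr0.trans hσ.le)
  refine ⟨μ' - p * γ, by rw [hpγ]; linarith, ?_⟩
  refine hF.core p hζ hγ0.le (σ := σ) (c := c) (fun b hb hbz => AO.stepA p h0 hst
    (le_clI _ hb) hγ0.le hbz) hμ hG hH hH0 ha hGH hza hσa.le hm3 ?_
  rw [hs, show (z - a + s) * H.eval (aP p c z + aP p c ζ) - (z - a) * H.eval (aP p c z) =
    s * H.eval (aP p c z + aP p c ζ) +
      (z - a) * (H.eval (aP p c z + aP p c ζ) - H.eval (aP p c z)) by ring]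
  have hsv : v.Ge (v (z - a) + μ') s := by
    intro hs0
    rcases lt_or_ge (v s) 0 with h4 | h4
    · obtain ⟨h5, h6⟩ := val_aP_of_neg (c := c) p h0 hs0 h4
      have h7 := hAs h5
      rw [h6] at h7
      have h8 : v (z - a) + μ / p ≤ v s := by
        have h9 : p * (v (z - a) + μ / p) = p * v (z - a) + μ := by
          field_simp
        nlinarith
      linarith
    · linarith
  refine ((hsv.mul (fun _ => h2.ge)).mono (by linarith)).add ?_
  exact ((RVal.ge_self (v := v) _).mul h3).mono (by linarith)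

/-- `z` at distance zero of `W(aP p c z)`. -/
theorem Far0.step_near (h0 : Ctx0 k v) (hF : Far0 v W z) {ζ : Ω} (hζ : v.Ge 0 ζ) (hc : c ≠ 0)
    (hst : AStep p v (cadj v W (aP p c z)) z c 0)
    (hle : ∀ a ∈ adj W (aP p c z), v (z - a) ≤ 0)
    (happ : ∀ ε : ℝ, 0 < ε → ∃ a ∈ adj W (aP p c z), 0 - ε < v (z - a)) {μ : ℝ} (hμ0 : 0 < μ)
    (hμ : ∀ P ∈ PI W, ∀ r : ℝ, v.Ge r (P.eval (aP p c z)) →
      v.Ge (r + μ) (P.eval (aP p c z + aP p c ζ) - P.eval (aP p c z))) :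
    ∃ ξ : k, aP p c (algebraMap k Ω ξ) = 0 ∧ StrP v W z (ζ - algebraMap k Ω ξ) := by
  have hp1 : (1 : ℝ) < p := by exact_mod_cast hp.out.one_lt
  have hp0 : (0 : ℝ) < p := by linarith
  set γ := μ / (4 * p) with hγ
  have hγ0 : 0 < γ := div_pos hμ0 (by linarith)
  have hpγ : p * γ = μ / 4 := by
    rw [hγ]
    field_simp
  obtain ⟨a, ha, hσa⟩ := happ γ hγ0
  obtain ⟨G, hG, H, hH, hH0, hGH⟩ := exists_frac' ha
  have hza := (hF.dist_adj p h0 hc ha).1
  have hza0 : z - a ≠ 0 := sub_ne_zero.2 hza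
  have hr0 : v (z - a) ≤ 0 := hle a ha
  obtain ⟨h1, h2, h3, s, hs, hAs⟩ := hF.disp p h0 hζ hμ hG hH hH0 hGH hr0
  have hAs' : v.Ge (μ - p * γ) (aP p c s) := hAs.mono (by nlinarith)
  have hs0 : v.Ge 0 s := ge_of_aP p h0 (hAs'.mono (by rw [hpγ]; linarith))
  obtain ⟨ξ, hξ⟩ := h0.residue hs0
  have hw : v.Ge 0 (s - algebraMap k Ω ξ) := fun h => (hξ h).le
  -- `ξ` is a root
  have hAw : Gt v 0 (aP p c (s - algebraMap k Ω ξ)) := by
    rw [aP]
    refine Gt.sub ?_ ?_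
    · intro h4
      have h5 : s - algebraMap k Ω ξ ≠ 0 := by
        intro h6
        rw [h6, zero_pow hp.out.ne_zero] at h4
        exact h4 rfl
      rw [v.map_pow h5]
      exact mul_pos hp0 (hξ h5)
    · intro h4
      have h5 : s - algebraMap k Ω ξ ≠ 0 := right_ne_zero_of_mul h4
      have h6 := (h0.ge c).mul (RVal.ge_self (v := v) (s - algebraMap k Ω ξ)) h4
      have := hξ h5
      linarith
  have hker : aP p c (algebraMap k Ω ξ) = 0 := by
    have h4 : Gt v 0 (aP p c (algebraMap k Ω ξ)) := by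
      have h5 : aP p c (algebraMap k Ω ξ) = aP p c s - aP p c (s - algebraMap k Ω ξ) := by
        rw [aP_sub]
        ring
      rw [h5]
      refine Gt.sub ?_ hAw
      intro h6
      have := hAs' h6
      rw [hpγ] at this
      linarith
    have h5 : aP p c (algebraMap k Ω ξ) = algebraMap k Ω (ξ ^ p - c * ξ) := by
      rw [aP, map_sub, map_pow, map_mul]
    by_contra h6
    have h7 := h4 h6
    rw [h5] at h6 h7
    rw [h0.triv _ fun h => h6 (by rw [h, map_zero])] at h7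
    exact lt_irrefl _ h7
  refine ⟨ξ, hker, ?_⟩
  have haPw : aP p c (s - algebraMap k Ω ξ) = aP p c s := by rw [aP_sub, hker, sub_zero]
  have hwv : v.Ge (μ - p * γ) (s - algebraMap k Ω ξ) := by
    intro h4
    have h5 := hξ h4
    have hcΩ : algebraMap k Ω c ≠ 0 := (map_ne_zero_iff _ (algebraMap k Ω).injective).2 hc
    have h6 : v (-(algebraMap k Ω c * (s - algebraMap k Ω ξ))) = v (s - algebraMap k Ω ξ) := by
      rw [v.map_neg _ (mul_ne_zero hcΩ h4), v.map_mul hcΩ h4, h0.triv c hc, zero_add]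
    have h7 : v (-(algebraMap k Ω c * (s - algebraMap k Ω ξ))) <
        v ((s - algebraMap k Ω ξ) ^ p) := by
      rw [h6, v.map_pow h4]
      nlinarith
    have h8 := v.add_of_lt (neg_ne_zero.2 (mul_ne_zero hcΩ h4)) (pow_ne_zero p h4) h7
    rw [neg_add_eq_sub] at h8
    have h9 := hAs'
    rw [← haPw, aP] at h9
    have h10 := h9 h8.1
    rwa [h8.2, h6] at h10
  -- the translation by `ζ - ξ`
  have hζ' : v.Ge 0 (ζ - algebraMap k Ω ξ) := hζ.sub (h0.ge ξ)
  have haζ : aP p c (ζ - algebraMap k Ω ξ) = aP p c ζ := by rw [aP_sub, hker, sub_zero]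
  refine ⟨μ - p * γ - p * γ, by rw [hpγ]; linarith, ?_⟩
  refine hF.core p hζ' hγ0.le (σ := 0) (c := c) (fun b hb hbz => AO.stepA p h0 hst
    (le_clI _ hb) hγ0.le hbz) (by rw [haζ]; exact hμ) hG hH hH0 ha hGH hza hσa.le
    (by rw [hpγ]; linarith) ?_
  rw [haζ, show (z + (ζ - algebraMap k Ω ξ)) * H.eval (aP p c z + aP p c ζ) -
    G.eval (aP p c z + aP p c ζ) = ((z + ζ) * H.eval (aP p c z + aP p c ζ) -
    G.eval (aP p c z + aP p c ζ)) - algebraMap k Ω ξ * H.eval (aP p c z + aP p c ζ) by ring, hs,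
    show (z - a + s) * H.eval (aP p c z + aP p c ζ) -
      algebraMap k Ω ξ * H.eval (aP p c z + aP p c ζ) - (z - a) * H.eval (aP p c z) =
    (s - algebraMap k Ω ξ) * H.eval (aP p c z + aP p c ζ) +
      (z - a) * (H.eval (aP p c z + aP p c ζ) - H.eval (aP p c z)) by ring]
  refine ((hwv.mul (fun _ => h2.ge)).mono (by linarith)).add ?_
  exact ((RVal.ge_self (v := v) _).mul h3).mono (by rw [hpγ]; linarith)

omit [CharP k p] [CharP Ω p] [IsAlgClosed k] in
/-- `aP p c z` is far from the algebraic elements, too. -/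
theorem Far0.aP (hF : Far0 v W z) (c : k) : Far0 v W (aP p c z) := by
  intro θ hθ
  set f : Polynomial Ω := APol p c - C θ with hf
  obtain ⟨h1, h2⟩ := APol_deg (Ω := Ω) p c
  have hfm : f.Monic := by
    refine h1.sub_of_left ?_
    rw [degree_eq_natDegree h1.ne_zero, h2]
    refine lt_of_le_of_lt degree_C_le ?_
    exact_mod_cast hp.out.pos
  have hfz : f.eval z = Pool.Agent.TWTR.aP p c z - θ := by rw [hf, eval_sub, eval_APol, eval_C]
  have h3 := (IsAlgClosed.splits f).eq_prod_roots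
  rw [hfm.leadingCoeff, C_1, one_mul] at h3
  have hcard : f.roots ≠ 0 := by
    intro h4
    rw [h4, Multiset.map_zero, Multiset.prod_zero] at h3
    have h5 : f.natDegree = p := by rw [hf, natDegree_sub_C, h2]
    rw [h3, natDegree_one] at h5
    exact hp.out.ne_zero h5.symm
  have halg : ∀ ρ ∈ f.roots, z ≠ ρ ∧ v (z - ρ) < 0 := by
    intro ρ hρ
    refine hF ρ ?_
    have h4 : f.IsRoot ρ := (mem_roots hfm.ne_zero).1 hρ
    have h5 : Pool.Agent.TWTR.aP p c ρ = θ := by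
      rw [IsRoot.def, hf, eval_sub, eval_APol, eval_C, sub_eq_zero] at h4
      exact h4
    obtain ⟨g, hg⟩ := lift_PI (APol_mem (F := W) (Ω := Ω) p c)
    refine IsAlgebraic.of_aeval g ?_ ?_ ?_
    · rw [← natDegree_map (algebraMap W Ω), hg, h2]
      exact hp.out.ne_zero
    · refine mem_nonZeroDivisors_of_ne_zero (leadingCoeff_ne_zero.2 ?_)
      rintro rfl
      rw [Polynomial.map_zero] at hg
      exact h1.ne_zero hg.symm
    · rw [aeval_def, eval₂_eq_eval_map, hg, eval_APol, h5]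
      exact hθ
  have hprod : ∀ S : Multiset Ω, (∀ ρ ∈ S, z ≠ ρ ∧ v (z - ρ) < 0) →
      ((S.map fun ρ => X - C ρ).prod).eval z ≠ 0 ∧
        v (((S.map fun ρ => X - C ρ).prod).eval z) ≤ 0 ∧
        (S ≠ 0 → v (((S.map fun ρ => X - C ρ).prod).eval z) < 0) := by
    intro S
    induction S using Multiset.induction_on with
    | empty =>
      intro _
      rw [Multiset.map_zero, Multiset.prod_zero, eval_one]
      exact ⟨one_ne_zero, v.map_one.le, fun h => absurd rfl h⟩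
    | cons a S ih =>
      intro hS
      obtain ⟨h4, h5, -⟩ := ih fun θ h => hS θ (Multiset.mem_cons_of_mem h)
      obtain ⟨h6, h7⟩ := hS a (Multiset.mem_cons_self a S)
      rw [Multiset.map_cons, Multiset.prod_cons, eval_mul, eval_sub, eval_X, eval_C]
      have h8 : z - a ≠ 0 := sub_ne_zero.2 h6
      rw [v.map_mul h8 h4]
      exact ⟨mul_ne_zero h8 h4, by linarith, fun _ => by linarith⟩
  obtain ⟨h4, -, h5⟩ := hprod _ halg
  rw [← h3, hfz] at h4 h5
  exact ⟨sub_ne_zero.1 h4, h5 hcard⟩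

omit [CharP k p] [IsAlgClosed k] [IsAlgClosed Ω] in
/-- `c = 0`: the `p`-th powers. -/
theorem StrP.root (hF : Far0 v W z) {ζ : Ω} (h : StrP v W (z ^ p) (ζ ^ p)) :
    StrP v W z ζ := by
  obtain ⟨μ, hμ, h1⟩ := h
  have hp0 : (0 : ℝ) < p := by exact_mod_cast hp.out.pos
  refine ⟨μ / p, div_pos hμ hp0, fun P hP => ?_⟩
  have hφ : ∀ t : Ω, (P.map (frobenius Ω p)).eval (t ^ p) = P.eval t ^ p := by
    intro t
    rw [← expand_eval, ← map_expand, map_frobenius_expand, eval_pow]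
  have hPφ : P.map (frobenius Ω p) ∈ PI W := fun i => by
    rw [coeff_map, frobenius_def]
    exact pow_mem (hP i) p
  have h2 := h1 _ hPφ
  rw [← add_pow_char, hφ, hφ, ← sub_pow_char] at h2
  intro h3
  have h4 := h2 (pow_ne_zero p h3)
  have hP0 : P ≠ 0 := by
    rintro rfl
    rw [eval_zero, eval_zero, sub_zero] at h3
    exact h3 rfl
  have h5 : P.eval z ≠ 0 := fun h5 => (hF z (isAlgebraic_root hP hP0 h5)).1 rfl
  rw [v.map_pow h3, v.map_pow h5] at h4
  have h6 : p * (v (P.eval z) + μ / p) = p * v (P.eval z) + μ := by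
    field_simp
  nlinarith

/-- **The translations go up.** -/
theorem Far0.step_aut (h0 : Ctx0 k v) (hF : Far0 v W z) {ζ : Ω} (hζ : v.Ge 0 ζ) (c : k)
    (h : StrP v W (Pool.Agent.TWTR.aP p c z) (Pool.Agent.TWTR.aP p c ζ)) :
    ∃ ξ : k, Pool.Agent.TWTR.aP p c (algebraMap k Ω ξ) = 0 ∧
      StrP v W z (ζ - algebraMap k Ω ξ) := by
  by_cases hc : c = 0
  · have h1 : ∀ t : Ω, Pool.Agent.TWTR.aP p c t = t ^ p := fun t => by
      rw [Pool.Agent.TWTR.aP, hc, map_zero, zero_mul, sub_zero]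
    refine ⟨0, ?_, ?_⟩
    · rw [h1, map_zero, zero_pow hp.out.ne_zero]
    · rw [map_zero, sub_zero]
      rw [h1, h1] at h
      exact h.root p hF
  · obtain ⟨μ, hμ0, hμ⟩ := h
    have hμ' : ∀ P ∈ PI W, ∀ r : ℝ, v.Ge r (P.eval (Pool.Agent.TWTR.aP p c z)) →
        v.Ge (r + μ) (P.eval (Pool.Agent.TWTR.aP p c z + Pool.Agent.TWTR.aP p c ζ) -
          P.eval (Pool.Agent.TWTR.aP p c z)) := fun P hP r hr =>
      str_of_bound (hF.aP p c) hμ hP hr
    obtain ⟨σ, hst, hle, happ⟩ := hF.exists_astep p h0 hc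
    rcases hst.le.lt_or_eq with hσ | hσ
    · refine ⟨0, ?_, ?_⟩
      · rw [map_zero, aP_zero p hp.out.ne_zero]
      · rw [map_zero, sub_zero]
        exact hF.step_far p h0 hζ hc hσ hst hle happ hμ0 hμ'
    · subst hσ
      exact hF.step_near p h0 hζ hc hst hle happ hμ0 hμ'

omit [CharP k p] in
/-- `ξ ≠ 0` in the kernel, strict: the distance is positive. -/
theorem Far0.dist_of_str (h0 : Ctx0 k v) (hF : Far0 v W z) {ξ : k} (hξ0 : ξ ≠ 0)
    (hξ : Pool.Agent.TWTR.aP p c (algebraMap k Ω ξ) = 0)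
    (h : StrP v W z (algebraMap k Ω ξ)) :
    ∃ μ : ℝ, 0 < μ ∧ ∀ a ∈ adj W (Pool.Agent.TWTR.aP p c z), z ≠ a ∧ v (z - a) ≤ -μ := by
  have hξΩ : algebraMap k Ω ξ ≠ 0 := (map_ne_zero_iff _ (algebraMap k Ω).injective).2 hξ0
  have hc : c ≠ 0 := by
    rintro rfl
    rw [Pool.Agent.TWTR.aP, map_zero, zero_mul, sub_zero] at hξ
    exact hξΩ (pow_eq_zero_iff hp.out.ne_zero |>.1 hξ)
  obtain ⟨μ, hμ, h1⟩ := h
  refine ⟨μ, hμ, fun a ha => ?_⟩
  obtain ⟨G, hG, H, hH, hH0, hGH⟩ := exists_frac' ha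
  have hza := (hF.dist_adj p h0 hc ha).1
  refine ⟨hza, ?_⟩
  have hza0 : z - a ≠ 0 := sub_ne_zero.2 hza
  have hcm : ∀ f ∈ PI W, f.comp (APol p c) ∈ PI W := fun f hf => comp_mem_PI hf (APol_mem p c)
  set P : Polynomial Ω := X * H.comp (APol p c) - G.comp (APol p c) with hPd
  have hPW : P ∈ PI W := sub_mem (mul_mem X_mem_PI (hcm H hH)) (hcm G hG)
  have hPz : P.eval z = (z - a) * H.eval (Pool.Agent.TWTR.aP p c z) := by
    rw [hPd, eval_sub, eval_mul, eval_X, eval_comp, eval_comp, eval_APol, sub_mul, hGH]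
  have hPξ : P.eval (z + algebraMap k Ω ξ) - P.eval z =
      algebraMap k Ω ξ * H.eval (Pool.Agent.TWTR.aP p c z) := by
    rw [hPz, hPd, eval_sub, eval_mul, eval_X, eval_comp, eval_comp, eval_APol, aP_add, hξ,
      add_zero, ← hGH]
    ring
  have h2 := h1 P hPW
  rw [hPξ, hPz, v.map_mul hza0 hH0] at h2
  have h3 := h2 (mul_ne_zero hξΩ hH0)
  rw [v.map_mul hξΩ hH0, h0.triv ξ hξ0] at h3
  linarith

/-- `ξ` in the kernel, not strict: the distance is zero. -/
theorem Far0.near_of_not_str (h0 : Ctx0 k v) (hF : Far0 v W z) (hc : c ≠ 0) {ξ : k}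
    (hξ : Pool.Agent.TWTR.aP p c (algebraMap k Ω ξ) = 0)
    (h : ¬ StrP v W z (algebraMap k Ω ξ)) {ε : ℝ} (hε : 0 < ε) :
    ∃ a ∈ adj W (Pool.Agent.TWTR.aP p c z), -ε < v (z - a) := by
  obtain ⟨σ, hst, hle, happ⟩ := hF.exists_astep p h0 hc
  rcases hst.le.lt_or_eq with hσ | hσ
  · refine absurd (hF.step_far p h0 (h0.ge ξ) hc hσ hst hle happ one_pos fun P hP r hr => ?_) h
    rw [hξ, add_zero, sub_self]
    exact RVal.Ge.zero
  · subst hσ
    obtain ⟨a, ha, h1⟩ := happ ε hε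
    exact ⟨a, ha, by linarith⟩

end Step

/-! ### The group of the strict translations -/

section Grp

variable [IsAlgClosed Ω]

omit [IsAlgClosed Ω] in
theorem comp_shift_mem {ζ : Ω} (hζ : ζ ∈ W) {P : Polynomial Ω} (hP : P ∈ PI W) :
    P.comp (X + C ζ) ∈ PI W :=
  comp_mem_PI hP (add_mem X_mem_PI (C_mem_PI hζ))

/-- The sum of two strict translations is strict. -/
theorem Far0.str_add (hF : Far0 v W z) {ζ ζ' : Ω} (hζW : ζ ∈ W) (hζ' : v.Ge 0 ζ')
    (h : StrP v W z ζ) (h' : StrP v W z ζ') : StrP v W z (ζ + ζ') := by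
  obtain ⟨μ, hμ, h1⟩ := h
  obtain ⟨μ', hμ', h1'⟩ := h'
  refine ⟨min μ μ', lt_min hμ hμ', fun P hP => ?_⟩
  set Q : Polynomial Ω := P.comp (X + C ζ) - P with hQ
  have hQW : Q ∈ PI W := sub_mem (comp_shift_mem hζW hP) hP
  have hQe : ∀ t : Ω, Q.eval t = P.eval (t + ζ) - P.eval t := fun t => by
    rw [hQ, eval_sub, eval_comp, eval_add, eval_X, eval_C]
  have h2 : v.Ge (v (P.eval z) + μ) (Q.eval z) := by rw [hQe]; exact h1 P hP
  have h3 := hF.ge_shift hQW hζ' h2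
  rw [hQe] at h3
  rw [show z + (ζ + ζ') = z + ζ' + ζ by ring,
    show P.eval (z + ζ' + ζ) - P.eval z = (P.eval (z + ζ' + ζ) - P.eval (z + ζ')) +
      (P.eval (z + ζ') - P.eval z) by ring]
  exact (h3.mono (by linarith [min_le_left μ μ'])).add
    ((h1' P hP).mono (by linarith [min_le_right μ μ']))

/-- The opposite of a strict translation is strict. -/
theorem Far0.str_neg (hF : Far0 v W z) {ζ : Ω} (hζW : ζ ∈ W) (hζ : v.Ge 0 ζ)
    (h : StrP v W z ζ) : StrP v W z (-ζ) := by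
  obtain ⟨μ, hμ, h1⟩ := h
  refine ⟨μ, hμ, fun P hP => ?_⟩
  by_cases hP0 : P = 0
  · rw [hP0, eval_zero, eval_zero, sub_self]
    exact RVal.Ge.zero
  have h2 := h1 _ (comp_shift_mem (neg_mem hζW) hP)
  rw [eval_comp, eval_comp, eval_add, eval_add, eval_X, eval_X, eval_C, eval_C,
    add_neg_cancel_right] at h2
  obtain ⟨-, h3, h4⟩ := hF.eval_shift hP hP0 hζ.neg
  rw [h4] at h2
  rw [← neg_sub]
  exact h2.neg

/-- The strict translations of `k`. -/
def strGrp (h0 : Ctx0 k v) (hF : Far0 v W z) : AddSubgroup k where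
  carrier := {ζ | StrP v W z (algebraMap k Ω ζ)}
  zero_mem' := by
    change StrP v W z (algebraMap k Ω 0)
    rw [map_zero]
    exact StrP.zero
  add_mem' := fun {a b} ha hb => by
    change StrP v W z (algebraMap k Ω (a + b))
    rw [map_add]
    exact hF.str_add (W.algebraMap_mem a) (h0.ge b) ha hb
  neg_mem' := fun {a} ha => by
    change StrP v W z (algebraMap k Ω (-a))
    rw [map_neg]
    exact hF.str_neg (W.algebraMap_mem a) (h0.ge a) ha

theorem mem_strGrp (h0 : Ctx0 k v) (hF : Far0 v W z) {ζ : k} :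
    ζ ∈ strGrp h0 hF ↔ StrP v W z (algebraMap k Ω ζ) := Iff.rfl

end Grp

end Pool.Agent.TWTR
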