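import Pool.Agent.Lib.TWTR.Dens
import Pool.Agent.Lib.TWTR.Inh
import Pool.Agent.Lib.TWTR.Boot

/-!
# TANK W, row R: the critical step and Lemma R in the form of the cover

* `NearB.nonneg`: the gaps are `≥ 0`;
* `crit_aP`: the critical step for `aP p c y = y ^ p - c y`;
* `str_or_not`, `lemR_of_not`: if `z` is not strict over `W`, then from some level on the gaps of
  `z` are bounded by the later gaps.
-/

set_option autoImplicit false

open Polynomial

namespace Pool.Agent.TWTR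

open Pool.Agent.H15JM (RVal)
open Pool.Agent.LU1 (VPos adj)
open Pool.Agent.D2 (Ctx0)
open Pool.Agent.D2P (clI mem_clI rootF mem_rootF)
open Pool.Agent.TWM Pool.Agent.TWM.C
open Pool.Agent.TWC

universe u

variable {k Ω : Type u} [Field k] [Field Ω] [Algebra k Ω] {v : RVal Ω}
  {W : IntermediateField k Ω} {y z : Ω} {s m : ℝ} {p : ℕ} [hp : Fact p.Prime] [CharP Ω p]

theorem nearB_iff {i : ℕ} :
    NearB p v W s i m z ↔ Lim v (rootF p i W) (s - m / p ^ (i + 1)) z := Iff.rfl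

/-- The gaps are `≥ 0`. -/
theorem NearB.nonneg (hfar : ∀ θ : Ω, IsAlgebraic W θ → z ≠ θ ∧ v (z - θ) < s) {i : ℕ}
    (h : NearB p v W s i m z) : 0 ≤ m := by
  by_contra hm
  push Not at hm
  have hp0 : (0 : ℝ) < (p : ℝ) ^ (i + 1) := pow_pos p_pos _
  have h1 : m / (p : ℝ) ^ (i + 1) < 0 := div_neg_of_neg_of_pos hm hp0
  obtain ⟨a, ha, h2⟩ := h (-(m / p ^ (i + 1))) (by linarith)
  obtain ⟨h3, h4⟩ := hfar a (isAlg_rootN i (isAlgebraic_algebraMap (⟨a, mem_rootF.2 ha⟩ :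
    rootF p i W)))
  have h5 := h2 (sub_ne_zero.2 h3)
  linarith

variable [CharP k p] [IsAlgClosed Ω]

omit [CharP k p] [IsAlgClosed Ω] hp [CharP Ω p] in
theorem sep_APol (h0 : Ctx0 k v) {c : k} (hc : c ≠ 0) (hp1 : 1 < p) :
    Sep v (APol p c : Polynomial Ω) := by
  have hcΩ : algebraMap k Ω c ≠ 0 := (_root_.map_ne_zero _).2 hc
  have hneg : ∀ i, ((APol p c : Polynomial Ω)).coeff i =
      (if i = p then 1 else 0) - algebraMap k Ω c * (if 1 = i then 1 else 0) := fun i => by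
    rw [APol, coeff_sub, coeff_X_pow, coeff_C_mul, coeff_X]
  have h1 : ((APol p c : Polynomial Ω)).coeff 1 = -algebraMap k Ω c := by
    rw [hneg, if_neg (by omega), if_pos rfl, mul_one, zero_sub]
  refine ⟨?_, fun i => ?_, ?_, ?_⟩
  · rw [hneg, if_neg (by omega), if_neg one_ne_zero, mul_zero, sub_zero]
  · rw [hneg]
    refine RVal.Ge.sub ?_ ?_
    · split_ifs
      · exact ge_one v
      · exact RVal.Ge.zero
    · split_ifs
      · rw [mul_one]
        exact h0.ge c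
      · rw [mul_zero]
        exact RVal.Ge.zero
  · rw [h1]
    exact neg_ne_zero.2 hcΩ
  · rw [h1, inv_neg, ← map_inv₀]
    exact (h0.ge _).neg

omit [CharP k p] [IsAlgClosed Ω] in
theorem comp_APol (c : k) (y : Ω) : (APol p c : Polynomial Ω).comp (X + Polynomial.C y) =
    APol p c + Polynomial.C ((APol p c : Polynomial Ω).eval y) := by
  rw [eval_APol, aP, APol, sub_comp, mul_comp, X_pow_comp, C_comp, X_comp, add_pow_char, C_sub,
    C_pow, C_mul]
  ring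

/-- **The critical step** for `y ^ p - c y`. -/
theorem crit_aP (h0 : Ctx0 k v) (hc : CompleteV v) (hL : HL p v W) (hfar : Far0 v W y)
    (hlim : ∀ ε : ℝ, 0 < ε → ∃ (n : ℕ) (a : Ω), a ^ p ^ n ∈ W ∧ v.Ge (-ε) (y - a)) {c : k}
    (hc0 : c ≠ 0) (hcl : ∀ ε : ℝ, 0 < ε → ∃ f ∈ PI W, v.Ge (-ε) (y - f.eval (aP p c y)))
    {i : ℕ} (hM : ∀ j, i ≤ j → NearB p v W 0 j m (aP p c y)) : NearB p v W 0 i m y := by
  have hfar' : ∀ θ : Ω, IsAlgebraic W θ → aP p c y ≠ θ ∧ v (aP p c y - θ) < 0 :=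
    Far0.aP p hfar c
  have hm : 0 ≤ m := (hM i le_rfl).nonneg hfar'
  have h1 := crit h0 hc hL (y := y) (S := APol p c) (m := m) (i := i)
    (fun θ hθ => ⟨(hfar θ hθ).1, (hfar θ hθ).2.le⟩) hlim
    (sep_APol h0 hc0 hp.out.one_lt) (APol_mem p c) (comp_APol c y)
    (fun ε hε => by rw [eval_APol]; exact hcl ε hε) hm (fun j hj => by
      have h2 := nearB_iff.1 (hM j hj)
      rw [zero_sub] at h2
      rw [eval_APol]
      exact h2)
  rw [nearB_iff, zero_sub]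
  exact h1

omit [CharP k p] in
/-- **The dichotomy**, any radius. -/
theorem str_or_not [CharP k p] (h0 : Ctx0 k v)
    (hfar : ∀ θ : Ω, IsAlgebraic W θ → z ≠ θ ∧ v (z - θ) < s)
    (hlim : ∀ ε : ℝ, 0 < ε → ∃ (n : ℕ) (a : Ω), a ^ p ^ n ∈ W ∧ v.Ge (s - ε) (z - a)) :
    (∀ l, 1 ≤ l → Sd v W z l (l * s)) ∨ ∃ n, ¬ Sd v (rootF p n W) z 1 s := by
  by_cases h1 : ∀ i, Sd v (rootF p i W) z 1 s
  · left
    intro l hl
    have h2 := TWC.jd_root p h0 (F := fun i => rootF p i W) (fun i a ha => ?_)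
      (fun i θ hθ => ?_) (fun ε hε => ?_) h1 0 hl
    · exact h2.mono (fun a ha => mem_rootF.2 (by rwa [pow_zero, pow_one]))
    · obtain ⟨b, hb⟩ := IsAlgClosed.exists_pow_nat_eq a hp.out.pos
      refine ⟨b, mem_rootF.2 ?_, hb⟩
      rw [pow_succ', pow_mul, hb]
      exact mem_rootF.1 ha
    · have h3 := hfar θ (isAlg_rootN i hθ)
      exact ⟨h3.1, h3.2.le⟩
    · obtain ⟨j, a, ha, h3⟩ := hlim ε hε
      exact ⟨j, a, mem_rootF.2 ha, h3⟩
  · right
    push Not at h1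
    exact h1

/-- **Lemma R**, any radius: if `z` is not strict over `W`, then from some level on every gap of `z`
is bounded by the supremum of the later gaps. -/
theorem lemR_of_not (h0 : Ctx0 k v) (hc : CompleteV v) (hL : HL p v W)
    (hfar : ∀ θ : Ω, IsAlgebraic W θ → z ≠ θ ∧ v (z - θ) < s)
    (hlim : ∀ ε : ℝ, 0 < ε → ∃ (n : ℕ) (a : Ω), a ^ p ^ n ∈ W ∧ v.Ge (s - ε) (z - a))
    (hS : ¬ ∀ l, 1 ≤ l → Sd v W z l (l * s)) :
    ∃ j₀, ∀ j, j₀ ≤ j → ∀ m : ℝ, (∀ j', j < j' → NearB p v W s j' m z) →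
      NearB p v W s j m z := by
  obtain ⟨n, hn⟩ := (str_or_not h0 hfar hlim).resolve_left hS
  refine ⟨n, fun j hj m hM => ?_⟩
  have hm : 0 ≤ m := (hM (j + 1) (Nat.lt_succ_self j)).nonneg hfar
  exact nearB_iff.2 (lemR' h0 hc hL hfar hlim hn hm hj fun j' hj' => nearB_iff.1 (hM j' hj'))

end Pool.Agent.TWTR
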