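import Pool.Agent.Lib.TWC.ThetaX
import Pool.Agent.Lib.TWC.SND
import Pool.Agent.Lib.TWM.C1

/-!
# TANK W, the cover: the étale lemma (helper75's (A))

`B` closed, `t` tight in `B` of level `r`, `θ` algebraic over `B` of degree `< p ^ n`: then
`v (t n - θ) ≤ r / p ^ n`.

* `val_sub_conj`: the conjugates of `θ` over a closed field `B` are at the same distance from a
  radical element `t`, `t ^ (p ^ n) ∈ B`;
* `nbx_deg`: the same with `NBX p v B t (F ρ / p ^ n)`, `t 0 ∈ B`;
* `Tgt.et`, `Tgt.et_cadj`, `Tgt.dst_of_alg`: `t` tight in `B`, `B ≤ C ≤ cadj v B y`, `y` algebraic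
  over `B` of degree `< p ^ n`: `Dst v C (t n) (r / p ^ n)`.
-/

set_option autoImplicit false

open Polynomial

namespace Pool.Agent.TWTR

open Pool.Agent.H15JM (RVal)
open Pool.Agent.LU1 (VPos adj)
open Pool.Agent.D2 (Ctx0)
open Pool.Agent.D2P (hen clI mem_clI)
open Pool.Agent.TWM
open Pool.Agent.TWC (NBX Tgt Dst)
open Pool.Agent.TWM.C (hen_eq)

universe u

variable {k Ω : Type u} [Field k] [Field Ω] [Algebra k Ω] {v : RVal Ω}
  {B C : IntermediateField k Ω} {t : ℕ → Ω} {r : ℝ}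

section

variable (p : ℕ) [hp : Fact p.Prime] [CharP Ω p] [IsAlgClosed Ω]

/-- The conjugates of `θ` are at the same distance from a radical element. -/
theorem val_sub_conj (h0 : Ctx0 k v) (hB : Cld v B) {n : ℕ} {u : Ω} (hu : u ^ p ^ n ∈ B)
    {θ θ' : Ω} (hθ : IsAlgebraic B θ) (hθ' : aeval θ' (minpoly B θ) = 0) (hne : u ≠ θ) :
    u ≠ θ' ∧ v (u - θ') = v (u - θ) := by
  have hM := hen_eq hB
  have hint : IsIntegral B θ := hθ.isIntegral
  set b : B := ⟨u ^ p ^ n, hu⟩ with hb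
  have hbv : algebraMap B Ω b = u ^ p ^ n := rfl
  have hq0 : (p ^ n : ℕ) ≠ 0 := pow_ne_zero n hp.out.ne_zero
  have halg : IsAlgebraic B (θ ^ p ^ n - u ^ p ^ n) :=
    ((hint.pow _).sub (hbv ▸ isIntegral_algebraMap)).isAlgebraic
  have hroot : aeval (θ' ^ p ^ n - u ^ p ^ n) (minpoly B (θ ^ p ^ n - u ^ p ^ n)) = 0 := by
    set H : B[X] := (minpoly B (θ ^ p ^ n - u ^ p ^ n)).comp (X ^ p ^ n - Polynomial.C b) with hH
    have h1 : ∀ s : Ω, aeval s H = aeval (s ^ p ^ n - u ^ p ^ n)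
        (minpoly B (θ ^ p ^ n - u ^ p ^ n)) := by
      intro s
      rw [hH, aeval_comp, map_sub, map_pow, aeval_X, aeval_C, hbv]
    have h2 : aeval θ H = 0 := by rw [h1, minpoly.aeval]
    obtain ⟨q, hq⟩ := minpoly.dvd B θ h2
    rw [← h1, hq, map_mul, hθ', zero_mul]
  have h4 := D2P.val_root h0 hM halg hroot
  rw [← sub_pow_char_pow, ← sub_pow_char_pow] at h4
  have hne1 : θ - u ≠ 0 := sub_ne_zero.2 hne.symm
  have hne2 : θ' - u ≠ 0 := by
    intro h5
    -- `u = θ'` has the same minimal polynomial: then `θ ^ q = u ^ q`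
    have hg' : minpoly B θ = minpoly B θ' :=
      minpoly.eq_of_irreducible_of_monic (minpoly.irreducible hint) hθ' (minpoly.monic hint)
    have h6 : θ' = u := sub_eq_zero.1 h5
    have h7 : aeval u (X ^ p ^ n - Polynomial.C b) = 0 := by
      rw [map_sub, map_pow, aeval_X, aeval_C, hbv, sub_self]
    have h8 : minpoly B θ ∣ X ^ p ^ n - Polynomial.C b := by
      rw [hg', h6]
      exact minpoly.dvd B u h7
    obtain ⟨q, hq⟩ := h8
    have h9 : aeval θ (X ^ p ^ n - Polynomial.C b) = 0 := by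
      rw [hq, map_mul, minpoly.aeval, zero_mul]
    rw [map_sub, map_pow, aeval_X, aeval_C, hbv] at h9
    rw [← sub_pow_char_pow] at h9
    exact hne1 (pow_eq_zero_iff hq0 |>.1 h9)
  refine ⟨fun h5 => hne2 (by rw [← h5, sub_self]), ?_⟩
  rw [v.map_pow hne2, v.map_pow hne1] at h4
  have h8 : ((p ^ n : ℕ) : ℝ) ≠ 0 := by exact_mod_cast hq0
  have h9 := mul_left_cancel₀ h8 h4
  rw [← neg_sub θ' u, ← neg_sub θ u, v.map_neg _ hne2, v.map_neg _ hne1, h9]

/-- **The étale lemma.** -/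
theorem nbx_deg (h0 : Ctx0 k v) (hB : Cld v B) (h : NBX p v B t fun n F => F * r / p ^ n)
    (hmem : t 0 ∈ B) {n : ℕ} {θ : Ω} (hθ : IsAlgebraic B θ)
    (hdeg : (minpoly B θ).natDegree < p ^ n) : t n ≠ θ ∧ v (t n - θ) ≤ r / p ^ n := by
  classical
  have hint : IsIntegral B θ := hθ.isIntegral
  have hgm : (minpoly B θ).Monic := minpoly.monic hint
  have hd0 : 0 < (minpoly B θ).natDegree := minpoly.natDegree_pos hint
  set G : Polynomial Ω := (minpoly B θ).map (algebraMap B Ω) with hG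
  have hGm : G.Monic := hgm.map _
  have hGs : G.Splits := IsAlgClosed.splits G
  have hGd : G.natDegree = (minpoly B θ).natDegree := hgm.natDegree_map _
  have hGB : G ∈ PI B := fun i => by
    rw [hG, coeff_map]
    exact ((minpoly B θ).coeff i).2
  have hcard : G.roots.card = (minpoly B θ).natDegree := by
    rw [← hGd]
    exact hGs.natDegree_eq_card_roots.symm
  have hN0 : (0 : ℝ) < (minpoly B θ).natDegree := by exact_mod_cast hd0
  have htop : (taylor (t n) G).coeff (minpoly B θ).natDegree = 1 := by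
    rw [← hGd, coeff_taylor_natDegree, hGm.leadingCoeff]
  have hone : ∀ b : ℝ, v.Ge b (G.eval (t n)) → b ≤ (minpoly B θ).natDegree * r / p ^ n := by
    intro b hb
    have h1 := h.nb n G hGB _ hdeg b hb
    rw [htop] at h1
    have h2 := h1 one_ne_zero
    rw [v.map_one] at h2
    linarith
  have hupn : t n ^ p ^ n ∈ B := by
    have h1 := TWC.root_pow_add h.root 0 n
    rw [zero_add] at h1
    rw [h1]
    exact hmem
  have hne : t n ≠ θ := by
    intro h1
    have h2 : G.eval (t n) = 0 := by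
      rw [h1, hG, eval_map_algebraMap, minpoly.aeval]
    have h3 := hone ((minpoly B θ).natDegree * r / p ^ n + 1) (by rw [h2]; exact RVal.Ge.zero)
    linarith
  refine ⟨hne, ?_⟩
  have hroot : ∀ θ' ∈ G.roots, t n ≠ θ' ∧ v (t n - θ') = v (t n - θ) := by
    intro θ' hθ'
    refine val_sub_conj p h0 hB hupn hθ ?_ hne
    have h1 := (mem_roots hGm.ne_zero).1 hθ'
    rwa [IsRoot.def, hG, eval_map_algebraMap] at h1
  have hprod : ∀ S : Multiset Ω, (∀ θ' ∈ S, t n ≠ θ' ∧ v (t n - θ') = v (t n - θ)) →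
      v.Ge (S.card * v (t n - θ)) (S.map fun a => t n - a).prod := by
    intro S hS
    induction S using Multiset.induction_on with
    | empty =>
      rw [Multiset.card_zero, Nat.cast_zero, zero_mul, Multiset.map_zero, Multiset.prod_zero]
      intro _
      rw [v.map_one]
    | cons a S ih =>
      have h1 := hS a (Multiset.mem_cons_self a S)
      have h2 := ih fun θ' h => hS θ' (Multiset.mem_cons_of_mem h)
      rw [Multiset.card_cons, Multiset.map_cons, Multiset.prod_cons]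
      have h3 : ((S.card + 1 : ℕ) : ℝ) * v (t n - θ) =
          v (t n - θ) + S.card * v (t n - θ) := by
        push_cast
        ring
      rw [h3]
      exact RVal.Ge.mul (fun _ => h1.2.ge) h2
  have h1 := hprod G.roots hroot
  rw [← hGs.eval_eq_prod_roots_of_monic hGm, hcard] at h1
  have h2 := hone _ h1
  have hp0 : (0 : ℝ) < (p : ℝ) ^ n := pow_pos (by exact_mod_cast hp.out.pos) n
  rw [mul_div_assoc] at h2
  exact le_of_mul_le_mul_left h2 hN0

omit [IsAlgClosed Ω] in
/-- The elements of `B(y)` have degree at most that of `y`. -/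
theorem natDegree_le_of_mem_adj {y c : Ω} (hy : IsAlgebraic B y) (hc : c ∈ adj B y) :
    IsAlgebraic B c ∧ (minpoly B c).natDegree ≤ (minpoly B y).natDegree := by
  have hint : IsIntegral B y := hy.isIntegral
  have hfd : FiniteDimensional B (IntermediateField.adjoin B {y}) :=
    IntermediateField.adjoin.finiteDimensional hint
  have hfree : Module.Free B (IntermediateField.adjoin B {y}) := Module.Free.of_divisionRing _ _
  have hcN : c ∈ IntermediateField.adjoin B {y} := D2P.mem_adj_iff.1 hc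
  have h1 : (minpoly B (⟨c, hcN⟩ : IntermediateField.adjoin B {y})).natDegree ≤
      Module.finrank B (IntermediateField.adjoin B {y}) := minpoly.natDegree_le _
  have h2 : minpoly B (⟨c, hcN⟩ : IntermediateField.adjoin B {y}) = minpoly B c :=
    (IntermediateField.minpoly_eq _).trans rfl
  rw [h2, IntermediateField.adjoin.finrank hint] at h1
  refine ⟨?_, h1⟩
  have h3 : IsAlgebraic B (⟨c, hcN⟩ : IntermediateField.adjoin B {y}) :=
    Algebra.IsAlgebraic.isAlgebraic _
  exact h3.algebraMap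

/-- The elements of the closure of `B(y)`. -/
theorem nbx_deg_cadj (h0 : Ctx0 k v) (hB : Cld v B)
    (h : NBX p v B t fun n F => F * r / p ^ n) (hmem : t 0 ∈ B) {n : ℕ} {y c : Ω}
    (hy : IsAlgebraic B y) (hdeg : (minpoly B y).natDegree < p ^ n) (hc : c ∈ cadj v B y) :
    t n ≠ c ∧ v (t n - c) ≤ r / p ^ n := by
  by_contra hcon
  have h1 : v.Ge (r / p ^ n) (t n - c) ∧ Gt v (r / p ^ n) (t n - c) := by
    by_cases h2 : t n = c
    · rw [h2, sub_self]
      exact ⟨RVal.Ge.zero, Gt.zero⟩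
    · have h3 : r / p ^ n < v (t n - c) := by
        by_contra h4
        exact hcon ⟨h2, not_lt.1 h4⟩
      exact ⟨fun _ => h3.le, fun _ => h3⟩
  obtain ⟨c', hc', h2⟩ := mem_clI.1 hc (r / p ^ n + 1)
  obtain ⟨h3, h4⟩ := natDegree_le_of_mem_adj hy hc'
  obtain ⟨h5, h6⟩ := nbx_deg p h0 hB h hmem h3 (h4.trans_lt hdeg)
  have h7 : Gt v (r / p ^ n) (t n - c') := by
    have e : t n - c' = (t n - c) + (c - c') := by ring
    rw [e]
    exact h1.2.add (Gt.of_ge h2 (by linarith))
  exact absurd h6 (not_le.2 (h7 (sub_ne_zero.2 h5)))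

section Tight

variable [CharP k p]

/-- **The étale lemma**, `t` tight. -/
theorem _root_.Pool.Agent.TWC.Tgt.et (h0 : Ctx0 k v) (hc : CompleteV v) (h : Tgt p v B t r) {n : ℕ} {θ : Ω}
    (hθ : IsAlgebraic B θ) (hdeg : (minpoly B θ).natDegree < p ^ n) :
    t n ≠ θ ∧ v (t n - θ) ≤ r / p ^ n := by
  have hp0 : (p : ℝ) ≠ 0 := by exact_mod_cast hp.out.ne_zero
  refine nbx_deg p h0 h.cld (h.snd.nbx' p h0 hc (r := r) ?_) h.mem hθ hdeg
  rw [pow_one, mul_div_cancel₀ _ hp0]

/-- **The étale lemma** in the closure of `B(y)`. -/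
theorem _root_.Pool.Agent.TWC.Tgt.et_cadj (h0 : Ctx0 k v) (hc : CompleteV v) (h : Tgt p v B t r) {n : ℕ} {y c : Ω}
    (hy : IsAlgebraic B y) (hdeg : (minpoly B y).natDegree < p ^ n) (hcc : c ∈ cadj v B y) :
    t n ≠ c ∧ v (t n - c) ≤ r / p ^ n := by
  have hp0 : (p : ℝ) ≠ 0 := by exact_mod_cast hp.out.ne_zero
  refine nbx_deg_cadj p h0 h.cld (h.snd.nbx' p h0 hc (r := r) ?_) h.mem hy hdeg hcc
  rw [pow_one, mul_div_cancel₀ _ hp0]

/-- The closeness of a tight element of `B` at the levels `n`, `p ^ n > [C : B]`, is the same in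
`C`. -/
theorem _root_.Pool.Agent.TWC.Tgt.dst_of_alg (h0 : Ctx0 k v) (hc : CompleteV v) (h : Tgt p v B t r) {n : ℕ} {y : Ω}
    (hBC : B ≤ C) (hC : C ≤ cadj v B y) (hy : IsAlgebraic B y)
    (hdeg : (minpoly B y).natDegree < p ^ n) : Dst v C (t n) (r / p ^ n) := by
  have hn : n ≠ 0 := by
    rintro rfl
    rw [pow_zero] at hdeg
    have := minpoly.natDegree_pos hy.isIntegral
    omega
  obtain ⟨m, rfl⟩ := Nat.exists_eq_succ_of_ne_zero hn
  refine ⟨?_, fun ε hε => ?_⟩
  · rintro ⟨a, ha, h1⟩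
    obtain ⟨h2, h3⟩ := TWC.Tgt.et_cadj p h0 hc h hy hdeg (hC ha)
    exact absurd h3 (not_le.2 (h1 (sub_ne_zero.2 h2)))
  · obtain ⟨a, ha, h1⟩ := (h.dst m).near ε hε
    exact ⟨a, hBC ha, h1⟩

end Tight

end

end Pool.Agent.TWTR
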