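import Pool.Agent.Lib.TWM.A1

/-!
# TANK W, ROW R: the polynomials are dense in `W<z>`, `z` a limit of the roots of `W`

`z` is at distance `< s` of the algebraic elements, and a limit up to `s` of the roots of order
`p ^ j` of the elements of `W`. Then `W[z]` is dense in the closure of `W(z)` (`dense_root`).
-/

set_option autoImplicit false
set_option linter.unusedSectionVars false

open Polynomial

namespace Pool.Agent.TWTR

open Pool.Agent.H15JM (RVal)
open Pool.Agent.LU1 (VPos adj)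
open Pool.Agent.D2 (Ctx0)
open Pool.Agent.D2P (mem_adj_self)
open Pool.Agent.TWM

universe u

variable {k Ω : Type u} [Field k] [Field Ω] [Algebra k Ω] {v : RVal Ω}
  {A W P : IntermediateField k Ω} {z : Ω} {s : ℝ}

/-- If the inverses are limits of polynomials, the polynomials are dense. -/
theorem dense_of_inv (hinv : ∀ f ∈ PI A, f.eval z ≠ 0 → ∀ b : ℝ, ∃ g ∈ PI A,
    v.Ge b ((f.eval z)⁻¹ - g.eval z)) {w : Ω} (hw : w ∈ cadj v A z) (b : ℝ) :
    ∃ f ∈ PI A, v.Ge b (w - f.eval z) := by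
  -- the closure of `A[z]` is a field
  let B : Subfield Ω :=
    { carrier := {w | ∀ b : ℝ, ∃ f ∈ PI A, v.Ge b (w - f.eval z)}
      mul_mem' := by
        intro x y hx hy b
        by_cases hx0 : x = 0
        · exact ⟨0, zero_mem _, by rw [hx0, zero_mul, eval_zero, sub_zero]; exact RVal.Ge.zero⟩
        obtain ⟨g, hg, h2⟩ := hy (b - v x)
        obtain ⟨f, hf, h1⟩ := hx (b - v (g.eval z))
        refine ⟨f * g, mul_mem hf hg, ?_⟩
        rw [eval_mul, show x * y - f.eval z * g.eval z =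
          x * (y - g.eval z) + (x - f.eval z) * g.eval z by ring]
        refine RVal.Ge.add ?_ ?_
        · exact (RVal.Ge.mul (RVal.ge_self x) h2).mono (by linarith)
        · exact (RVal.Ge.mul h1 (RVal.ge_self _)).mono (by linarith)
      one_mem' := fun b => ⟨1, one_mem _, by rw [eval_one, sub_self]; exact RVal.Ge.zero⟩
      add_mem' := by
        intro x y hx hy b
        obtain ⟨f, hf, h1⟩ := hx b
        obtain ⟨g, hg, h2⟩ := hy b
        exact ⟨f + g, add_mem hf hg, by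
          rw [eval_add, add_sub_add_comm]; exact h1.add h2⟩
      zero_mem' := fun b => ⟨0, zero_mem _, by rw [eval_zero, sub_self]; exact RVal.Ge.zero⟩
      neg_mem' := by
        intro x hx b
        obtain ⟨f, hf, h1⟩ := hx b
        exact ⟨-f, neg_mem hf, by rw [eval_neg, ← neg_sub']; exact h1.neg⟩
      inv_mem' := by
        intro x hx b
        by_cases hx0 : x = 0
        · exact ⟨0, zero_mem _, by rw [hx0, inv_zero, eval_zero, sub_zero]; exact RVal.Ge.zero⟩
        -- `x` near `f(z)`, `1/f(z)` near `g(z)`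
        obtain ⟨f, hf, h1⟩ := hx (max (v x + 1) (b + 2 * v x))
        obtain ⟨h2, h3⟩ := Gt.val_eq hx0 (Gt.of_ge h1 (lt_max_of_lt_left (by linarith)))
        obtain ⟨g, hg, h4⟩ := hinv f hf h2 b
        refine ⟨g, hg, ?_⟩
        have h5 : x⁻¹ - g.eval z = -((x - f.eval z) * (x⁻¹ * (f.eval z)⁻¹)) +
            ((f.eval z)⁻¹ - g.eval z) := by
          field_simp
          ring
        rw [h5]
        refine RVal.Ge.add (RVal.Ge.neg ?_) h4
        have h6 := RVal.Ge.mul h1 (RVal.Ge.mul (RVal.Ge.of_le (v := v) (v.map_inv hx0).ge)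
          (RVal.Ge.of_le (v := v) (v.map_inv h2).ge))
        refine h6.mono ?_
        rw [h3]
        have := le_max_right (v x + 1) (b + 2 * v x)
        linarith }
  have h1 : ∀ x ∈ adj A z, x ∈ B := by
    intro x hx
    have h2 : adj A z ≤ B.toIntermediateField (fun c => by
        intro b
        exact ⟨Polynomial.C (algebraMap k Ω c), C_mem_PI (A.algebraMap_mem c), by
          rw [eval_C, sub_self]; exact RVal.Ge.zero⟩) := by
      refine D2P.adj_le (fun a ha => ?_) ?_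
      · intro b
        exact ⟨Polynomial.C a, C_mem_PI ha, by rw [eval_C, sub_self]; exact RVal.Ge.zero⟩
      · intro b
        exact ⟨X, X_mem_PI, by rw [eval_X, sub_self]; exact RVal.Ge.zero⟩
    exact h2 hx
  obtain ⟨x, hx, h2⟩ := hw b
  obtain ⟨f, hf, h3⟩ := h1 x hx b
  refine ⟨f, hf, ?_⟩
  rw [show w - f.eval z = (w - x) + (x - f.eval z) by ring]
  exact h2.add h3

variable {p : ℕ} [hp : Fact p.Prime] [CharP Ω p] [IsAlgClosed Ω]

/-- The inverses of the polynomials over `W` are limits of polynomials over `W`. -/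
theorem inv_root (hz : TL v P z s) (hWP : W ≤ P)
    (hlim : ∀ ε : ℝ, 0 < ε → ∃ (j : ℕ) (a : Ω), a ^ p ^ j ∈ W ∧ v.Ge (s - ε) (z - a))
    {f : Polynomial Ω} (hf : f ∈ PI W) (h0 : f.eval z ≠ 0) (b : ℝ) :
    ∃ g ∈ PI W, v.Ge b ((f.eval z)⁻¹ - g.eval z) := by
  have hf0 : f ≠ 0 := by
    rintro rfl
    exact h0 eval_zero
  obtain ⟨δ, hδ, h1⟩ := hz.near (PI_mono (le_algc P) (PI_mono hWP hf)) hf0
  obtain ⟨j, a, ha, h2⟩ := hlim δ hδ
  have h3 := h1 a h2
  obtain ⟨h4, h5⟩ := Gt.val_eq h0 (Gt.of_ge h3 (by linarith))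
  set q := p ^ j with hq
  have hq0 : 0 < q := pow_pos hp.out.pos j
  have hq1 : (1 : ℝ) ≤ q := by exact_mod_cast hq0
  -- `f(z) ^ q = c (1 - t)`, `c = f(a) ^ q`
  set c := f.eval a ^ q with hc
  have hcW : c ∈ W := by
    have h6 : c = (f.map (iterateFrobenius Ω p j)).eval (a ^ q) := by
      rw [eval_map, ← iterateFrobenius_def, eval₂_at_apply, iterateFrobenius_def]
    rw [h6]
    refine eval_mem (fun i => ?_) ha
    rw [coeff_map, iterateFrobenius_def]
    exact pow_mem (hf i) _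
  have hc0 : c ≠ 0 := pow_ne_zero _ h4
  set t := 1 - f.eval z ^ q / c with ht
  have htv : v.Ge δ t := by
    have h6 : t = -((f.eval z - f.eval a) ^ q * c⁻¹) := by
      rw [hq, sub_pow_char_pow, ← hq, ← hc, ht]
      field_simp
      ring
    rw [h6]
    refine RVal.Ge.neg ?_
    have h7 := RVal.Ge.mul (ge_pow h3 q) (RVal.Ge.of_le (v := v) (v.map_inv hc0).ge)
    refine h7.mono ?_
    rw [hc, v.map_pow h4, h5]
    nlinarith
  -- the geometric sum
  obtain ⟨n, hn⟩ := exists_nat_gt ((b + v (f.eval z)) / δ)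
  let T : Polynomial Ω := 1 - f ^ q * Polynomial.C c⁻¹
  have hT : T ∈ PI W := sub_mem (one_mem _) (mul_mem (pow_mem hf q) (C_mem_PI (inv_mem hcW)))
  have hTz : T.eval z = t := by
    show (1 - f ^ q * Polynomial.C c⁻¹).eval z = _
    rw [eval_sub, eval_one, eval_mul, eval_pow, eval_C, ht, div_eq_mul_inv]
  refine ⟨Polynomial.C c⁻¹ * f ^ (q - 1) * ∑ i ∈ Finset.range n, T ^ i,
    mul_mem (mul_mem (C_mem_PI (inv_mem hcW)) (pow_mem hf _)) (sum_mem fun i _ => pow_mem hT i), ?_⟩
  rw [eval_mul, eval_mul, eval_C, eval_pow, eval_finsetSum]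
  simp only [eval_pow, hTz]
  have h8 : f.eval z ^ q = c * (1 - t) := by rw [ht]; field_simp; ring
  have h9 : (1 - t) * ∑ i ∈ Finset.range n, t ^ i = 1 - t ^ n := mul_neg_geom_sum t n
  have h1t : 1 - t ≠ 0 := by
    intro h10
    rw [h10, mul_zero] at h8
    exact pow_ne_zero _ h0 h8
  have h10 : (f.eval z)⁻¹ - c⁻¹ * f.eval z ^ (q - 1) * ∑ i ∈ Finset.range n, t ^ i =
      (f.eval z)⁻¹ * t ^ n := by
    have h11 : ∑ i ∈ Finset.range n, t ^ i = (1 - t ^ n) / (1 - t) := by
      rw [← h9]; field_simp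
    have h12 : c⁻¹ * f.eval z ^ (q - 1) = (1 - t) * (f.eval z)⁻¹ := by
      have h13 : f.eval z ^ (q - 1) * f.eval z = f.eval z ^ q := by
        rw [← pow_succ, Nat.sub_add_cancel hq0]
      field_simp
      rw [h13, h8]
    rw [h12, h11]
    field_simp
    ring
  rw [h10]
  refine (RVal.Ge.mul (RVal.Ge.of_le (v.map_inv h0).ge) (ge_pow htv n)).mono ?_
  rw [div_lt_iff₀ hδ] at hn
  linarith

/-- **The polynomials over `W` are dense in `W<z>`.** -/
theorem dense_root (hz : TL v P z s) (hWP : W ≤ P)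
    (hlim : ∀ ε : ℝ, 0 < ε → ∃ (j : ℕ) (a : Ω), a ^ p ^ j ∈ W ∧ v.Ge (s - ε) (z - a))
    {w : Ω} (hw : w ∈ cadj v W z) (b : ℝ) : ∃ f ∈ PI W, v.Ge b (w - f.eval z) :=
  dense_of_inv (fun _ hf h0 b => inv_root hz hWP hlim hf h0 b) hw b

end Pool.Agent.TWTR
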