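import Pool.Agent.Lib.TWTR.UpB
import Pool.Agent.Lib.TWTR.Letter
import Pool.Agent.Lib.TWTR.DensW

/-!
# TANK W, ROW R: the upper bound for the closeness of a letter, in `W<z>`

`W` with a letter `t` (`Lt p v W t ν`), `z` of radius `0` over the closure `EW v W t` of the union
of the `W(t n)`, and `z` within `- M / p ^ (j + 1)` of the roots of order `p ^ j` of `W`, for all
`j`. If `2 ν ≤ (p - 1) M`, no element of `C = W<z>` is at distance
`> (v (t 0) + ν + M) / p ^ n` of `t n`, `n ≥ 1` (`Lt.upper`).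
-/

set_option autoImplicit false
set_option linter.unusedSectionVars false

open Polynomial

namespace Pool.Agent.TWTR

open Pool.Agent.H15JM (RVal)
open Pool.Agent.LU1 (VPos adj)
open Pool.Agent.D2 (Ctx0)
open Pool.Agent.D2P (hen clI mem_clI rootF mem_rootF)
open Pool.Agent.TWM hiding comp_mem_PI
open Pool.Agent.TWC (EW NBX Dst taylor_expand_pow)

universe u

variable {k Ω : Type u} [Field k] [Field Ω] [Algebra k Ω] {v : RVal Ω}
  {W P : IntermediateField k Ω} {t : ℕ → Ω} {z : Ω} {ν M ε : ℝ} {p : ℕ}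

/-- The value of a polynomial at a root of order `N` of `W` is the value of a polynomial of degree
`< N`. -/
theorem exists_low {N : ℕ} (hN : 0 < N) {c y : Ω} (hc : c ∈ W) (hy : y ^ N = c)
    {Q : Polynomial Ω} (hQ : Q ∈ PI W) : ∃ Q' ∈ PI W, Q'.natDegree < N ∧ Q'.eval y = Q.eval y := by
  have hl : Q ∈ Polynomial.lifts (algebraMap W Ω) := by
    rw [Polynomial.lifts_iff_coeff_lifts]
    exact fun i => ⟨⟨Q.coeff i, hQ i⟩, rfl⟩
  obtain ⟨g, hg⟩ := hl
  have hg' : g.map (algebraMap W Ω) = Q := hg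
  set m : Polynomial W := X ^ N - C (⟨c, hc⟩ : W) with hm
  have hmon : m.Monic := monic_X_pow_sub_C _ hN.ne'
  have hmd : m.natDegree = N := natDegree_X_pow_sub_C
  refine ⟨(g %ₘ m).map (algebraMap W Ω), fun i => by
    rw [coeff_map]
    exact SetLike.coe_mem _, ?_, ?_⟩
  · refine lt_of_le_of_lt natDegree_map_le ?_
    have h1 := natDegree_modByMonic_lt g hmon (by
      intro h
      rw [h, natDegree_one] at hmd
      omega)
    rwa [hmd] at h1
  · rw [eval_map_algebraMap, ← hg', eval_map_algebraMap]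
    have h1 := congrArg (aeval y) (modByMonic_add_div g m)
    rw [map_add, map_mul] at h1
    have h2 : aeval y m = 0 := by
      rw [hm, map_sub, map_pow, aeval_X, aeval_C, hy]
      exact sub_self _
    rw [h2, zero_mul, add_zero] at h1
    exact h1

variable [hp : Fact p.Prime] [CharP k p] [CharP Ω p] [IsAlgClosed Ω]

/-- The jets of a digit. -/
theorem Lt.digit (h0 : Ctx0 k v) (hc : CompleteV v) (h : Lt p v W t ν) (hM : 0 ≤ M)
    (hνM : 2 * ν ≤ (p - 1) * M) (hε : 0 ≤ ε) {i : ℕ} {ω : Ω} (hω : ω ^ p ^ (i + 1) ∈ W)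
    (hb : v.Ge (-((M + ε) / p ^ (i + 1))) ω) :
    ∃ Q ∈ PI W, Q.eval (t (i + 1)) = ω ∧ ∀ F : ℕ, 1 ≤ F →
      v.Ge (-(F * ((v (t 0) + ν + M + ε) / p ^ (i + 1)))) ((taylor (t (i + 1)) Q).coeff F) := by
  have hp0 : (0 : ℝ) < p := by exact_mod_cast hp.out.pos
  have hp2 : (2 : ℝ) ≤ p := by exact_mod_cast hp.out.two_le
  have hpn : (0 : ℝ) < (p : ℝ) ^ (i + 1) := by positivity
  obtain ⟨Q0, hQ0, hev0⟩ := h.rts hω
  have ht : t (i + 1) ^ p ^ (i + 1) = t 0 := by
    have := h.tpow 0 (i + 1)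
    rwa [zero_add] at this
  obtain ⟨Q, hQ, hdeg, hev⟩ := exists_low (pow_pos hp.out.pos (i + 1)) h.mem ht hQ0
  rw [hev0] at hev
  refine ⟨Q, hQ, hev, fun F hF => ?_⟩
  rw [← hev] at hb
  rcases Nat.lt_or_ge F (p ^ (i + 1)) with hlt | hge
  swap
  · rw [coeff_eq_zero_of_natDegree_lt (by rw [natDegree_taylor]; omega)]
    exact RVal.Ge.zero
  rcases Nat.lt_or_ge 1 F with h1 | h1
  · -- the higher jets
    have h2 := (h.nbx h0 hc).nb (i + 1) Q hQ F hlt _ hb
    refine h2.mono ?_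
    have hF2 : (2 : ℝ) ≤ F := by exact_mod_cast h1
    have hq : (0 : ℝ) < (p : ℝ) - 1 := by linarith
    have h3 : -(F * ((v (t 0) + ν + M + ε) / (p : ℝ) ^ (i + 1))) =
        -(F * (v (t 0) + ν + M + ε)) / (p : ℝ) ^ (i + 1) := by ring
    have h4 : -((M + ε) / (p : ℝ) ^ (i + 1)) -
        F * (v (t 0) + ν * (p / (p - 1))) / (p : ℝ) ^ (i + 1) =
        (-(M + ε) - F * (v (t 0) + ν * (p / (p - 1)))) / (p : ℝ) ^ (i + 1) := by ring
    rw [h3, h4]
    refine div_le_div_of_nonneg_right ?_ hpn.le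
    have h5 : ν * (p / (p - 1)) = ν + ν / (p - 1) := by
      field_simp
      ring
    have h6 : ν / (p - 1) ≤ M / 2 := by
      rw [div_le_div_iff₀ hq two_pos]
      nlinarith
    rw [h5]
    nlinarith
  · -- the first jet
    have hF1 : F = 1 := le_antisymm h1 hF
    subst hF1
    have h2 := h.ld' h0 hc hQ i (a := 0) (by
      rw [zero_pow (pow_pos hp.out.pos _).ne']
      exact zero_mem W) (b := -((M + ε) / p ^ (i + 1))) (by rwa [sub_zero])
    rw [taylor_coeff_one, Nat.cast_one, one_mul]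
    have h3 : (derivative Q).eval (t (i + 1)) =
        (t (i + 1))⁻¹ * (t (i + 1) * (derivative Q).eval (t (i + 1))) := by
      rw [inv_mul_cancel_left₀ (h.tne _)]
    rw [h3]
    have h4 : v.Ge (-(v (t 0) / p ^ (i + 1))) (t (i + 1))⁻¹ := fun _ => by
      rw [v.map_inv (h.tne _), h.val (i + 1)]
    refine (h4.mul h2).mono (le_of_eq ?_)
    field_simp
    ring

/-- The natural jets of `z`. -/
theorem Lt.nat (h0 : Ctx0 k v) (hc : CompleteV v) (h : Lt p v W t ν) (hM : 0 ≤ M)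
    (hνM : 2 * ν ≤ (p - 1) * M)
    (hN : ∀ (j : ℕ) (ε : ℝ), 0 < ε → ∃ a : Ω, a ^ p ^ j ∈ W ∧
      v.Ge (-(M / p ^ (j + 1)) - ε) (z - a)) (hε : 0 < ε) (N₀ : ℕ) :
    ∃ N ≥ N₀, ∃ w ∈ PI W, v.Ge (-ε) (z - w.eval (t N)) ∧
      ∀ j : ℕ, 1 ≤ j →
        v.Ge (-(j * ((v (t 0) + ν + M + ε) / p ^ N))) ((taylor (t N) w).coeff j) := by
  have hp0 : (0 : ℝ) < p := by exact_mod_cast hp.out.pos
  have hp1 : (1 : ℝ) < p := by exact_mod_cast hp.out.one_lt
  -- `N`
  obtain ⟨N₁, hN₁⟩ := pow_unbounded_of_one_lt (2 * M / ε) hp1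
  set N := max N₀ N₁ with hNdef
  have hNM : M / p ^ (N + 1) ≤ ε / 2 := by
    rw [div_le_div_iff₀ (by positivity) two_pos]
    have h1 : (p : ℝ) ^ N₁ ≤ p ^ (N + 1) := pow_le_pow_right₀ hp1.le (by omega)
    rw [div_lt_iff₀ hε] at hN₁
    nlinarith
  set ε' : ℝ := ε / (2 * p ^ N) with hε'
  have hε'0 : 0 < ε' := by positivity
  have hε'1 : ∀ i ≤ N, ε' ≤ ε / p ^ i := by
    intro i hi
    rw [hε']
    refine div_le_div_of_nonneg_left hε.le (by positivity) ?_
    have h1 : (p : ℝ) ^ i ≤ p ^ N := pow_le_pow_right₀ hp1.le hi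
    nlinarith [pow_pos hp0 N]
  have hε'2 : ε' ≤ ε / 2 := by
    rw [hε']
    refine div_le_div_of_nonneg_left hε.le two_pos ?_
    have h1 : (1 : ℝ) ≤ p ^ N := one_le_pow₀ hp1.le
    linarith
  choose a ha1 ha2 using fun j => hN j ε' hε'0
  have key : ∀ i ≤ N, ∃ w ∈ PI W, w.eval (t i) = a i ∧ ∀ j : ℕ, 1 ≤ j →
      v.Ge (-(j * ((v (t 0) + ν + M + ε) / p ^ i))) ((taylor (t i) w).coeff j) := by
    intro i
    induction i with
    | zero =>
      intro _
      refine ⟨C (a 0), C_mem_PI ?_, eval_C, fun j hj => ?_⟩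
      · have := ha1 0
        rwa [pow_zero, pow_one] at this
      · rw [taylor_C, coeff_C, if_neg (by omega)]
        exact RVal.Ge.zero
    | succ i ih =>
      intro hi
      obtain ⟨w, hw, hwe, hwj⟩ := ih (by omega)
      have hω : (a (i + 1) - a i) ^ p ^ (i + 1) ∈ W := by
        rw [sub_pow_char_pow]
        refine sub_mem (ha1 (i + 1)) ?_
        rw [pow_succ, pow_mul]
        exact pow_mem (ha1 i) p
      have hωb : v.Ge (-((M + ε) / p ^ (i + 1))) (a (i + 1) - a i) := by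
        have h1 : a (i + 1) - a i = (z - a i) - (z - a (i + 1)) := by ring
        rw [h1]
        have h2 := hε'1 (i + 1) hi
        have h3 : (M + ε) / p ^ (i + 1) = M / p ^ (i + 1) + ε / p ^ (i + 1) := add_div _ _ _
        refine RVal.Ge.sub ((ha2 i).mono ?_) ((ha2 (i + 1)).mono ?_)
        · rw [h3]
          linarith
        · rw [h3]
          have h4 : M / p ^ (i + 1 + 1) ≤ M / p ^ (i + 1) :=
            div_le_div_of_nonneg_left hM (by positivity)
              (pow_le_pow_right₀ hp1.le (by omega))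
          linarith
      obtain ⟨Q, hQ, hQe, hQj⟩ := h.digit h0 hc hM hνM hε.le hω hωb
      refine ⟨expand Ω p w + Q, add_mem (TWC.expand_mem_PI hp.out.pos hw) hQ, ?_, fun j hj => ?_⟩
      · rw [eval_add, expand_eval, h.root, hwe, hQe]
        ring
      · rw [map_add, coeff_add]
        refine RVal.Ge.add ?_ (hQj j hj)
        have h1 := taylor_expand_pow (p := p) 1 (t (i + 1)) w
        rw [pow_one, h.root] at h1
        rw [h1, coeff_expand hp.out.pos]
        split_ifs with hd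
        · obtain ⟨m, rfl⟩ := hd
          rw [Nat.mul_div_cancel_left _ hp.out.pos]
          have hm : 1 ≤ m := Nat.one_le_iff_ne_zero.2 (by
            rintro rfl
            omega)
          refine (hwj m hm).mono (le_of_eq ?_)
          push_cast
          rw [pow_succ]
          field_simp
        · exact RVal.Ge.zero
  obtain ⟨w, hw, hwe, hwj⟩ := key N le_rfl
  refine ⟨N, le_max_left _ _, w, hw, ?_, hwj⟩
  rw [hwe]
  exact (ha2 N).mono (by linarith)

/-- **The upper bound.** -/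
theorem Lt.upper (h0 : Ctx0 k v) (hc : CompleteV v) (h : Lt p v W t ν) (hM : 0 ≤ M)
    (hνM : 2 * ν ≤ (p - 1) * M) (hWP : W ≤ P) (htP : ∀ n, t n ∈ P) (hz : TL v P z 0)
    (hN : ∀ (j : ℕ) (ε : ℝ), 0 < ε → ∃ a : Ω, a ^ p ^ j ∈ W ∧
      v.Ge (-(M / p ^ (j + 1)) - ε) (z - a)) {n : ℕ} (hn : 1 ≤ n) {c : Ω}
    (hcm : c ∈ cadj v W z) {D : ℝ} (hD : v.Ge D (t n - c)) :
    D ≤ (v (t 0) + ν + M) / p ^ n := by
  have hp0 : (0 : ℝ) < p := by exact_mod_cast hp.out.pos
  have hp1 : (1 : ℝ) < p := by exact_mod_cast hp.out.one_lt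
  have hq : (0 : ℝ) < (p : ℝ) - 1 := by linarith
  have hlim : ∀ ε : ℝ, 0 < ε → ∃ (j : ℕ) (a : Ω), a ^ p ^ j ∈ W ∧ v.Ge (0 - ε) (z - a) := by
    intro ε hε
    obtain ⟨N₁, hN₁⟩ := pow_unbounded_of_one_lt (2 * M / ε) hp1
    obtain ⟨a, ha, h1⟩ := hN N₁ (ε / 2) (by positivity)
    refine ⟨N₁, a, ha, h1.mono ?_⟩
    have h2 : M / p ^ (N₁ + 1) ≤ ε / 2 := by
      rw [div_le_div_iff₀ (by positivity) two_pos]
      have h3 : (p : ℝ) ^ N₁ ≤ p ^ (N₁ + 1) := pow_le_pow_right₀ hp1.le (by omega)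
      rw [div_lt_iff₀ hε] at hN₁
      nlinarith
    linarith
  obtain ⟨f, hf, hfc⟩ := dense_root hz hWP hlim hcm D
  have hDf : v.Ge D (t n - f.eval z) := by
    have h1 : t n - f.eval z = (t n - c) + (c - f.eval z) := by ring
    rw [h1]
    exact hD.add hfc
  -- the polynomial `X - f(Y)`
  set G : ℕ → Polynomial Ω := fun i => if i = 0 then -f else 1 with hG
  refine upper_core (v := v) (p := p) (W := W) (P := P) (x := t) (z := z)
    (A := v (t 0) + ν + M) (B := v (t 0) + ν * (p / (p - 1))) (D := D) (n := n) (d := 0)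
    (G := G) (S := {f.eval z}) h.root hWP htP ?_ ?_ ?_ ?_ (by omega) ?_ ?_ ?_ ?_ ?_
  · intro N Q hQ F hF b hb
    have h1 := (h.nbx h0 hc).nb N Q hQ F hF b hb
    rwa [mul_div_assoc] at h1
  · intro g hg r hr l
    by_cases hg0 : g = 0
    · rw [hg0, map_zero, coeff_zero]
      exact RVal.Ge.zero
    · have h1 := hz.weak (PI_mono (le_algc P) hg) hg0 l
      rw [mul_zero, sub_zero] at h1
      exact h1.mono (hr (hz.eval_ne (PI_mono (le_algc P) hg) hg0))
  · intro ε hε N₀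
    exact h.nat h0 hc hM hνM hN hε N₀
  · have h1 : ν * (p / (p - 1)) = ν + ν / (p - 1) := by
      field_simp
      ring
    have h2 : ν / (p - 1) ≤ M := by
      rw [div_le_iff₀ hq]
      have := h.nonneg
      nlinarith
    rw [h1]
    linarith
  · intro i
    rw [hG]
    dsimp only
    split_ifs
    · exact neg_mem hf
    · exact one_mem _
  · rw [hG, pow_zero]
    rfl
  · rw [Multiset.card_singleton, pow_zero]
  · rw [pow_zero, Finset.sum_range_succ, Finset.sum_range_one, hG]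
    simp
    ring
  · intro c hc
    rw [Multiset.mem_singleton.1 hc]
    exact hDf

end Pool.Agent.TWTR
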