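import Pool.Agent.Lib.TWTR.Boot3
import Pool.Agent.Lib.TWTR.UpC
import Pool.Agent.Lib.TWTR.ET
import Pool.Agent.Lib.TWTR.BasL

/-!
# TANK W, ROW R: the closeness of the letters in `W<z>`, from the gaps of `A(z)`

`z` at distance `< 0` of the algebraic elements over `W`, `A` an additive polynomial with constant
coefficients, `A(z)` with gaps `≤ m` at all levels, and for all `B ≠ 0` the gaps of `B(A(z))` are
not eventually `< m` (`> 0`). Then every letter `X` of `W` with a small defect is, from some level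
on, at distance `(q + m) / p ^ (n + 1)` of `W<z>` (`clo_of_min`; the conclusion is `TWF.Clo`).
-/

set_option autoImplicit false
set_option linter.unusedSectionVars false

open Polynomial

namespace Pool.Agent.TWTR

open Pool.Agent.H15JM (RVal)
open Pool.Agent.LU1 (VPos adj)
open Pool.Agent.D2 (Ctx0)
open Pool.Agent.D2P (hen clI mem_clI rootF mem_rootF)
open Pool.Agent.TWM hiding comp_mem_PI
open Pool.Agent.TWC (EW NBX Dst Tgt)
open Pool.Agent.TWF (perfC mem_perfC le_perfC perfC_le_algc)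

universe u

variable {k Ω : Type u} [Field k] [Field Ω] [Algebra k Ω] {v : RVal Ω}
  {W : IntermediateField k Ω} {t : ℕ → Ω} {z : Ω} {ν m : ℝ} {p : ℕ}

/-- The additive polynomial `∑ c_i X ^ (p ^ i)`. -/
noncomputable def opPol (Ω : Type u) [Field Ω] [Algebra k Ω] (p : ℕ) (A : Polynomial k) :
    Polynomial Ω :=
  A.sum fun i c => C (algebraMap k Ω c) * X ^ p ^ i

theorem eval_opPol (A : Polynomial k) (z : Ω) : (opPol Ω p A).eval z = opB p A z := by
  rw [opPol, opB, Polynomial.sum, Polynomial.sum, eval_finsetSum]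
  refine Finset.sum_congr rfl fun i _ => ?_
  rw [eval_mul, eval_C, eval_pow, eval_X]

theorem opPol_mem (A : Polynomial k) : opPol Ω p A ∈ PI W := by
  rw [opPol, Polynomial.sum]
  exact sum_mem fun i _ => mul_mem (C_mem_PI (W.algebraMap_mem _)) (pow_mem X_mem_PI _)

theorem coeff_opPol (hp : p.Prime) (A : Polynomial k) (i : ℕ) :
    (opPol Ω p A).coeff (p ^ i) = algebraMap k Ω (A.coeff i) := by
  rw [opPol, Polynomial.sum, finsetSum_coeff]
  have h1 : ∀ j ∈ A.support, (C (algebraMap k Ω (A.coeff j)) * X ^ p ^ j).coeff (p ^ i) =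
      if j = i then algebraMap k Ω (A.coeff i) else 0 := by
    intro j _
    rw [coeff_C_mul, coeff_X_pow]
    by_cases hj : j = i
    · subst hj
      simp
    · have h2 : ¬ p ^ i = p ^ j := fun h => hj (Nat.pow_right_injective hp.two_le h).symm
      rw [if_neg h2, if_neg hj, mul_zero]
  rw [Finset.sum_congr rfl h1, Finset.sum_ite_eq']
  split_ifs with h
  · rfl
  · rw [notMem_support_iff.1 h, map_zero]

theorem natDegree_opPol_le (hp : p.Prime) (A : Polynomial k) :
    (opPol Ω p A).natDegree ≤ p ^ A.natDegree := by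
  rw [opPol, Polynomial.sum]
  refine natDegree_sum_le_of_forall_le _ _ fun i hi => ?_
  refine (natDegree_C_mul_X_pow_le _ _).trans ?_
  exact Nat.pow_le_pow_right hp.pos (le_natDegree_of_mem_supp i hi)

/-- `A(z) - θ`, of exact degree `p ^ deg A`, with a constant leading coefficient. -/
theorem natDegree_opPol_sub (hp : p.Prime) {A : Polynomial k} (hA : A ≠ 0) (θ : Ω) :
    (opPol Ω p A - C θ).natDegree = p ^ A.natDegree ∧
      (opPol Ω p A - C θ).coeff (p ^ A.natDegree) = algebraMap k Ω A.leadingCoeff := by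
  have h1 : (opPol Ω p A - C θ).coeff (p ^ A.natDegree) = algebraMap k Ω A.leadingCoeff := by
    rw [coeff_sub, coeff_opPol hp, coeff_C, if_neg (pow_pos hp.pos _).ne', sub_zero]
    rfl
  refine ⟨le_antisymm ?_ ?_, h1⟩
  · refine (natDegree_sub_le _ _).trans (max_le (natDegree_opPol_le hp A) ?_)
    rw [natDegree_C]
    exact Nat.zero_le _
  · refine le_natDegree_of_ne_zero ?_
    rw [h1]
    exact (_root_.map_ne_zero _).2 (leadingCoeff_ne_zero.2 hA)

variable [hp : Fact p.Prime] [CharP k p] [CharP Ω p] [IsAlgClosed Ω]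

/-- `A(z)` is at distance `< 0` of the algebraic elements. -/
theorem far_opB (h0 : Ctx0 k v) (hfar : ∀ θ, IsAlgebraic W θ → z ≠ θ ∧ v (z - θ) < 0)
    {A : Polynomial k} (hA : A ≠ 0) {θ : Ω} (hθ : IsAlgebraic W θ) :
    opB p A z ≠ θ ∧ v (opB p A z - θ) < 0 := by
  set f : Polynomial Ω := opPol Ω p A - C θ with hf
  have hfm : f ∈ PI (algc W) :=
    sub_mem (PI_mono (le_algc W) (opPol_mem A)) (C_mem_PI (mem_algc.2 hθ))
  obtain ⟨hdeg, hlc⟩ := natDegree_opPol_sub (Ω := Ω) hp.out hA θ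
  rw [← hf] at hdeg hlc
  have hc : algebraMap k Ω A.leadingCoeff ≠ 0 := (_root_.map_ne_zero _).2 (leadingCoeff_ne_zero.2 hA)
  have hf0 : f ≠ 0 := by
    rintro h
    rw [h, coeff_zero] at hlc
    exact hc hlc.symm
  have hev : f.eval z = opB p A z - θ := by rw [hf, eval_sub, eval_C, eval_opPol]
  have hstr : Str v 0 (taylor z f) := by
    have h1 := (IsAlgClosed.splits f).eq_prod_roots
    rw [h1, taylor_mul, taylor_C]
    refine Str.mul (Str.C (leadingCoeff_ne_zero.2 hf0)) (Str.multiset _ fun r hr => ?_)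
    rw [mem_roots hf0] at hr
    exact hfar r (isAlgebraic_of_algc (isAlgebraic_root hfm hf0 hr))
  have h1 := hstr.ne
  rw [taylor_coeff_zero, hev] at h1
  refine ⟨sub_ne_zero.1 h1, ?_⟩
  have h2 := hstr.gt (p ^ A.natDegree) (Nat.one_le_pow _ _ hp.out.pos)
  have h3 : (taylor z f).coeff (p ^ A.natDegree) = algebraMap k Ω A.leadingCoeff := by
    rw [← hdeg, coeff_taylor_natDegree, leadingCoeff, hdeg, hlc]
  rw [h3, taylor_coeff_zero, hev, mul_zero, sub_zero] at h2
  have h4 := h2 hc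
  rwa [h0.triv _ (leadingCoeff_ne_zero.2 hA)] at h4

/-- **From the gaps of `A(z)` to the closeness of the letters in `W<z>`.** -/
theorem clo_of_min (h0 : Ctx0 k v) (hc : CompleteV v) (hL : Lt p v W t ν)
    (hfar : ∀ θ, IsAlgebraic W θ → z ≠ θ ∧ v (z - θ) < 0) {A : Polynomial k} (hA : A ≠ 0)
    (hm : 0 < m) (hnear : ∀ j, NearB p v W 0 j m (opB p A z))
    (hmin : ∀ B : Polynomial k, B ≠ 0 → ∀ m' < m, ∀ j₀ : ℕ, ∃ j ≥ j₀,
      ¬ NearB p v W 0 j m' (opB p B (opB p A z))) :
    ∃ (M : ℝ) (n₀ : ℕ) (δ₀ : ℝ), 0 < M ∧ 0 < δ₀ ∧ ∀ (X : ℕ → Ω) (q : ℝ), X 0 ∈ W → X 0 ≠ 0 →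
      (∀ n, X (n + 1) ^ p = X n) → Dst v W (X 1) (q / p) → q - v (X 0) ≤ δ₀ →
        ∀ n, n₀ ≤ n → Dst v (cadj v W z) (X (n + 1)) ((q + M) / p ^ (n + 1)) := by
  have hp0 : (0 : ℝ) < p := by exact_mod_cast hp.out.pos
  have hp1 : (1 : ℝ) < p := by exact_mod_cast hp.out.one_lt
  have hq : (0 : ℝ) < (p : ℝ) - 1 := by linarith
  set z' := opB p A z with hz'
  set C' := cadj v W z' with hC'
  have hWC' : W ≤ C' := le_cadj v W z'
  have hzC' : z' ∈ C' := self_mem_cadj v W z'
  have hnear' := fun j => nearB_zero.1 (hnear j)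
  -- `z'` over the perfect closure
  have hTL : TL v (perfC p W) z' 0 := by
    refine ⟨fun ε hε => ?_, fun θ hθ => ?_⟩
    · obtain ⟨N, hN⟩ := pow_unbounded_of_one_lt (2 * m / ε) hp1
      obtain ⟨a, ha, h1⟩ := hnear' N (ε / 2) (by positivity)
      refine ⟨a, (mem_perfC p).2 ⟨N, ha⟩, h1.mono ?_⟩
      have h2 : m / p ^ (N + 1) ≤ ε / 2 := by
        rw [div_le_div_iff₀ (by positivity) two_pos]
        have h3 : (p : ℝ) ^ N ≤ p ^ (N + 1) := pow_le_pow_right₀ hp1.le (by omega)
        rw [div_lt_iff₀ hε] at hN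
        nlinarith
      linarith
    · exact far_opB h0 hfar hA (isAlgebraic_of_algc
        (D2P.isAlgebraic_mono (perfC_le_algc p W) hθ))
  -- the precision
  have hB : BH p v W C' m := hL.bh h0 hc hm hzC' hnear hmin
  have hS : ∀ n, 1 ≤ n → Shf p v W C' n (m / (p : ℝ) ^ n) := fun n hn =>
    hL.shf h0 hm hWC' hB n hn
  -- `z` is algebraic over `C'`
  have hzalg : IsAlgebraic C' z ∧ (minpoly C' z).natDegree ≤ p ^ A.natDegree := by
    obtain ⟨hdeg, hlc⟩ := natDegree_opPol_sub (Ω := Ω) hp.out hA z'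
    have hfm : opPol Ω p A - C z' ∈ PI C' := sub_mem (opPol_mem A) (C_mem_PI hzC')
    have hl : opPol Ω p A - C z' ∈ Polynomial.lifts (algebraMap C' Ω) := by
      rw [Polynomial.lifts_iff_coeff_lifts]
      exact fun i => ⟨⟨_, hfm i⟩, rfl⟩
    obtain ⟨g, hg⟩ := hl
    have hg' : g.map (algebraMap C' Ω) = opPol Ω p A - C z' := hg
    have hgdeg : g.natDegree = p ^ A.natDegree := by rw [← natDegree_map (algebraMap C' Ω), hg', hdeg]
    have hg0 : g ≠ 0 := by
      rintro rfl
      rw [natDegree_zero] at hgdeg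
      exact (pow_pos hp.out.pos _).ne hgdeg
    have hgz : aeval z g = 0 := by
      rw [← eval_map_algebraMap, hg', eval_sub, eval_C, eval_opPol, sub_self]
    refine ⟨⟨g, hg0, hgz⟩, ?_⟩
    rw [← hgdeg]
    exact natDegree_le_of_dvd (minpoly.dvd C' z hgz) hg0
  have hC'C : C' ≤ cadj v W z := by
    refine cadj_le (cld_cadj v W z) (le_cadj v W z) ?_
    rw [hz', ← eval_opPol]
    exact eval_mem (opPol_mem A) (self_mem_cadj v W z)
  have hCC' : cadj v W z ≤ cadj v C' z :=
    cadj_le (cld_cadj v C' z) (hWC'.trans (le_cadj v C' z)) (self_mem_cadj v C' z)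
  refine ⟨m, A.natDegree + 1, (p - 1) * m / 2, hm, by positivity, fun X q hX0 hX hr hd hδ n hn => ?_⟩
  have hLX : Lt p v W X (q - v (X 0)) := lt_of_dst hL.cld (x₁ := t 1)
    (by rw [hL.root 0]; exact hL.mem) hL.gen hX0 hX hr hd
  have hTgt : Tgt p v C' X (q + m) := by
    refine ⟨cld_cadj v W z', hWC' hX0, hr, fun i => ⟨?_, ?_⟩⟩
    · rintro ⟨c, hcC, hgt⟩
      by_cases hce : X (i + 1) - c = 0
      · have h1 := hLX.upper h0 hc hm.le (by linarith) (le_perfC p W)
          (fun n => (mem_perfC p).2 ⟨n, by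
            have h2 := hLX.tpow 0 n
            rw [zero_add] at h2
            rw [h2]
            exact hX0⟩) hTL hnear' (n := i + 1) (by omega) hcC
          (D := (v (X 0) + (q - v (X 0)) + m) / p ^ (i + 1) + 1) (by
            rw [hce]
            exact RVal.Ge.zero)
        linarith
      · have h1 := hLX.upper h0 hc hm.le (by linarith) (le_perfC p W)
          (fun n => (mem_perfC p).2 ⟨n, by
            have h2 := hLX.tpow 0 n
            rw [zero_add] at h2
            rw [h2]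
            exact hX0⟩) hTL hnear' (n := i + 1) (by omega) hcC
          (D := v (X (i + 1) - c)) (RVal.ge_self _)
        have h3 := hgt hce
        have h4 : v (X 0) + (q - v (X 0)) + m = q + m := by ring
        rw [h4] at h1
        linarith
    · exact lim_letter hm hWC' hS hX0 hX hr hd (by nlinarith) i
  refine hTgt.dst_of_alg p h0 hc (n := n + 1) hC'C hCC' hzalg.1 ?_
  refine lt_of_le_of_lt hzalg.2 (Nat.pow_lt_pow_right hp.out.one_lt (by omega))

end Pool.Agent.TWTR
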