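import Pool.Agent.Lib.TWTR.T3
import Pool.Agent.Lib.TWTR.CritW

/-!
# TANK W, the cover: finitely many strict translations, over a field with letters

* `critS_of`, `noRec_of`: the two hypotheses of `t3_core`, for a field with small letters;
* `t3`: strict jets, infinitely many strict translations, finitely many jumps, or `A ≠ 0` with
  gaps of `A(z)` at most `m`, and `limsup = m` for all `B(A(z))`, `B ≠ 0`.
-/

set_option autoImplicit false

open Polynomial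

namespace Pool.Agent.TWTR

open Pool.Agent.H15JM (RVal)
open Pool.Agent.LU1 (VPos adj)
open Pool.Agent.D2 (Ctx0)
open Pool.Agent.D2P (clI mem_clI rootF mem_rootF)
open Pool.Agent.TWM
open Pool.Agent.TWC (Sd)
open Pool.Agent.TWF (StrW)
open Pool.Agent.TWJ2 (FJ)

universe u

variable {k Ω : Type u} [Field k] [Field Ω] [Algebra k Ω] {v : RVal Ω}
  {W : IntermediateField k Ω} {z : Ω} {p : ℕ}
  [hp : Fact p.Prime] [CharP k p] [CharP Ω p] [IsAlgClosed Ω]

theorem critS_of (h0 : Ctx0 k v) (hc : CompleteV v) (hL : HL p v W) : CritS p v W :=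
  fun _ _ hc0 hF hLim hcl _ _ _ h => crit_aP h0 hc hL hF hLim hc0 hcl h

theorem noRec_of (h0 : Ctx0 k v) (hc : CompleteV v) (hL : HL p v W) : NoRec p v W :=
  fun _ hF hLim _ hn _ hm _ hi h => nearB_iff.2 (lemR' h0 hc hL hF
    (fun ε hε => by rw [zero_sub]; exact hLim ε hε) hn hm hi fun j hj => nearB_iff.1 (h j hj))

/-- **T3.** -/
theorem t3 [IsAlgClosed k] (h0 : Ctx0 k v) (hc : CompleteV v) (hL : HL p v W) (hF : Far0 v W z)
    (hlim : ∀ ε : ℝ, 0 < ε → ∃ (n : ℕ) (a : Ω), a ^ p ^ n ∈ W ∧ v.Ge (-ε) (z - a))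
    (hbd : ∃ b : ℝ, ∀ j, NearB p v W 0 j b z) :
    StrW v W z 0 ∨
      (∀ n : ℕ, ∃ Θ : Finset k, n ≤ Θ.card ∧ ∀ ζ ∈ Θ, StrP v W z (algebraMap k Ω ζ)) ∨
      FJ v W z ∨
      ∃ A : Polynomial k, A ≠ 0 ∧ ∃ m : ℝ, 0 < m ∧ (∀ j, NearB p v W 0 j m (opB p A z)) ∧
        ∀ B : Polynomial k, B ≠ 0 → ∀ m' < m, ∀ j₀ : ℕ, ∃ j ≥ j₀,
          ¬ NearB p v W 0 j m' (opB p B (opB p A z)) :=
  t3_core h0 (critS_of h0 hc hL) (noRec_of h0 hc hL) hF hlim hbd

end Pool.Agent.TWTR
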