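import Pool.Agent.Lib.TWM.A1

/-!
# TANK W, ROW R: weighted polynomials, and the shifts of polynomials

`Wt v a c f`: the coefficient of `X ^ j` of `f` has value `≥ c - j a`.
-/

set_option autoImplicit false

open Polynomial

namespace Pool.Agent.TWTR

open Pool.Agent.H15JM (RVal)

universe u

variable {Ω : Type u} [Field Ω] {v : RVal Ω}

/-- The coefficient of `X ^ j` has value `≥ c - j a`. -/
def Wt (v : RVal Ω) (a c : ℝ) (f : Polynomial Ω) : Prop := ∀ j : ℕ, v.Ge (c - j * a) (f.coeff j)

variable {a c c' : ℝ} {f g : Polynomial Ω}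

theorem Wt.zero : Wt v a c 0 := fun _ => by
  rw [coeff_zero]
  exact RVal.Ge.zero

theorem Wt.mono (h : Wt v a c f) (hc : c' ≤ c) : Wt v a c' f := fun j =>
  (h j).mono (by linarith)

theorem Wt.add (hf : Wt v a c f) (hg : Wt v a c g) : Wt v a c (f + g) := fun j => by
  rw [coeff_add]
  exact (hf j).add (hg j)

theorem Wt.sum {ι : Type*} (s : Finset ι) {F : ι → Polynomial Ω} (h : ∀ i ∈ s, Wt v a c (F i)) :
    Wt v a c (∑ i ∈ s, F i) := by
  classical
  induction s using Finset.induction_on with
  | empty =>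
    rw [Finset.sum_empty]
    exact Wt.zero
  | insert i s hi ih =>
    rw [Finset.sum_insert hi]
    exact (h i (Finset.mem_insert_self i s)).add (ih fun j hj => h j (Finset.mem_insert_of_mem hj))

theorem Wt.mul (hf : Wt v a c f) (hg : Wt v a c' g) : Wt v a (c + c') (f * g) := fun j => by
  rw [coeff_mul]
  refine RVal.Ge.sum _ _ fun x hx => ?_
  have h1 := Finset.HasAntidiagonal.mem_antidiagonal.1 hx
  have h2 := (hf x.1).mul (hg x.2)
  refine h2.mono (le_of_eq ?_)
  rw [← h1]
  push_cast
  ring

theorem Wt.one : Wt v a 0 (1 : Polynomial Ω) := fun j => by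
  rw [coeff_one]
  split_ifs with h
  · subst h
    intro _
    rw [v.map_one]
    simp
  · exact RVal.Ge.zero

theorem Wt.pow (hf : Wt v a c f) (n : ℕ) : Wt v a (n * c) (f ^ n) := by
  induction n with
  | zero =>
    rw [pow_zero, Nat.cast_zero, zero_mul]
    exact Wt.one
  | succ n ih =>
    rw [pow_succ]
    refine (ih.mul hf).mono (le_of_eq ?_)
    push_cast
    ring

theorem Wt.pow0 (hf : Wt v a 0 f) (n : ℕ) : Wt v a 0 (f ^ n) := by
  have := hf.pow n
  rwa [mul_zero] at this

theorem Wt.C {b : Ω} (hb : v.Ge c b) : Wt v a c (Polynomial.C b) := fun j => by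
  rw [coeff_C]
  split_ifs with h
  · subst h
    simpa using hb
  · exact RVal.Ge.zero

theorem Wt.X : Wt v a a (Polynomial.X : Polynomial Ω) := fun j => by
  rw [coeff_X]
  split_ifs with h
  · subst h
    intro _
    rw [v.map_one]
    simp
  · exact RVal.Ge.zero

/-- The product of the `X + c_i`, `v c_i ≥ a`. -/
theorem Wt.prod_add (S : Multiset Ω) (h : ∀ b ∈ S, v.Ge a b) :
    Wt v a (S.card * a) (S.map fun b => Polynomial.X + Polynomial.C b).prod := by
  induction S using Multiset.induction_on with
  | empty =>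
    rw [Multiset.map_zero, Multiset.prod_zero, Multiset.card_zero, Nat.cast_zero, zero_mul]
    exact Wt.one
  | cons b S ih =>
    rw [Multiset.map_cons, Multiset.prod_cons, Multiset.card_cons]
    have h1 := (Wt.X (v := v) (a := a)).add (Wt.C (a := a) (h b (Multiset.mem_cons_self b S)))
    refine (h1.mul (ih fun c hc => h c (Multiset.mem_cons_of_mem hc))).mono (le_of_eq ?_)
    push_cast
    ring

/-- The composition with a polynomial without constant term: the constant term is not seen by the
coefficients of positive index. -/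
theorem Wt.comp {η : Polynomial Ω} (hη : Wt v a 0 η) (hf : ∀ l, 1 ≤ l → v.Ge c (f.coeff l))
    {j : ℕ} (hj : 1 ≤ j) : v.Ge (c - j * a) ((f.comp η).coeff j) := by
  have h1 : f.comp η = ∑ l ∈ Finset.range (f.natDegree + 1), Polynomial.C (f.coeff l) * η ^ l := by
    rw [Polynomial.comp, eval₂_eq_sum_range]
  rw [h1, finsetSum_coeff]
  refine RVal.Ge.sum _ _ fun l _ => ?_
  rcases Nat.eq_zero_or_pos l with rfl | hl
  · rw [pow_zero, mul_one, coeff_C, if_neg (by omega)]
    exact RVal.Ge.zero
  · have h2 := (Wt.C (a := a) (hf l hl)).mul (hη.pow0 l)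
    rw [add_zero] at h2
    exact h2 j

end Pool.Agent.TWTR
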