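import Pool.Agent.Lib.TWTR.Letter
import Pool.Agent.Lib.TWC.SND

/-!
# TANK W, the cover of the infinite first floor: near copies and Lemma E

`C` closed, `W ≤ C` closed, `x` the roots of an element of `W`.

* `Prec p v W C n E`: the elements of `W ^ (1 / p ^ n)` are approximated by `C` with the relative
  precision `E / p ^ n`;
* `Lt.dst_n`: the distances of the roots of a letter to the fields `W ^ (1 / p ^ n)`;
* `step_prec`: one element gives the precision; `prec_step`: the same, for the roots of `x`;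
* `near_of_prec`: the distance of `x n` to `C`;
* `exists_tgt_at`: an element of `C` near to `x m` is tight if the distances of the `x n`, `n > m`,
  are given by one number; `exists_tgt_near`: Lemma E;
* **`lemE`**: the uniform version for all the letters with a small defect;
* `Lt.prec`: the precision from the distance of one root of a letter.
-/

set_option autoImplicit false
set_option linter.unusedSectionVars false

open Polynomial

namespace Pool.Agent.TWTR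

open Pool.Agent.H15JM (RVal)
open Pool.Agent.LU1 (adj)
open Pool.Agent.D2 (Ctx0)
open Pool.Agent.D2P (rootF mem_rootF)
open Pool.Agent.TWM Pool.Agent.TWM.C
open Pool.Agent.TWC

universe u

variable {k Ω : Type u} [Field k] [Field Ω] [Algebra k Ω] {v : RVal Ω}
  {C M W : IntermediateField k Ω}

/-! ### Products of limits -/

theorem lim_mul_g {z z' : Ω} {a b g : ℝ} (hg : 0 ≤ g) (hz : v.Ge a z) (hz' : v.Ge b z')
    (h : Lim v M (a + g) z) (h' : Lim v M (b + g) z') : Lim v M (a + b + g) (z * z') := by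
  intro ε hε
  obtain ⟨c, hc, h1⟩ := h (ε / 2) (by linarith)
  obtain ⟨c', hc', h2⟩ := h' (ε / 2) (by linarith)
  refine ⟨c * c', mul_mem hc hc', ?_⟩
  have e1 : z * z' - c * c' = z * (z' - c') + (z - c) * z' - (z - c) * (z' - c') := by ring
  rw [e1]
  refine (((hz.mul h2).mono (by linarith)).add ((h1.mul hz').mono (by linarith))).sub
    ((h1.mul h2).mono (by linarith))

theorem lim_pow_g {z : Ω} {a g : ℝ} (hg : 0 ≤ g) (hz : v.Ge a z) (h : Lim v M (a + g) z)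
    (j : ℕ) : Lim v M (j * a + g) (z ^ j) := by
  induction j with
  | zero =>
    intro ε _
    refine ⟨1, one_mem _, ?_⟩
    rw [pow_zero, sub_self]
    exact RVal.Ge.zero
  | succ j ih =>
    rw [pow_succ]
    have h1 := lim_mul_g hg (ge_pow hz j) hz ih h
    have e1 : (((j + 1 : ℕ) : ℝ)) * a + g = j * a + a + g := by
      push_cast
      ring
    rw [e1]
    exact h1

theorem lim_sub_r {a b : Ω} {ρ : ℝ} (ha : Lim v M ρ a) (hb : Lim v M ρ b) :
    Lim v M ρ (a - b) := by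
  intro ε hε
  obtain ⟨c, hc, h1⟩ := ha ε hε
  obtain ⟨d, hd, h2⟩ := hb ε hε
  refine ⟨c - d, sub_mem hc hd, ?_⟩
  have e : a - b - (c - d) = (a - c) - (b - d) := by ring
  rw [e]
  exact h1.sub h2

theorem lim_add_r {a b : Ω} {ρ : ℝ} (ha : Lim v M ρ a) (hb : Lim v M ρ b) :
    Lim v M ρ (a + b) := by
  intro ε hε
  obtain ⟨c, hc, h1⟩ := ha ε hε
  obtain ⟨d, hd, h2⟩ := hb ε hε
  refine ⟨c + d, add_mem hc hd, ?_⟩
  have e : a + b - (c + d) = (a - c) + (b - d) := by ring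
  rw [e]
  exact h1.add h2

theorem lim_sum_r {ι : Type*} (S : Finset ι) (f : ι → Ω) {ρ : ℝ}
    (h : ∀ i ∈ S, Lim v M ρ (f i)) : Lim v M ρ (∑ i ∈ S, f i) := by
  classical
  induction S using Finset.induction_on with
  | empty =>
    intro ε _
    refine ⟨0, zero_mem _, ?_⟩
    rw [Finset.sum_empty, sub_zero]
    exact RVal.Ge.zero
  | insert i S hi ih =>
    rw [Finset.sum_insert hi]
    exact lim_add_r (h i (Finset.mem_insert_self i S))
      (ih fun j hj => h j (Finset.mem_insert_of_mem hj))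

theorem lim_weak {a : Ω} {ρ ρ' : ℝ} (ha : Lim v M ρ a) (h : ρ' ≤ ρ) : Lim v M ρ' a :=
    fun ε hε => by
  obtain ⟨c, hc, h1⟩ := ha ε hε
  exact ⟨c, hc, h1.mono (by linarith)⟩

theorem lim_of_eps {w : Ω} {r : ℝ} (h : ∀ ε : ℝ, 0 < ε → Lim v M (r - ε) w) : Lim v M r w := by
  intro ε hε
  obtain ⟨c, hc, h1⟩ := h (ε / 2) (by linarith) (ε / 2) (by linarith)
  exact ⟨c, hc, h1.mono (by linarith)⟩

section P

variable {p : ℕ} [hp : Fact p.Prime] [CharP Ω p] {x : ℕ → Ω} {r : ℝ}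

/-! ### Roots -/

theorem cld_root (n : ℕ) {E : IntermediateField k Ω} (hE : Cld v E) : Cld v (rootF p n E) := by
  intro a ha
  rw [mem_rootF]
  refine hE ?_
  rw [D2P.mem_clI] at ha ⊢
  intro c
  obtain ⟨b, hb, h1⟩ := ha (c / (p ^ n : ℕ))
  have hp : (0 : ℝ) < (p ^ n : ℕ) := by exact_mod_cast pow_pos (Fact.out : p.Prime).pos n
  refine ⟨b ^ p ^ n, mem_rootF.1 hb, ?_⟩
  rw [← sub_pow_char_pow]
  exact (ge_pow h1 (p ^ n)).mono (by rw [mul_div_cancel₀ _ hp.ne'])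

/-! ### The precision -/

/-- The relative precision `E / p ^ n` of the elements of `W ^ (1 / p ^ n)` in `C`. -/
def Prec (p : ℕ) [Fact p.Prime] [CharP Ω p] (v : RVal Ω) (W C : IntermediateField k Ω) (n : ℕ)
    (E : ℝ) : Prop :=
  ∀ w ∈ rootF p n W, ∀ b : ℝ, v.Ge b w → Lim v C (b + E / p ^ n) w

theorem Prec.mono {n : ℕ} {E E' : ℝ} (h : Prec p v W C n E) (hE : E' ≤ E) :
    Prec p v W C n E' := fun w hw b hb => by
  have hp0 : (0 : ℝ) < (p : ℝ) ^ n := pow_pos (by exact_mod_cast hp.out.pos) n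
  refine lim_weak (h w hw b hb) ?_
  have := div_le_div_of_nonneg_right hE hp0.le
  linarith

theorem Prec.zero (hWC : W ≤ C) (E : ℝ) : Prec p v W C 0 E := fun w hw b _ ε _ => by
  rw [mem_rootF, pow_zero, pow_one] at hw
  exact ⟨w, hWC hw, by rw [sub_self]; exact RVal.Ge.zero⟩

/-- The distance of `x (n + 1)` to `W ^ (1 / p ^ n)`. -/
theorem Lt.dst_n [CharP k p] [IsAlgClosed Ω] {ν : ℝ} (h : Lt p v W x ν) (n : ℕ) :
    Dst v (rootF p n W) (x (n + 1)) ((v (x 0) + ν) / p ^ (n + 1)) := by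
  have hp1 : (0 : ℝ) < p := by exact_mod_cast hp.out.pos
  have hp0 : (0 : ℝ) < (p : ℝ) ^ n := pow_pos hp1 n
  have h2 := root_pow_add h.root 1 n
  rw [add_comm 1 n] at h2
  have e1 : (p : ℝ) ^ n * ((v (x 0) + ν) / p ^ (n + 1)) = (v (x 0) + ν) / p := by
    rw [pow_succ]
    field_simp
  refine ⟨?_, fun ε hε => ?_⟩
  · rintro ⟨a, ha, h1⟩
    refine h.dst.far ⟨a ^ p ^ n, ha, ?_⟩
    rw [← h2, ← sub_pow_char_pow, ← e1]
    have h3 := (gt_pow_iff (v := v) (y := x (n + 1) - a) (b := (v (x 0) + ν) / p ^ (n + 1))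
      (N := p ^ n) (pow_pos hp.out.pos n)).2 h1
    push_cast at h3
    exact h3
  · obtain ⟨a, ha, h1⟩ := h.dst.near (p ^ n * ε) (by positivity)
    obtain ⟨b, hb⟩ := IsAlgClosed.exists_pow_nat_eq a (pow_pos hp.out.pos n)
    refine ⟨b, by rw [mem_rootF, hb]; exact ha, ?_⟩
    rw [← ge_pow_iff (N := p ^ n) (pow_pos hp.out.pos n), sub_pow_char_pow, h2, hb]
    push_cast
    rw [mul_sub, e1]
    exact h1

theorem le_root (W : IntermediateField k Ω) (n : ℕ) : W ≤ rootF p n W := fun a ha =>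
  mem_rootF.2 (pow_mem ha _)

section Step

variable [CharP k p] [IsAlgClosed Ω]

/-- **One element gives the precision.** -/
theorem step_prec (h0 : Ctx0 k v) {u : Ω} {ρ c E ν : ℝ} (hs : PStep p v M u ρ)
    (hlim : Lim v M ρ u) (hν : 0 ≤ ν) (hu : v.Ge (ρ - ν) u) (hc0 : 0 ≤ c) (hE0 : 0 ≤ E - ν)
    (hc : Lim v C (ρ + c) u) (hM : ∀ a ∈ M, ∀ b : ℝ, v.Ge b a → Lim v C (b + E) a) {w : Ω}
    (hw : w ∈ adj M u) {b : ℝ} (hb : v.Ge b w) : Lim v C (b + min c (E - ν)) w := by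
  classical
  have hp1 : (0 : ℝ) < p := by exact_mod_cast hp.out.pos
  obtain ⟨g, hg⟩ : ∃ g, g = min c (E - ν) := ⟨_, rfl⟩
  have hg0 : 0 ≤ g := by
    rw [hg]
    exact le_min hc0 hE0
  have hgc : g ≤ c := by
    rw [hg]
    exact min_le_left _ _
  have hgE : g ≤ E - ν := by
    rw [hg]
    exact min_le_right _ _
  rw [← hg]
  refine lim_of_eps fun ε hε => ?_
  obtain ⟨γ, hγ⟩ : ∃ γ, γ = ε / (2 * p) := ⟨_, rfl⟩
  have hγ0 : 0 < γ := by
    rw [hγ]
    positivity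
  have hγε : 2 * (p * γ) = ε := by
    rw [hγ]
    field_simp
  obtain ⟨h, hh, h1⟩ := hlim γ hγ0
  -- the element `ξ`
  have hξ0 : u - h ≠ 0 := fun h2 => hs.not_mem (by rwa [sub_eq_zero.1 h2])
  have hξv : v (u - h) ≤ ρ := by
    by_contra h2
    exact hs.far ⟨h, hh, fun _ => not_le.1 h2⟩
  have hhv : v.Ge (ρ - ν - γ) h := by
    have e : h = u - (u - h) := by ring
    rw [e]
    exact (hu.mono (by linarith)).sub (h1.mono (by linarith))
  have hξl : Lim v C (ρ - γ + g) (u - h) := by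
    refine lim_sub_r (lim_weak hc (by linarith)) (lim_weak (hM h hh _ hhv) (by linarith))
  obtain ⟨P, hP, hPd, hPw⟩ := exists_rep p hs.pw hw
  -- the expansion
  have hTP : ∀ i, (taylor h P).coeff i ∈ M := fun i => by
    rw [taylor_coeff]
    exact eval_mem (hasse_mem_PI hP i) hh
  have hexp : w = ∑ i : Fin p, (taylor h P).coeff i * (u - h) ^ (i : ℕ) := by
    have h2 : P.eval u = (taylor h P).eval (u - h) := by
      rw [taylor_eval, sub_add_cancel]
    rw [← hPw, h2, eval_eq_sum_range' (n := p) (by rw [natDegree_taylor]; exact hPd),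
      Fin.sum_univ_eq_sum_range (fun i : ℕ => (taylor h P).coeff i * (u - h) ^ i) p]
  have hAO := AO.stepW p h0 hs hh hγ0.le h1 (fun i : Fin p => (taylor h P).coeff i)
    (fun i => hTP i) b (by rw [← hexp]; exact hb)
  rw [hexp]
  refine lim_sum_r _ _ fun i _ => ?_
  obtain ⟨a, ha⟩ : ∃ a, a = (taylor h P).coeff (i : ℕ) := ⟨_, rfl⟩
  have h3 := hAO i
  simp only at h3
  rw [← ha] at h3 ⊢
  have haM : a ∈ M := by
    rw [ha]
    exact hTP i
  have hi : (i : ℝ) ≤ p := by exact_mod_cast i.2.le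
  have hi0 : (0 : ℝ) ≤ (i : ℕ) := by positivity
  have hav : v.Ge (b - p * γ - i * ρ) a := by
    intro ha0
    have h4 := h3 (mul_ne_zero ha0 (pow_ne_zero _ hξ0))
    rw [v.map_mul ha0 (pow_ne_zero _ hξ0), v.map_pow hξ0] at h4
    have h5 : (i : ℝ) * v (u - h) ≤ i * ρ := mul_le_mul_of_nonneg_left hξv hi0
    linarith
  have h6 := lim_mul_g hg0 hav (ge_pow h1 (i : ℕ)) (lim_weak (hM a haM _ hav) (by linarith))
    (lim_pow_g hg0 h1 hξl (i : ℕ))
  refine lim_weak h6 ?_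
  have h7 : (i : ℝ) * γ ≤ p * γ := mul_le_mul_of_nonneg_right hi hγ0.le
  nlinarith

/-- **The precision from the distance of `x (n + 1)`.** -/
theorem prec_step (h0 : Ctx0 k v) (hW : Cld v W) {ν : ℝ} (h : Lt p v W x ν) {n : ℕ} {c E : ℝ}
    (hc0 : 0 ≤ c) (hE0 : 0 ≤ p * E - ν)
    (hc : Lim v C ((v (x 0) + ν + c) / p ^ (n + 1)) (x (n + 1))) (hE : Prec p v W C n E) :
    Prec p v W C (n + 1) (min c (p * E - ν)) := by
  have hp1 : (0 : ℝ) < p := by exact_mod_cast hp.out.pos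
  have hp0 : (0 : ℝ) < (p : ℝ) ^ (n + 1) := pow_pos hp1 _
  intro w hw b hb
  have hd := h.dst_n n
  have hs : PStep p v (rootF p n W) (x (n + 1)) ((v (x 0) + ν) / p ^ (n + 1)) :=
    ⟨cld_root n hW, by
      rw [h.root, mem_rootF]
      have := root_pow_add h.root 0 n
      rw [zero_add] at this
      rw [this]
      exact h.mem, hd.far⟩
  have h1 : v.Ge ((v (x 0) + ν) / p ^ (n + 1) - ν / p ^ (n + 1)) (x (n + 1)) := by
    intro _
    rw [h.val (n + 1), ← sub_div, add_sub_cancel_right]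
  have e0 : E / (p : ℝ) ^ n = p * E / p ^ (n + 1) := by
    rw [pow_succ]
    field_simp
  have e1 : E / (p : ℝ) ^ n - ν / p ^ (n + 1) = (p * E - ν) / p ^ (n + 1) := by
    rw [e0, ← sub_div]
  obtain ⟨Q, hQ, hQw⟩ := h.rts (n := n + 1) (mem_rootF.1 hw)
  have h2 := step_prec (C := C) h0 hs hd.near (ν := ν / p ^ (n + 1)) (c := c / p ^ (n + 1))
    (E := E / p ^ n) (div_nonneg h.nonneg hp0.le) h1 (div_nonneg hc0 hp0.le)
    (by rw [e1]; exact div_nonneg hE0 hp0.le) (by rw [← add_div]; exact hc)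
    (fun a ha b' hb' => hE a ha b' hb') (w := w)
    (by rw [← hQw]; exact eval_mem_adj (PI_mono (le_root W n) hQ)) hb
  rw [e1, min_div_div_right hp0.le] at h2
  exact h2

end Step

/-- **The distance of `x (n + 1)` to `C`, from the precisions.** -/
theorem near_of_prec [CharP k p] [IsAlgClosed Ω] {ν : ℝ} (h : Lt p v W x ν) {n : ℕ} {E E' : ℝ}
    (hE : Prec p v W C (n + 1) E) (hE' : Prec p v W C n E') (hν : E + ν ≤ p * E') :
    Lim v C ((v (x 0) + ν + E) / p ^ (n + 1)) (x (n + 1)) := by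
  have hp1 : (0 : ℝ) < p := by exact_mod_cast hp.out.pos
  have hp0 : (0 : ℝ) < (p : ℝ) ^ (n + 1) := pow_pos hp1 _
  refine lim_of_eps fun ε hε => ?_
  obtain ⟨a, ha, h1⟩ := (h.dst_n n).near ε hε
  have h2 : x (n + 1) ∈ rootF p (n + 1) W := by
    rw [mem_rootF]
    have := root_pow_add h.root 0 (n + 1)
    rw [zero_add] at this
    rw [this]
    exact h.mem
  have h3 : x (n + 1) - a ∈ rootF p (n + 1) W := by
    refine sub_mem h2 ?_
    rw [mem_rootF, pow_succ, pow_mul]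
    exact pow_mem (mem_rootF.1 ha) _
  have h4 : v.Ge (v (x 0) / p ^ (n + 1) - ε) a := by
    have e : a = x (n + 1) - (x (n + 1) - a) := by ring
    rw [e]
    refine RVal.Ge.sub (fun _ => ?_) (h1.mono ?_)
    · rw [h.val (n + 1)]
      linarith
    · rw [add_div]
      have := div_nonneg h.nonneg hp0.le
      linarith
  have e : x (n + 1) = (x (n + 1) - a) + a := by ring
  rw [e]
  refine lim_add_r (lim_weak (hE _ h3 _ h1) ?_) (lim_weak (hE' a ha _ h4) ?_)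
  · rw [add_div _ E]
    linarith
  · have e1 : E' / (p : ℝ) ^ n = (p * E') / p ^ (n + 1) := by
      rw [pow_succ]
      field_simp
    rw [e1]
    have h5 : (v (x 0) + ν + E) / (p : ℝ) ^ (n + 1) ≤ (v (x 0) + p * E') / p ^ (n + 1) :=
      div_le_div_of_nonneg_right (by linarith) hp0.le
    rw [add_div _ (p * E')] at h5
    linarith

/-! ### Lemma E -/

/-- **A near element is tight.** -/
theorem exists_tgt_at [IsAlgClosed Ω] (hC : Cld v C) (hr : ∀ n, x (n + 1) ^ p = x n) {m : ℕ}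
    (hd : ∀ n, m ≤ n → Dst v C (x (n + 1)) (r / p ^ (n + 1))) {g₀ : Ω} (hg : g₀ ∈ C) {μ : ℝ}
    (hμ : 0 < μ) (hn : v.Ge ((r + μ) / p ^ m) (x m - g₀)) :
    ∃ g : ℕ → Ω, g 0 = g₀ ∧ Tgt p v C g (r / p ^ m) ∧
      ∀ n, v.Ge ((r + μ) / p ^ (m + n)) (x (m + n) - g n) := by
  have hp1 : (0 : ℝ) < p := by exact_mod_cast hp.out.pos
  obtain ⟨g, rfl, hgr⟩ := exists_rts p g₀
  have hnear : ∀ n, v.Ge ((r + μ) / p ^ (m + n)) (x (m + n) - g n) := by
    intro n
    rw [← ge_pow_iff (N := p ^ n) (pow_pos hp.out.pos n), sub_pow_char_pow,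
      root_pow_add hr m n]
    have := root_pow_add hgr 0 n
    rw [zero_add] at this
    rw [this]
    push_cast
    rw [pow_add]
    refine hn.mono (le_of_eq ?_)
    have := pow_pos hp1 n
    field_simp
  refine ⟨g, rfl, ⟨hC, hg, hgr, fun n => ?_⟩, hnear⟩
  have e1 : r / (p : ℝ) ^ m / p ^ (n + 1) = r / p ^ (m + n + 1) := by
    rw [div_div, ← pow_add, add_assoc]
  rw [e1]
  refine (hd (m + n) (by omega)).congr (Gt.of_ge (hnear (n + 1)) ?_)
  exact div_lt_div_of_pos_right (by linarith) (pow_pos hp1 _)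

/-- **Lemma E.** The distances of the roots of `x` are eventually given by one number. -/
theorem exists_tgt_near [IsAlgClosed Ω] (hC : Cld v C) (h0 : x 0 ∈ C)
    (hr : ∀ n, x (n + 1) ^ p = x n) (j₀ : ℕ)
    (hd : ∀ n, j₀ ≤ n → Dst v C (x (n + 1)) (r / p ^ (n + 1))) :
    ∃ (m : ℕ) (μ : ℝ) (g : ℕ → Ω), m ≤ j₀ ∧ 0 < μ ∧ Tgt p v C g (r / p ^ m) ∧
      (∀ n, v.Ge ((r + μ) / p ^ (m + n)) (x (m + n) - g n)) ∧
      ∀ n, m ≤ n → Dst v C (x (n + 1)) (r / p ^ (n + 1)) := by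
  classical
  have hp1 : (0 : ℝ) < p := by exact_mod_cast hp.out.pos
  have hex : ∃ j, ∀ n, j ≤ n → Dst v C (x (n + 1)) (r / p ^ (n + 1)) := ⟨j₀, hd⟩
  obtain ⟨m, hm⟩ : ∃ m, m = Nat.find hex := ⟨_, rfl⟩
  have hm1 : ∀ n, m ≤ n → Dst v C (x (n + 1)) (r / p ^ (n + 1)) := by
    rw [hm]
    exact Nat.find_spec hex
  have hmj : m ≤ j₀ := by
    rw [hm]
    exact Nat.find_min' hex hd
  rcases Nat.eq_zero_or_pos m with h1 | h1
  · rw [h1] at hm1
    obtain ⟨g, -, h2, h3⟩ := exists_tgt_at (m := 0) hC hr hm1 h0 one_pos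
      (by rw [sub_self]; exact RVal.Ge.zero)
    exact ⟨0, 1, g, Nat.zero_le _, one_pos, h2, h3, hm1⟩
  · obtain ⟨m', rfl⟩ : ∃ m', m = m' + 1 := ⟨m - 1, by omega⟩
    have hmp : (0 : ℝ) < (p : ℝ) ^ (m' + 1) := pow_pos hp1 _
    -- near elements
    have hne : Nr' v C (r / p ^ (m' + 1)) (x (m' + 1)) := by
      by_contra hno
      have h3 : Dst v C (x (m' + 1)) (r / p ^ (m' + 1)) := by
        refine ⟨hno, fun ε hε => ?_⟩
        obtain ⟨a, ha, h4⟩ := (hm1 (m' + 1) le_rfl).near (ε / p) (by positivity)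
        refine ⟨a ^ p, pow_mem ha p, ?_⟩
        rw [← hr (m' + 1), ← sub_pow_char]
        refine (ge_pow h4 p).mono (le_of_eq ?_)
        rw [pow_succ _ (m' + 1)]
        field_simp
      refine Nat.find_min hex (m := m') (by rw [← hm]; omega) fun n hn => ?_
      rcases Nat.eq_or_lt_of_le hn with h4 | h4
      · rw [← h4]
        exact h3
      · exact hm1 n (by omega)
    obtain ⟨g₀, hg₀, h2⟩ := hne
    obtain ⟨μ, hμ, h3⟩ : ∃ μ : ℝ, 0 < μ ∧ v.Ge ((r + μ) / p ^ (m' + 1)) (x (m' + 1) - g₀) := by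
      by_cases h4 : x (m' + 1) - g₀ = 0
      · exact ⟨1, one_pos, by rw [h4]; exact RVal.Ge.zero⟩
      · have h5 := h2 h4
        refine ⟨p ^ (m' + 1) * v (x (m' + 1) - g₀) - r, ?_, fun _ => ?_⟩
        · rw [div_lt_iff₀ hmp] at h5
          linarith
        · rw [add_sub_cancel, mul_div_cancel_left₀ _ hmp.ne']
    obtain ⟨g, -, h4, h5⟩ := exists_tgt_at hC hr hm1 hg₀ hμ h3
    exact ⟨m' + 1, μ, g, hmj, hμ, h4, h5, hm1⟩

/-- The precision `> E`, from a better approximation of one root of a letter. -/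
theorem prec_lt [CharP k p] [IsAlgClosed Ω] (h0 : Ctx0 k v) (hW : Cld v W) {E : ℝ} (hE : 0 < E)
    (hlow : ∀ n, Prec p v W C n E) {ν : ℝ} (h : Lt p v W x ν) (hν : ν ≤ E / 4) {n : ℕ}
    (hn : Nr' v C ((v (x 0) + ν + E) / p ^ (n + 1)) (x (n + 1))) :
    ∃ μ : ℝ, 0 < μ ∧ Prec p v W C (n + 1) (E + μ) := by
  have hp1 : (0 : ℝ) < p := by exact_mod_cast hp.out.pos
  have hp2 : (2 : ℝ) ≤ p := by exact_mod_cast hp.out.two_le
  have hpn : (0 : ℝ) < (p : ℝ) ^ (n + 1) := pow_pos hp1 _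
  have hν0 := h.nonneg
  obtain ⟨a, ha, h1⟩ := hn
  obtain ⟨μ', hμ', h2⟩ : ∃ μ' : ℝ, 0 < μ' ∧
      v.Ge ((v (x 0) + ν + (E + μ')) / p ^ (n + 1)) (x (n + 1) - a) := by
    by_cases h4 : x (n + 1) - a = 0
    · exact ⟨1, one_pos, by rw [h4]; exact RVal.Ge.zero⟩
    · have h5 := h1 h4
      refine ⟨p ^ (n + 1) * v (x (n + 1) - a) - (v (x 0) + ν + E), ?_, fun _ => ?_⟩
      · rw [div_lt_iff₀ hpn] at h5
        linarith
      · have e : v (x 0) + ν + (E + (p ^ (n + 1) * v (x (n + 1) - a) -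
            (v (x 0) + ν + E))) = p ^ (n + 1) * v (x (n + 1) - a) := by ring
        rw [e, mul_div_cancel_left₀ _ hpn.ne']
  have h6 := prec_step h0 hW h (C := C) (n := n) (c := E + μ') (E := E) (by linarith)
    (by nlinarith) (fun ε hε => ⟨a, ha, h2.mono (by linarith)⟩) (hlow n)
  refine ⟨min μ' (E / 2), lt_min hμ' (by linarith), h6.mono ?_⟩
  refine le_min (by linarith [min_le_left μ' (E / 2)]) ?_
  have := min_le_right μ' (E / 2)
  nlinarith

/-- **Lemma E, uniform.** The distances of the roots of the letters, from an index on, are given by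
`E`; all the elements of `W ^ (1 / p ^ n)` have the precision `E`. Then there is a last index `m`
with a better precision, and for the letters with a small defect the distances are given by `E` from
`m` on; the elements of `C` near to `x m` are tight. -/
theorem lemE [CharP k p] [IsAlgClosed Ω] (h0 : Ctx0 k v) (hC : Cld v C) (hW : Cld v W)
    (hWC : W ≤ C) (hex : ∀ δ : ℝ, 0 < δ → ∃ (t : ℕ → Ω) (ν : ℝ), Lt p v W t ν ∧ ν ≤ δ) {E : ℝ}
    (hE : 0 < E) (hlow : ∀ n, Prec p v W C n E) (d : ℕ) {δ₀ : ℝ} (hδ₀ : 0 < δ₀)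
    (hup : ∀ (t : ℕ → Ω) (ν : ℝ), Lt p v W t ν → ν ≤ δ₀ → ∀ n, d ≤ n →
      ¬ Nr' v C ((v (t 0) + ν + E) / p ^ (n + 1)) (t (n + 1))) :
    ∃ (m : ℕ) (μ δ₁ : ℝ), m ≤ d ∧ 0 < μ ∧ 0 < δ₁ ∧ Prec p v W C m (E + μ) ∧
      (∀ n, m < n → ∀ μ' : ℝ, 0 < μ' → ¬ Prec p v W C n (E + μ')) ∧
      ∀ (t : ℕ → Ω) (ν : ℝ), Lt p v W t ν → ν ≤ δ₁ →
        (∀ n, m ≤ n → Dst v C (t (n + 1)) ((v (t 0) + ν + E) / p ^ (n + 1))) ∧
        ∃ g : ℕ → Ω, Tgt p v C g ((v (t 0) + ν + E) / p ^ m) ∧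
          ∀ n, v.Ge ((v (t 0) + ν + E + μ) / p ^ (m + n)) (t (m + n) - g n) := by
  classical
  have hp1 : (0 : ℝ) < p := by exact_mod_cast hp.out.pos
  have hp2 : (2 : ℝ) ≤ p := by exact_mod_cast hp.out.two_le
  -- the last index with a better precision
  obtain ⟨m, hm⟩ : ∃ m, m = Nat.findGreatest (fun n => ∃ μ : ℝ, 0 < μ ∧ Prec p v W C n (E + μ)) d :=
    ⟨_, rfl⟩
  have hmd : m ≤ d := by
    rw [hm]
    exact Nat.findGreatest_le d
  have hm0 : ∃ μ : ℝ, 0 < μ ∧ Prec p v W C m (E + μ) := by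
    rw [hm]
    exact Nat.findGreatest_spec (P := fun n => ∃ μ : ℝ, 0 < μ ∧ Prec p v W C n (E + μ))
      (Nat.zero_le d) ⟨1, one_pos, Prec.zero hWC _⟩
  obtain ⟨μ₀, hμ₀, hPm⟩ := hm0
  have hfar : ∀ n, m < n → ∀ μ' : ℝ, 0 < μ' → ¬ Prec p v W C n (E + μ') := by
    intro n hn μ' hμ' hP
    rcases le_or_gt n d with h1 | h1
    · exact Nat.findGreatest_is_greatest (P := fun n => ∃ μ : ℝ, 0 < μ ∧ Prec p v W C n (E + μ))
        (by rw [← hm]; exact hn) h1 ⟨μ', hμ', hP⟩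
    · obtain ⟨n', rfl⟩ : ∃ n', n = n' + 1 := ⟨n - 1, by omega⟩
      obtain ⟨t, ν, ht, hνl⟩ := hex (min δ₀ (E / 4)) (lt_min hδ₀ (by linarith))
      have hν1 := hνl.trans (min_le_left _ _)
      have hν2 := hνl.trans (min_le_right _ _)
      obtain ⟨μ₁, hμ₁⟩ : ∃ μ₁, μ₁ = min μ' (E / 2) := ⟨_, rfl⟩
      have h2 : 0 < μ₁ := by
        rw [hμ₁]
        exact lt_min hμ' (by linarith)
      have h3 : μ₁ ≤ μ' := by
        rw [hμ₁]
        exact min_le_left _ _
      have h4 : μ₁ ≤ E / 2 := by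
        rw [hμ₁]
        exact min_le_right _ _
      have h5 := near_of_prec ht (n := n') (hP.mono (E' := E + μ₁) (by linarith)) (hlow n')
        (by nlinarith)
      obtain ⟨a, ha, h6⟩ := h5 (μ₁ / (2 * p ^ (n' + 1))) (by positivity)
      refine hup t ν ht hν1 n' (by omega) ⟨a, ha, Gt.of_ge h6 ?_⟩
      have hpn : (0 : ℝ) < (p : ℝ) ^ (n' + 1) := pow_pos hp1 _
      have e1 : (v (t 0) + ν + (E + μ₁)) / (p : ℝ) ^ (n' + 1) - μ₁ / (2 * p ^ (n' + 1)) =
          (v (t 0) + ν + E + μ₁ / 2) / p ^ (n' + 1) := by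
        field_simp
        ring
      rw [e1]
      exact div_lt_div_of_pos_right (by linarith) hpn
  obtain ⟨μ, hμ⟩ : ∃ μ, μ = min μ₀ (E / 2) := ⟨_, rfl⟩
  have hμ0 : 0 < μ := by
    rw [hμ]
    exact lt_min hμ₀ (by linarith)
  have hμ1 : μ ≤ μ₀ := by
    rw [hμ]
    exact min_le_left _ _
  have hμ2 : μ ≤ E / 2 := by
    rw [hμ]
    exact min_le_right _ _
  refine ⟨m, μ / 2, min δ₀ (E / 4), hmd, by linarith, lt_min hδ₀ (by linarith),
    hPm.mono (by linarith), hfar, fun t ν ht hνl => ?_⟩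
  have hν1 := hνl.trans (min_le_left _ _)
  have hν2 := hνl.trans (min_le_right _ _)
  have hν0 := ht.nonneg
  have hdst : ∀ n, m ≤ n → Dst v C (t (n + 1)) ((v (t 0) + ν + E) / p ^ (n + 1)) := by
    intro n hn
    refine ⟨fun h1 => ?_, near_of_prec ht (hlow (n + 1)) (hlow n) (by nlinarith)⟩
    obtain ⟨μ', hμ', h2⟩ := prec_lt h0 hW hE hlow ht hν2 h1
    exact hfar (n + 1) (by omega) μ' hμ' h2
  refine ⟨hdst, ?_⟩
  rcases Nat.eq_zero_or_pos m with h1 | h1
  · rw [h1] at hdst ⊢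
    obtain ⟨g, -, h2, h3⟩ := exists_tgt_at (m := 0) hC ht.root hdst (hWC ht.mem)
      (μ := μ / 2) (by linarith) (by rw [sub_self]; exact RVal.Ge.zero)
    exact ⟨g, h2, h3⟩
  · obtain ⟨m', rfl⟩ : ∃ m', m = m' + 1 := ⟨m - 1, by omega⟩
    have hpm : (0 : ℝ) < (p : ℝ) ^ (m' + 1) := pow_pos hp1 _
    have h2 := near_of_prec ht (n := m') (hPm.mono (E' := E + μ) (by linarith)) (hlow m')
      (by nlinarith)
    obtain ⟨g₀, hg₀, h3⟩ := h2 (μ / (2 * p ^ (m' + 1))) (by positivity)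
    have e1 : (v (t 0) + ν + (E + μ)) / (p : ℝ) ^ (m' + 1) - μ / (2 * p ^ (m' + 1)) =
        (v (t 0) + ν + E + μ / 2) / p ^ (m' + 1) := by
      field_simp
      ring
    rw [e1] at h3
    obtain ⟨g, -, h4, h5⟩ := exists_tgt_at hC ht.root hdst hg₀ (μ := μ / 2) (by linarith) h3
    exact ⟨g, h4, h5⟩

/-! ### The precision, from the distances of the roots of the letters -/

theorem Prec.of_lt {n : ℕ} {E : ℝ} (h : ∀ ε : ℝ, 0 < ε → Prec p v W C n (E - ε)) :
    Prec p v W C n E := fun w hw b hb => by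
  have hp0 : (0 : ℝ) < (p : ℝ) ^ n := pow_pos (by exact_mod_cast hp.out.pos) n
  refine lim_of_eps fun ε hε => lim_weak (h (p ^ n * ε) (by positivity) w hw b hb) ?_
  rw [sub_div, mul_div_cancel_left₀ _ hp0.ne']
  linarith

/-- Polynomials of small degree. -/
theorem exists_redW {N : ℕ} {a : Ω} (ha : a ∈ W) (hN : 0 < N) {u : Ω} (hu : u ^ N = a)
    {P : Polynomial Ω} (hP : P ∈ PI W) : ∃ Q ∈ PI W, Q.natDegree < N ∧ Q.eval u = P.eval u := by
  have hl : P ∈ Polynomial.lifts (algebraMap W Ω) := by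
    rw [Polynomial.lifts_iff_coeff_lifts]
    exact fun i => ⟨⟨P.coeff i, hP i⟩, rfl⟩
  obtain ⟨g, hg⟩ := hl
  have hg' : g.map (algebraMap W Ω) = P := hg
  have hq : (X ^ N - C (⟨a, ha⟩ : W)).Monic := monic_X_pow_sub_C _ hN.ne'
  refine ⟨(g %ₘ (X ^ N - C (⟨a, ha⟩ : W))).map (algebraMap W Ω), fun i => by
    rw [coeff_map]; exact SetLike.coe_mem _, ?_, ?_⟩
  · rw [natDegree_map]
    have h3 := natDegree_modByMonic_lt g hq (by
      intro h7
      have h8 := congrArg natDegree h7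
      rw [natDegree_X_pow_sub_C, natDegree_one] at h8
      exact hN.ne' h8)
    rwa [natDegree_X_pow_sub_C] at h3
  · have h1 := modByMonic_add_div g (X ^ N - C (⟨a, ha⟩ : W))
    have h2 := congrArg (Polynomial.map (algebraMap W Ω)) h1
    rw [Polynomial.map_add, Polynomial.map_mul, Polynomial.map_sub, Polynomial.map_pow, map_X,
      map_C, hg'] at h2
    have h3 := congrArg (eval u) h2
    rw [eval_add, eval_mul, eval_sub, eval_pow, eval_X, eval_C] at h3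
    have h4 : u ^ N - (algebraMap W Ω) ⟨a, ha⟩ = 0 := by
      rw [hu]
      exact sub_self _
    rw [h4, zero_mul, add_zero] at h3
    exact h3

/-- **The precision from the distance of one root of a letter.** -/
theorem Lt.prec [CharP k p] [IsAlgClosed Ω] (h0 : Ctx0 k v) (hc : CompleteV v) (hWC : W ≤ C)
    {ν M : ℝ} (h : Lt p v W x ν) (hν : ν / (p - 1) ≤ M) {n : ℕ}
    (hl : Lim v C ((v (x 0) + ν + M) / p ^ n) (x n)) : Prec p v W C n (M - ν / (p - 1)) := by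
  have hp1 : (0 : ℝ) < p := by exact_mod_cast hp.out.pos
  have hpm : (0 : ℝ) < (p : ℝ) - 1 := by
    have : (1 : ℝ) < p := by exact_mod_cast hp.out.one_lt
    linarith
  have hp0 : (0 : ℝ) < (p : ℝ) ^ n := pow_pos hp1 n
  intro w hw b hb ε hε
  obtain ⟨Q₀, hQ₀, hQ₀w⟩ := h.rts (n := n) (mem_rootF.1 hw)
  have hx0 : x n ^ p ^ n = x 0 := by
    have := h.tpow 0 n
    rwa [zero_add] at this
  obtain ⟨Q, hQ, hQd, hQe⟩ := exists_redW h.mem (pow_pos hp.out.pos n) hx0 hQ₀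
  obtain ⟨g, hg, h1⟩ := hl (ε / p ^ n) (by positivity)
  refine ⟨Q.eval g, eval_mem (PI_mono hWC hQ) hg, ?_⟩
  rw [← hQ₀w, ← hQe]
  have h2 : Q.eval g = (taylor (x n) Q).eval (g - x n) := by
    rw [taylor_eval, sub_add_cancel]
  have h3 : (taylor (x n) Q).eval (g - x n) = Q.eval (x n) +
      ∑ F ∈ Finset.Ico 1 (p ^ n), (taylor (x n) Q).coeff F * (g - x n) ^ F := by
    rw [eval_eq_sum_range' (n := p ^ n) (by rw [natDegree_taylor]; exact hQd),
      Finset.range_eq_Ico, Finset.sum_eq_sum_Ico_succ_bot (pow_pos hp.out.pos n), pow_zero, mul_one,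
      taylor_coeff_zero]
  have h4 : Q.eval (x n) - Q.eval g =
      -∑ F ∈ Finset.Ico 1 (p ^ n), (taylor (x n) Q).coeff F * (g - x n) ^ F := by
    rw [h2, h3]
    ring
  rw [h4]
  refine (RVal.Ge.sum _ _ fun F hF => ?_).neg
  rw [Finset.mem_Ico] at hF
  have hb' : v.Ge b (Q.eval (x n)) := by
    rw [hQe, hQ₀w]
    exact hb
  have h5 := (h.nbx h0 hc).nb n Q hQ F hF.2 b hb'
  have h6 : v.Ge ((v (x 0) + ν + M) / p ^ n - ε / p ^ n) (g - x n) := by
    have e : g - x n = -(x n - g) := by ring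
    rw [e]
    exact h1.neg
  refine (h5.mul (ge_pow h6 F)).mono ?_
  have hF1 : (1 : ℝ) ≤ F := by exact_mod_cast hF.1
  have hF2 : (F : ℝ) ≤ p ^ n := by exact_mod_cast hF.2.le
  have e1 : ν * ((p : ℝ) / (p - 1)) = ν + ν / (p - 1) := by
    field_simp
    ring
  rw [e1]
  have e2 : b - F * (v (x 0) + (ν + ν / (p - 1))) / p ^ n +
      F * ((v (x 0) + ν + M) / p ^ n - ε / p ^ n) =
      b + F * ((M - ν / (p - 1)) / p ^ n) - F / p ^ n * ε := by
    ring
  rw [e2]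
  have h7 : (M - ν / (p - 1)) / (p : ℝ) ^ n ≤ F * ((M - ν / (p - 1)) / p ^ n) :=
    le_mul_of_one_le_left (div_nonneg (by linarith) hp0.le) hF1
  have h8 : (F : ℝ) / p ^ n * ε ≤ 1 * ε :=
    mul_le_mul_of_nonneg_right ((div_le_one hp0).2 hF2) hε.le
  linarith

end P

end Pool.Agent.TWTR
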