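import Pool.Agent.Lib.TWTR.FinG
import Pool.Agent.Lib.TWF.RtsT
import Pool.Agent.Lib.TWC.HratE
import Pool.Agent.Lib.TWC.GenW
import Pool.Agent.Lib.TWC.Lv0M
import Pool.Agent.Lib.TWJ2.NearF

/-!
# TANK W: a generator over the closure of `WX(T n, n ≥ 0)`

`C` is the closure of `k(x, y)`, with bounded distortion; `T` is a tight element of `C`,
`W := WX v C (T 0)`, with the same values as `C`.

* `ratV_ex`: the values of `EX`;
* `reg_ex`: `EX` is relatively algebraically closed in the closure of the perfect closure of `C`;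
* **`exists_genW`**: the closure of `C(T n, n ≥ 0)` is `E<t>`, `E` the closure of `W(T n, n ≥ 0)`.
-/

set_option autoImplicit false

open Polynomial

namespace Pool.Agent.TWTR

open Pool.Agent.H15JM (RVal)
open Pool.Agent.LU1 (VPos adj)
open Pool.Agent.D2 (Ctx0)
open Pool.Agent.D2P (hen clI mem_clI mem_adj_self)
open Pool.Agent.TW (Full PBasis pcomb mon kr BD Orth)
open Pool.Agent.TWM
open Pool.Agent.TWF
open Pool.Agent.TWS (VG MonG RatV)
open Pool.Agent.TWC (EW Tgt GenW)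

universe u

variable {k Ω : Type u} [Field k] [Field Ω] [Algebra k Ω] {v : RVal Ω}
  {C : IntermediateField k Ω} {p : ℕ} [hp : Fact p.Prime] [CharP k p] [CharP Ω p]
  [IsAlgClosed k] [IsAlgClosed Ω] {x y z : Ω} {c₀ r s : ℝ} {T : ℕ → Ω}

omit [CharP k p] [IsAlgClosed k] [IsAlgClosed Ω] in
/-- The values of `EX` are multiples of the value of `z`. -/
theorem ratV_ex (h0 : Ctx0 k v) (hz0 : z ≠ 0) (hvz : v z ≠ 0) (hzC : z ∈ C) :
    RatV v (EX p v C z) (v z) := by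
  classical
  intro g hg
  rw [EX, TWS.VG.clI] at hg
  obtain ⟨b, hb, hb0, rfl⟩ := hg
  obtain ⟨n, hn⟩ := (mem_perfC p).1 hb
  have hbn0 : b ^ p ^ n ≠ 0 := pow_ne_zero _ hb0
  have hzA : z ∈ algIn C (adj (⊥ : IntermediateField k Ω) z) :=
    TWJ2.adj_le_algIn hzC (mem_adj_self _ z).1
  obtain ⟨F, hF, hSF, π, hπ, hπ0, hπv, hval⟩ := TWJ2.ld_algIn h0 hz0 hvz hzC {b ^ p ^ n, z}
    (fun s hs => by
      rcases Finset.mem_insert.1 hs with rfl | hs
      · exact hn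
      · rw [Finset.mem_singleton] at hs
        rw [hs]
        exact hzA)
  obtain ⟨m, hm⟩ := hval _ (hSF _ (Finset.mem_insert_self _ _)) hbn0
  obtain ⟨l, hl⟩ := hval z (hSF z (by simp)) hz0
  have hl0 : l ≠ 0 := by
    rintro rfl
    apply hvz
    rw [hl]
    simp
  rw [v.map_pow hb0] at hm
  refine ⟨p ^ n * l.natAbs, mul_ne_zero (pow_ne_zero _ hp.out.ne_zero) (Int.natAbs_ne_zero.2 hl0),
    m * l.sign, ?_⟩
  have h1 : ((l.natAbs : ℕ) : ℝ) = (l.sign : ℝ) * l := by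
    have h2 := congrArg (Int.cast : ℤ → ℝ) (Int.sign_mul_self_eq_natAbs l)
    rw [Int.cast_mul, Int.cast_natCast] at h2
    exact h2.symm
  rw [Nat.cast_mul, Nat.cast_pow, Int.cast_mul, h1]
  rw [Nat.cast_pow] at hm
  linear_combination (l.sign * l : ℝ) * hm - (m * l.sign : ℝ) * hl

omit [CharP k p] [IsAlgClosed k] in
/-- `EX` is relatively algebraically closed in the closure of the perfect closure of `C`. -/
theorem reg_ex (h0 : Ctx0 k v) (hC : Cld v C) {a : Ω} (ha : a ∈ clI v (perfC p C))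
    (halg : IsAlgebraic (EX p v C z) a) : a ∈ EX p v C z := by
  set A := algIn C (adj (⊥ : IntermediateField k Ω) z) with hA
  have hAC : A ≤ C := fun b hb => (mem_algIn.1 hb).1
  have hAh : hen v A = A := TWJ2.hen_algIn hC
  have hregp : ∀ a ∈ perfC p C, IsAlgebraic (perfC p A) a → a ∈ perfC p A := by
    intro a ha halg
    obtain ⟨m, hm⟩ := (mem_perfC p).1 ha
    refine (mem_perfC p).2 ⟨m, mem_algIn.2 ⟨hm, ?_⟩⟩
    have h2 : perfC p A ≤ TWM.algc (adj ⊥ z) := by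
      intro b hb
      obtain ⟨l, hl⟩ := (mem_perfC p).1 hb
      exact mem_algc.2 (IsAlgebraic.of_pow (pow_pos hp.out.pos l) (mem_algIn.1 hl).2)
    exact (isAlgebraic_of_algc (D2P.isAlgebraic_mono h2 halg)).pow _
  rw [EX, ← hA] at halg ⊢
  refine mem_clI.2 fun b => ?_
  obtain ⟨y, hy, h1⟩ := mem_clI.1 ha (b + 1)
  obtain ⟨θ, hθ, h2⟩ := TWM.exists_near_alg halg (b + 1)
  have h3 : v.Ge (b + 1) (y - θ) := by
    have h4 := h2.sub h1
    rwa [sub_sub_sub_cancel_left] at h4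
  obtain ⟨e, he, h4⟩ := TWC.lim_of_alg p h0 (hen_perfC (v := v) p h0 hAh) (perfC_perf p _)
    (hen_perfC (v := v) p h0 (TWM.C.hen_eq hC)) (perfC_mono p hAC) hregp hy hθ h3
    (ε := 1) one_pos
  refine ⟨e, he, ?_⟩
  have h5 := (h1.mono (show b ≤ b + 1 by linarith)).add (h4.mono (show b ≤ b + 1 - 1 by linarith))
  rwa [sub_add_sub_cancel] at h5

omit hp [CharP k p] [CharP Ω p] [IsAlgClosed k] [IsAlgClosed Ω] in
theorem cl_pair' (x y : Ω) : clI v (kr k ![x, y]) = TWC.CP (k := k) v x y := by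
  refine le_antisymm (TWC.clI_le' (IntermediateField.adjoin_le_iff.2 ?_) (cld_cadj v _ y)) ?_
  · rintro _ ⟨i, rfl⟩
    fin_cases i
    · exact le_cadj v _ y (self_mem_cadj v _ x)
    · exact self_mem_cadj v _ y
  · exact cadj_le (cld_clI v _) (cadj_le (cld_clI v _) bot_le
      (TWM.le_clI _ (IntermediateField.subset_adjoin k _ ⟨0, rfl⟩)))
      (TWM.le_clI _ (IntermediateField.subset_adjoin k _ ⟨1, rfl⟩))

/-- **A generator over the closure of `WX(T n, n ≥ 0)`.** -/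
theorem exists_genW (h0 : Ctx0 k v) (hc : CompleteV v)
    (hval : ∀ ρ : ℝ, ∃ c : Ω, c ≠ 0 ∧ v c = ρ) (hF : FF p v C x y c₀)
    (hT : Tgt p v C T r) (hT0 : T 0 ≠ 0) (hvT : v (T 0) ≠ 0)
    (hdiv : ∀ g ∈ VG v C, g / p ∈ VG v C)
    (hV : ∀ g ∈ VG v C, g ∈ VG v (WX v C (T 0))) :
    ∃ (t : Ω) (s' : ℝ), t ∈ EW v C T ∧ GenW v C (WX v C (T 0)) T t s' := by
  set W := WX v C (T 0) with hW
  set P := EW v W T with hP
  set L := EW v C T with hL
  have hWC : W ≤ C := WX_le hT.cld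
  have hPE : EX p v C (T 0) = P := ex_tgt h0 hc hT hT0 hvT
  have hPL : P ≤ L := TWC.EW.mono hWC _
  -- a second coordinate
  have hC : clI v (kr k ![x, y]) = C := by rw [cl_pair', ← hF.eq]
  have hxy0 : ∀ i, (![x, y] : Fin 2 → Ω) i ≠ 0 := by
    intro i
    fin_cases i
    · exact hF.x0
    · exact hF.y0
  have hpb := pbasis_of_gen hc hC hF.oi hxy0
  have hyx0 : ∀ i, (![y, x] : Fin 2 → Ω) i ≠ 0 := by
    intro i
    fin_cases i
    · exact hF.y0
    · exact hF.x0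
  have hC' : clI v (kr k ![y, x]) = C := by
    rw [← hC, kr, kr]
    congr 2
    ext a
    simp [or_comm]
  have hO' := oi_swap hF.oi
  have hpb' := pbasis_of_gen hc hC' hO' hyx0
  have hTn : ∀ a ∈ C, a ^ p ≠ T 0 := fun a ha h1 => by
    have h2 : a = T 1 := frobenius_inj Ω p (h1.trans (hT.root 0).symm)
    exact hT.root_notMem (h2 ▸ ha)
  obtain ⟨w, hwC, x', hx'C, ⟨c₁, hO1⟩, hx'B, hCx', hw0⟩ : ∃ w ∈ C, ∃ x' ∈ C, (∃ c₁, OI p v C ![T 0, w] c₁) ∧
      IsAlgebraic (clI v (kr k ![T 0, w])) x' ∧ C = adj (clI v (kr k ![T 0, w])) x' ∧ w ≠ 0 := by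
    rcases pb_exch hpb hpb' hT.mem hTn with h1 | h1
    · obtain ⟨h2, x', h3, h4, h5⟩ := exists_fin h0 hc hC hF.oi hF.x0 hF.y0 h1
      exact ⟨y, hpb.mem 1, x', h3, h2, h4, h5, hF.y0⟩
    · obtain ⟨h2, x', h3, h4, h5⟩ := exists_fin h0 hc hC' hO' hF.y0 hF.x0 h1
      exact ⟨x, hpb.mem 0, x', h3, h2, h4, h5, hF.x0⟩
  set B := clI v (kr k ![T 0, w]) with hB
  -- the monomials
  obtain ⟨M₀, hM₀⟩ := TWC.exists_ms hval
  obtain ⟨M, hM, hMx⟩ := TWS.exists_MS hM₀ hT0 hvT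
  have hPp : ∀ a ∈ P, ∃ b ∈ P, b ^ p = a := by
    rw [← hPE]
    exact TWC.perf_clI p (perfC_perf p _)
  have hMP : MonG v P ⊤ M := TWS.monG_top p h0 hM hMx TWC.EW.cld hPp (TWC.EW.mem 0)
    (hPE ▸ ratV_ex h0 hT0 hvT hT.mem)
  have hi : Imm v P L := by
    refine TWS.imm_of_VG h0 hPL ?_
    rintro _ ⟨a, ha, ha0, rfl⟩
    obtain ⟨n, g, hg, h2⟩ := TWC.EW.near_adj p hT.root ha (v a + 1)
    obtain ⟨h3, h4⟩ := Gt.val_eq (v := v) ha0 (Gt.of_ge h2 (by linarith))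
    rw [← h4]
    exact VG.mono TWC.EW.le (hV _ (TWC.vg_adj hT.root hT.mem hdiv n hg h3))
  have hreg : ∀ a ∈ L, IsAlgebraic P a → a ∈ P := by
    intro a ha halg
    rw [← hPE] at halg ⊢
    refine reg_ex h0 hT.cld (clI_mono (sup_le (le_perfC p C) ?_) ha) halg
    rw [IntermediateField.adjoin_le_iff]
    rintro _ ⟨n, rfl⟩
    refine (mem_perfC p).2 ⟨n, ?_⟩
    have h1 := TWC.root_pow_add hT.root 0 n
    rw [zero_add] at h1
    rw [h1]
    exact hT.mem
  have hwP : w ∉ P := by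
    rw [← hPE]
    exact ff_far p h0 hO1 hT0 hvT hT.mem hwC hw0
  have hTP : ∀ n, T n ∈ P := fun n => TWC.EW.mem n
  have hBP : B ≤ cadj v P w := by
    refine TWC.clI_le' (IntermediateField.adjoin_le_iff.2 ?_) (cld_cadj v _ _)
    rintro _ ⟨i, rfl⟩
    fin_cases i
    · exact le_cadj v P w (hTP 0)
    · exact self_mem_cadj v P w
  have hS : ∀ a ∈ ({x'} : Finset Ω), IsAlgebraic (cadj v P w) a := by
    intro a ha
    rw [Finset.mem_singleton] at ha
    rw [ha]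
    exact D2P.isAlgebraic_mono hBP hx'B
  have hLS : L = cadj v P w ⊔ IntermediateField.adjoin k (({x'} : Finset Ω) : Set Ω) := by
    refine le_antisymm ?_ ?_
    · refine TWC.clI_le' (sup_le ?_ ?_) (TWC.cld_sup_fin hc (cld_cadj v _ _) _ hS)
      · rw [hCx']
        refine D2P.adj_le (hBP.trans le_sup_left) ((le_sup_right : _ ≤ cadj v P w ⊔ _)
          (IntermediateField.subset_adjoin k _ (by simp)))
      · rw [IntermediateField.adjoin_le_iff]
        rintro _ ⟨n, rfl⟩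
        exact (le_sup_left : cadj v P w ≤ _) (le_cadj v P w (hTP n))
    · refine sup_le (cadj_le TWC.EW.cld hPL (TWC.EW.le hwC)) ?_
      rw [IntermediateField.adjoin_le_iff]
      intro a ha
      have ha' : a = x' := by simpa using ha
      rw [ha']
      exact TWC.EW.le hx'C
  obtain ⟨t, s', h1, h2, h3⟩ := TWC.hratG p h0 hc hMP TWC.EW.cld hPp hi TWC.EW.cld hreg
    (TWC.EW.le hwC) hwP {x'} hS hLS
  exact ⟨t, s', h1, h2, h3⟩

end Pool.Agent.TWTR
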