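import Pool.Agent.Lib.TWTR.Letter
import Pool.Agent.Lib.TWF.InfDefs

/-!
# TANK W, the infinite first floor (row R): the letters of `WX v C x`

* `Lt.ew_eq`: the closure of `W(t 0, t 1, ..)` is the closure of the perfect closure of `W`;
* `ff_exists_Lt`: `WX v C x` has letters with arbitrarily small `ν`, `t 0 = x - g ^ p`;
* `ff_near_bound`: the distances of `y` to the roots of `WX v C x` are bounded.
-/

set_option autoImplicit false
set_option linter.unusedSectionVars false

open Polynomial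

namespace Pool.Agent.TWTR

open Pool.Agent.H15JM (RVal)
open Pool.Agent.LU1 (VPos adj)
open Pool.Agent.D2 (Ctx0)
open Pool.Agent.D2P (clI mem_clI rootF mem_rootF)
open Pool.Agent.TW (PBasis pcomb mon)
open Pool.Agent.TWM Pool.Agent.TWM.C
open Pool.Agent.TWC
open Pool.Agent.TWF

universe u

variable {k Ω : Type u} [Field k] [Field Ω] [Algebra k Ω] {v : RVal Ω}
  {W C : IntermediateField k Ω} {t : ℕ → Ω} {ν δ c₀ s : ℝ} {p : ℕ} {x y : Ω}
  [hp : Fact p.Prime] [CharP k p] [CharP Ω p] [IsAlgClosed Ω]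

/-- The closure of `W(t 0, t 1, ..)`. -/
theorem Lt.ew_eq (h : Lt p v W t ν) : EW v W t = clI v (perfC p W) := by
  refine le_antisymm ?_ ?_
  · refine TWC.clI_le' (sup_le ((le_perfC p W).trans (TWM.le_clI _)) ?_) (cld_clI v _)
    rw [IntermediateField.adjoin_le_iff]
    rintro _ ⟨n, rfl⟩
    refine TWM.le_clI _ ((mem_perfC p).2 ⟨n, ?_⟩)
    have h1 := h.tpow 0 n
    rw [zero_add] at h1
    rw [h1]
    exact h.mem
  · refine TWC.clI_le' (fun a ha => ?_) (cld_clI v _)
    obtain ⟨n, hn⟩ := (mem_perfC p).1 ha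
    obtain ⟨Q, hQ, rfl⟩ := h.rts hn
    exact TWM.eval_mem (PI_mono TWC.EW.le hQ) (TWC.EW.mem n)

/-- The closure of the perfect closure of the algebraic closure of `k(x)` in `C`. -/
theorem ex_eq_clI : EX p v C x = clI v (perfC p (WX v C x)) := by
  refine le_antisymm ?_ ?_
  · refine TWC.clI_mono' fun a ha => ?_
    obtain ⟨n, hn⟩ := (mem_perfC p).1 ha
    exact (mem_perfC p).2 ⟨n, algIn_le_WX hn⟩
  · exact TWC.clI_le' (perfC_clI_le p _) (cld_clI v _)

theorem Lt.ew_ex (h : Lt p v (WX v C x) t ν) : EW v (WX v C x) t = EX p v C x := by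
  rw [h.ew_eq, ex_eq_clI]

/-- **The letters of `WX v C x`.** -/
theorem ff_exists_Lt [IsAlgClosed k] (h0 : Ctx0 k v) (hc : CompleteV v)
    (h : FF p v C x y c₀) (hδ : 0 < δ) : ∃ (t : ℕ → Ω) (ν : ℝ) (g : Ω),
      Lt p v (WX v C x) t ν ∧ ν ≤ δ ∧ g ∈ WX v C x ∧ t 0 = x - g ^ p := by
  obtain ⟨x₁, hx₁⟩ := IsAlgClosed.exists_pow_nat_eq x hp.out.pos
  have hpb := h.pb h0 hc
  have hxp : ∀ a ∈ WX v C x, a ^ p ≠ x := by
    rintro a ha rfl
    have h1 := hpb.ind (fun α => if (α 0 : ℕ) = 0 then -a else if (α 0 : ℕ) = 1 then 1 else 0)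
      (fun α => by
        split_ifs
        · exact neg_mem ha
        · exact one_mem _
        · exact zero_mem _) (by
        rw [pcomb_one]
        have h2 : ∀ i : Fin p, (if ((![i] : Fin 1 → Fin p) 0 : ℕ) = 0 then -a else
            if ((![i] : Fin 1 → Fin p) 0 : ℕ) = 1 then (1 : Ω) else 0) ^ p * (a ^ p) ^ (i : ℕ) =
            if (i : ℕ) = 0 then -(a ^ p) else if (i : ℕ) = 1 then a ^ p else 0 := by
          intro i
          simp only [Matrix.cons_val_fin_one]
          split_ifs with h3 h4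
          · rw [h3, pow_zero, mul_one]
            have h5 : (-a) ^ p + a ^ p = 0 := by
              rw [← add_pow_char, neg_add_cancel, zero_pow hp.out.ne_zero]
            linear_combination h5
          · rw [h4, one_pow, one_mul, pow_one]
          · rw [zero_pow hp.out.ne_zero, zero_mul]
        rw [Finset.sum_congr rfl fun i _ => h2 i]
        obtain ⟨q, hq⟩ : ∃ q, p = q + 2 := ⟨p - 2, by
          have := hp.out.two_le
          omega⟩
        clear h2 hx₁ hpb
        rw [← Finset.sum_range (fun i => if i = 0 then -(a ^ p) else if i = 1 then a ^ p else 0)]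
        have h3 : Finset.range p = insert 0 (insert 1 ((Finset.range p).filter fun i => 2 ≤ i)) := by
          ext i
          simp only [Finset.mem_range, Finset.mem_insert, Finset.mem_filter]
          omega
        rw [h3, Finset.sum_insert (by simp), Finset.sum_insert (by simp), Finset.sum_eq_zero]
        · simp
        · intro i hi
          rw [Finset.mem_filter] at hi
          rw [if_neg (by omega), if_neg (by omega)])
      ![⟨1, hp.out.one_lt⟩]
    simp at h1
  have hgen : ∀ a ∈ WX v C x, ∃ Q ∈ PI (WX v C x), (Q.eval x₁) ^ p = a := h.root h0 hc hx₁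
  obtain ⟨t, ν, g, h1, h2, h3, h4, -⟩ := exists_Lt (cld_WX v C x) h.xW hxp hx₁ hgen hδ
  exact ⟨t, ν, g, h1, h2, h3, h4⟩

/-- **The distances of `y` to the roots of `WX v C x` are bounded.** -/
theorem ff_near_bound [IsAlgClosed k] (h0 : Ctx0 k v) (hc : CompleteV v)
    (h : FF p v C x y c₀) (hc₀ : 0 ≤ c₀) {z : Ω} (hz : z ∈ C)
    (hlim : ∀ ε : ℝ, 0 < ε → ∃ (j : ℕ) (a : Ω), a ^ p ^ j ∈ WX v C x ∧ v.Ge (s - ε) (z - a))
    (j : ℕ) {ε : ℝ} (hε : 0 < ε) :
    ∃ a : Ω, a ^ p ^ j ∈ WX v C x ∧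
      v.Ge (s - c₀ * (p / (p - 1)) / p ^ (j + 1) - ε) (z - a) := by
  refine near_bound_s (x := x) (c₀ := c₀) (WX_le h.cld) hz (fun b hb => ?_)
    (fun e he r hr i => oi_x h.oi he hr i) hc₀ hlim j hε
  obtain ⟨c, hcm, h1⟩ := (h.pb h0 hc).span b hb
  rw [pcomb_one] at h1
  exact ⟨fun i => c ![i], fun i => hcm _, h1⟩

end Pool.Agent.TWTR
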