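import Pool.Agent.Lib.TWTR.LemE
import Pool.Agent.Lib.TWTR.LetterF
import Pool.Agent.Lib.TWF.CovDefs

/-!
# TANK W, the cover of the infinite first floor: tight elements, from `Clo`

`C` closed, `W ≤ C` closed, `Clo p v W C`: the distances to `C` of the roots of the letters of `W` with
a small defect are given by one number `M`, from an index on.

* `clo_near`: the elements of `C` near to the roots of all orders;
* `clo_prec`: the precision `M` of the elements of `W ^ (1 / p ^ n)`;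
* **`clo_tgt`**: an index `m` with a precision `M + μ`, and the elements of `C` near to `t m` are tight;
* `Lt.shift`: a letter can be changed by the `p`-th power of a small element;
* `ff_exists_LtA`: the letters of `WX v C x` in `algIn C k(x)`.
-/

set_option autoImplicit false
set_option linter.unusedSectionVars false

open Polynomial

namespace Pool.Agent.TWTR

open Pool.Agent.H15JM (RVal)
open Pool.Agent.LU1 (adj)
open Pool.Agent.D2 (Ctx0)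
open Pool.Agent.D2P (rootF mem_rootF clI mem_clI)
open Pool.Agent.TWM Pool.Agent.TWM.C
open Pool.Agent.TWC
open Pool.Agent.TWF

universe u

variable {k Ω : Type u} [Field k] [Field Ω] [Algebra k Ω] {v : RVal Ω}
  {C W : IntermediateField k Ω} {p : ℕ} [hp : Fact p.Prime] [CharP Ω p] {t : ℕ → Ω} {r ν : ℝ}

/-- Powers of near elements. -/
theorem lim_down (hr : ∀ n, t (n + 1) ^ p = t n) {n j : ℕ}
    (h : Lim v C (r / p ^ (n + j)) (t (n + j))) : Lim v C (r / p ^ n) (t n) := by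
  have hp1 : (0 : ℝ) < p := by exact_mod_cast hp.out.pos
  have hpj : (0 : ℝ) < (p : ℝ) ^ j := pow_pos hp1 j
  intro ε hε
  obtain ⟨a, ha, h1⟩ := h (ε / p ^ j) (by positivity)
  refine ⟨a ^ p ^ j, pow_mem ha _, ?_⟩
  rw [← root_pow_add hr n j, ← sub_pow_char_pow]
  refine (ge_pow h1 (p ^ j)).mono (le_of_eq ?_)
  push_cast
  rw [pow_add]
  have := pow_pos hp1 n
  field_simp

section

variable [CharP k p] [IsAlgClosed Ω]

/-- A letter in the form of `Clo`. -/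
theorem Lt.cloD (h : Lt p v W t ν) {M δ₀ : ℝ} {n₀ : ℕ}
    (hclo : ∀ (X : ℕ → Ω) (q : ℝ), X 0 ∈ W → X 0 ≠ 0 → (∀ n, X (n + 1) ^ p = X n) →
      Dst v W (X 1) (q / p) → q - v (X 0) ≤ δ₀ →
        ∀ n, n₀ ≤ n → Dst v C (X (n + 1)) ((q + M) / p ^ (n + 1))) (hν : ν ≤ δ₀) {n : ℕ}
    (hn : n₀ ≤ n) : Dst v C (t (n + 1)) ((v (t 0) + ν + M) / p ^ (n + 1)) :=
  hclo t (v (t 0) + ν) h.mem h.ne h.root h.dst (by linarith) n hn

/-- Near elements of `C`, roots of all orders. -/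
theorem clo_near (h : Lt p v W t ν) {M δ₀ : ℝ} {n₀ : ℕ}
    (hclo : ∀ (X : ℕ → Ω) (q : ℝ), X 0 ∈ W → X 0 ≠ 0 → (∀ n, X (n + 1) ^ p = X n) →
      Dst v W (X 1) (q / p) → q - v (X 0) ≤ δ₀ →
        ∀ n, n₀ ≤ n → Dst v C (X (n + 1)) ((q + M) / p ^ (n + 1))) (hν : ν ≤ δ₀) (n : ℕ) :
    Lim v C ((v (t 0) + ν + M) / p ^ n) (t n) := by
  have h1 := (h.cloD hclo hν (n := n₀ + n) (Nat.le_add_right _ _)).near
  have e : n₀ + n + 1 = n + (n₀ + 1) := by omega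
  rw [e] at h1
  exact lim_down h.root h1

/-- **The precision.** -/
theorem clo_prec (h0 : Ctx0 k v) (hc : CompleteV v) (hWC : W ≤ C)
    (hex : ∀ δ : ℝ, 0 < δ → ∃ (t : ℕ → Ω) (ν : ℝ), Lt p v W t ν ∧ ν ≤ δ) {M δ₀ : ℝ} {n₀ : ℕ}
    (hM : 0 < M) (hδ₀ : 0 < δ₀)
    (hclo : ∀ (X : ℕ → Ω) (q : ℝ), X 0 ∈ W → X 0 ≠ 0 → (∀ n, X (n + 1) ^ p = X n) →
      Dst v W (X 1) (q / p) → q - v (X 0) ≤ δ₀ →
        ∀ n, n₀ ≤ n → Dst v C (X (n + 1)) ((q + M) / p ^ (n + 1))) (n : ℕ) :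
    Prec p v W C n M := by
  have hpm : (0 : ℝ) < (p : ℝ) - 1 := by
    have : (1 : ℝ) < p := by exact_mod_cast hp.out.one_lt
    linarith
  refine Prec.of_lt fun ε hε => ?_
  obtain ⟨t, ν, ht, hν⟩ := hex (min δ₀ ((p - 1) * min ε M))
    (lt_min hδ₀ (mul_pos hpm (lt_min hε hM)))
  have hν1 := hν.trans (min_le_left _ _)
  have hν2 := hν.trans (min_le_right _ _)
  have hν3 : ν / (p - 1) ≤ min ε M := by
    rw [div_le_iff₀ hpm, mul_comm]
    exact hν2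
  have h1 := ht.prec h0 hc hWC (hν3.trans (min_le_right _ _)) (clo_near ht hclo hν1 n)
  exact h1.mono (by linarith [hν3.trans (min_le_left _ _)])

/-- **Tight elements, from `Clo`.** -/
theorem clo_tgt (h0 : Ctx0 k v) (hc : CompleteV v) (hC : Cld v C) (hW : Cld v W) (hWC : W ≤ C)
    (h : Clo p v W C) {A : Ω → Prop}
    (hex : ∀ δ : ℝ, 0 < δ → ∃ (t : ℕ → Ω) (ν : ℝ), Lt p v W t ν ∧ ν ≤ δ ∧ A (t 0)) :
    ∃ (M μ : ℝ) (m : ℕ), 0 < M ∧ 0 < μ ∧ (∀ n, Prec p v W C n M) ∧ Prec p v W C m (M + μ) ∧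
      ∀ δ : ℝ, 0 < δ → ∃ (t : ℕ → Ω) (ν : ℝ), Lt p v W t ν ∧ ν ≤ δ ∧ ν ≤ μ / 4 ∧ A (t 0) ∧
        (∀ n, m ≤ n → Dst v C (t (n + 1)) ((v (t 0) + ν + M) / p ^ (n + 1))) ∧
        ∀ T₀ ∈ C, v.Ge (v (t m) + (M + μ / 2) / p ^ m) (t m - T₀) →
          ∃ T : ℕ → Ω, T 0 = T₀ ∧ Tgt p v C T ((v (t 0) + ν + M) / p ^ m) ∧
            ∀ n, v.Ge ((v (t 0) + ν + M + μ / 4) / p ^ (m + n)) (t (m + n) - T n) := by
  obtain ⟨M, n₀, δ₀, hM, hδ₀, hclo⟩ := h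
  have hex' : ∀ δ : ℝ, 0 < δ → ∃ (t : ℕ → Ω) (ν : ℝ), Lt p v W t ν ∧ ν ≤ δ := fun δ hδ => by
    obtain ⟨t, ν, h1, h2, -⟩ := hex δ hδ
    exact ⟨t, ν, h1, h2⟩
  have hlow := clo_prec h0 hc hWC hex' hM hδ₀ hclo
  obtain ⟨m, μ, δ₁, -, hμ, hδ₁, hPm, -, hall⟩ := lemE h0 hC hW hWC hex' hM hlow n₀ hδ₀
    fun t ν ht hν n hn => (ht.cloD hclo hν hn).far
  refine ⟨M, μ, m, hM, hμ, hlow, hPm, fun δ hδ => ?_⟩
  obtain ⟨t, ν, ht, hν, hA⟩ := hex (min δ (min δ₁ (μ / 4)))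
    (lt_min hδ (lt_min hδ₁ (by linarith)))
  have hν1 := hν.trans (min_le_left _ _)
  have hν2 := (hν.trans (min_le_right _ _)).trans (min_le_left _ _)
  have hν3 := (hν.trans (min_le_right _ _)).trans (min_le_right _ _)
  have hd := (hall t ν ht hν2).1
  refine ⟨t, ν, ht, hν1, hν3, hA, hd, fun T₀ hT₀ hn => ?_⟩
  have hp0 : (0 : ℝ) < (p : ℝ) ^ m := pow_pos (by exact_mod_cast hp.out.pos) m
  refine exists_tgt_at hC ht.root hd hT₀ (by linarith) (hn.mono ?_)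
  rw [ht.val m, ← add_div]
  exact div_le_div_of_nonneg_right (by linarith) hp0.le

/-! ### Letters -/

/-- A letter, changed by the `p`-th power of a small element. -/
theorem Lt.shift (h : Lt p v W t ν) {a : Ω} (ha : a ∈ W) (hv : Gt v ((v (t 0) + ν) / p) a) :
    ∃ t' : ℕ → Ω, Lt p v W t' ν ∧ t' 1 = t 1 + a ∧ t' 0 = t 0 + a ^ p ∧ v (t' 0) = v (t 0) := by
  have hp0 : (0 : ℝ) < p := by exact_mod_cast hp.out.pos
  obtain ⟨t', ht0, ht⟩ := exists_rts p (t 0 + a ^ p)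
  have ht1 : t' 1 = t 1 + a := by
    have h4 : (t' 1 - (t 1 + a)) ^ p = 0 := by
      rw [sub_pow_char, add_pow_char, ht 0, ht0, h.root 0]
      ring
    exact sub_eq_zero.1 (pow_eq_zero_iff hp.out.ne_zero |>.1 h4)
  have hvt : v (t 1) ≤ (v (t 0) + ν) / p := by
    have h1 := (h.dst.le (zero_mem W)).2
    rwa [sub_zero] at h1
  have h1 : t 1 + a ≠ 0 ∧ v (t 1 + a) = v (t 1) := by
    by_cases ha0 : a = 0
    · rw [ha0, add_zero]
      exact ⟨h.tne 1, rfl⟩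
    · have h2 : v (t 1) < v a := hvt.trans_lt (hv ha0)
      exact v.add_of_lt (h.tne 1) ha0 h2
  have hne : t' 0 ≠ 0 := by
    rw [← ht 0, zero_add, ht1]
    exact pow_ne_zero _ h1.1
  have hval : v (t' 0) = v (t 0) := by
    rw [← ht 0, zero_add, ht1, v.map_pow h1.1, h1.2, ← v.map_pow (h.tne 1)]
    exact congrArg v (h.root 0)
  refine ⟨t', ⟨h.cld, ?_, ht, hne, fun b hb => ?_, ?_⟩, ht1, ht0, hval⟩
  · rw [ht0]
    exact add_mem h.mem (pow_mem ha p)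
  · obtain ⟨Q, hQ, h4⟩ := h.gen b hb
    refine ⟨Q.comp (X - C a), lt_comp_PI hQ (sub_mem X_mem_PI (C_mem_PI ha)), ?_⟩
    rw [eval_comp, eval_sub, eval_X, eval_C, ht1, add_sub_cancel_right, h4]
  · rw [hval, ht1]
    refine ⟨?_, fun ε hε => ?_⟩
    · rintro ⟨b, hb, h5⟩
      refine h.dst.far ⟨b - a, sub_mem hb ha, ?_⟩
      have e : t 1 - (b - a) = t 1 + a - b := by ring
      rwa [e]
    · obtain ⟨b, hb, h5⟩ := h.dst.near ε hε
      refine ⟨b + a, add_mem hb ha, ?_⟩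
      have e : t 1 + a - (b + a) = t 1 - b := by ring
      rwa [e]

/-- A letter, multiplied by a `p`-th power. -/
theorem Lt.smul (h : Lt p v W t ν) {c : Ω} (hc : c ∈ W) (hc0 : c ≠ 0) :
    ∃ t' : ℕ → Ω, Lt p v W t' ν ∧ t' 1 = t 1 * c ∧ t' 0 = t 0 * c ^ p := by
  have hp0 : (0 : ℝ) < p := by exact_mod_cast hp.out.pos
  obtain ⟨t', ht0, ht⟩ := exists_rts p (t 0 * c ^ p)
  have ht1 : t' 1 = t 1 * c := by
    have h4 : (t' 1 - t 1 * c) ^ p = 0 := by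
      rw [sub_pow_char, mul_pow, ht 0, ht0, h.root 0]
      ring
    exact sub_eq_zero.1 (pow_eq_zero_iff hp.out.ne_zero |>.1 h4)
  have hne : t' 0 ≠ 0 := by
    rw [ht0]
    exact mul_ne_zero h.ne (pow_ne_zero _ hc0)
  have hval : v (t' 0) = v (t 0) + p * v c := by
    rw [ht0, v.map_mul h.ne (pow_ne_zero _ hc0), v.map_pow hc0]
  have e1 : (v (t' 0) + ν) / p = (v (t 0) + ν) / p + v c := by
    rw [hval]
    field_simp
    ring
  refine ⟨t', ⟨h.cld, ?_, ht, hne, fun b hb => ?_, ?_⟩, ht1, ht0⟩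
  · rw [ht0]
    exact mul_mem h.mem (pow_mem hc p)
  · obtain ⟨Q, hQ, h4⟩ := h.gen b hb
    refine ⟨Q.comp (C c⁻¹ * X), lt_comp_PI hQ (mul_mem (C_mem_PI (inv_mem hc)) X_mem_PI), ?_⟩
    rw [eval_comp, eval_mul, eval_C, eval_X, ht1, mul_comm (t 1) c, inv_mul_cancel_left₀ hc0, h4]
  · rw [e1, ht1]
    refine ⟨?_, fun ε hε => ?_⟩
    · rintro ⟨b, hb, h5⟩
      refine h.dst.far ⟨b / c, div_mem hb hc, fun h6 => ?_⟩
      have e : t 1 * c - b = c * (t 1 - b / c) := by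
        rw [mul_sub, mul_div_cancel₀ _ hc0, mul_comm]
      have h7 : t 1 * c - b ≠ 0 := by
        rw [e]
        exact mul_ne_zero hc0 h6
      have h8 := h5 h7
      rw [e, v.map_mul hc0 h6] at h8
      linarith
    · obtain ⟨b, hb, h5⟩ := h.dst.near ε hε
      refine ⟨b * c, mul_mem hb hc, fun h6 => ?_⟩
      have e : t 1 * c - b * c = c * (t 1 - b) := by ring
      rw [e] at h6 ⊢
      have h7 : t 1 - b ≠ 0 := right_ne_zero_of_mul h6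
      have h8 := h5 h7
      rw [v.map_mul hc0 h7]
      linarith

/-- **The letters of `WX v C x` in `algIn C k(x)`.** -/
theorem ff_exists_LtA [IsAlgClosed k] (h0 : Ctx0 k v) (hc : CompleteV v) {x y : Ω} {c₀ δ : ℝ}
    (h : FF p v C x y c₀) (hδ : 0 < δ) : ∃ (t : ℕ → Ω) (ν : ℝ),
      Lt p v (WX v C x) t ν ∧ ν ≤ δ ∧ t 0 ∈ algIn C (adj ⊥ x) ∧ v (t 0) ≠ 0 := by
  have hp0 : (0 : ℝ) < p := by exact_mod_cast hp.out.pos
  have hxA : x ∈ algIn C (adj (⊥ : IntermediateField k Ω) x) :=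
    mem_algIn.2 ⟨h.mem_x, isAlgebraic_algebraMap
      (⟨x, (D2P.mem_adj_self _ _).1⟩ : adj (⊥ : IntermediateField k Ω) x)⟩
  obtain ⟨t, ν, g, h1, h2, h3, h4⟩ := ff_exists_Lt h0 hc h hδ
  obtain ⟨g', hg', h5⟩ := mem_clI.1 h3 ((v (t 0) + ν) / p + 1)
  have hg'W : g' ∈ WX v C x := algIn_le_WX hg'
  obtain ⟨t', h6, -, h7, -⟩ := h1.shift (sub_mem h3 hg'W) (Gt.of_ge h5 (by linarith))
  have h8 : t' 0 ∈ algIn C (adj (⊥ : IntermediateField k Ω) x) := by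
    have e : t' 0 = x - g' ^ p := by
      rw [h7, h4, sub_pow_char]
      ring
    rw [e]
    exact sub_mem hxA (pow_mem hg' p)
  by_cases h9 : v (t' 0) = 0
  · obtain ⟨t'', h10, -, h11⟩ := h6.smul (algIn_le_WX hxA) h.x0
    refine ⟨t'', ν, h10, h2, ?_, ?_⟩
    · rw [h11]
      exact mul_mem h8 (pow_mem hxA p)
    · rw [h11, v.map_mul h6.ne (pow_ne_zero _ h.x0), v.map_pow h.x0, h9, zero_add]
      exact mul_ne_zero hp0.ne' h.vx
  · exact ⟨t', ν, h6, h2, h8, h9⟩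

/-- **Tight elements, from `Clo`, for an infinite first floor.** -/
theorem ff_clo_tgt [IsAlgClosed k] (h0 : Ctx0 k v) (hc : CompleteV v) {x y : Ω} {c₀ : ℝ}
    (h : FF p v C x y c₀) (hclo : Clo p v (WX v C x) C) :
    ∃ (M μ : ℝ) (m : ℕ), 0 < M ∧ 0 < μ ∧ (∀ n, Prec p v (WX v C x) C n M) ∧
      Prec p v (WX v C x) C m (M + μ) ∧ ∀ δ : ℝ, 0 < δ → ∃ (t : ℕ → Ω) (ν : ℝ),
        Lt p v (WX v C x) t ν ∧ ν ≤ δ ∧ ν ≤ μ / 4 ∧
        (t 0 ∈ algIn C (adj ⊥ x) ∧ v (t 0) ≠ 0) ∧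
        (∀ n, m ≤ n → Dst v C (t (n + 1)) ((v (t 0) + ν + M) / p ^ (n + 1))) ∧
        ∀ T₀ ∈ C, v.Ge (v (t m) + (M + μ / 2) / p ^ m) (t m - T₀) →
          ∃ T : ℕ → Ω, T 0 = T₀ ∧ Tgt p v C T ((v (t 0) + ν + M) / p ^ m) ∧
            ∀ n, v.Ge ((v (t 0) + ν + M + μ / 4) / p ^ (m + n)) (t (m + n) - T n) :=
  clo_tgt h0 hc h.cld (cld_WX v C x) (WX_le h.cld) hclo
    (A := fun a => a ∈ algIn C (adj ⊥ x) ∧ v a ≠ 0) fun _ hδ => ff_exists_LtA h0 hc h hδ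

end

end Pool.Agent.TWTR
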