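import Pool.Agent.Lib.TWTR.CellA
import Pool.Agent.Lib.TWF.InfDefs

/-!
# TANK W: the values of `C` and of `WX`

* `ratV_finf`: infinite first floor: the values of `C` are multiples of `v z`, `z ∈ C`, `v z ≠ 0`;
* **`vg_wx`**: if the values of `WX v C z` are divisible by `p`, they are the values of `C`.
-/

set_option autoImplicit false

open Polynomial

namespace Pool.Agent.TWTR

open Pool.Agent.H15JM (RVal)
open Pool.Agent.LU1 (VPos adj)
open Pool.Agent.D2 (Ctx0)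
open Pool.Agent.D2P (hen clI mem_clI mem_adj_self)
open Pool.Agent.TWM
open Pool.Agent.TWF
open Pool.Agent.TWS (VG MonG RatV)

universe u

variable {k Ω : Type u} [Field k] [Field Ω] [Algebra k Ω] {v : RVal Ω}
  {C : IntermediateField k Ω} {p : ℕ} [hp : Fact p.Prime] [CharP Ω p]
  [IsAlgClosed Ω] {x y z : Ω} {c₀ s γ : ℝ}

omit hp [CharP Ω p] [IsAlgClosed Ω] in
theorem ratV_self (h : RatV v C γ) (hz : z ∈ C) (hz0 : z ≠ 0) (hvz : v z ≠ 0) :
    RatV v C (v z) := by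
  obtain ⟨n, hn, m, h1⟩ := h (v z) (VG.self hz hz0)
  have hn' : (n : ℝ) ≠ 0 := by exact_mod_cast hn
  have hm : m ≠ 0 := by
    rintro rfl
    rw [Int.cast_zero, zero_mul] at h1
    exact hvz ((mul_eq_zero.1 h1).resolve_left hn')
  intro g hg
  obtain ⟨n', hn0, m', h2⟩ := h g hg
  have h3 : ((m.natAbs : ℕ) : ℝ) = (m.sign : ℝ) * m := by
    have h4 := congrArg (Int.cast : ℤ → ℝ) (Int.sign_mul_self_eq_natAbs m)
    rw [Int.cast_mul, Int.cast_natCast] at h4
    exact h4.symm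
  refine ⟨n' * m.natAbs, mul_ne_zero hn0 (Int.natAbs_ne_zero.2 hm), m.sign * m' * n, ?_⟩
  rw [Nat.cast_mul, h3]
  push_cast
  linear_combination (m.sign * m : ℝ) * h2 - (m.sign * m' : ℝ) * h1

/-- The values of `C`. -/
theorem ratV_finf (h0 : Ctx0 k v) (hF : FInf p v C x y s c₀) (hz : z ∈ C) (hz0 : z ≠ 0)
    (hvz : v z ≠ 0) : RatV v C (v z) := by
  have hxC : x ∈ C := by
    rw [hF.eq]
    exact le_cadj v _ y (self_mem_cadj v _ x)
  have h1 : C ≤ cadj v (EX p v C x) y := by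
    nth_rw 1 [hF.eq]
    refine cadj_le (cld_cadj v _ _) (cadj_le (cld_cadj v _ _) bot_le ?_) (self_mem_cadj v _ y)
    exact le_cadj v _ y (WX_le_EX p (mem_WX hxC))
  have h2 : RatV v (cadj v (EX p v C x) y) (v x) :=
    RatV.imm (ratV_ex h0 hF.x0 hF.vx hxC) hF.tl.imm
  exact ratV_self (RatV.mono h2 h1) hz hz0 hvz

/-- **The values of `WX`.** -/
theorem vg_wx (h0 : Ctx0 k v) (hF : FInf p v C x y s c₀) (hC : Cld v C) (hz : z ∈ C)
    (hz0 : z ≠ 0) (hvz : v z ≠ 0)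
    (hdiv : ∀ g ∈ VG v (WX v C z), g / p ∈ VG v (WX v C z)) :
    ∀ g ∈ VG v C, g ∈ VG v (WX v C z) := by
  have hp0 : (p : ℝ) ≠ 0 := by exact_mod_cast hp.out.ne_zero
  rintro _ ⟨c, hcC, hc0, rfl⟩
  obtain ⟨n, hn, m, h1⟩ := ratV_finf h0 hF hz hz0 hvz (v c) (VG.self hcC hc0)
  obtain ⟨j, n', hn', rfl⟩ := Nat.exists_eq_pow_mul_and_not_dvd hn p hp.out.ne_one
  have hn0 : n' ≠ 0 := fun h => hn' (h ▸ dvd_zero p)
  -- the root
  obtain ⟨b, hb⟩ := IsAlgClosed.exists_pow_nat_eq (z ^ m) (Nat.pos_of_ne_zero hn0)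
  have hzm : z ^ m ≠ 0 := zpow_ne_zero _ hz0
  have hb0 : b ≠ 0 := by
    rintro rfl
    rw [zero_pow hn0] at hb
    exact hzm hb.symm
  have hvzm : v (z ^ m) = m * v z := v.map_zpow hz0 m
  have h2 : (n' : ℝ) * v b = m * v z := by
    rw [← v.map_pow hb0, hb, hvzm]
  have h3 : v b = v (c ^ p ^ j) := by
    rw [v.map_pow hc0]
    have h4 : (n' : ℝ) * v b = n' * (((p ^ j : ℕ) : ℝ) * v c) := by
      rw [h2, ← h1]
      push_cast
      ring
    exact mul_left_cancel₀ (by exact_mod_cast hn0) h4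
  have hbC : b ∈ C := TWS.root_mem p h0 hC hn' hb0 (by rw [hb]; exact zpow_mem hz m) (by
    rw [h3]
    exact VG.self (pow_mem hcC _) (pow_ne_zero _ hc0))
  have hbA : b ∈ algIn C (adj (⊥ : IntermediateField k Ω) z) := by
    refine mem_algIn.2 ⟨hbC, IsAlgebraic.of_pow (Nat.pos_of_ne_zero hn0) ?_⟩
    rw [hb]
    exact isAlgebraic_algebraMap (⟨z ^ m, zpow_mem (mem_adj_self _ z).1 m⟩ :
      adj (⊥ : IntermediateField k Ω) z)
  have h5 : v (c ^ p ^ j) ∈ VG v (WX v C z) := by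
    rw [← h3]
    exact VG.self (algIn_le_WX hbA) hb0
  rw [v.map_pow hc0] at h5
  have h6 : ∀ i : ℕ, (p : ℝ) ^ i * v c ∈ VG v (WX v C z) → v c ∈ VG v (WX v C z) := by
    intro i
    induction i with
    | zero => intro h7; rwa [pow_zero, one_mul] at h7
    | succ i ih =>
      intro h7
      refine ih ?_
      have h8 := hdiv _ h7
      have h9 : (p : ℝ) ^ (i + 1) * v c / p = p ^ i * v c := by
        rw [pow_succ]
        field_simp
      rwa [h9] at h8
  refine h6 j ?_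
  push_cast at h5
  exact h5

end Pool.Agent.TWTR
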