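import Pool.Agent.Lib.TWC.Theta
import Pool.Agent.Lib.TWM.B1
import Pool.Agent.Lib.D2P.TTP

/-!
# TANK W, LEMMA TRI: steps `u ^ p - c u ∈ M`

`c ∈ k`, radius zero.

* `aP p c z = z ^ p - c z`; `APol p c` the polynomial;
* `AStep p v M u c ρ`: `M` closed, `u ^ p - c u ∈ M`, `u` at distance `≤ ρ` of `M`, `ρ ≤ 0`;
* `AStep.dist`, `AStep.root`: the elements of degree `< p` over `M` are at distance `≤ ρ` of `u`;
* `AO.of_root`, `AO.stepA`: the powers of `u - h` are almost orthogonal over `M`;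
* `exists_digA`, `exists_digA_frac`: digits along `APol p c`.
-/

set_option autoImplicit false

open Polynomial

namespace Pool.Agent.TWTR

open Pool.Agent.H15JM (RVal)
open Pool.Agent.LU1 (VPos adj)
open Pool.Agent.D2 (Ctx0)
open Pool.Agent.D2P (hen clI mem_clI)
open Pool.Agent.TWM Pool.Agent.TWM.C
open Pool.Agent.TWC

universe u

variable {k Ω : Type u} [Field k] [Field Ω] [Algebra k Ω] {v : RVal Ω}
  {A M W F : IntermediateField k Ω} {u y z : Ω} {ρ r : ℝ} {c : k}

/-- `z ^ p - c z`. -/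
def aP (p : ℕ) (c : k) (z : Ω) : Ω := z ^ p - algebraMap k Ω c * z

/-- The polynomial `X ^ p - c X`. -/
noncomputable def APol (p : ℕ) (c : k) : Polynomial Ω := X ^ p - C (algebraMap k Ω c) * X

theorem eval_APol (p : ℕ) (c : k) (z : Ω) : (APol p c : Polynomial Ω).eval z = aP p c z := by
  rw [APol, eval_sub, eval_pow, eval_mul, eval_C, eval_X, aP]

theorem APol_mem (p : ℕ) (c : k) : (APol p c : Polynomial Ω) ∈ PI F :=
  sub_mem (pow_mem X_mem_PI p) (mul_mem (C_mem_PI (F.algebraMap_mem c)) X_mem_PI)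

section Chr

variable (p : ℕ) [hp : Fact p.Prime] [CharP Ω p]

theorem aP_add (a b : Ω) : aP p c (a + b) = aP p c a + aP p c b := by
  rw [aP, aP, aP, add_pow_char]
  ring

theorem aP_sub (a b : Ω) : aP p c (a - b) = aP p c a - aP p c b := by
  rw [aP, aP, aP, sub_pow_char]
  ring

theorem aP_neg (a : Ω) : aP p c (-a) = -aP p c a := by
  have h := aP_sub (c := c) p 0 a
  have h1 : aP p c (0 : Ω) = 0 := by
    rw [aP, zero_pow hp.out.ne_zero, mul_zero, sub_zero]
  rw [zero_sub, h1, zero_sub] at h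
  exact h

omit hp [CharP Ω p] in
theorem aP_zero (hp : p ≠ 0) : aP p c (0 : Ω) = 0 := by
  rw [aP, zero_pow hp, mul_zero, sub_zero]

omit [CharP Ω p] in
/-- The value of `z ^ p - c z`, `z` of negative value. -/
theorem val_aP_of_neg (h0 : Ctx0 k v) (hz : z ≠ 0) (hv : v z < 0) :
    aP p c z ≠ 0 ∧ v (aP p c z) = p * v z := by
  have hp1 : (1 : ℝ) < p := by exact_mod_cast hp.out.one_lt
  have h1 : v (z ^ p) = p * v z := v.map_pow hz p
  by_cases hc : algebraMap k Ω c * z = 0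
  · rw [aP, hc, sub_zero]
    exact ⟨pow_ne_zero _ hz, h1⟩
  · have h2 : v.Ge (v z) (algebraMap k Ω c * z) := by
      have := (h0.ge c).mul (RVal.ge_self (v := v) z)
      rwa [zero_add] at this
    have h3 : v (z ^ p) < v (-(algebraMap k Ω c * z)) := by
      rw [h1, v.map_neg _ hc]
      have := h2 hc
      nlinarith
    have h4 := v.add_of_lt (pow_ne_zero p hz) (neg_ne_zero.2 hc) h3
    rw [← sub_eq_add_neg] at h4
    exact ⟨h4.1, by rw [aP, h4.2, h1]⟩

omit [CharP Ω p] in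
theorem aP_ge (h0 : Ctx0 k v) (hr : r ≤ 0) (hz : v.Ge r z) : v.Ge (p * r) (aP p c z) := by
  have hp1 : (1 : ℝ) < p := by exact_mod_cast hp.out.one_lt
  have h1 := ge_pow hz p
  have h2 := (h0.ge c).mul hz
  exact h1.sub (h2.mono (by nlinarith))

omit [CharP Ω p] in
theorem ge_of_aP (h0 : Ctx0 k v) (h : v.Ge 0 (aP p c z)) : v.Ge 0 z := by
  intro hz
  by_contra hlt
  push Not at hlt
  have hp1 : (1 : ℝ) < p := by exact_mod_cast hp.out.one_lt
  obtain ⟨h1, h2⟩ := val_aP_of_neg (c := c) p h0 hz hlt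
  have h3 := h h1
  rw [h2] at h3
  nlinarith

omit [CharP Ω p] in
/-- Elements with `aP` of the same value. -/
theorem root_shift (h0 : Ctx0 k v) (hρ : ρ ≤ 0) {z z' : Ω} (hz : Gt v ρ z)
    (h : aP p c z' = 0 ∨ (aP p c z ≠ 0 ∧ v (aP p c z') = v (aP p c z))) :
    ∃ ξ : k, Gt v ρ (z' - algebraMap k Ω ξ) := by
  have hp0 : (0 : ℝ) < p := by exact_mod_cast hp.out.pos
  by_cases h1 : v.Ge 0 z'
  · obtain ⟨ξ, hξ⟩ := h0.residue h1
    exact ⟨ξ, fun h2 => lt_of_le_of_lt hρ (hξ h2)⟩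
  · refine ⟨0, ?_⟩
    rw [map_zero, sub_zero]
    have hz' : z' ≠ 0 := by
      rintro rfl
      exact h1 RVal.Ge.zero
    have hv' : v z' < 0 := by
      by_contra h2
      push Not at h2
      exact h1 fun _ => h2
    obtain ⟨h2, h3⟩ := val_aP_of_neg (c := c) p h0 hz' hv'
    rcases h with h4 | ⟨h4, h5⟩
    · exact absurd h4 h2
    · have hz0 : z ≠ 0 := by
        rintro rfl
        exact h4 (aP_zero p hp.out.ne_zero)
      have h6 : v z < 0 := by
        by_contra h7
        push Not at h7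
        have h8 := aP_ge (c := c) p h0 le_rfl (z := z) (fun _ => h7) h4
        rw [mul_zero, ← h5, h3] at h8
        nlinarith
      have h7 := (val_aP_of_neg (c := c) p h0 hz0 h6).2
      rw [h3, h7] at h5
      have h8 := mul_left_cancel₀ hp0.ne' h5
      intro _
      rw [h8]
      exact hz hz0

end Chr

/-- A step of degree `p` in which `u` has distance `≤ ρ` from `M`. -/
structure AStep (p : ℕ) (v : RVal Ω) (M : IntermediateField k Ω) (u : Ω) (c : k) (ρ : ℝ) :
    Prop where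
  cld : Cld v M
  pw : aP p c u ∈ M
  far : ¬ Nr' v M ρ u
  le : ρ ≤ 0

theorem AStep.not_mem {p : ℕ} (hs : AStep p v M u c ρ) : u ∉ M := fun h =>
  hs.far ⟨u, h, by rw [sub_self]; exact Gt.zero⟩

section Dist

variable (p : ℕ) [hp : Fact p.Prime] [CharP k p] [CharP Ω p] [IsAlgClosed Ω]

/-- The elements of degree `< p` over `M` are at distance `≤ ρ` from `u`. -/
theorem AStep.dist (h0 : Ctx0 k v) (hs : AStep p v M u c ρ) {θ : Ω} (hint : IsIntegral M θ)
    (hdeg : (minpoly M θ).natDegree < p) : u ≠ θ ∧ v (u - θ) ≤ ρ := by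
  classical
  have hM := hen_eq hs.cld
  set g := minpoly M θ with hg
  have hgm : g.Monic := minpoly.monic hint
  have hgi : Irreducible g := minpoly.irreducible hint
  have hd0 : 0 < g.natDegree := minpoly.natDegree_pos hint
  have hchM : CharP M p := charP_of_injective_algebraMap (algebraMap k M).injective p
  have hdk : ((g.natDegree : ℕ) : k) ≠ 0 := by
    rw [Ne, CharP.cast_eq_zero_iff k p]
    exact fun h => absurd (Nat.le_of_dvd hd0 h) (not_le.2 hdeg)
  have hdM : ((g.natDegree : ℕ) : M) ≠ 0 := by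
    rw [Ne, CharP.cast_eq_zero_iff M p]
    exact fun h => absurd (Nat.le_of_dvd hd0 h) (not_le.2 hdeg)
  -- separability
  have hsep : IsSeparable M θ := by
    show g.Separable
    rw [separable_iff_derivative_ne_zero hgi]
    intro h1
    have h2 := congrArg (fun q : M[X] => q.coeff (g.natDegree - 1)) h1
    simp only [coeff_derivative, coeff_zero] at h2
    rw [Nat.sub_add_cancel hd0, hgm.coeff_natDegree, one_mul] at h2
    have h3 : ((g.natDegree - 1 : ℕ) : M) + 1 = ((g.natDegree : ℕ) : M) := by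
      rw [← Nat.cast_succ, Nat.succ_eq_add_one, Nat.sub_add_cancel hd0]
    rw [h3] at h2
    exact hdM h2
  by_contra hcon
  have hgt : Gt v ρ (u - θ) := by
    intro h1
    by_contra h2
    push Not at h2
    exact hcon ⟨sub_ne_zero.1 h1, h2⟩
  -- the conjugates
  have hconj : ∀ θ', aeval θ' g = 0 → ∃ ξ : k, Gt v ρ (u - θ' - algebraMap k Ω ξ) := by
    intro θ' hθ'
    set a := aP p c θ - aP p c u with ha
    set a' := aP p c θ' - aP p c u with ha'
    have hup : IsSeparable M (aP p c u) := isSeparable_algebraMap (F := M) (⟨aP p c u, hs.pw⟩ : M)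
    have hkM : algebraMap k Ω c ∈ separableClosure M Ω := by
      refine mem_separableClosure_iff.2 ?_
      exact isSeparable_algebraMap (F := M) (⟨algebraMap k Ω c, M.algebraMap_mem c⟩ : M)
    have hasep : IsSeparable M a := by
      have h1 : aP p c θ ∈ separableClosure M Ω :=
        sub_mem (pow_mem (mem_separableClosure_iff.2 hsep) p)
          (mul_mem hkM (mem_separableClosure_iff.2 hsep))
      exact mem_separableClosure_iff.1 (sub_mem h1 (mem_separableClosure_iff.2 hup))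
    have haroot : aeval a' (minpoly M a) = 0 := by
      set H : M[X] := (minpoly M a).comp (X ^ p - C (⟨algebraMap k Ω c, M.algebraMap_mem c⟩ : M) * X
        - C (⟨aP p c u, hs.pw⟩ : M)) with hH
      have h1 : ∀ t : Ω, aeval t H = aeval (aP p c t - aP p c u) (minpoly M a) := by
        intro t
        rw [hH, aeval_comp, map_sub, map_sub, map_pow, map_mul, aeval_X, aeval_C, aeval_C]
        rfl
      have h2 : aeval θ H = 0 := by rw [h1, ← ha, minpoly.aeval]
      have h3 : g ∣ H := minpoly.dvd M θ h2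
      obtain ⟨q, hq⟩ := h3
      rw [ha', ← h1, hq, map_mul, hθ', zero_mul]
    have e1 : aP p c (u - θ) = -a := by rw [aP_sub, ha, neg_sub]
    have e2 : aP p c (u - θ') = -a' := by rw [aP_sub, ha', neg_sub]
    refine root_shift (c := c) p h0 hs.le hgt ?_
    by_cases h1 : a' = 0
    · left
      rw [e2, h1, neg_zero]
    · right
      have h2 : a ≠ 0 := by
        intro h2
        rw [h2, minpoly.zero, aeval_X] at haroot
        exact h1 haroot
      refine ⟨by rw [e1]; exact neg_ne_zero.2 h2, ?_⟩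
      rw [e1, e2, v.map_neg _ h1, v.map_neg _ h2]
      exact D2P.val_root_sep h0 hM hasep haroot
  -- the trace
  set G : Polynomial Ω := g.map (algebraMap M Ω) with hG
  have hGm : G.Monic := hgm.map _
  have hGs : G.Splits := IsAlgClosed.splits G
  have hGd : G.natDegree = g.natDegree := hgm.natDegree_map _
  have hcard : G.roots.card = g.natDegree := by
    rw [← hGd]
    exact hGs.natDegree_eq_card_roots.symm
  have hroot : ∀ θ' ∈ G.roots, ∃ ξ : k, Gt v ρ (u - θ' - algebraMap k Ω ξ) := by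
    intro θ' hθ'
    refine hconj θ' ?_
    have h1 := (mem_roots hGm.ne_zero).1 hθ'
    rwa [IsRoot.def, hG, eval_map_algebraMap] at h1
  have hsum : ∀ S : Multiset Ω, (∀ θ' ∈ S, ∃ ξ : k, Gt v ρ (u - θ' - algebraMap k Ω ξ)) →
      ∃ ξ : k, Gt v ρ ((S.card : Ω) * u - S.sum - algebraMap k Ω ξ) := by
    intro S hS
    induction S using Multiset.induction_on with
    | empty =>
      refine ⟨0, ?_⟩
      rw [Multiset.card_zero, Nat.cast_zero, zero_mul, Multiset.sum_zero, sub_zero, map_zero,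
        sub_zero]
      exact Gt.zero
    | cons a S ih =>
      obtain ⟨ξ, h1⟩ := hS a (Multiset.mem_cons_self a S)
      obtain ⟨ξ', h2⟩ := ih fun θ' h => hS θ' (Multiset.mem_cons_of_mem h)
      refine ⟨ξ + ξ', ?_⟩
      rw [Multiset.card_cons, Multiset.sum_cons]
      have h3 : ((S.card + 1 : ℕ) : Ω) * u - (a + S.sum) - algebraMap k Ω (ξ + ξ') =
          (u - a - algebraMap k Ω ξ) + ((S.card : Ω) * u - S.sum - algebraMap k Ω ξ') := by
        rw [map_add, Nat.cast_add, Nat.cast_one]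
        ring
      rw [h3]
      exact h1.add h2
  obtain ⟨ξ, h1⟩ := hsum G.roots hroot
  rw [hcard] at h1
  have h2 : G.roots.sum ∈ M := by
    have h3 := hGs.nextCoeff_eq_neg_sum_roots_of_monic hGm
    have h4 : G.roots.sum = -G.nextCoeff := by rw [h3, neg_neg]
    rw [h4]
    refine neg_mem ?_
    unfold nextCoeff
    split_ifs
    · exact zero_mem _
    · rw [hG, coeff_map]
      exact (g.coeff _).2
  obtain ⟨hdΩ, hvd⟩ := nat_val h0 hdk
  refine hs.far ⟨((g.natDegree : ℕ) : Ω)⁻¹ * (G.roots.sum + algebraMap k Ω ξ),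
    mul_mem (inv_mem (natCast_mem M _)) (add_mem h2 (M.algebraMap_mem ξ)), ?_⟩
  have h5 : u - ((g.natDegree : ℕ) : Ω)⁻¹ * (G.roots.sum + algebraMap k Ω ξ) =
      (((g.natDegree : ℕ) : Ω) * u - G.roots.sum - algebraMap k Ω ξ) *
        ((g.natDegree : ℕ) : Ω)⁻¹ := by
    field_simp
    ring
  rw [h5]
  have h6 : v.Ge 0 ((g.natDegree : ℕ) : Ω)⁻¹ := fun _ => by
    rw [v.map_inv hdΩ, hvd, neg_zero]
  have h7 := h1.mul_ge h6
  rwa [add_zero] at h7

/-- The roots of the polynomials of degree `< p`. -/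
theorem AStep.root (h0 : Ctx0 k v) (hs : AStep p v M u c ρ) {P : Polynomial Ω} (hP : P ∈ PI M)
    (hP0 : P ≠ 0) (hdeg : P.natDegree < p) {θ : Ω} (hθ : P.IsRoot θ) :
    u ≠ θ ∧ v (u - θ) ≤ ρ := by
  have hl : P ∈ Polynomial.lifts (algebraMap M Ω) := by
    rw [Polynomial.lifts_iff_coeff_lifts]
    exact fun i => ⟨⟨P.coeff i, hP i⟩, rfl⟩
  obtain ⟨g, hg⟩ := hl
  have hg' : g.map (algebraMap M Ω) = P := hg
  have hg0 : g ≠ 0 := by
    rintro rfl
    rw [Polynomial.map_zero] at hg'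
    exact hP0 hg'.symm
  have hgθ : aeval θ g = 0 := by
    rw [aeval_def, eval₂_eq_eval_map, hg']
    exact hθ
  have halg : IsAlgebraic M θ := ⟨g, hg0, hgθ⟩
  refine hs.dist p h0 halg.isIntegral ?_
  refine lt_of_le_of_lt (natDegree_le_of_dvd (minpoly.dvd M θ hgθ) hg0) ?_
  rw [← hg', natDegree_map] at hdeg
  exact hdeg

end Dist

section Orth

variable (p : ℕ)

/-- The powers of `u - h` are almost orthogonal over `M`, if the elements of degree `< p` over `M`
are far from `u`. -/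
theorem AO.of_root [hp : Fact p.Prime] [CharP Ω p] [IsAlgClosed Ω] {u h : Ω} {ρ : ℝ}
    (hs : ∀ P ∈ PI M, P ≠ 0 → P.natDegree < p → ∀ θ, P.IsRoot θ → u ≠ θ ∧ v (u - θ) ≤ ρ)
    (hh : h ∈ M) {γ : ℝ} (hγ : 0 ≤ γ) (hu : v.Ge (ρ - γ) (u - h)) :
    AO v M (fun a : Fin p => (u - h) ^ (a : ℕ)) (p * γ) := by
  classical
  intro c hc r hr i
  set P : Polynomial Ω := ∑ a : Fin p, C (c a) * (X - C h) ^ (a : ℕ) with hP
  have hPM : P ∈ PI M :=
    sum_mem fun a _ => mul_mem (C_mem_PI (hc a)) (pow_mem (sub_mem X_mem_PI (C_mem_PI hh)) _)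
  have hPu : P.eval u = ∑ a : Fin p, c a * (u - h) ^ (a : ℕ) := by
    rw [hP, eval_finsetSum]
    refine Finset.sum_congr rfl fun a _ => ?_
    rw [eval_mul, eval_C, eval_pow, eval_sub, eval_X, eval_C]
  have hPh : ∀ a : Fin p, (taylor h P).coeff a = c a := by
    intro a
    have h1 : taylor h P = ∑ a : Fin p, C (c a) * X ^ (a : ℕ) := by
      rw [hP, map_sum]
      refine Finset.sum_congr rfl fun a _ => ?_
      rw [taylor_mul, taylor_C, taylor_pow, map_sub, taylor_X, taylor_C, add_sub_cancel_right]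
    rw [h1, finsetSum_coeff, Finset.sum_eq_single a]
    · rw [coeff_C_mul, coeff_X_pow, if_pos rfl, mul_one]
    · intro b _ hb
      rw [coeff_C_mul, coeff_X_pow, if_neg (fun h => hb (Fin.ext h.symm)), mul_zero]
    · exact fun h => absurd (Finset.mem_univ a) h
  have hdeg : P.natDegree < p := by
    refine lt_of_le_of_lt (natDegree_sum_le_of_forall_le (n := p - 1) _ _ fun a _ => ?_)
      (Nat.sub_lt hp.out.pos one_pos)
    refine (natDegree_C_mul_le _ _).trans ((natDegree_pow_le).trans ?_)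
    rw [natDegree_X_sub_C, mul_one]
    have := a.2
    omega
  by_cases hP0 : P = 0
  · have h1 := hPh i
    rw [hP0, map_zero, coeff_zero] at h1
    change v.Ge _ (c i * _)
    rw [← h1, zero_mul]
    exact RVal.Ge.zero
  · have h4 := fun l => Roots.taylor_ge hP0 (fun θ hθ => hs P hPM hP0 hdeg θ hθ) l
    have hPr : r ≤ v (P.eval u) := by
      have : P.eval u ≠ 0 := fun h => (hs P hPM hP0 hdeg u h).1 rfl
      rw [hPu] at this ⊢
      exact hr this
    have h5 : v.Ge (r - i * ρ - (p - i : ℝ) * γ) (c i) := by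
      rw [← hPh i]
      have h6 : taylor h P = taylor (h - u) (taylor u P) := by
        rw [taylor_taylor, sub_add_cancel]
      rw [h6, taylor_coeff, hasseDeriv_apply, Polynomial.sum, eval_finsetSum]
      refine RVal.Ge.sum _ _ fun n hn => ?_
      rw [eval_monomial]
      rcases lt_or_ge n i with h7 | h7
      · rw [Nat.choose_eq_zero_of_lt h7, Nat.cast_zero, zero_mul, zero_mul]
        exact RVal.Ge.zero
      · have h8 : n < p := by
          have h9 := le_natDegree_of_mem_supp n hn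
          rw [natDegree_taylor] at h9
          omega
        rw [mul_assoc]
        have h9 := (ge_natCast v (n.choose i)).mul ((h4 n).mul
          (ge_pow (ge_sub_comm hu) (n - i)))
        refine h9.mono ?_
        rw [Nat.cast_sub h7]
        have h10 : (n : ℝ) ≤ p := by exact_mod_cast h8.le
        nlinarith
    have h6 := h5.mul (ge_pow hu i)
    change v.Ge _ (c i * _)
    refine h6.mono ?_
    nlinarith

/-- One step. -/
theorem AO.stepA [hp : Fact p.Prime] [CharP k p] [CharP Ω p] [IsAlgClosed Ω] (h0 : Ctx0 k v)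
    {h : Ω} (hs : AStep p v M u c ρ) (hh : h ∈ M) {γ : ℝ} (hγ : 0 ≤ γ)
    (hu : v.Ge (ρ - γ) (u - h)) : AO v M (fun a : Fin p => (u - h) ^ (a : ℕ)) (p * γ) :=
  AO.of_root p (fun _ hP hP0 hdeg _ hθ => hs.root p h0 hP hP0 hdeg hθ) hh hγ hu

end Orth

/-! ### Digits -/

section Digits

/-- The elements of `F(t)`. -/
theorem exists_frac' {t a : Ω} (ha : a ∈ adj F t) :
    ∃ G ∈ PI F, ∃ H ∈ PI F, H.eval t ≠ 0 ∧ a * H.eval t = G.eval t := by
  obtain ⟨P, Q, hPQ⟩ := D2P.mem_adj_frac ha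
  have hm : ∀ P : Polynomial F, P.map (algebraMap F Ω) ∈ PI F := fun P i => by
    rw [coeff_map]
    exact SetLike.coe_mem _
  by_cases h : aeval t Q = 0
  · refine ⟨0, zero_mem _, 1, one_mem _, by rw [eval_one]; exact one_ne_zero, ?_⟩
    rw [hPQ, h, div_zero, zero_mul, eval_zero]
  · refine ⟨_, hm P, _, hm Q, ?_, ?_⟩
    · rwa [eval_map_algebraMap]
    · rw [eval_map_algebraMap, eval_map_algebraMap, hPQ, div_mul_cancel₀ _ h]

theorem lift_PI {f : Polynomial Ω} (hf : f ∈ PI F) :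
    ∃ g : Polynomial F, g.map (algebraMap F Ω) = f := by
  have hl : f ∈ Polynomial.lifts (algebraMap F Ω) := by
    rw [Polynomial.lifts_iff_coeff_lifts]
    exact fun i => ⟨⟨f.coeff i, hf i⟩, rfl⟩
  obtain ⟨g, hg⟩ := hl
  exact ⟨g, hg⟩

theorem map_mem_PI (g : Polynomial F) : g.map (algebraMap F Ω) ∈ PI F := fun i => by
  rw [coeff_map]
  exact SetLike.coe_mem _

/-- Division by a monic polynomial. -/
theorem div_mem_PI {f a : Polynomial Ω} (hf : f ∈ PI F) (ha : a ∈ PI F) (hm : a.Monic) :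
    f /ₘ a ∈ PI F ∧ f %ₘ a ∈ PI F := by
  obtain ⟨g, rfl⟩ := lift_PI hf
  obtain ⟨b, rfl⟩ := lift_PI ha
  have hb : b.Monic := by
    have h1 : Function.Injective (algebraMap F Ω) := (algebraMap F Ω).injective
    exact Polynomial.monic_of_injective h1 hm
  rw [← map_divByMonic _ hb, ← map_modByMonic _ hb]
  exact ⟨map_mem_PI _, map_mem_PI _⟩

theorem comp_mem_PI {f a : Polynomial Ω} (hf : f ∈ PI F) (ha : a ∈ PI F) : f.comp a ∈ PI F := by
  rw [comp_eq_sum_left, Polynomial.sum]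
  exact sum_mem fun i _ => mul_mem (C_mem_PI (hf i)) (pow_mem ha i)

/-- Digits along a monic polynomial. -/
theorem exists_digA {n : ℕ} (hn : 0 < n) {a : Polynomial Ω} (ha : a ∈ PI F) (hm : a.Monic)
    (hd : a.natDegree = n) (N : ℕ) : ∀ {f : Polynomial Ω}, f ∈ PI F → f.natDegree ≤ N →
    ∃ Q : ℕ → Polynomial Ω, (∀ i, Q i ∈ PI F) ∧
      f = ∑ i ∈ Finset.range n, (Q i).comp a * X ^ i := by
  induction N using Nat.strong_induction_on with
  | _ N ih =>
    intro f hf hN
    by_cases hlt : f.natDegree < n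
    · refine ⟨fun i => C (f.coeff i), fun i => C_mem_PI (hf i), ?_⟩
      conv_lhs => rw [f.as_sum_range' n hlt]
      refine Finset.sum_congr rfl fun i _ => ?_
      rw [C_comp, C_mul_X_pow_eq_monomial]
    · push Not at hlt
      obtain ⟨h1, h2⟩ := div_mem_PI hf ha hm
      have h3 : (f /ₘ a).natDegree ≤ N - n := by
        rw [natDegree_divByMonic f hm, hd]
        omega
      obtain ⟨Q, hQ, h4⟩ := ih (N - n) (by omega) h1 h3
      have h5 : (f %ₘ a).natDegree < n := by
        rw [← hd]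
        refine natDegree_modByMonic_lt f hm ?_
        intro h6
        rw [h6, natDegree_one] at hd
        omega
      refine ⟨fun i => C ((f %ₘ a).coeff i) + X * Q i, fun i => add_mem (C_mem_PI (h2 i))
        (mul_mem X_mem_PI (hQ i)), ?_⟩
      have h6 : f = f %ₘ a + a * (f /ₘ a) := (modByMonic_add_div f a).symm
      have h7 : (f %ₘ a) = ∑ i ∈ Finset.range n, C ((f %ₘ a).coeff i) * X ^ i := by
        conv_lhs => rw [(f %ₘ a).as_sum_range' n h5]
        refine Finset.sum_congr rfl fun i _ => ?_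
        rw [C_mul_X_pow_eq_monomial]
      conv_lhs => rw [h6, h4, h7]
      rw [Finset.mul_sum, ← Finset.sum_add_distrib]
      refine Finset.sum_congr rfl fun i _ => ?_
      rw [add_comp, C_comp, mul_comp, X_comp]
      ring

/-- The expansion along `X φ(H) - φ(G)`. -/
theorem exists_dig_frac {n : ℕ} (φ : Polynomial Ω →+* Polynomial Ω) {f G H : Polynomial Ω}
    {Q : ℕ → Polynomial Ω} (hQ : ∀ i, Q i ∈ PI F)
    (h1 : f = ∑ i ∈ Finset.range n, φ (Q i) * X ^ i) (hG : G ∈ PI F) (hH : H ∈ PI F) :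
    ∃ b : ℕ → Polynomial Ω, (∀ j, b j ∈ PI F) ∧ f * φ H ^ (n - 1) =
      ∑ j ∈ Finset.range n, φ (b j) * (X * φ H - φ G) ^ j := by
  classical
  refine ⟨fun j => ∑ a ∈ Finset.range n, Q a * ((a.choose j : ℕ) : Polynomial Ω) * G ^ (a - j) *
    H ^ (n - 1 - a), fun j => sum_mem fun a _ => mul_mem (mul_mem (mul_mem (hQ a)
      (natCast_mem _ _)) (pow_mem hG _)) (pow_mem hH _), ?_⟩
  have h2 : ∀ a ∈ Finset.range n, X ^ a * φ (H ^ (n - 1)) =
      ∑ j ∈ Finset.range n, φ (((a.choose j : ℕ) : Polynomial Ω) * G ^ (a - j) *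
        H ^ (n - 1 - a)) * (X * φ H - φ G) ^ j := by
    intro a ha
    rw [Finset.mem_range] at ha
    have h3 : X ^ a * φ (H ^ (n - 1)) = φ (H ^ (n - 1 - a)) *
        ((X * φ H - φ G) + φ G) ^ a := by
      rw [sub_add_cancel, mul_pow, ← map_pow, mul_comm (X ^ a) (φ (H ^ a)), ← mul_assoc,
        ← map_mul, ← pow_add, show n - 1 - a + a = n - 1 by omega, mul_comm]
    rw [h3, add_pow, Finset.mul_sum]
    have h4 : Finset.range (a + 1) ⊆ Finset.range n := Finset.range_subset_range.2 (by omega)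
    rw [← Finset.sum_subset h4 fun j _ hj => ?_]
    · refine Finset.sum_congr rfl fun j _ => ?_
      rw [map_mul, map_mul, map_natCast, ← map_pow]
      ring
    · rw [Finset.mem_range, not_lt] at hj
      rw [Nat.choose_eq_zero_of_lt (by omega), Nat.cast_zero, zero_mul, zero_mul, map_zero,
        zero_mul]
  conv_lhs => rw [h1]
  rw [Finset.sum_mul, ← map_pow]
  simp only [map_sum, Finset.sum_mul]
  rw [Finset.sum_comm]
  refine Finset.sum_congr rfl fun a ha => ?_
  rw [mul_assoc, h2 a ha, Finset.mul_sum]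
  refine Finset.sum_congr rfl fun j _ => ?_
  simp only [map_mul]
  ring

section

variable (p : ℕ) [hp : Fact p.Prime]

theorem APol_deg (c : k) : (APol p c : Polynomial Ω).Monic ∧
    (APol p c : Polynomial Ω).natDegree = p := by
  have h1 : (C (algebraMap k Ω c) * X : Polynomial Ω).degree < p := by
    refine lt_of_le_of_lt (degree_C_mul_X_le _) ?_
    exact_mod_cast hp.out.one_lt
  refine ⟨monic_X_pow_sub ?_, ?_⟩
  · refine lt_of_lt_of_le h1 ?_
    exact le_rfl
  · rw [APol]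
    have h2 : (X ^ p - C (algebraMap k Ω c) * X : Polynomial Ω).degree = p := by
      rw [degree_sub_eq_left_of_degree_lt, degree_X_pow]
      rw [degree_X_pow]
      exact h1
    exact natDegree_eq_of_degree_eq_some h2

/-- Digits along `X ^ p - c X`, with a centre `G / H`. -/
theorem exists_digA_frac (c : k) {f G H : Polynomial Ω} (hf : f ∈ PI F) (hG : G ∈ PI F)
    (hH : H ∈ PI F) : ∃ b : ℕ → Polynomial Ω, (∀ j, b j ∈ PI F) ∧
      f * (H.comp (APol p c)) ^ (p - 1) =
      ∑ j ∈ Finset.range p, (b j).comp (APol p c) *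
        (X * H.comp (APol p c) - G.comp (APol p c)) ^ j := by
  obtain ⟨h1, h2⟩ := APol_deg (Ω := Ω) p c
  obtain ⟨Q, hQ, h3⟩ := exists_digA hp.out.pos (APol_mem p c) h1 h2 _ hf le_rfl
  have h4 := exists_dig_frac (n := p) (compRingHom (APol p c)) (f := f) (G := G) (H := H) hQ
    (by simpa only [coe_compRingHom_apply] using h3) hG hH
  simpa only [coe_compRingHom_apply] using h4

end

end Digits

/-! ### The field `W(y ^ p - c y)` -/

section Shift

/-- `y` is at distance `< 0` of the elements which are algebraic over `W`. -/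
def Far0 (v : RVal Ω) (W : IntermediateField k Ω) (y : Ω) : Prop :=
  ∀ θ : Ω, IsAlgebraic W θ → y ≠ θ ∧ v (y - θ) < 0

theorem val_add_of_neg {a ζ : Ω} (ha : a ≠ 0) (hv : v a < 0) (hζ : v.Ge 0 ζ) :
    a + ζ ≠ 0 ∧ v (a + ζ) = v a := by
  by_cases h1 : ζ = 0
  · rw [h1, add_zero]
    exact ⟨ha, rfl⟩
  · exact v.add_of_lt ha h1 (hv.trans_le (hζ h1))

theorem prod_shift {ζ : Ω} (hζ : v.Ge 0 ζ) (S : Multiset Ω)
    (hS : ∀ θ ∈ S, y ≠ θ ∧ v (y - θ) < 0) :
    ((S.map fun θ => X - C θ).prod).eval y ≠ 0 ∧ ((S.map fun θ => X - C θ).prod).eval (y + ζ) ≠ 0 ∧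
      v (((S.map fun θ => X - C θ).prod).eval (y + ζ)) =
        v (((S.map fun θ => X - C θ).prod).eval y) := by
  induction S using Multiset.induction_on with
  | empty =>
    rw [Multiset.map_zero, Multiset.prod_zero, eval_one, eval_one]
    exact ⟨one_ne_zero, one_ne_zero, rfl⟩
  | cons a S ih =>
    obtain ⟨h1, h2, h3⟩ := ih fun θ h => hS θ (Multiset.mem_cons_of_mem h)
    obtain ⟨h4, h5⟩ := hS a (Multiset.mem_cons_self a S)
    rw [Multiset.map_cons, Multiset.prod_cons, eval_mul, eval_mul, eval_sub, eval_sub, eval_X,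
      eval_X, eval_C, eval_C]
    have h6 := val_add_of_neg (sub_ne_zero.2 h4) h5 hζ
    have e : y + ζ - a = y - a + ζ := by ring
    rw [e]
    refine ⟨mul_ne_zero (sub_ne_zero.2 h4) h1, mul_ne_zero h6.1 h2, ?_⟩
    rw [v.map_mul h6.1 h2, v.map_mul (sub_ne_zero.2 h4) h1, h6.2, h3]

/-- The values are invariant under the translations by elements of value `≥ 0`. -/
theorem Far0.eval_shift [IsAlgClosed Ω] (h : Far0 v W y) {f : Polynomial Ω} (hf : f ∈ PI W)
    (hf0 : f ≠ 0) {ζ : Ω} (hζ : v.Ge 0 ζ) :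
    f.eval y ≠ 0 ∧ f.eval (y + ζ) ≠ 0 ∧ v (f.eval (y + ζ)) = v (f.eval y) := by
  have h1 := (IsAlgClosed.splits f).eq_prod_roots
  have h2 := prod_shift (y := y) hζ f.roots fun θ hθ =>
    h θ (isAlgebraic_root hf hf0 ((mem_roots hf0).1 hθ))
  have hl : f.leadingCoeff ≠ 0 := leadingCoeff_ne_zero.2 hf0
  rw [h1, eval_mul, eval_mul, eval_C, eval_C]
  refine ⟨mul_ne_zero hl h2.1, mul_ne_zero hl h2.2.1, ?_⟩
  rw [v.map_mul hl h2.2.1, v.map_mul hl h2.1, h2.2.2]

theorem Far0.ge_shift [IsAlgClosed Ω] (h : Far0 v W y) {f : Polynomial Ω} (hf : f ∈ PI W)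
    {ζ : Ω} (hζ : v.Ge 0 ζ) {r : ℝ} (hr : v.Ge r (f.eval y)) : v.Ge r (f.eval (y + ζ)) := by
  by_cases h0 : f = 0
  · rw [h0, eval_zero]
    exact RVal.Ge.zero
  · obtain ⟨h1, h2, h3⟩ := h.eval_shift hf h0 hζ
    intro _
    rw [h3]
    exact hr h1

theorem Far0.mono (h : Far0 v W y) (hA : A ≤ W) : Far0 v A y := fun θ hθ =>
  h θ (D2P.isAlgebraic_mono hA hθ)

variable (p : ℕ) [hp : Fact p.Prime] [CharP Ω p] [IsAlgClosed k] [IsAlgClosed Ω]

omit [CharP Ω p] [IsAlgClosed Ω] in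
/-- A root of `X ^ p - c X` other than zero. -/
theorem exists_ker (hc : c ≠ 0) : ∃ ξ : k, ξ ≠ 0 ∧ aP p c (algebraMap k Ω ξ) = 0 := by
  obtain ⟨ξ, hξ⟩ := IsAlgClosed.exists_pow_nat_eq c (n := p - 1)
    (Nat.sub_pos_of_lt hp.out.one_lt)
  refine ⟨ξ, ?_, ?_⟩
  · rintro rfl
    rw [zero_pow (Nat.sub_pos_of_lt hp.out.one_lt).ne'] at hξ
    exact hc hξ.symm
  · have h1 : ξ ^ p = c * ξ := by
      rw [← hξ, ← pow_succ, Nat.sub_add_cancel hp.out.one_lt.le]
    rw [aP, ← map_pow, h1, map_mul, sub_self]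

/-- `y` is at distance `≤ 0` of the elements of `W(y ^ p - c y)`. -/
theorem Far0.dist_adj (h0 : Ctx0 k v) (h : Far0 v W y) (hc : c ≠ 0) {a : Ω}
    (ha : a ∈ adj W (aP p c y)) : y ≠ a ∧ v (y - a) ≤ 0 := by
  obtain ⟨G, hG, H, hH, h1, h2⟩ := exists_frac' ha
  obtain ⟨ξ, hξ0, hξ⟩ := exists_ker (Ω := Ω) p hc
  have hξΩ : algebraMap k Ω ξ ≠ 0 := (map_ne_zero_iff _ (algebraMap k Ω).injective).2 hξ0
  have hcm : ∀ f ∈ PI W, f.comp (APol p c) ∈ PI W := fun f hf => comp_mem_PI hf (APol_mem p c)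
  set P : Polynomial Ω := X * H.comp (APol p c) - G.comp (APol p c) with hP
  have hPW : P ∈ PI W := sub_mem (mul_mem X_mem_PI (hcm H hH)) (hcm G hG)
  have hPy : P.eval y = (y - a) * H.eval (aP p c y) := by
    rw [hP, eval_sub, eval_mul, eval_X, eval_comp, eval_comp, eval_APol, sub_mul, h2]
  have hPξ : P.eval (y + algebraMap k Ω ξ) =
      (y - a + algebraMap k Ω ξ) * H.eval (aP p c y) := by
    rw [hP, eval_sub, eval_mul, eval_X, eval_comp, eval_comp, eval_APol, aP_add, hξ, add_zero,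
      add_mul, add_mul, sub_mul, h2]
    ring
  have hP0 : P ≠ 0 := by
    intro h3
    rw [h3, eval_zero] at hPy hPξ
    have h4 : y - a = 0 := by
      rcases mul_eq_zero.1 hPy.symm with h5 | h5
      · exact h5
      · exact absurd h5 h1
    rw [h4, zero_add] at hPξ
    exact mul_ne_zero hξΩ h1 hPξ.symm
  obtain ⟨h3, h4, h5⟩ := h.eval_shift hPW hP0 (h0.ge ξ)
  have h6 : y - a ≠ 0 := by
    intro h6
    rw [hPy, h6, zero_mul] at h3
    exact h3 rfl
  refine ⟨sub_ne_zero.1 h6, ?_⟩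
  by_contra hlt
  push Not at hlt
  have h7 : v (algebraMap k Ω ξ) < v (y - a) := by
    rw [h0.triv ξ hξ0]
    exact hlt
  have h8 := v.add_of_lt hξΩ h6 h7
  rw [add_comm] at h8
  rw [hPξ, hPy, v.map_mul h8.1 h1, v.map_mul h6 h1, h8.2, h0.triv ξ hξ0] at h5
  linarith

/-- **The step `W<y ^ p - c y> < W<y>`.** -/
theorem Far0.exists_astep (h0 : Ctx0 k v) (h : Far0 v W y) (hc : c ≠ 0) :
    ∃ σ : ℝ, AStep p v (cadj v W (aP p c y)) y c σ ∧
      (∀ a ∈ adj W (aP p c y), v (y - a) ≤ σ) ∧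
      ∀ ε : ℝ, 0 < ε → ∃ a ∈ adj W (aP p c y), σ - ε < v (y - a) := by
  set S : Set ℝ := {r | ∃ a ∈ adj W (aP p c y), r = v (y - a)} with hS
  have hSb : BddAbove S := ⟨0, by
    rintro r ⟨a, ha, rfl⟩
    exact (h.dist_adj p h0 hc ha).2⟩
  have hSn : S.Nonempty := ⟨_, 0, zero_mem _, rfl⟩
  have hle : ∀ a ∈ adj W (aP p c y), v (y - a) ≤ sSup S := fun a ha => le_csSup hSb ⟨a, ha, rfl⟩
  refine ⟨sSup S, ⟨cld_cadj _ _ _, self_mem_cadj _ _ _, ?_, csSup_le hSn ?_⟩, hle, ?_⟩
  · rintro ⟨a, ha, h1⟩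
    rcases eq_or_ne y a with h2 | h2
    · obtain ⟨x, hx, h3⟩ := ha (sSup S + 1)
      rw [← h2] at h3
      have h4 := h3 (sub_ne_zero.2 (h.dist_adj p h0 hc hx).1)
      linarith [hle x hx]
    · obtain ⟨x, hx, h3⟩ := ha (v (y - a))
      have h4 : v.Ge (v (y - a)) (y - x) := by
        rw [show y - x = (y - a) + (a - x) by ring]
        exact (RVal.ge_self _).add h3
      have h5 := h4 (sub_ne_zero.2 (h.dist_adj p h0 hc hx).1)
      have h6 := h1 (sub_ne_zero.2 h2)
      linarith [hle x hx]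
  · rintro r ⟨a, ha, rfl⟩
    exact (h.dist_adj p h0 hc ha).2
  · intro ε hε
    obtain ⟨_, ⟨a, ha, rfl⟩, h2⟩ := exists_lt_of_lt_csSup hSn (sub_lt_self _ hε)
    exact ⟨a, ha, h2⟩

end Shift

end Pool.Agent.TWTR
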