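import Pool.Agent.Lib.TWTR.BasL
import Pool.Agent.Lib.TWTR.Boot
import Pool.Agent.Lib.TWF.CovDefs

/-!
# TANK W, the cover (row TRI): the letters and the gaps of a floor `Bas p v W x z`
-/

set_option autoImplicit false
set_option linter.unusedSectionVars false

open Polynomial

namespace Pool.Agent.TWTR

open Pool.Agent.H15JM (RVal)
open Pool.Agent.LU1 (VPos adj)
open Pool.Agent.D2 (Ctx0)
open Pool.Agent.D2P (clI mem_clI rootF mem_rootF)
open Pool.Agent.TW (PBasis pcomb mon)
open Pool.Agent.TWM Pool.Agent.TWM.C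
open Pool.Agent.TWC
open Pool.Agent.TWF

universe u

variable {k Ω : Type u} [Field k] [Field Ω] [Algebra k Ω] {v : RVal Ω}
  {W C : IntermediateField k Ω} {δ : ℝ} {p : ℕ} {x z : Ω}

/-- An element of a `p`-basis is not a `p`-th power. -/
theorem pb_notin [hp : Fact p.Prime] [CharP Ω p] (hpb : PBasis p W ![x]) :
    ∀ a ∈ W, a ^ p ≠ x := by
  rintro a ha rfl
  have h1 := hpb.ind (fun α => if (α 0 : ℕ) = 0 then -a else if (α 0 : ℕ) = 1 then 1 else 0)
    (fun α => by
      split_ifs
      · exact neg_mem ha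
      · exact one_mem _
      · exact zero_mem _) (by
      rw [pcomb_one]
      have h2 : ∀ i : Fin p, (if ((![i] : Fin 1 → Fin p) 0 : ℕ) = 0 then -a else
          if ((![i] : Fin 1 → Fin p) 0 : ℕ) = 1 then (1 : Ω) else 0) ^ p * (a ^ p) ^ (i : ℕ) =
          if (i : ℕ) = 0 then -(a ^ p) else if (i : ℕ) = 1 then a ^ p else 0 := by
        intro i
        simp only [Matrix.cons_val_fin_one]
        split_ifs with h3 h4
        · rw [h3, pow_zero, mul_one]
          have h5 : (-a) ^ p + a ^ p = 0 := by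
            rw [← add_pow_char, neg_add_cancel, zero_pow hp.out.ne_zero]
          linear_combination h5
        · rw [h4, one_pow, one_mul, pow_one]
        · rw [zero_pow hp.out.ne_zero, zero_mul]
      rw [Finset.sum_congr rfl fun i _ => h2 i]
      obtain ⟨q, hq⟩ : ∃ q, p = q + 2 := ⟨p - 2, by
        have := hp.out.two_le
        omega⟩
      clear h2 hpb
      rw [← Finset.sum_range (fun i => if i = 0 then -(a ^ p) else if i = 1 then a ^ p else 0)]
      have h3 : Finset.range p = insert 0 (insert 1 ((Finset.range p).filter fun i => 2 ≤ i)) := by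
        ext i
        simp only [Finset.mem_range, Finset.mem_insert, Finset.mem_filter]
        omega
      rw [h3, Finset.sum_insert (by simp), Finset.sum_insert (by simp), Finset.sum_eq_zero]
      · simp
      · intro i hi
        rw [Finset.mem_filter] at hi
        rw [if_neg (by omega), if_neg (by omega)])
    ![⟨1, hp.out.one_lt⟩]
  simp at h1

section

variable [hp : Fact p.Prime] [CharP k p] [CharP Ω p] [IsAlgClosed Ω]

/-- **The letters of a floor.** -/
theorem bas_exists_Lt (h : Bas p v W x z) (hδ : 0 < δ) :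
    ∃ (t : ℕ → Ω) (ν : ℝ), Lt p v W t ν ∧ ν ≤ δ ∧ t 1 ∉ cadj v W z := by
  obtain ⟨x₁, hx₁⟩ := IsAlgClosed.exists_pow_nat_eq x hp.out.pos
  obtain ⟨t, ν, g, h1, h2, h3, -, h5⟩ := exists_Lt h.cld h.mem (pb_notin h.pb) hx₁
    (gen_of_pb hx₁ h.pb) hδ
  refine ⟨t, ν, h1, h2, fun h6 => ?_⟩
  have h7 : x₁ ∈ cadj v W z := by
    have e : x₁ = t 1 + g := by rw [h5, sub_add_cancel]
    rw [e]
    exact add_mem h6 (le_cadj v W z h3)
  obtain ⟨b, hb⟩ := h.bd
  refine hb x₁ h7 ?_
  rw [hx₁, sub_self]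
  exact Gt.zero

/-- **The gaps of `z` are bounded.** -/
theorem bas_near (h0 : Ctx0 k v) (hc : CompleteV v) (h : Bas p v W x z) :
    ∃ m : ℝ, 0 ≤ m ∧ ∀ j, NearB p v W 0 j m z := by
  obtain ⟨t, ν, h1, -, h2⟩ := bas_exists_Lt h one_pos
  exact gap_bound h0 hc h1 (cld_cadj v W z) (le_cadj v W z) h2 (self_mem_cadj v W z)
    (fun ε hε => by
      obtain ⟨j, a, ha, h3⟩ := h.lim ε hε
      exact ⟨j, a, ha, by rwa [zero_sub]⟩)

end

end Pool.Agent.TWTR
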