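import Mathlib

/-!
# TANK W, cover: the linear algebra of BOOT

* `semi_sub`: subspaces `N i` of codimension `≤ 1`, shifted by a map `F`: for every `n` some vector is
  in `N 1, ..., N (n - 1)` and not in `N n`, or some vector `≠ 0` is in all `N i`, `i ≥ 1`;
* `pr p ρ i a = ∑ a_j ^ (p ^ i) ρ_(i + j)`; `semi`: the same for the kernels of the `pr p ρ i`.
-/

set_option autoImplicit false

open Polynomial

namespace Pool.Agent.TWTR

section Sub

variable {k V : Type*} [Field k] [AddCommGroup V] [Module k V]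

/-- A subspace of infinite dimension meets a subspace of codimension `≤ 1` in infinite dimension. -/
theorem inf_codim_one {U N : Submodule k V} (hU : ¬ FiniteDimensional k U)
    (hN : ∀ a b : V, ∃ c d : k, (c ≠ 0 ∨ d ≠ 0) ∧ c • a + d • b ∈ N) :
    ¬ FiniteDimensional k (U ⊓ N : Submodule k V) := by
  intro hfin
  refine hU ?_
  by_cases hUN : U ≤ N
  · rwa [inf_eq_left.2 hUN] at hfin
  obtain ⟨b, hbU, hbN⟩ := Set.not_subset.1 hUN
  have h1 : U ≤ (U ⊓ N) ⊔ Submodule.span k {b} := by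
    intro a ha
    obtain ⟨c, d, hcd, h2⟩ := hN a b
    have hc : c ≠ 0 := by
      rintro rfl
      rw [zero_smul, zero_add] at h2
      rcases hcd with h3 | h3
      · exact h3 rfl
      · exact hbN ((N.smul_mem_iff h3).1 h2)
    have h3 : a = c⁻¹ • (c • a + d • b) + (-(c⁻¹ * d)) • b := by
      rw [smul_add, smul_smul, inv_mul_cancel₀ hc, one_smul, smul_smul, neg_smul]
      abel
    rw [h3]
    refine Submodule.add_mem_sup ⟨?_, ?_⟩ (Submodule.smul_mem _ _ (Submodule.mem_span_singleton_self b))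
    · exact U.smul_mem _ (U.add_mem (U.smul_mem _ ha) (U.smul_mem _ hbU))
    · exact N.smul_mem _ h2
  have := hfin
  have : FiniteDimensional k ((U ⊓ N) ⊔ Submodule.span k {b} : Submodule k V) :=
    Submodule.finite_sup _ _
  exact Submodule.finiteDimensional_of_le h1

/-- **The linear algebra of BOOT.** -/
theorem semi_sub (hV : ¬ FiniteDimensional k V) (N : ℕ → Submodule k V)
    (hN : ∀ i, ∀ a b : V, ∃ c d : k, (c ≠ 0 ∨ d ≠ 0) ∧ c • a + d • b ∈ N i) (F : V → V)
    (hF : ∀ i a, F a ∈ N i ↔ a ∈ N (i + 1)) :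
    (∀ n, 1 ≤ n → ∃ a, (∀ i, 1 ≤ i → i < n → a ∈ N i) ∧ a ∉ N n) ∨
      ∃ a, a ≠ 0 ∧ ∀ i, 1 ≤ i → a ∈ N i := by
  by_cases h : ∀ n, 1 ≤ n → ∃ a, (∀ i, 1 ≤ i → i < n → a ∈ N i) ∧ a ∉ N n
  · exact Or.inl h
  right
  push Not at h
  obtain ⟨n, hn, h1⟩ := h
  -- the vectors which are in the first subspaces are in all of them
  have h2 : ∀ j, ∀ a, (∀ i, 1 ≤ i → i < n → a ∈ N i) → ∀ i, 1 ≤ i → i ≤ n + j → a ∈ N i := by
    intro j
    induction j with
    | zero =>
      intro a ha i hi hin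
      rcases Nat.lt_or_eq_of_le hin with h3 | rfl
      · exact ha i hi h3
      · exact h1 a ha
    | succ j ih =>
      intro a ha i hi hin
      rcases Nat.lt_or_eq_of_le hin with h3 | rfl
      · exact ih a ha i hi (by omega)
      · have h4 : ∀ i, 1 ≤ i → i < n → F a ∈ N i := fun i hi1 hi2 =>
          (hF i a).2 (ih a ha (i + 1) (by omega) (by omega))
        have h5 := ih (F a) h4 (n + j) (by omega) le_rfl
        exact (hF _ a).1 h5
  -- the first subspaces
  have h3 : ∀ m, ∃ U : Submodule k V, ¬ FiniteDimensional k U ∧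
      ∀ a ∈ U, ∀ i, 1 ≤ i → i < m → a ∈ N i := by
    intro m
    induction m with
    | zero =>
      refine ⟨⊤, fun h4 => hV ?_, fun a _ i _ hi => absurd hi (by omega)⟩
      exact (Module.finite_def (R := k) (M := V)).2 ((Submodule.fg_top _).1 (by
        have := (Module.finite_def (R := k) (M := (⊤ : Submodule k V))).1 h4
        exact this))
    | succ m ih =>
      obtain ⟨U, hU, h4⟩ := ih
      refine ⟨U ⊓ N m, inf_codim_one hU (hN m), fun a ha i hi him => ?_⟩
      rcases Nat.lt_or_eq_of_le (Nat.lt_succ_iff.1 him) with h5 | rfl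
      · exact h4 a ha.1 i hi h5
      · exact ha.2
  obtain ⟨U, hU, h4⟩ := h3 n
  have hne : U ≠ ⊥ := by
    rintro rfl
    exact hU inferInstance
  obtain ⟨a, ha, ha0⟩ := Submodule.exists_mem_ne_zero_of_ne_bot hne
  exact ⟨a, ha0, fun i hi => h2 i a (h4 a ha) i hi (by omega)⟩

end Sub

section Semi

variable {k : Type*} [Field k] (p : ℕ) [hp : Fact p.Prime] [CharP k p]

/-- `∑ a_j ^ (p ^ i) ρ_(i + j)`. -/
noncomputable def pr (ρ : ℕ → k) (i : ℕ) (a : k[X]) : k :=
  a.sum fun j c => c ^ p ^ i * ρ (i + j)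

omit [CharP k p] in
theorem pr_eq (ρ : ℕ → k) (i : ℕ) (a : k[X]) {n : ℕ} (hn : a.natDegree < n) :
    pr p ρ i a = ∑ j ∈ Finset.range n, a.coeff j ^ p ^ i * ρ (i + j) := by
  rw [pr, sum_over_range' _ _ n hn]
  intro j
  rw [zero_pow (pow_pos hp.out.pos i).ne', zero_mul]

theorem pr_add (ρ : ℕ → k) (i : ℕ) (a b : k[X]) :
    pr p ρ i (a + b) = pr p ρ i a + pr p ρ i b := by
  set n := max (max a.natDegree b.natDegree) (a + b).natDegree + 1 with hn
  rw [pr_eq p ρ i (a + b) (n := n) (by omega), pr_eq p ρ i a (n := n) (by omega),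
    pr_eq p ρ i b (n := n) (by omega), ← Finset.sum_add_distrib]
  refine Finset.sum_congr rfl fun j _ => ?_
  rw [coeff_add, add_pow_char_pow, add_mul]

omit [CharP k p] in
theorem pr_smul (ρ : ℕ → k) (i : ℕ) (c : k) (a : k[X]) :
    pr p ρ i (c • a) = c ^ p ^ i * pr p ρ i a := by
  set n := max a.natDegree (c • a).natDegree + 1 with hn
  rw [pr_eq p ρ i (c • a) (n := n) (by omega), pr_eq p ρ i a (n := n) (by omega), Finset.mul_sum]
  refine Finset.sum_congr rfl fun j _ => ?_
  rw [coeff_smul, smul_eq_mul, mul_pow, mul_assoc]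

/-- The shift `a ↦ F a`. -/
noncomputable def frs (a : k[X]) : k[X] := X * a.map (frobenius k p)

theorem pr_frs (ρ : ℕ → k) (i : ℕ) (a : k[X]) : pr p ρ i (frs p a) = pr p ρ (i + 1) a := by
  set n := max a.natDegree (frs p a).natDegree + 1 with hn
  rw [pr_eq p ρ i (frs p a) (n := n + 1) (by omega), pr_eq p ρ (i + 1) a (n := n) (by omega),
    Finset.sum_range_succ']
  have h0 : (frs p a).coeff 0 = 0 := by rw [frs, coeff_X_mul_zero]
  rw [h0, zero_pow (pow_pos hp.out.pos i).ne', zero_mul, add_zero]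
  refine Finset.sum_congr rfl fun j _ => ?_
  rw [frs, coeff_X_mul, coeff_map, frobenius_def, ← pow_mul, ← pow_succ', Nat.add_right_comm,
    Nat.add_assoc]

/-- **The linear algebra of BOOT**, coordinates: `∑ a_j ^ (p ^ i) ρ_(i + j)`. -/
theorem semi [PerfectRing k p] (ρ : ℕ → k) :
    (∀ n, 1 ≤ n → ∃ a : k[X], (∀ i, 1 ≤ i → i < n → pr p ρ i a = 0) ∧ pr p ρ n a ≠ 0) ∨
      ∃ a : k[X], a ≠ 0 ∧ ∀ i, 1 ≤ i → pr p ρ i a = 0 := by
  let N : ℕ → Submodule k k[X] := fun i =>
    { carrier := {a | pr p ρ i a = 0}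
      add_mem' := fun {a b} ha hb => by
        have ha' : pr p ρ i a = 0 := ha
        have hb' : pr p ρ i b = 0 := hb
        change pr p ρ i (a + b) = 0
        rw [pr_add, ha', hb', add_zero]
      zero_mem' := by
        change pr p ρ i 0 = 0
        rw [pr, sum_zero_index]
      smul_mem' := fun c a ha => by
        have ha' : pr p ρ i a = 0 := ha
        change pr p ρ i (c • a) = 0
        rw [pr_smul, ha', mul_zero] }
  have hmem : ∀ i a, a ∈ N i ↔ pr p ρ i a = 0 := fun i a => Iff.rfl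
  have h := semi_sub (k := k) (V := k[X]) Polynomial.not_finite N ?_ (frs p) ?_
  · exact h
  · intro i a b
    by_cases hb : pr p ρ i b = 0
    · exact ⟨0, 1, Or.inr one_ne_zero, by rw [hmem, zero_smul, zero_add, one_smul]; exact hb⟩
    · obtain ⟨c, hc⟩ := (bijective_iterateFrobenius k p i).2 (-(pr p ρ i a / pr p ρ i b))
      rw [iterateFrobenius_def] at hc
      refine ⟨1, c, Or.inl one_ne_zero, ?_⟩
      rw [hmem, one_smul, pr_add, pr_smul, hc, neg_mul, div_mul_cancel₀ _ hb, add_neg_cancel]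
  · intro i a
    rw [hmem, hmem, pr_frs]

end Semi

end Pool.Agent.TWTR
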