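import Pool.Agent.Lib.TWTR.Boot
import Pool.Agent.Lib.TWTR.Semi

/-!
# TANK W, the cover: the hypothesis of BOOT

* `bh_of_lt`: `z ∈ C` (any radius `s`), all gaps `< m`, `limsup = m`;
* `bh_of_min`: `z ∈ C` of radius `0`, all gaps `≤ m`, and `limsup = m` for all `A(z)`, `A ≠ 0` in
  `k{Fr}`.
-/

set_option autoImplicit false
set_option linter.unusedSectionVars false

open Polynomial

namespace Pool.Agent.TWTR

open Pool.Agent.H15JM (RVal)
open Pool.Agent.LU1 (VPos adj)
open Pool.Agent.D2 (Ctx0)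
open Pool.Agent.D2P (clI mem_clI rootF mem_rootF)
open Pool.Agent.TWM

universe u

variable {k Ω : Type u} [Field k] [Field Ω] [Algebra k Ω] {v : RVal Ω}
  {W C M : IntermediateField k Ω} {u w f f' z : Ω} {ρ c E b m m' s : ℝ} {p : ℕ}

theorem NearB.mono {j : ℕ} (hp0 : (0 : ℝ) < p) (h : NearB p v W s j m f) (hm : m ≤ m') :
    NearB p v W s j m' f := fun ε hε => by
  obtain ⟨a, ha, h1⟩ := h ε hε
  refine ⟨a, ha, h1.mono ?_⟩
  have := div_le_div_of_nonneg_right hm (pow_pos hp0 (j + 1)).le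
  linarith

section

variable [hp : Fact p.Prime] [CharP Ω p]

theorem NearB.add {j : ℕ} (h : NearB p v W s j m f) (h' : NearB p v W s j m f') :
    NearB p v W s j m (f + f') := fun ε hε => by
  obtain ⟨a, ha, h1⟩ := h ε hε
  obtain ⟨a', ha', h2⟩ := h' ε hε
  refine ⟨a + a', ?_, by rw [add_sub_add_comm]; exact h1.add h2⟩
  rw [add_pow_char_pow]
  exact add_mem ha ha'

theorem NearB.zero {j : ℕ} : NearB p v W s j m 0 := fun ε _ =>
  ⟨0, by rw [zero_pow (pow_pos hp.out.pos j).ne']; exact zero_mem W, by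
    rw [sub_zero]; exact RVal.Ge.zero⟩

theorem NearB.smul (h0 : Ctx0 k v) {j : ℕ} (h : NearB p v W s j m f) (l : k) :
    NearB p v W s j m (algebraMap k Ω l * f) := fun ε hε => by
  obtain ⟨a, ha, h1⟩ := h ε hε
  refine ⟨algebraMap k Ω l * a, ?_, ?_⟩
  · rw [mul_pow, ← map_pow]
    exact mul_mem (W.algebraMap_mem _) ha
  · rw [← mul_sub]
    have h2 := (h0.ge l).mul h1
    rwa [zero_add] at h2

/-- The levels of the powers. -/
theorem nearB_pow [IsAlgClosed Ω] {j : ℕ} (t : ℕ) :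
    NearB p v W ((p : ℝ) ^ t * s) j m (f ^ p ^ t) ↔ NearB p v W s (j + t) m f := by
  have hp0 : (0 : ℝ) < p := by exact_mod_cast hp.out.pos
  have hpt : (0 : ℝ) < (p : ℝ) ^ t := pow_pos hp0 t
  have hval : ∀ ε : ℝ, (p : ℝ) ^ t * (s - m / (p : ℝ) ^ (j + t + 1) - ε / (p : ℝ) ^ t) =
      (p : ℝ) ^ t * s - m / (p : ℝ) ^ (j + 1) - ε := by
    intro ε
    have h1 : (p : ℝ) ^ (j + t + 1) = p ^ t * p ^ (j + 1) := by rw [← pow_add]; congr 1; omega
    have h2 : (p : ℝ) ^ (j + 1) ≠ 0 := (pow_pos hp0 _).ne'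
    rw [h1]
    field_simp
  constructor
  · intro h ε hε
    obtain ⟨a, ha, h1⟩ := h ((p : ℝ) ^ t * ε) (mul_pos hpt hε)
    obtain ⟨a', ha'⟩ := IsAlgClosed.exists_pow_nat_eq a (pow_pos hp.out.pos t)
    refine ⟨a', ?_, ?_⟩
    · rw [add_comm, pow_add, pow_mul, ha']
      exact ha
    · intro hne
      have h2 : f ^ p ^ t - a = (f - a') ^ p ^ t := by rw [sub_pow_char_pow, ha']
      rw [h2] at h1
      have h3 := h1 (pow_ne_zero _ hne)
      rw [v.map_pow hne, ← hval] at h3
      push_cast at h3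
      have h4 := le_of_mul_le_mul_left h3 hpt
      rwa [mul_div_cancel_left₀ _ hpt.ne'] at h4
  · intro h ε hε
    obtain ⟨a, ha, h1⟩ := h (ε / (p : ℝ) ^ t) (div_pos hε hpt)
    refine ⟨a ^ p ^ t, ?_, ?_⟩
    · rw [← pow_mul, ← pow_add, add_comm]
      exact ha
    · rw [← sub_pow_char_pow]
      intro hne
      have hne' : f - a ≠ 0 := fun h2 => hne (by rw [h2, zero_pow (pow_pos hp.out.pos t).ne'])
      rw [v.map_pow hne', ← hval]
      push_cast
      exact mul_le_mul_of_nonneg_left (h1 hne') hpt.le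

/-- **All gaps `< m`, `limsup = m`.** -/
theorem bh_of_lt [IsAlgClosed Ω] (hz : z ∈ C) (hlt : ∀ j, ∃ m' < m, NearB p v W s j m' z)
    (hlim : ∀ m' < m, ∀ j₀ : ℕ, ∃ j ≥ j₀, ¬ NearB p v W s j m' z) : BH p v W C m := by
  classical
  have hp0 : (0 : ℝ) < p := by exact_mod_cast hp.out.pos
  intro j η₀ hη₀
  choose c hc1 hc2 using hlt
  -- a common bound for the first levels
  obtain ⟨η, hη0, hη1, hη2⟩ : ∃ η : ℝ, 0 < η ∧ η ≤ η₀ ∧ ∀ i ∈ Finset.range (j + 1), c i ≤ m - η := by
    have h1 : ∀ S : Finset ℕ, ∃ η : ℝ, 0 < η ∧ η ≤ η₀ ∧ ∀ i ∈ S, c i ≤ m - η := by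
      intro S
      induction S using Finset.induction_on with
      | empty => exact ⟨η₀, hη₀, le_rfl, fun i hi => absurd hi (Finset.notMem_empty i)⟩
      | insert a S ha ih =>
        obtain ⟨η, h1, h2, h3⟩ := ih
        refine ⟨min η (m - c a), lt_min h1 (by linarith [hc1 a]), (min_le_left _ _).trans h2,
          fun i hi => ?_⟩
        rcases Finset.mem_insert.1 hi with rfl | hi
        · linarith [min_le_right η (m - c i)]
        · linarith [h3 i hi, min_le_left η (m - c a)]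
    exact h1 _
  have hex : ∃ i, ¬ NearB p v W s i (m - η) z := by
    obtain ⟨i, -, h1⟩ := hlim (m - η) (by linarith) 0
    exact ⟨i, h1⟩
  obtain ⟨i₀, h1, h2⟩ : ∃ i₀, ¬ NearB p v W s i₀ (m - η) z ∧
      ∀ i < i₀, NearB p v W s i (m - η) z :=
    ⟨Nat.find hex, Nat.find_spec hex, fun i hi => by
      have := Nat.find_min hex hi
      rwa [not_not] at this⟩
  have h3 : j < i₀ := by
    by_contra h4
    exact h1 ((hc2 i₀).mono hp0 (hη2 i₀ (Finset.mem_range.2 (by omega))))
  obtain ⟨t, rfl⟩ : ∃ t, i₀ = j + t := ⟨i₀ - j, by omega⟩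
  refine ⟨η, hη0, hη1, z ^ p ^ t, pow_mem hz _, (p : ℝ) ^ t * s, fun i => ?_, fun i hi => ?_, ?_⟩
  · exact (nearB_pow t).2 ((hc2 _).mono hp0 (hc1 _).le)
  · exact (nearB_pow t).2 (h2 _ (by omega))
  · rw [nearB_pow]
    exact h1

/-! ### The operators -/

/-- `A(z) = ∑ A_i z ^ (p ^ i)`. -/
noncomputable def opB (p : ℕ) (A : Polynomial k) (z : Ω) : Ω :=
  A.sum fun i c => algebraMap k Ω c * z ^ p ^ i

omit hp [CharP Ω p] in
theorem opB_eq (A : Polynomial k) (z : Ω) {n : ℕ} (hn : A.natDegree < n) :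
    opB p A z = ∑ i ∈ Finset.range n, algebraMap k Ω (A.coeff i) * z ^ p ^ i :=
  sum_over_range' _ (fun i => by rw [map_zero, zero_mul]) n hn

omit hp [CharP Ω p] in
theorem opB_add (A B : Polynomial k) (z : Ω) : opB p (A + B) z = opB p A z + opB p B z := by
  set n := max A.natDegree B.natDegree + 1 with hn
  have h1 : A.natDegree < n := by omega
  have h2 : B.natDegree < n := by omega
  have h3 : (A + B).natDegree < n := lt_of_le_of_lt (natDegree_add_le A B) (by omega)
  rw [opB_eq _ _ h1, opB_eq _ _ h2, opB_eq _ _ h3, ← Finset.sum_add_distrib]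
  refine Finset.sum_congr rfl fun i _ => ?_
  rw [coeff_add, map_add, add_mul]

omit hp [CharP Ω p] in
theorem opB_smul (l : k) (A : Polynomial k) (z : Ω) :
    opB p (l • A) z = algebraMap k Ω l * opB p A z := by
  rw [opB_eq A z (Nat.lt_succ_self _), opB_eq (l • A) z (n := A.natDegree + 1)
    (lt_of_le_of_lt (natDegree_smul_le l A) (Nat.lt_succ_self _)), Finset.mul_sum]
  refine Finset.sum_congr rfl fun i _ => ?_
  rw [coeff_smul, smul_eq_mul, map_mul, mul_assoc]

omit hp [CharP Ω p] in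
theorem opB_mem (hz : z ∈ C) (A : Polynomial k) : opB p A z ∈ C := by
  rw [opB_eq A z (Nat.lt_succ_self _)]
  exact sum_mem fun i _ => mul_mem (C.algebraMap_mem _) (pow_mem hz _)

/-- The `p`-th power of `A(z)`. -/
theorem opB_frs [CharP k p] (A : Polynomial k) (z : Ω) :
    opB p (Polynomial.X * A.map (frobenius k p)) z = opB p A z ^ p := by
  have h1 : (Polynomial.X * A.map (frobenius k p)).natDegree < A.natDegree + 1 + 1 := by
    refine lt_of_le_of_lt natDegree_mul_le ?_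
    have h2 : (A.map (frobenius k p)).natDegree ≤ A.natDegree := natDegree_map_le
    have h3 : (Polynomial.X : Polynomial k).natDegree ≤ 1 := natDegree_X_le
    omega
  rw [opB_eq _ _ h1, opB_eq A z (Nat.lt_succ_self _), Finset.sum_range_succ', sum_pow_char]
  have h2 : (Polynomial.X * A.map (frobenius k p)).coeff 0 = 0 := by
    rw [mul_coeff_zero, coeff_X_zero, zero_mul]
  rw [h2, map_zero, zero_mul, add_zero]
  refine Finset.sum_congr rfl fun i _ => ?_
  rw [coeff_X_mul, coeff_map, frobenius_def, mul_pow, map_pow, ← pow_mul, ← pow_succ]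

/-- The gaps of `A(z)`. -/
theorem nearB_op [IsAlgClosed Ω] (h0 : Ctx0 k v) (h : ∀ j, NearB p v W 0 j m z)
    (A : Polynomial k) (j : ℕ) : NearB p v W 0 j m (opB p A z) := by
  rw [opB_eq A z (Nat.lt_succ_self _)]
  have h1 : ∀ i, NearB p v W 0 j m (algebraMap k Ω (A.coeff i) * z ^ p ^ i) := by
    intro i
    refine NearB.smul h0 ?_ _
    have h2 := (nearB_pow (p := p) (v := v) (W := W) (f := z) (s := 0) (m := m) (j := j) i).2
      (h (j + i))
    rwa [mul_zero] at h2
  induction Finset.range (A.natDegree + 1) using Finset.induction_on with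
  | empty => rw [Finset.sum_empty]; exact NearB.zero
  | insert a S ha ih =>
    rw [Finset.sum_insert ha]
    exact (h1 a).add ih

/-- The operators with a small gap at the level `j + 1`. -/
def NB [CharP k p] (h0 : Ctx0 k v) (W : IntermediateField k Ω) (m : ℝ) (z : Ω) (j : ℕ) :
    Submodule k (Polynomial k) where
  carrier := {A | ∃ m' < m, NearB p v W 0 j m' (opB p A z)}
  zero_mem' := by
    refine ⟨m - 1, by linarith, ?_⟩
    rw [opB, sum_zero_index]
    exact NearB.zero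
  add_mem' := by
    have hp0 : (0 : ℝ) < p := by exact_mod_cast hp.out.pos
    rintro A B ⟨m₁, h1, h2⟩ ⟨m₂, h3, h4⟩
    refine ⟨max m₁ m₂, max_lt h1 h3, ?_⟩
    rw [opB_add]
    exact (h2.mono hp0 (le_max_left _ _)).add (h4.mono hp0 (le_max_right _ _))
  smul_mem' := by
    rintro l A ⟨m₁, h1, h2⟩
    refine ⟨m₁, h1, ?_⟩
    rw [opB_smul]
    exact h2.smul h0 l

/-- **The hypothesis of BOOT.** -/
theorem bh_of_min [CharP k p] [IsAlgClosed Ω] (h0 : Ctx0 k v) (hm : 0 < m) (hz : z ∈ C)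
    (hnear : ∀ j, NearB p v W 0 j m z)
    (hline : ∀ (i : ℕ) (b b' : Ω), b ^ p ^ (i + 1) ∈ W → b' ^ p ^ (i + 1) ∈ W →
      NearB p v W 0 i m b → NearB p v W 0 i m b' → ∃ l l' : k, (l ≠ 0 ∨ l' ≠ 0) ∧
        ∃ m' < m, NearB p v W 0 i m' (algebraMap k Ω l * b + algebraMap k Ω l' * b'))
    (hmin : ∀ A : Polynomial k, A ≠ 0 → ∀ m' < m, ∀ j₀ : ℕ, ∃ j ≥ j₀,
      ¬ NearB p v W 0 j m' (opB p A z)) : BH p v W C m := by
  classical
  have hp0 : (0 : ℝ) < p := by exact_mod_cast hp.out.pos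
  have hp2 : (2 : ℝ) ≤ p := by exact_mod_cast hp.out.two_le
  have hpow : ∀ i : ℕ, (0 : ℝ) < (p : ℝ) ^ i := fun i => pow_pos hp0 i
  -- the line
  have hN : ∀ i, ∀ A B : Polynomial k, ∃ c d : k, (c ≠ 0 ∨ d ≠ 0) ∧
      c • A + d • B ∈ NB (p := p) h0 W m z i := by
    intro i A B
    have h1 : ∀ A : Polynomial k, ∃ b : Ω, b ^ p ^ (i + 1) ∈ W ∧
        v.Ge (-(m * (3 / 4) / (p : ℝ) ^ (i + 1))) (opB p A z - b) := by
      intro A
      obtain ⟨b, hb, h1⟩ := nearB_op h0 hnear A (i + 1) (m / 4 / (p : ℝ) ^ (i + 1))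
        (div_pos (by linarith) (hpow _))
      refine ⟨b, hb, h1.mono ?_⟩
      have h2 : m / (p : ℝ) ^ (i + 1 + 1) ≤ m / 2 / (p : ℝ) ^ (i + 1) := by
        rw [pow_succ, div_div]
        refine div_le_div_of_nonneg_left hm.le (mul_pos two_pos (hpow _)) ?_
        rw [mul_comm]
        exact mul_le_mul_of_nonneg_left hp2 (hpow _).le
      have h3 : m * (3 / 4) / (p : ℝ) ^ (i + 1) =
          m / 2 / (p : ℝ) ^ (i + 1) + m / 4 / (p : ℝ) ^ (i + 1) := by ring
      rw [h3]
      linarith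
    obtain ⟨b, hb, h2⟩ := h1 A
    obtain ⟨b', hb', h3⟩ := h1 B
    have hnb : ∀ {A : Polynomial k} {b : Ω},
        v.Ge (-(m * (3 / 4) / (p : ℝ) ^ (i + 1))) (opB p A z - b) → NearB p v W 0 i m b := by
      intro A b h2 ε hε
      obtain ⟨a, ha, h4⟩ := nearB_op h0 hnear A i ε hε
      refine ⟨a, ha, ?_⟩
      have h5 : b - a = (opB p A z - a) - (opB p A z - b) := by ring
      rw [h5]
      refine h4.sub (h2.mono ?_)
      have h6 : m * (3 / 4) / (p : ℝ) ^ (i + 1) ≤ m / (p : ℝ) ^ (i + 1) :=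
        div_le_div_of_nonneg_right (by linarith) (hpow _).le
      linarith
    obtain ⟨l, l', hl, m', hm', h4⟩ := hline i b b' hb hb' (hnb h2) (hnb h3)
    refine ⟨l, l', hl, max m' (m * (3 / 4)), max_lt hm' (by linarith), fun ε hε => ?_⟩
    obtain ⟨a, ha, h5⟩ := h4 ε hε
    refine ⟨a, ha, ?_⟩
    rw [opB_add, opB_smul, opB_smul]
    have h6 : algebraMap k Ω l * opB p A z + algebraMap k Ω l' * opB p B z - a =
        algebraMap k Ω l * (opB p A z - b) + algebraMap k Ω l' * (opB p B z - b') +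
          (algebraMap k Ω l * b + algebraMap k Ω l' * b' - a) := by ring
    rw [h6]
    have h7 : m * (3 / 4) / (p : ℝ) ^ (i + 1) ≤ max m' (m * (3 / 4)) / (p : ℝ) ^ (i + 1) :=
      div_le_div_of_nonneg_right (le_max_right _ _) (hpow _).le
    have h8 : m' / (p : ℝ) ^ (i + 1) ≤ max m' (m * (3 / 4)) / (p : ℝ) ^ (i + 1) :=
      div_le_div_of_nonneg_right (le_max_left _ _) (hpow _).le
    refine ((((h0.ge l).mul h2).mono (by linarith)).add
      (((h0.ge l').mul h3).mono (by linarith))).add (h5.mono (by linarith))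
  have hF : ∀ i (A : Polynomial k), (Polynomial.X * A.map (frobenius k p)) ∈
      NB (p := p) h0 W m z i ↔ A ∈ NB (p := p) h0 W m z (i + 1) := by
    intro i A
    change (∃ m' < m, NearB p v W 0 i m' (opB p _ z)) ↔
      ∃ m' < m, NearB p v W 0 (i + 1) m' (opB p A z)
    have h1 : ∀ m' : ℝ, NearB p v W 0 i m' (opB p A z ^ p) ↔
        NearB p v W 0 (i + 1) m' (opB p A z) := by
      intro m'
      have h2 := nearB_pow (p := p) (v := v) (W := W) (f := opB p A z) (s := 0) (m := m')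
        (j := i) 1
      rwa [pow_one, pow_one, mul_zero] at h2
    simp only [opB_frs, h1]
  have hV : ¬ FiniteDimensional k (Polynomial k) := Polynomial.not_finite
  rcases semi_sub hV (NB (p := p) h0 W m z) hN (fun A => Polynomial.X * A.map (frobenius k p))
    hF with h1 | ⟨A, hA0, h1⟩
  · -- every level
    intro j η₀ hη₀
    obtain ⟨A, h2, h3⟩ := h1 (j + 1) (by omega)
    have h4 : ∀ i < j, ∃ m' < m, NearB p v W 0 i m' (opB p A z ^ p) := by
      intro i hi
      have h5 := h2 (i + 1) (by omega) (by omega)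
      rw [← hF] at h5
      obtain ⟨m', hm', h6⟩ := h5
      rw [opB_frs] at h6
      exact ⟨m', hm', h6⟩
    have h5 : ¬ ∃ m' < m, NearB p v W 0 j m' (opB p A z ^ p) := by
      intro h6
      apply h3
      rw [← hF]
      obtain ⟨m', hm', h6⟩ := h6
      refine ⟨m', hm', ?_⟩
      rw [opB_frs]
      exact h6
    have h6 : ∃ η : ℝ, 0 < η ∧ η ≤ η₀ ∧ ∀ i ∈ Finset.range j,
        NearB p v W 0 i (m - η) (opB p A z ^ p) := by
      have h7 : ∀ S : Finset ℕ, (∀ i ∈ S, i < j) → ∃ η : ℝ, 0 < η ∧ η ≤ η₀ ∧ ∀ i ∈ S,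
          NearB p v W 0 i (m - η) (opB p A z ^ p) := by
        intro S
        induction S using Finset.induction_on with
        | empty => exact fun _ => ⟨η₀, hη₀, le_rfl, fun i hi => absurd hi (Finset.notMem_empty i)⟩
        | insert a S ha ih =>
          intro hS
          obtain ⟨η, h8, h9, h10⟩ := ih fun i hi => hS i (Finset.mem_insert_of_mem hi)
          obtain ⟨m', hm', h11⟩ := h4 a (hS a (Finset.mem_insert_self a S))
          refine ⟨min η (m - m'), lt_min h8 (by linarith), (min_le_left _ _).trans h9,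
            fun i hi => ?_⟩
          rcases Finset.mem_insert.1 hi with rfl | hi
          · exact h11.mono hp0 (by linarith [min_le_right η (m - m')])
          · exact (h10 i hi).mono hp0 (by linarith [min_le_left η (m - m')])
      exact h7 _ fun i hi => Finset.mem_range.1 hi
    obtain ⟨η, hη0, hη1, hη2⟩ := h6
    refine ⟨η, hη0, hη1, opB p A z ^ p, pow_mem (opB_mem hz A) p, 0, fun i => ?_,
      fun i hi => hη2 i (Finset.mem_range.2 hi), fun h7 => h5 ⟨m - η, by linarith, h7⟩⟩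
    rw [← opB_frs]
    exact nearB_op h0 hnear _ i
  · -- one operator for all levels
    refine bh_of_lt (s := 0) (z := opB p A z ^ p) (pow_mem (opB_mem hz A) p) (fun j => ?_)
      fun m' hm' j₀ => ?_
    · have h2 := h1 (j + 1) (by omega)
      rw [← hF] at h2
      obtain ⟨m', hm', h3⟩ := h2
      rw [opB_frs] at h3
      exact ⟨m', hm', h3⟩
    · have h2 : Polynomial.X * A.map (frobenius k p) ≠ 0 :=
        mul_ne_zero X_ne_zero ((Polynomial.map_ne_zero_iff (frobenius_inj k p)).2 hA0)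
      obtain ⟨j, hj, h3⟩ := hmin _ h2 m' hm' j₀
      rw [opB_frs] at h3
      exact ⟨j, hj, h3⟩

end

end Pool.Agent.TWTR
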