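import Pool.Agent.Lib.TWTR.Letter

/-!
# TANK W, row R: the critical step

`W` closed with letters (`Lt`, `Letter.lean`) of arbitrarily small `ν` (`HL`), `y` a limit of the
perfect closure of `W` up to `s`. The gap of `z` at the level `i` is `≤ m` if the distance of `z` to
`W ^ (1 / p ^ i)` is at least (in values) `s - m / p ^ (i + 1)`.

* `crit`: radius `0`, `S` an additive separable polynomial over the constants: if `y` is a limit of
  `W[S(y)]` up to `0`, then the gap of `y` at the level `i` is at most the supremum of the gaps of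
  `S(y)` at the levels `≥ i`;
* `crit_pow`: any radius, `S = X ^ p`: if `y` is a limit of `W ^ (1 / p ^ n)[y ^ p]`, then the gap
  of `y` at a level `≥ n` is at most the supremum of the later gaps.
-/

set_option autoImplicit false

open Polynomial

namespace Pool.Agent.TWTR

open Pool.Agent.H15JM (RVal)
open Pool.Agent.LU1 (VPos adj)
open Pool.Agent.D2 (Ctx0)
open Pool.Agent.D2P (clI mem_clI rootF mem_rootF)
open Pool.Agent.TWM Pool.Agent.TWM.C
open Pool.Agent.TWC

universe u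

variable {k Ω : Type u} [Field k] [Field Ω] [Algebra k Ω] {v : RVal Ω}
  {W : IntermediateField k Ω} {w : ℕ → ℝ} {N : ℕ} {b c : ℝ} {f g : Polynomial Ω}

/-! ### Bounds with weights -/

/-- The coefficients of `f` of order `F < N` have value `≥ b - w F`. -/
def WB (v : RVal Ω) (w : ℕ → ℝ) (N : ℕ) (b : ℝ) (f : Polynomial Ω) : Prop :=
  ∀ F < N, v.Ge (b - w F) (f.coeff F)

theorem WB.mono {b' : ℝ} (h : WB v w N b f) (hb : b' ≤ b) : WB v w N b' f := fun F hF =>
  (h F hF).mono (by linarith)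

theorem WB.sum {ι : Type*} (S : Finset ι) {f : ι → Polynomial Ω}
    (h : ∀ i ∈ S, WB v w N b (f i)) : WB v w N b (∑ i ∈ S, f i) := fun F hF => by
  rw [finsetSum_coeff]
  exact RVal.Ge.sum _ _ fun i hi => h i hi F hF

theorem WB.mul (hw : ∀ F G, w F + w G ≤ w (F + G)) (hf : WB v w N b f) (hg : WB v w N c g) :
    WB v w N (b + c) (f * g) := fun F hF => by
  rw [coeff_mul]
  refine RVal.Ge.sum _ _ fun i hi => ?_
  have h1 : i.1 + i.2 = F := Finset.HasAntidiagonal.mem_antidiagonal.1 hi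
  have h2 := (hf i.1 (by omega)).mul (hg i.2 (by omega))
  refine h2.mono ?_
  have h3 := hw i.1 i.2
  rw [h1] at h3
  linarith

theorem WB.C (h0 : w 0 = 0) {a : Ω} (ha : v.Ge b a) : WB v w N b (Polynomial.C a) := fun F _ => by
  rw [coeff_C]
  split_ifs with h
  · rw [h, h0, sub_zero]
    exact ha
  · exact RVal.Ge.zero

theorem ge_one (v : RVal Ω) : v.Ge 0 (1 : Ω) := by
  have := ge_natCast v 1
  rwa [Nat.cast_one] at this

theorem WB.pow (hw : ∀ F G, w F + w G ≤ w (F + G)) (h0 : w 0 = 0) (hf : WB v w N b f) (i : ℕ) :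
    WB v w N (i * b) (f ^ i) := by
  induction i with
  | zero =>
    rw [Nat.cast_zero, zero_mul, pow_zero, ← Polynomial.C_1]
    exact WB.C h0 (ge_one v)
  | succ i ih =>
    rw [pow_succ]
    have e : ((i + 1 : ℕ) : ℝ) * b = i * b + b := by
      push_cast
      ring
    rw [e]
    exact ih.mul hw hf

/-! ### Composition -/

theorem comp_PI (hf : f ∈ PI W) (hg : g ∈ PI W) : f.comp g ∈ PI W := by
  rw [comp_eq_sum_left, Polynomial.sum]
  exact sum_mem fun i _ => mul_mem (C_mem_PI (hf i)) (_root_.pow_mem hg i)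

/-- `S` has coefficients of value `≥ 0`, no constant term, and the linear coefficient is a unit. -/
structure Sep (v : RVal Ω) (S : Polynomial Ω) : Prop where
  zero : S.coeff 0 = 0
  ge : ∀ i, v.Ge 0 (S.coeff i)
  ne : S.coeff 1 ≠ 0
  inv : v.Ge 0 (S.coeff 1)⁻¹

theorem Sep.pow_coeff {S : Polynomial Ω} (h : Sep v S) (n i : ℕ) : v.Ge 0 ((S ^ n).coeff i) := by
  have h1 : WB v (fun _ => 0) (i + 1) 0 S := fun F _ => by
    rw [sub_zero]
    exact h.ge F
  have h2 := h1.pow (fun _ _ => by simp) rfl n i (Nat.lt_succ_self i)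
  rwa [mul_zero, sub_zero] at h2

theorem Sep.eq {S : Polynomial Ω} (h : Sep v S) : S = X * S.divX := by
  have h1 := S.divX_mul_X_add
  rw [h.zero, Polynomial.C_0, add_zero, mul_comm] at h1
  exact h1.symm

theorem Sep.pow_lt {S : Polynomial Ω} (h : Sep v S) {n i : ℕ} (hi : i < n) :
    (S ^ n).coeff i = 0 := by
  rw [h.eq, mul_pow, coeff_X_pow_mul', if_neg (by omega)]

theorem Sep.pow_eq {S : Polynomial Ω} (h : Sep v S) (n : ℕ) :
    (S ^ n).coeff n = S.coeff 1 ^ n := by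
  have h1 : S.divX.coeff 0 = S.coeff 1 := by rw [coeff_divX]
  conv_lhs => rw [h.eq]
  rw [mul_pow, coeff_X_pow_mul', if_pos le_rfl, Nat.sub_self, ← h1, coeff_zero_eq_eval_zero,
    coeff_zero_eq_eval_zero, eval_pow]

theorem coeff_comp (T S : Polynomial Ω) (j : ℕ) :
    (T.comp S).coeff j = ∑ n ∈ Finset.range (T.natDegree + 1), T.coeff n * (S ^ n).coeff j := by
  rw [comp, eval₂_eq_sum_range, finsetSum_coeff]
  exact Finset.sum_congr rfl fun n _ => by rw [coeff_C_mul]

/-- The jets with respect to `S(y)` are bounded by the jets with respect to `y`. -/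
theorem Sep.coeff_ge {S : Polynomial Ω} (h : Sep v S) {T : Polynomial Ω} {b : ℝ}
    (hT : ∀ l, 1 ≤ l → v.Ge b ((T.comp S).coeff l)) : ∀ j, 1 ≤ j → v.Ge b (T.coeff j) := by
  intro j
  induction j using Nat.strong_induction_on with
  | _ j ih =>
    intro hj
    by_cases hjd : j ≤ T.natDegree
    · have h1 := hT j hj
      rw [coeff_comp, ← Finset.add_sum_erase _ _ (Finset.mem_range.2 (Nat.lt_succ_of_le hjd)),
        h.pow_eq] at h1
      have h2 : v.Ge b (∑ n ∈ (Finset.range (T.natDegree + 1)).erase j,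
          T.coeff n * (S ^ n).coeff j) := by
        refine RVal.Ge.sum _ _ fun n hn => ?_
        have hnj := Finset.ne_of_mem_erase hn
        rcases Nat.eq_zero_or_pos n with rfl | hn0
        · rw [pow_zero, coeff_one, if_neg (by omega), mul_zero]
          exact RVal.Ge.zero
        rcases lt_or_gt_of_ne hnj with hlt | hgt
        · have h3 := (ih n hlt hn0).mul (h.pow_coeff n j)
          rwa [add_zero] at h3
        · rw [h.pow_lt hgt, mul_zero]
          exact RVal.Ge.zero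
      have h3 := (h1.sub h2)
      rw [add_sub_cancel_right] at h3
      have h4 := h3.mul (ge_pow h.inv j)
      have e : T.coeff j * S.coeff 1 ^ j * (S.coeff 1)⁻¹ ^ j = T.coeff j := by
        rw [mul_assoc, ← mul_pow, mul_inv_cancel₀ h.ne, one_pow, mul_one]
      rw [e, mul_zero, add_zero] at h4
      exact h4
    · rw [coeff_eq_zero_of_natDegree_lt (not_le.1 hjd)]
      exact RVal.Ge.zero

/-- Change of the centre. -/
theorem tay_move {T : Polynomial Ω} {ψ : Ω} {b d s : ℝ} (hd : 0 ≤ d) (hψ : v.Ge (s - d) ψ)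
    (hT : ∀ j : ℕ, 1 ≤ j → v.Ge (b - j * s) (T.coeff j)) {j : ℕ} (hj : 1 ≤ j) :
    v.Ge (b - j * s - T.natDegree * d) ((taylor ψ T).coeff j) := by
  rw [taylor_coeff, hasseDeriv_apply, Polynomial.sum, eval_finsetSum]
  refine RVal.Ge.sum _ _ fun n hn => ?_
  rw [eval_monomial]
  rcases lt_or_ge n j with h1 | h1
  · rw [Nat.choose_eq_zero_of_lt h1, Nat.cast_zero, zero_mul, zero_mul]
    exact RVal.Ge.zero
  · rw [mul_assoc]
    have h2 := (ge_natCast v (n.choose j)).mul ((hT n (hj.trans h1)).mul (ge_pow hψ (n - j)))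
    refine h2.mono ?_
    have h3 : ((n - j : ℕ) : ℝ) ≤ T.natDegree := by
      have : n - j ≤ T.natDegree := (Nat.sub_le _ _).trans (le_natDegree_of_mem_supp n hn)
      exact_mod_cast this
    have h4 := mul_le_mul_of_nonneg_right h3 hd
    have h5 : ((n - j : ℕ) : ℝ) = n - j := Nat.cast_sub h1
    have h6 : ((n - j : ℕ) : ℝ) * (s - d) = (n - j) * s - ((n - j : ℕ) : ℝ) * d := by
      rw [mul_sub, h5]
    rw [h6]
    linarith

/-- The value at a near point. -/
theorem eval_move {T : Polynomial Ω} {z ψ : Ω} {b d s : ℝ} (hd : 0 ≤ d) (hψ : v.Ge (s - d) ψ)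
    (hT : ∀ j : ℕ, 1 ≤ j → v.Ge (b - j * s) ((taylor z T).coeff j)) :
    v.Ge (b - T.natDegree * d) (T.eval (z + ψ) - T.eval z) := by
  have h1 : T.eval (z + ψ) = ∑ j ∈ Finset.range (T.natDegree + 1),
      (taylor z T).coeff j * ψ ^ j := by
    have h2 : (taylor z T).eval ψ = T.eval (z + ψ) := by
      rw [taylor_eval, add_comm]
    rw [← h2, eval_eq_sum_range' (n := T.natDegree + 1)]
    rw [natDegree_taylor]
    exact Nat.lt_succ_self _
  rw [h1, Finset.sum_range_succ', pow_zero, mul_one, taylor_coeff_zero, add_sub_cancel_right]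
  refine RVal.Ge.sum _ _ fun j hj => ?_
  refine ((hT (j + 1) (Nat.succ_le_succ (Nat.zero_le j))).mul (ge_pow hψ (j + 1))).mono ?_
  have h3 : ((j + 1 : ℕ) : ℝ) ≤ T.natDegree := by
    exact_mod_cast Finset.mem_range.1 hj
  have h4 := mul_le_mul_of_nonneg_right h3 hd
  linarith

/-! ### The jets -/

/-- The jets of `h` at `S(y)`, if `h(S(y))` is near to `y`. -/
theorem jets_near [IsAlgClosed Ω] {y : Ω} {S h : Polynomial Ω} (hS : Sep v S) (hSW : S ∈ PI W)
    (hadd : S.comp (X + Polynomial.C y) = S + Polynomial.C (S.eval y))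
    (hfar : ∀ θ, IsAlgebraic W θ → y ≠ θ ∧ v (y - θ) ≤ 0) (hh : h ∈ PI W) {ε : ℝ} (hε : 0 < ε)
    (h1 : v.Ge (-ε) (y - h.eval (S.eval y))) {j : ℕ} (hj : 1 ≤ j) :
    v.Ge (-ε) ((taylor (S.eval y) h).coeff j) := by
  refine hS.coeff_ge (fun l hl => ?_) j hj
  set R : Polynomial Ω := h.comp S - X with hR
  have hRm : R ∈ PI W := sub_mem (comp_PI hh hSW) X_mem_PI
  have hRj : v.Ge (-ε) ((taylor y R).coeff l) := by
    by_cases hR0 : R = 0
    · rw [hR0, map_zero, coeff_zero]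
      exact RVal.Ge.zero
    have h2 := Roots.taylor_ge (v := v) hR0
      (fun θ hθ => hfar θ (isAlgebraic_root hRm hR0 hθ)) l
    refine h2.mono ?_
    have hne : R.eval y ≠ 0 := fun h0 => (hfar y (isAlgebraic_root hRm hR0 h0)).1 rfl
    have h3 : v.Ge (-ε) (R.eval y) := by
      rw [hR, eval_sub, eval_comp, eval_X]
      exact ge_sub_comm h1
    have := h3 hne
    linarith
  have e : (taylor (S.eval y) h).comp S = taylor y R + X + Polynomial.C y := by
    rw [hR, map_sub, taylor_X, taylor_apply, taylor_apply, comp_assoc, comp_assoc, hadd, add_comp,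
      X_comp, C_comp]
    ring
  rw [e, coeff_add, coeff_add, coeff_C, if_neg (by omega), add_zero]
  refine hRj.add ?_
  rw [coeff_X]
  split_ifs
  · exact (ge_one v).mono (by linarith)
  · exact RVal.Ge.zero

/-- `y`, of radius `s`, is a limit of polynomials over `W` in `z`, of radius `s'`, with jets at `z`
of norm `≤ 0`. -/
def ClJ (v : RVal Ω) (W : IntermediateField k Ω) (y : Ω) (s : ℝ) (z : Ω) (s' : ℝ) : Prop :=
  ∀ ε : ℝ, 0 < ε → ∃ f ∈ PI W, v.Ge (s - ε) (y - f.eval z) ∧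
    ∀ n : ℕ, 1 ≤ n → v.Ge (s - ε - n * s') ((taylor z f).coeff n)

variable {p : ℕ} [hp : Fact p.Prime] [CharP k p] [CharP Ω p] [IsAlgClosed Ω]
  {x : ℕ → Ω} {ν : ℝ} {y y1 : Ω} {s s1 : ℝ}

/-- There are letters with arbitrarily small `ν`. -/
def HL (p : ℕ) (v : RVal Ω) (W : IntermediateField k Ω) : Prop :=
  ∀ δ : ℝ, 0 < δ → ∃ (t : ℕ → Ω) (ν : ℝ), Lt p v W t ν ∧ ν ≤ δ

omit hp [CharP k p] [CharP Ω p] [IsAlgClosed Ω] in
theorem p_pos [hp : Fact p.Prime] : (0 : ℝ) < p := by exact_mod_cast hp.out.pos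

omit hp [CharP k p] [CharP Ω p] [IsAlgClosed Ω] in
theorem p_sub [hp : Fact p.Prime] : (0 : ℝ) < (p : ℝ) - 1 := by
  have : (1 : ℝ) < p := by exact_mod_cast hp.out.one_lt
  linarith

omit [CharP k p] [IsAlgClosed Ω] in
theorem lim_up {i j : ℕ} (hij : i ≤ j) {r : ℝ} {z : Ω} (h : Lim v (rootF p i W) r z) :
    Lim v (rootF p j W) r z := fun ε hε => by
  obtain ⟨a, ha, h1⟩ := h ε hε
  refine ⟨a, mem_rootF.2 ?_, h1⟩
  obtain ⟨l, rfl⟩ := Nat.exists_eq_add_of_le hij
  rw [pow_add, pow_mul]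
  exact _root_.pow_mem (mem_rootF.1 ha) _

/-- **One level**, with the loss of the letter. -/
theorem crit_step (h0 : Ctx0 k v) (hc : CompleteV v) (h : Lt p v W x ν)
    (hy : ∀ ε : ℝ, 0 < ε → ∃ j, ∃ a ∈ rootF p j W, v.Ge (s - ε) (y - a))
    (hlim : ClJ v W y s y1 s1) {m : ℝ} (hm : 0 < m)
    {i : ℕ} (hM : ∀ n, i ≤ n → Lim v (rootF p n W) (s1 - m / p ^ (n + 1)) y1) {r : ℝ}
    (hr : Lim v (rootF p (i + 1) W) (s + r) y) :
    Lim v (rootF p i W)
      (s + min r (-m / p ^ (i + 1)) - ν / (p - 1) / p ^ (i + 1)) y := by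
  intro ε' hε'
  set ε : ℝ := ε' / 4 with hε
  have hε0 : 0 < ε := by rw [hε]; linarith
  have hp0 : (0 : ℝ) < p := p_pos
  have hp1 : (1 : ℝ) < p := by exact_mod_cast hp.out.one_lt
  set q' : ℝ := v (x 0) + ν * (p / (p - 1)) with hq'
  have hN := h.nbx h0 hc
  rw [← hq'] at hN
  -- the approximations of `y`
  obtain ⟨a, ha, ha1⟩ := hr ε hε0
  obtain ⟨G, hG, rfl⟩ := h.rts (mem_rootF.1 ha)
  obtain ⟨f, hf, hf1, hfj⟩ := hlim ε hε0
  set d : ℝ := ε / (f.natDegree + 1) with hd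
  have hdeg : (0 : ℝ) ≤ (f.natDegree : ℝ) := Nat.cast_nonneg _
  have hd0 : 0 < d := by positivity
  have hfd : (f.natDegree : ℝ) * d ≤ ε := by
    rw [hd, mul_div_assoc', div_le_iff₀ (by positivity)]
    nlinarith
  -- the level `K`
  obtain ⟨j, a', ha', ha1'⟩ := hy ε hε0
  obtain ⟨K₀, hK₀⟩ : ∃ K₀ : ℕ, m / p ^ K₀ ≤ d := by
    obtain ⟨n, hn⟩ := pow_unbounded_of_one_lt (m / d) hp1
    refine ⟨n, ?_⟩
    rw [div_le_iff₀ (pow_pos hp0 n), mul_comm]
    rw [div_lt_iff₀ hd0] at hn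
    exact hn.le
  set l : ℕ := j + K₀ with hl
  set K : ℕ := i + 1 + l with hK
  have hpK : (0 : ℝ) < (p : ℝ) ^ K := pow_pos hp0 K
  have hmK : m / p ^ K ≤ d := by
    refine le_trans ?_ hK₀
    refine div_le_div_of_nonneg_left hm.le (pow_pos hp0 _) ?_
    exact pow_le_pow_right₀ hp1.le (by omega)
  obtain ⟨P, hP, hP1⟩ : ∃ P ∈ PI W, v.Ge (s - ε) (y - P.eval (x K)) := by
    have h1 : a' ^ p ^ K ∈ W := by
      have h2 : K = j + (i + 1 + K₀) := by omega
      rw [h2, pow_add, pow_mul]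
      exact _root_.pow_mem (mem_rootF.1 ha') _
    obtain ⟨P, hP, h2⟩ := h.rts h1
    exact ⟨P, hP, by rw [h2]; exact ha1'⟩
  obtain ⟨P₁, hP₁, hP₁1⟩ : ∃ P₁ ∈ PI W, v.Ge (s1 - m / p ^ K) (y1 - P₁.eval (x K)) := by
    have h3 : 0 < m / p ^ K - m / p ^ (K + 1) := by
      rw [sub_pos]
      refine div_lt_div_of_pos_left hm hpK ?_
      exact pow_lt_pow_right₀ hp1 (Nat.lt_succ_self K)
    obtain ⟨c, hcm, h4⟩ := hM K (by omega) _ h3
    obtain ⟨P₁, hP₁, h5⟩ := h.rts (mem_rootF.1 hcm)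
    refine ⟨P₁, hP₁, ?_⟩
    rw [h5]
    exact h4.mono (by linarith)
  set θ₁ := P₁.eval (x K) with hθ₁
  -- the jets of `f`
  have hψ : v.Ge (s1 - d) (θ₁ - y1) := by
    refine ge_sub_comm (hP₁1.mono ?_)
    linarith
  have hfj' : ∀ n : ℕ, 1 ≤ n → v.Ge (s - ε - ε - n * s1) ((taylor θ₁ f).coeff n) := by
    intro n hn
    have e : taylor θ₁ f = taylor (θ₁ - y1) (taylor y1 f) := by
      rw [taylor_taylor, add_comm, add_sub_cancel]
    rw [e]
    refine (tay_move hd0.le hψ hfj hn).mono ?_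
    rw [natDegree_taylor]
    linarith
  have hfe : v.Ge (s - ε - ε) (f.eval θ₁ - f.eval y1) := by
    have h6 := eval_move (T := f) hd0.le hψ hfj
    rw [add_sub_cancel] at h6
    exact h6.mono (by linarith)
  -- the displacement of `θ₁`
  have hplt : p ^ l < p ^ K := Nat.pow_lt_pow_right hp.out.one_lt (by omega)
  set η : Polynomial Ω := taylor (x K) P₁ - Polynomial.C θ₁ with hη
  have hηw : WB v (fun F => F * (m + q') / p ^ K) (p ^ l + 1) s1 η := by
    intro F hF
    rw [hη, coeff_sub]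
    rcases Nat.eq_zero_or_pos F with rfl | hF0
    · rw [taylor_coeff_zero, coeff_C_zero, ← hθ₁, sub_self]
      exact RVal.Ge.zero
    rw [coeff_C, if_neg hF0.ne', sub_zero]
    obtain ⟨e, c, hpc, hcc⟩ := Nat.exists_eq_pow_mul_and_not_dvd hF0.ne' p hp.out.ne_one
    have hc0 : 0 < c := Nat.pos_of_ne_zero fun h => hpc (h ▸ dvd_zero p)
    have hel : e ≤ l := by
      by_contra hno
      have h7 : p ^ l < p ^ e := Nat.pow_lt_pow_right hp.out.one_lt (not_le.1 hno)
      have h8 : p ^ e ≤ F := by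
        rw [hcc]
        exact Nat.le_mul_of_pos_right _ hc0
      omega
    obtain ⟨n, hn⟩ : ∃ n, K = n + (e + 1) := ⟨K - (e + 1), by omega⟩
    have hni : i ≤ n := by omega
    have hFK : F < p ^ K := by omega
    refine TWC.ge_of_eps fun ε₁ hε₁ => ?_
    obtain ⟨B₀, hB₀, h9⟩ := hM n hni ε₁ hε₁
    obtain ⟨B, hB, rfl⟩ := h.rts (mem_rootF.1 hB₀)
    have e1 : (taylor (x K) (expand Ω (p ^ (e + 1)) B)).coeff F = 0 := by
      rw [hn]
      refine coeff_lift_zero h.root n (e + 1) ?_ B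
      rw [hcc, pow_succ]
      intro h10
      exact hpc (Nat.dvd_of_mul_dvd_mul_left (pow_pos hp.out.pos e) h10)
    have e2 : (taylor (x K) P₁).coeff F =
        (taylor (x K) (P₁ - expand Ω (p ^ (e + 1)) B)).coeff F := by
      rw [map_sub, coeff_sub, e1, sub_zero]
    have e3 : (P₁ - expand Ω (p ^ (e + 1)) B).eval (x K) = (y1 - B.eval (x n)) - (y1 - θ₁) := by
      have h11 : x K ^ p ^ (e + 1) = x n := by
        rw [hn]
        exact root_pow_add h.root n (e + 1)
      rw [eval_sub, expand_eval, h11]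
      ring
    rw [e2]
    have hpe : (0 : ℝ) < (p : ℝ) ^ e := pow_pos hp0 e
    have hpn : (0 : ℝ) < (p : ℝ) ^ (n + 1) := pow_pos hp0 _
    have hKe : (p : ℝ) ^ K = p ^ (n + 1) * p ^ e := by
      rw [hn, ← pow_add]
      congr 1
      omega
    have hm1 : m / p ^ K ≤ m / p ^ (n + 1) := by
      refine div_le_div_of_nonneg_left hm.le hpn ?_
      exact pow_le_pow_right₀ hp1.le (by omega)
    have h12 : v.Ge (s1 - m / p ^ (n + 1) - ε₁) ((P₁ - expand Ω (p ^ (e + 1)) B).eval (x K)) := by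
      rw [e3]
      refine h9.sub (hP₁1.mono ?_)
      linarith
    have h13 := hN.nb K _ (sub_mem hP₁ (expand_mem_PI (pow_pos hp.out.pos _) hB)) F hFK _ h12
    refine h13.mono ?_
    have h14 : m / p ^ (n + 1) ≤ F * m / p ^ K := by
      rw [hKe, hcc]
      push_cast
      have h15 : (p : ℝ) ^ e * c * m / (p ^ (n + 1) * p ^ e) = c * (m / p ^ (n + 1)) := by
        field_simp
      rw [h15]
      have h16 : (1 : ℝ) ≤ c := by exact_mod_cast hc0
      have h17 : 0 ≤ m / (p : ℝ) ^ (n + 1) := (div_pos hm hpn).le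
      nlinarith
    have h18 : (F : ℝ) * (m + q') / p ^ K = F * m / p ^ K + F * q' / p ^ K := by ring
    simp only [h18]
    linarith
  -- the three parts
  have hK1 : (p : ℝ) ^ K = p ^ (i + 1) * p ^ l := by rw [hK, pow_add]
  have hpl : (0 : ℝ) < (p : ℝ) ^ l := pow_pos hp0 l
  have hpi : (0 : ℝ) < (p : ℝ) ^ (i + 1) := pow_pos hp0 _
  have hw : ((p ^ l : ℕ) : ℝ) * q' / p ^ K = q' / p ^ (i + 1) := by
    rw [hK1]
    push_cast
    field_simp
  have hxK : x K ^ p ^ l = x (i + 1) := root_pow_add h.root (i + 1) l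
  set μ : ℝ := min r (-m / p ^ (i + 1)) with hμ
  have hμr : μ ≤ r := min_le_left _ _
  have hμm : μ ≤ -m / p ^ (i + 1) := min_le_right _ _
  have hm2 : -m / (p : ℝ) ^ (i + 1) < 0 := div_neg_of_neg_of_pos (by linarith) hpi
  have hGl : (taylor (x (i + 1)) G).coeff 1 =
      (taylor (x K) (expand Ω (p ^ l) G)).coeff (p ^ l) := by
    have := coeff_lift h.root (i + 1) l 1 G
    rw [mul_one] at this
    exact this.symm
  have hpart1 : v.Ge (s + μ - ε - q' / p ^ (i + 1))
      ((taylor (x K) (expand Ω (p ^ l) G - P)).coeff (p ^ l)) := by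
    have h1 : v.Ge (s + μ - ε) ((expand Ω (p ^ l) G - P).eval (x K)) := by
      rw [eval_sub, expand_eval, hxK]
      have e : G.eval (x (i + 1)) - P.eval (x K) =
          (y - P.eval (x K)) - (y - G.eval (x (i + 1))) := by ring
      rw [e]
      exact (hP1.mono (by linarith)).sub (ha1.mono (by linarith))
    have h2 := hN.nb K _ (sub_mem (expand_mem_PI (pow_pos hp.out.pos _) hG) hP) (p ^ l) hplt _ h1
    rwa [hw] at h2
  have hpart2 : v.Ge (s + μ - 2 * ε - q' / p ^ (i + 1))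
      ((taylor (x K) (P - f.comp P₁)).coeff (p ^ l)) := by
    have h1 : v.Ge (s + μ - 2 * ε) ((P - f.comp P₁).eval (x K)) := by
      rw [eval_sub, eval_comp, ← hθ₁]
      have e : P.eval (x K) - f.eval θ₁ =
          ((y - f.eval y1) - (y - P.eval (x K))) - (f.eval θ₁ - f.eval y1) := by ring
      rw [e]
      exact ((hf1.mono (by linarith)).sub (hP1.mono (by linarith))).sub (hfe.mono (by linarith))
    have h2 := hN.nb K _ (sub_mem hP (comp_PI hf hP₁)) (p ^ l) hplt _ h1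
    rwa [hw] at h2
  have hpart3 : v.Ge (s + μ - 2 * ε - q' / p ^ (i + 1))
      ((taylor (x K) (f.comp P₁)).coeff (p ^ l)) := by
    have e : taylor (x K) (f.comp P₁) = (taylor θ₁ f).comp η := by
      rw [taylor_apply, taylor_apply, comp_assoc, comp_assoc, hη, add_comp, X_comp, C_comp,
        sub_add_cancel, taylor_apply]
    rw [e, coeff_comp]
    refine RVal.Ge.sum _ _ fun n _ => ?_
    rcases Nat.eq_zero_or_pos n with rfl | hn
    · rw [pow_zero, coeff_one, if_neg (pow_pos hp.out.pos l).ne', mul_zero]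
      exact RVal.Ge.zero
    have hwadd : ∀ F F' : ℕ, (fun F : ℕ => (F : ℝ) * (m + q') / p ^ K) F +
        (fun F : ℕ => (F : ℝ) * (m + q') / p ^ K) F' ≤
          (fun F : ℕ => (F : ℝ) * (m + q') / p ^ K) (F + F') := by
      intro F F'
      simp only
      push_cast
      rw [add_mul, add_div]
    have h1 := hηw.pow hwadd (by simp) n (p ^ l) (Nat.lt_succ_self _)
    have h2 := (hfj' n hn).mul h1
    refine h2.mono ?_
    have h3 : ((p ^ l : ℕ) : ℝ) * (m + q') / p ^ K = m / p ^ (i + 1) + q' / p ^ (i + 1) := by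
      rw [hK1]
      push_cast
      field_simp
    simp only [h3]
    rw [neg_div] at hμm
    linarith
  have hD : v.Ge (s + μ - 2 * ε - q' / p ^ (i + 1)) ((taylor (x (i + 1)) G).coeff 1) := by
    rw [hGl]
    have e : expand Ω (p ^ l) G = (expand Ω (p ^ l) G - P) + ((P - f.comp P₁) + f.comp P₁) := by
      ring
    rw [e, map_add, coeff_add, map_add, coeff_add]
    exact (hpart1.mono (by linarith)).add (hpart2.add hpart3)
  have hD' : v.Ge (s + μ - 2 * ε - q' / p ^ (i + 1) + v (x 0) / p ^ (i + 1))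
      (x (i + 1) * (derivative G).eval (x (i + 1))) := by
    rw [taylor_coeff_one] at hD
    have h1 := (v.ge_self (x (i + 1))).mul hD
    rw [h.val] at h1
    exact h1.mono (by linarith)
  obtain ⟨a₂, ha₂, h1⟩ := h.ld h0 hc hG i hD' hε0
  refine ⟨a₂, mem_rootF.2 ha₂, ?_⟩
  have e : y - a₂ = (y - G.eval (x (i + 1))) + (G.eval (x (i + 1)) - a₂) := by ring
  rw [e]
  have hν : 0 ≤ ν / ((p : ℝ) - 1) / p ^ (i + 1) :=
    div_nonneg (div_nonneg h.nonneg p_sub.le) hpi.le
  refine (ha1.mono (by linarith)).add (h1.mono ?_)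
  have e2 : q' / (p : ℝ) ^ (i + 1) = v (x 0) / p ^ (i + 1) + ν / p ^ (i + 1) +
      ν / ((p : ℝ) - 1) / p ^ (i + 1) := by
    have h2 : (p : ℝ) / (p - 1) = 1 + 1 / (p - 1) := by
      have := p_sub (p := p)
      field_simp
      ring
    rw [hq', h2]
    ring
  rw [e2]
  linarith

/-- **The critical step.** -/
theorem crit_core (h0 : Ctx0 k v) (hc : CompleteV v) (h : HL p v W)
    (hy : ∀ ε : ℝ, 0 < ε → ∃ j, ∃ a ∈ rootF p j W, v.Ge (s - ε) (y - a))
    (hlim : ClJ v W y s y1 s1) {m : ℝ} (hm : 0 ≤ m)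
    {i : ℕ} (hM : ∀ n, i ≤ n → Lim v (rootF p n W) (s1 - m / p ^ (n + 1)) y1) :
    Lim v (rootF p i W) (s - m / p ^ (i + 1)) y := by
  have hp0 : (0 : ℝ) < p := p_pos
  have hp1 : (1 : ℝ) < p := by exact_mod_cast hp.out.one_lt
  have hpi : (0 : ℝ) < (p : ℝ) ^ (i + 1) := pow_pos hp0 _
  -- the case `0 < m`
  have hpos : ∀ m : ℝ, 0 < m →
      (∀ n, i ≤ n → Lim v (rootF p n W) (s1 - m / p ^ (n + 1)) y1) →
      Lim v (rootF p i W) (s - m / p ^ (i + 1)) y := by
    intro m hm hM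
    -- one level, without loss
    have hstep : ∀ (j : ℕ) (r : ℝ), i ≤ j → Lim v (rootF p (j + 1) W) (s + r) y →
        Lim v (rootF p j W) (s + min r (-m / p ^ (j + 1))) y := by
      intro j r hij hr ε hε
      obtain ⟨t, ν, ht, h1⟩ := h ((p - 1) * (ε / 2)) (by
        have := p_sub (p := p)
        positivity)
      obtain ⟨a, ha, h2⟩ := crit_step h0 hc ht hy hlim hm
        (fun n hn => hM n (hij.trans hn)) hr (ε / 2) (by linarith)
      refine ⟨a, ha, h2.mono ?_⟩
      have h3 : ν / ((p : ℝ) - 1) ≤ ε / 2 := by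
        rw [div_le_iff₀ p_sub]
        linarith
      have h4 : ν / ((p : ℝ) - 1) / p ^ (j + 1) ≤ ν / ((p : ℝ) - 1) := by
        refine div_le_self (div_nonneg ht.nonneg p_sub.le) ?_
        exact one_le_pow₀ hp1.le
      linarith
    have hall : ∀ (l : ℕ) (j : ℕ) (r : ℝ), i ≤ j → Lim v (rootF p (j + l) W) (s + r) y →
        Lim v (rootF p j W) (s + min r (-m / p ^ (j + 1))) y := by
      intro l
      induction l with
      | zero =>
        intro j r _ hr ε hε
        obtain ⟨a, ha, h1⟩ := hr ε hε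
        exact ⟨a, ha, h1.mono (by linarith [min_le_left r (-m / (p : ℝ) ^ (j + 1))])⟩
      | succ l ih =>
        intro j r hij hr
        have h1 := ih (j + 1) r (by omega) (by
          have e : j + 1 + l = j + (l + 1) := by omega
          rw [e]
          exact hr)
        have h2 := hstep j _ hij h1
        intro ε hε
        obtain ⟨a, ha, h3⟩ := h2 ε hε
        refine ⟨a, ha, h3.mono ?_⟩
        have h4 : -m / (p : ℝ) ^ (j + 1) ≤ -m / p ^ (j + 1 + 1) := by
          rw [neg_div, neg_div, neg_le_neg_iff]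
          refine div_le_div_of_nonneg_left hm.le (pow_pos hp0 _) ?_
          exact pow_le_pow_right₀ hp1.le (by omega)
        have h5 : min r (-m / (p : ℝ) ^ (j + 1)) ≤
            min (min r (-m / p ^ (j + 1 + 1))) (-m / p ^ (j + 1)) :=
          le_min (le_min (min_le_left _ _) ((min_le_right _ _).trans h4)) (min_le_right _ _)
        linarith
    obtain ⟨j, a, ha, h1⟩ := hy (m / p ^ (i + 1)) (by positivity)
    have h2 : Lim v (rootF p (i + j) W) (s + -m / p ^ (i + 1)) y := by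
      refine lim_up (i := j) (by omega) fun ε hε => ⟨a, ha, h1.mono ?_⟩
      rw [neg_div]
      linarith
    have h3 := hall j i _ le_rfl h2
    rw [min_self, neg_div, ← sub_eq_add_neg] at h3
    exact h3
  rcases hm.lt_or_eq with hm | rfl
  · exact hpos m hm hM
  · intro ε hε
    have h1 := hpos (ε / 2 * p ^ (i + 1)) (by positivity) (fun n hn ε' hε' => by
      obtain ⟨a, ha, h2⟩ := hM n hn ε' hε'
      refine ⟨a, ha, h2.mono ?_⟩
      have h3 : 0 ≤ (ε / 2 * (p : ℝ) ^ (i + 1)) / p ^ (n + 1) := by positivity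
      rw [zero_div]
      linarith) (ε / 2) (by linarith)
    obtain ⟨a, ha, h2⟩ := h1
    refine ⟨a, ha, h2.mono ?_⟩
    rw [zero_div, mul_div_assoc, div_self hpi.ne', mul_one]
    linarith

/-! ### The separable case -/

/-- **The critical step**, `S` additive and separable. -/
theorem crit (h0 : Ctx0 k v) (hc : CompleteV v) (h : HL p v W)
    (hfar : ∀ θ, IsAlgebraic W θ → y ≠ θ ∧ v (y - θ) ≤ 0)
    (hy : ∀ ε : ℝ, 0 < ε → ∃ j, ∃ a ∈ rootF p j W, v.Ge (-ε) (y - a)) {S : Polynomial Ω}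
    (hS : Sep v S) (hSW : S ∈ PI W)
    (hadd : S.comp (X + Polynomial.C y) = S + Polynomial.C (S.eval y))
    (hlim : ∀ ε : ℝ, 0 < ε → ∃ f ∈ PI W, v.Ge (-ε) (y - f.eval (S.eval y))) {m : ℝ} (hm : 0 ≤ m)
    {i : ℕ} (hM : ∀ n, i ≤ n → Lim v (rootF p n W) (-(m / p ^ (n + 1))) (S.eval y)) :
    Lim v (rootF p i W) (-(m / p ^ (i + 1))) y := by
  have h1 := crit_core h0 hc h (s := 0) (s1 := 0) (y := y) (y1 := S.eval y)
    (fun ε hε => by rw [zero_sub]; exact hy ε hε) (fun ε hε => by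
      obtain ⟨f, hf, h1⟩ := hlim ε hε
      refine ⟨f, hf, by rw [zero_sub]; exact h1, fun n hn => ?_⟩
      rw [mul_zero, sub_zero, zero_sub]
      exact jets_near hS hSW hadd hfar hf hε h1 hn) hm (i := i)
    (fun n hn => by rw [zero_sub]; exact hM n hn)
  rwa [zero_sub] at h1

/-! ### The inseparable case -/

omit [CharP k p] in
/-- The jets of `f` at `y ^ p`, if `f(y ^ p)` is near to `y`. -/
theorem jets_near_pow (hfar : ∀ θ, IsAlgebraic W θ → y ≠ θ ∧ v (y - θ) ≤ s) {f : Polynomial Ω}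
    (hf : f ∈ PI W) {ε : ℝ} (h1 : v.Ge (s - ε) (y - f.eval (y ^ p))) {j : ℕ}
    (hj : 1 ≤ j) : v.Ge (s - ε - j * (p * s)) ((taylor (y ^ p) f).coeff j) := by
  set R : Polynomial Ω := expand Ω p f - X with hR
  have hRm : R ∈ PI W := sub_mem (expand_mem_PI hp.out.pos hf) X_mem_PI
  have hRj : v.Ge (s - ε - (p * j : ℕ) * s) ((taylor y R).coeff (p * j)) := by
    by_cases hR0 : R = 0
    · rw [hR0, map_zero, coeff_zero]
      exact RVal.Ge.zero
    have h2 := Roots.taylor_ge (v := v) hR0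
      (fun θ hθ => hfar θ (isAlgebraic_root hRm hR0 hθ)) (p * j)
    refine h2.mono ?_
    have hne : R.eval y ≠ 0 := fun h0 => (hfar y (isAlgebraic_root hRm hR0 h0)).1 rfl
    have h3 : v.Ge (s - ε) (R.eval y) := by
      rw [hR, eval_sub, expand_eval, eval_X]
      exact ge_sub_comm h1
    have := h3 hne
    linarith
  have e : (taylor (y ^ p) f).coeff j = (taylor y R).coeff (p * j) := by
    have hpj : p * j ≠ 1 := fun h => hp.out.ne_one (Nat.eq_one_of_mul_eq_one_right h)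
    have hpj0 : p * j ≠ 0 := (Nat.mul_pos hp.out.pos hj).ne'
    rw [hR, map_sub, taylor_X, taylor_expand p, coeff_sub, coeff_add, coeff_X, if_neg (Ne.symm hpj),
      coeff_C, if_neg hpj0, add_zero, sub_zero, coeff_expand hp.out.pos,
      if_pos (dvd_mul_right _ _), Nat.mul_div_cancel_left _ hp.out.pos]
  rw [e]
  refine hRj.mono (le_of_eq ?_)
  push_cast
  ring

omit [CharP k p] [IsAlgClosed Ω] in
theorem rootN_le_algc (n : ℕ) : rootF p n W ≤ algc W := fun a ha =>
  mem_algc.2 (IsAlgebraic.of_pow (pow_pos hp.out.pos n)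
    (isAlgebraic_algebraMap (⟨_, mem_rootF.1 ha⟩ : W)))

omit [CharP k p] [IsAlgClosed Ω] in
theorem isAlg_rootN (n : ℕ) {θ : Ω} (hθ : IsAlgebraic (rootF p n W) θ) : IsAlgebraic W θ :=
  isAlgebraic_of_algc (D2P.isAlgebraic_mono (rootN_le_algc n) hθ)

omit [CharP k p] [IsAlgClosed Ω] in
theorem cld_rootN (hW : Cld v W) (n : ℕ) : Cld v (rootF p n W) := by
  induction n with
  | zero =>
    have e : rootF p 0 W = W := by
      ext a
      rw [mem_rootF, pow_zero, pow_one]
    rw [e]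
    exact hW
  | succ n ih =>
    have e : rootF p (n + 1) W = rootF p 1 (rootF p n W) := by
      ext a
      rw [mem_rootF, mem_rootF, mem_rootF, ← pow_mul, ← pow_add, add_comm 1 n]
    rw [e]
    exact cld_rootF p ih

omit [CharP k p] in
theorem dst_rootN {n : ℕ} {a a' : Ω} {c : ℝ} (ha : a' ^ p ^ n = a) (h : Dst v W a c) :
    Dst v (rootF p n W) a' (c / p ^ n) where
  far := by
    rintro ⟨g, hg, h1⟩
    have hpn : (0 : ℝ) < (p : ℝ) ^ n := pow_pos p_pos n
    refine h.far ⟨g ^ p ^ n, mem_rootF.1 hg, ?_⟩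
    have h2 := (TWC.gt_pow_iff (v := v) (pow_pos hp.out.pos n)).2 h1
    rw [sub_pow_char_pow, ha] at h2
    push_cast at h2
    rwa [mul_div_cancel₀ _ hpn.ne'] at h2
  near := by
    intro ε hε
    have hpn : (0 : ℝ) < (p : ℝ) ^ n := pow_pos p_pos n
    obtain ⟨g, hg, h1⟩ := h.near (p ^ n * ε) (by positivity)
    obtain ⟨d, rfl⟩ := IsAlgClosed.exists_pow_nat_eq g (pow_pos hp.out.pos n)
    refine ⟨d, mem_rootF.2 hg, ?_⟩
    refine (TWC.ge_pow_iff (v := v) (pow_pos hp.out.pos n)).1 ?_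
    rw [sub_pow_char_pow, ha]
    push_cast
    rwa [mul_sub, mul_div_cancel₀ _ hpn.ne']

/-- The letters of `W ^ (1 / p ^ n)`. -/
theorem Lt.rootN (h : Lt p v W x ν) (n : ℕ) :
    Lt p v (rootF p n W) (fun l => x (n + l)) (ν / p ^ n) := by
  have hp0 : (0 : ℝ) < p := p_pos
  have hpn : (0 : ℝ) < (p : ℝ) ^ n := pow_pos hp0 n
  refine ⟨cld_rootN h.cld n, ?_, fun l => h.root (n + l), ?_, ?_, ?_⟩
  · refine mem_rootF.2 ?_
    have h1 := h.tpow 0 n
    rw [zero_add] at h1
    rw [add_zero, h1]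
    exact h.mem
  · rw [add_zero]
    exact h.tne n
  · intro a ha
    obtain ⟨b, hb⟩ := IsAlgClosed.exists_pow_nat_eq a hp.out.pos
    have h1 : b ^ p ^ (n + 1) ∈ W := by
      rw [pow_succ', pow_mul, hb]
      exact mem_rootF.1 ha
    obtain ⟨Q, hQ, h2⟩ := h.rts h1
    refine ⟨Q, fun i => mem_rootF.2 (_root_.pow_mem (hQ i) _), ?_⟩
    rw [h2, hb]
  · have h1 : x (n + 1) ^ p ^ n = x 1 := by
      rw [add_comm]
      exact h.tpow 1 n
    have h2 := dst_rootN h1 h.dst
    have e : (v (x (n + 0)) + ν / p ^ n) / p = (v (x 0) + ν) / p / p ^ n := by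
      rw [add_zero, h.val n]
      field_simp
    rw [e]
    exact h2

theorem HL.rootN (h : HL p v W) (n : ℕ) : HL p v (rootF p n W) := by
  intro δ hδ
  obtain ⟨t, ν, ht, h1⟩ := h δ hδ
  refine ⟨_, _, ht.rootN n, ?_⟩
  refine le_trans (div_le_self ht.nonneg ?_) h1
  exact one_le_pow₀ (by exact_mod_cast hp.out.one_lt.le)

/-- **The critical step in the inseparable case.** Any radius `s`. -/
theorem crit_pow (h0 : Ctx0 k v) (hc : CompleteV v) (h : HL p v W) (n : ℕ)
    (hfar : ∀ θ, IsAlgebraic W θ → y ≠ θ ∧ v (y - θ) ≤ s)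
    (hy : ∀ ε : ℝ, 0 < ε → ∃ j, ∃ a ∈ rootF p j W, v.Ge (s - ε) (y - a))
    (hlim : ∀ ε : ℝ, 0 < ε → ∃ f ∈ PI (rootF p n W), v.Ge (s - ε) (y - f.eval (y ^ p)))
    {m : ℝ} (hm : 0 ≤ m) {i : ℕ} (hi : n ≤ i)
    (hM : ∀ j, i < j → Lim v (rootF p j W) (s - m / p ^ (j + 1)) y) :
    Lim v (rootF p i W) (s - m / p ^ (i + 1)) y := by
  have hp0 : (0 : ℝ) < p := p_pos
  have hpn : (0 : ℝ) < (p : ℝ) ^ n := pow_pos hp0 n
  have hroot : ∀ (a b : ℕ) (z : Ω), z ∈ D2P.rootF p a (D2P.rootF p b W) ↔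
      z ∈ D2P.rootF p (b + a) W := by
    intro a b z
    rw [mem_rootF, mem_rootF, mem_rootF, ← pow_mul, ← pow_add, add_comm a b]
  have hfar' : ∀ θ, IsAlgebraic (D2P.rootF p n W) θ → y ≠ θ ∧ v (y - θ) ≤ s := by
    intro θ hθ
    exact hfar θ (isAlg_rootN n hθ)
  obtain ⟨l, rfl⟩ := Nat.exists_eq_add_of_le hi
  have h1 := crit_core h0 hc (h.rootN n) (y := y) (y1 := y ^ p) (s := s) (s1 := p * s)
    (fun ε hε => by
      obtain ⟨j, a, ha, h2⟩ := hy ε hε
      refine ⟨j, a, (hroot j n a).2 (mem_rootF.2 ?_), h2⟩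
      rw [pow_add, mul_comm, pow_mul]
      exact _root_.pow_mem (mem_rootF.1 ha) _) (fun ε hε => by
      obtain ⟨f, hf, h2⟩ := hlim ε hε
      exact ⟨f, hf, h2, fun j hj => jets_near_pow hfar' hf h2 hj⟩)
    (m := m / p ^ n) (by positivity) (i := l) (fun j hj ε hε => by
      obtain ⟨a, ha, h2⟩ := hM (n + j + 1) (by omega) (ε / p) (by positivity)
      refine ⟨a ^ p, (hroot j n _).2 (mem_rootF.2 ?_), ?_⟩
      · rw [← pow_mul, ← pow_succ']
        exact mem_rootF.1 ha
      · rw [← sub_pow_char]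
        have h3 := ge_pow h2 p
        refine h3.mono (le_of_eq ?_)
        have e : (p : ℝ) ^ (n + j + 1 + 1) = p ^ n * p ^ (j + 1) * p := by
          rw [← pow_add, ← pow_succ]
          congr 1
        rw [e]
        field_simp)
  intro ε hε
  obtain ⟨a, ha, h2⟩ := h1 ε hε
  refine ⟨a, (hroot l n a).1 ha, h2.mono (le_of_eq ?_)⟩
  have e : (p : ℝ) ^ (n + l + 1) = p ^ n * p ^ (l + 1) := by
    rw [← pow_add]
    congr 1
  rw [e]
  field_simp

end Pool.Agent.TWTR
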