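import Pool.Agent.Lib.TWTR.Crit

/-!
# TANK W, row R: the polynomials over `W` are dense in `W<z>`

`W` any field, `z` at distance `< s` from the algebraic elements over `W`, and a limit of the
perfect closure of `W` up to `s`: `W[z]` is dense in the closure of `W(z)` (`dens`).
* `lemR'`: **Lemma R**: if a first jet of `z` over some `W ^ (1 / p ^ n)` is not strict, then from
  the level `n` on the gaps of `z` are bounded by the later gaps.
-/

set_option autoImplicit false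

open Polynomial

namespace Pool.Agent.TWTR

open Pool.Agent.H15JM (RVal)
open Pool.Agent.LU1 (VPos adj)
open Pool.Agent.D2 (Ctx0)
open Pool.Agent.D2P (clI mem_clI rootF mem_rootF)
open Pool.Agent.TWM Pool.Agent.TWM.C
open Pool.Agent.TWC

universe u

variable {k Ω : Type u} [Field k] [Field Ω] [Algebra k Ω] {v : RVal Ω}
  {A W : IntermediateField k Ω} {z : Ω}

/-- Density from the approximation of the inverses. -/
theorem dens_of_inv (h : ∀ f ∈ PI A, f.eval z ≠ 0 → ∀ b : ℝ,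
    ∃ g ∈ PI A, v.Ge b ((f.eval z)⁻¹ - g.eval z)) {w : Ω} (hw : w ∈ cadj v A z) (b : ℝ) :
    ∃ f ∈ PI A, v.Ge b (w - f.eval z) := by
  let B : Subfield Ω :=
    { carrier := {w | ∀ b : ℝ, ∃ f ∈ PI A, v.Ge b (w - f.eval z)}
      mul_mem' := by
        intro x y hx hy b
        by_cases hx0 : x = 0
        · exact ⟨0, zero_mem _, by rw [hx0, zero_mul, eval_zero, sub_zero]; exact RVal.Ge.zero⟩
        obtain ⟨g, hg, h2⟩ := hy (b - v x)
        obtain ⟨f, hf, h1⟩ := hx (b - v (g.eval z))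
        refine ⟨f * g, mul_mem hf hg, ?_⟩
        rw [eval_mul, show x * y - f.eval z * g.eval z =
          x * (y - g.eval z) + (x - f.eval z) * g.eval z by ring]
        refine RVal.Ge.add ?_ ?_
        · exact (RVal.Ge.mul (RVal.ge_self x) h2).mono (by linarith)
        · exact (RVal.Ge.mul h1 (RVal.ge_self _)).mono (by linarith)
      one_mem' := fun b => ⟨1, one_mem _, by rw [eval_one, sub_self]; exact RVal.Ge.zero⟩
      add_mem' := by
        intro x y hx hy b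
        obtain ⟨f, hf, h1⟩ := hx b
        obtain ⟨g, hg, h2⟩ := hy b
        exact ⟨f + g, add_mem hf hg, by
          rw [eval_add, add_sub_add_comm]; exact h1.add h2⟩
      zero_mem' := fun b => ⟨0, zero_mem _, by rw [eval_zero, sub_self]; exact RVal.Ge.zero⟩
      neg_mem' := by
        intro x hx b
        obtain ⟨f, hf, h1⟩ := hx b
        exact ⟨-f, neg_mem hf, by rw [eval_neg, ← neg_sub']; exact h1.neg⟩
      inv_mem' := by
        intro x hx b
        by_cases hx0 : x = 0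
        · exact ⟨0, zero_mem _, by rw [hx0, inv_zero, eval_zero, sub_zero]; exact RVal.Ge.zero⟩
        obtain ⟨f, hf, h1⟩ := hx (max (v x + 1) (b + 2 * v x))
        obtain ⟨h2, h3⟩ := Gt.val_eq hx0 (Gt.of_ge h1 (lt_max_of_lt_left (by linarith)))
        obtain ⟨g, hg, h4⟩ := h f hf h2 b
        refine ⟨g, hg, ?_⟩
        have h5 : x⁻¹ - g.eval z = -((x - f.eval z) * (x⁻¹ * (f.eval z)⁻¹)) +
            ((f.eval z)⁻¹ - g.eval z) := by
          field_simp
          ring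
        rw [h5]
        refine RVal.Ge.add (RVal.Ge.neg ?_) h4
        have h6 := RVal.Ge.mul h1 (RVal.Ge.mul (RVal.Ge.of_le (v := v) (v.map_inv hx0).ge)
          (RVal.Ge.of_le (v := v) (v.map_inv h2).ge))
        refine h6.mono ?_
        rw [h3]
        have := le_max_right (v x + 1) (b + 2 * v x)
        linarith }
  have h1 : ∀ x ∈ adj A z, x ∈ B := by
    intro x hx
    have h2 : adj A z ≤ B.toIntermediateField (fun c => by
        intro b
        exact ⟨Polynomial.C (algebraMap k Ω c), C_mem_PI (A.algebraMap_mem c), by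
          rw [eval_C, sub_self]; exact RVal.Ge.zero⟩) := by
      refine D2P.adj_le (fun a ha => ?_) ?_
      · intro b
        exact ⟨Polynomial.C a, C_mem_PI ha, by rw [eval_C, sub_self]; exact RVal.Ge.zero⟩
      · intro b
        exact ⟨X, X_mem_PI, by rw [eval_X, sub_self]; exact RVal.Ge.zero⟩
    exact h2 hx
  obtain ⟨a, ha, h2⟩ := mem_clI.1 hw b
  obtain ⟨f, hf, h3⟩ := h1 a ha b
  refine ⟨f, hf, ?_⟩
  have e : w - f.eval z = (w - a) + (a - f.eval z) := by ring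
  rw [e]
  exact h2.add h3

variable {p : ℕ} [hp : Fact p.Prime] [CharP Ω p] [IsAlgClosed Ω] {s : ℝ}

/-- The approximation of the inverses. -/
theorem inv_near (hfar : ∀ θ, IsAlgebraic W θ → z ≠ θ ∧ v (z - θ) < s)
    (hlim : ∀ ε : ℝ, 0 < ε → ∃ j, ∃ a ∈ rootF p j W, v.Ge (s - ε) (z - a)) {f : Polynomial Ω}
    (hf : f ∈ PI W) (hfz : f.eval z ≠ 0) (b : ℝ) :
    ∃ g ∈ PI W, v.Ge b ((f.eval z)⁻¹ - g.eval z) := by
  classical
  have hf0 : f ≠ 0 := by
    rintro rfl
    exact hfz eval_zero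
  -- the gap
  obtain ⟨δ, hδ, h1⟩ : ∃ δ : ℝ, 0 < δ ∧ ∀ θ, f.IsRoot θ → v (z - θ) ≤ s - δ := by
    have h2 : ∀ S : Finset Ω, (∀ θ ∈ S, v (z - θ) < s) →
        ∃ δ : ℝ, 0 < δ ∧ ∀ θ ∈ S, v (z - θ) ≤ s - δ := by
      intro S
      induction S using Finset.induction_on with
      | empty => exact fun _ => ⟨1, one_pos, fun θ hθ => absurd hθ (Finset.notMem_empty θ)⟩
      | insert a S ha ih =>
        intro hS
        obtain ⟨δ, hδ, h3⟩ := ih fun θ hθ => hS θ (Finset.mem_insert_of_mem hθ)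
        have h4 := hS a (Finset.mem_insert_self a S)
        refine ⟨min δ (s - v (z - a)), lt_min hδ (by linarith), fun θ hθ => ?_⟩
        rcases Finset.mem_insert.1 hθ with rfl | hθ
        · have := min_le_right δ (s - v (z - θ))
          linarith
        · have := min_le_left δ (s - v (z - a))
          have := h3 θ hθ
          linarith
    obtain ⟨δ, hδ, h3⟩ := h2 f.roots.toFinset fun θ hθ =>
      (hfar θ (isAlgebraic_root hf hf0 ((mem_roots hf0).1 (Multiset.mem_toFinset.1 hθ)))).2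
    exact ⟨δ, hδ, fun θ hθ => h3 θ (Multiset.mem_toFinset.2 ((mem_roots hf0).2 hθ))⟩
  obtain ⟨j, a, ha, h2⟩ := hlim (δ / 2) (by linarith)
  have h3 : v.Ge (v (f.eval z) + δ / 2) (f.eval z - f.eval a) := by
    have h4 : ∀ l : ℕ, v.Ge (v (f.eval z) - l * (s - δ)) ((taylor z f).coeff l) := fun l => by
      have h5 := Roots.taylor_ge (v := v) hf0 (s := s - δ) (fun θ hθ =>
        ⟨(hfar θ (isAlgebraic_root hf hf0 hθ)).1, h1 θ hθ⟩) l
      exact h5.mono (by linarith)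
    have h5 : f.eval a = ∑ l ∈ Finset.range (f.natDegree + 1),
        (taylor z f).coeff l * (a - z) ^ l := by
      have h6 : (taylor z f).eval (a - z) = f.eval a := by rw [taylor_eval, sub_add_cancel]
      rw [← h6, eval_eq_sum_range' (n := f.natDegree + 1)]
      rw [natDegree_taylor]
      exact Nat.lt_succ_self _
    refine ge_sub_comm ?_
    rw [h5, Finset.sum_range_succ', pow_zero, mul_one, taylor_coeff_zero, add_sub_cancel_right]
    refine RVal.Ge.sum _ _ fun l _ => ?_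
    refine ((h4 (l + 1)).mul (ge_pow (ge_sub_comm h2) (l + 1))).mono ?_
    push_cast
    have h7 : (0 : ℝ) ≤ l * δ := by positivity
    linarith
  obtain ⟨h4, h5⟩ := Gt.val_eq hfz (Gt.of_ge h3 (by linarith))
  set c := f.eval a ^ p ^ j with hc
  have hcW : c ∈ W := by
    have h6 : f.eval a ∈ rootF p j W :=
      eval_mem (PI_mono (fun w hw => mem_rootF.2 (pow_mem hw _)) hf) ha
    exact mem_rootF.1 h6
  have hc0 : c ≠ 0 := pow_ne_zero _ h4
  have hpj : (1 : ℝ) ≤ ((p ^ j : ℕ) : ℝ) := by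
    exact_mod_cast pow_pos hp.out.pos j
  have hvc : v c = ((p ^ j : ℕ) : ℝ) * v (f.eval z) := by
    rw [hc, v.map_pow h4, h5]
  set t := 1 - f.eval z ^ p ^ j / c with ht
  have htv : v.Ge (δ / 2) t := by
    have h6 : t = -((f.eval z - f.eval a) ^ p ^ j * c⁻¹) := by
      rw [ht, sub_pow_char_pow, ← hc]
      field_simp
      ring
    rw [h6]
    refine RVal.Ge.neg ?_
    have h7 := RVal.Ge.mul (ge_pow h3 (p ^ j)) (RVal.Ge.of_le (v := v) (v.map_inv hc0).ge)
    refine h7.mono ?_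
    rw [hvc]
    nlinarith
  obtain ⟨n, hn⟩ := exists_nat_gt ((b + v (f.eval z)) / (δ / 2))
  let T : Polynomial Ω := 1 - f ^ p ^ j * Polynomial.C c⁻¹
  have hT : T ∈ PI W := sub_mem (one_mem _) (mul_mem (pow_mem hf _) (C_mem_PI (inv_mem hcW)))
  have hTz : T.eval z = t := by
    show (1 - f ^ p ^ j * Polynomial.C c⁻¹).eval z = _
    rw [eval_sub, eval_one, eval_mul, eval_pow, eval_C, ht, div_eq_mul_inv]
  refine ⟨f ^ (p ^ j - 1) * (Polynomial.C c⁻¹ * ∑ i ∈ Finset.range n, T ^ i),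
    mul_mem (pow_mem hf _) (mul_mem (C_mem_PI (inv_mem hcW)) (sum_mem fun i _ => pow_mem hT i)), ?_⟩
  rw [eval_mul, eval_pow, eval_mul, eval_C, eval_finsetSum]
  simp only [eval_pow, hTz]
  have h8 : f.eval z ^ p ^ j = c * (1 - t) := by
    rw [ht]
    field_simp
    ring
  have h9 : (1 - t) * ∑ i ∈ Finset.range n, t ^ i = 1 - t ^ n := mul_neg_geom_sum t n
  have h1t : 1 - t ≠ 0 := by
    intro h10
    rw [h10, mul_zero] at h8
    exact pow_ne_zero _ hfz h8
  have h10 : (f.eval z)⁻¹ - f.eval z ^ (p ^ j - 1) * (c⁻¹ * ∑ i ∈ Finset.range n, t ^ i) =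
      (f.eval z)⁻¹ * t ^ n := by
    have h11 : ∑ i ∈ Finset.range n, t ^ i = (1 - t ^ n) / (1 - t) := by
      rw [← h9]
      field_simp
    have h12 : f.eval z ^ (p ^ j - 1) = (f.eval z)⁻¹ * (c * (1 - t)) := by
      rw [← h8, ← pow_sub_one_mul (pow_ne_zero j hp.out.ne_zero) (f.eval z), mul_comm,
        mul_assoc, mul_inv_cancel₀ hfz, mul_one]
    rw [h11, h12]
    field_simp
    ring
  rw [h10]
  refine (RVal.Ge.mul (RVal.Ge.of_le (v.map_inv hfz).ge) (ge_pow htv n)).mono ?_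
  rw [div_lt_iff₀ (by linarith)] at hn
  linarith

/-- **`W[z]` is dense in the closure of `W(z)`.** -/
theorem dens (hfar : ∀ θ, IsAlgebraic W θ → z ≠ θ ∧ v (z - θ) < s)
    (hlim : ∀ ε : ℝ, 0 < ε → ∃ j, ∃ a ∈ rootF p j W, v.Ge (s - ε) (z - a)) {w : Ω}
    (hw : w ∈ cadj v W z) (b : ℝ) : ∃ f ∈ PI W, v.Ge b (w - f.eval z) :=
  dens_of_inv (fun _ hf hfz b => inv_near hfar hlim hf hfz b) hw b

/-- The `p`-th power. -/
theorem far_pow (hfar : ∀ θ, IsAlgebraic W θ → z ≠ θ ∧ v (z - θ) < s) :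
    ∀ θ, IsAlgebraic W θ → z ^ p ≠ θ ∧ v (z ^ p - θ) < p * s := by
  intro θ hθ
  obtain ⟨ϑ, rfl⟩ := IsAlgClosed.exists_pow_nat_eq θ hp.out.pos
  obtain ⟨h1, h2⟩ := hfar ϑ (IsAlgebraic.of_pow hp.out.pos hθ)
  have h3 : z - ϑ ≠ 0 := sub_ne_zero.2 h1
  rw [← sub_pow_char, v.map_pow h3]
  refine ⟨fun h4 => pow_ne_zero p h3 ?_, mul_lt_mul_of_pos_left h2 p_pos⟩
  rw [sub_pow_char, h4, sub_self]

theorem lim_pow (hlim : ∀ ε : ℝ, 0 < ε → ∃ j, ∃ a ∈ rootF p j W, v.Ge (s - ε) (z - a)) :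
    ∀ ε : ℝ, 0 < ε → ∃ j, ∃ a ∈ rootF p j W, v.Ge (p * s - ε) (z ^ p - a) := by
  intro ε hε
  have hp0 : (0 : ℝ) < p := p_pos
  obtain ⟨j, a, ha, h1⟩ := hlim (ε / p) (by positivity)
  refine ⟨j, a ^ p, pow_mem ha p, ?_⟩
  rw [← sub_pow_char]
  refine (ge_pow h1 p).mono (le_of_eq ?_)
  field_simp

variable [CharP k p]

/-- **Lemma R.** If the first jet of `z` over `W ^ (1 / p ^ n)` is not strict, then from the level
`n` on the gaps of `z` are bounded by the later gaps. -/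
theorem lemR' (h0 : Ctx0 k v) (hc : CompleteV v) (h : HL p v W)
    (hfar : ∀ θ, IsAlgebraic W θ → z ≠ θ ∧ v (z - θ) < s)
    (hlim : ∀ ε : ℝ, 0 < ε → ∃ j, ∃ a ∈ rootF p j W, v.Ge (s - ε) (z - a)) {n : ℕ}
    (hS : ¬ Sd v (rootF p n W) z 1 s) {m : ℝ} (hm : 0 ≤ m) {i : ℕ} (hi : n ≤ i)
    (hM : ∀ j, i < j → Lim v (rootF p j W) (s - m / p ^ (j + 1)) z) :
    Lim v (rootF p i W) (s - m / p ^ (i + 1)) z := by
  have hfarn : ∀ θ, IsAlgebraic (rootF p n W) θ → z ≠ θ ∧ v (z - θ) < s := fun θ hθ =>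
    hfar θ (isAlg_rootN n hθ)
  have h1 := (sd_or_exact p h0 (F := rootF p n W) (z := z) (s := s) fun θ hθ =>
    ⟨(hfarn θ hθ).1, (hfarn θ hθ).2.le⟩).resolve_left hS
  refine crit_pow h0 hc h n (fun θ hθ => ⟨(hfar θ hθ).1, (hfar θ hθ).2.le⟩) hlim
    (fun ε hε => ?_) hm hi hM
  obtain ⟨a, ha, h2⟩ := h1 (ε / 2) (by linarith)
  have h3 : ∀ ε : ℝ, 0 < ε →
      ∃ j, ∃ a ∈ rootF p j (rootF p n W), v.Ge (p * s - ε) (z ^ p - a) := by
    intro ε hε
    obtain ⟨j, a, ha, h4⟩ := lim_pow hlim ε hε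
    refine ⟨j, a, mem_rootF.2 (mem_rootF.2 (pow_mem (mem_rootF.1 ha) _)), h4⟩
  obtain ⟨f, hf, h4⟩ := dens (far_pow (p := p) hfarn) h3 ha (s - ε)
  refine ⟨f, hf, ?_⟩
  have e : z - f.eval (z ^ p) = (z - a) + (a - f.eval (z ^ p)) := by ring
  rw [e]
  exact (h2.mono (by linarith)).add h4

end Pool.Agent.TWTR
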