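import Pool.Agent.Lib.TWF.FF2
import Pool.Agent.Lib.TWM.S8b
import Pool.Agent.Lib.TWM.StabA
import Pool.Agent.Lib.TWC.AxP
import Pool.Agent.Lib.TWC.BdTowB

/-!
# TANK W: a second coordinate, finite generation

`C` is the closure of `k(x, y)`, with bounded distortion; `z ∈ C`, `(z, y)` is a `p`-basis of `C`.

* `near_of_perfC`: the perfect closure of a subfield with the same `p`-basis, seen from `C`;
* `mem_clI_of_lim`: a relatively algebraically closed subfield `A` with a `p`-basis, `p`-independent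
  in `C` with bounded distortion: the limits in `C` of algebraic elements are in the closure of `A`;
* `exists_alg_near`: `x` in the closed field `C = E<x>` is a limit of algebraic elements, if it is
  in `C^p E`;
* **`exists_fin`**: `C` is a finite extension of the closure of `k(z, y)`.
-/

set_option autoImplicit false

open Polynomial

namespace Pool.Agent.TWTR

open Pool.Agent.H15JM (RVal)
open Pool.Agent.LU1 (VPos adj)
open Pool.Agent.D2 (Ctx0)
open Pool.Agent.D2P (hen clI mem_clI mem_adj_self)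
open Pool.Agent.TW (Full PBasis pcomb mon kr BD Orth)
open Pool.Agent.TWM
open Pool.Agent.TWF

universe u

variable {k Ω : Type u} [Field k] [Field Ω] [Algebra k Ω] {v : RVal Ω}
  {A C E B : IntermediateField k Ω} {p : ℕ} [hp : Fact p.Prime] {n : ℕ} {t : Fin n → Ω} {c₀ : ℝ}

/-- The index `0`. -/
def ix0 (p n : ℕ) [hp : Fact p.Prime] : Fin n → Fin p := fun _ => ⟨0, hp.out.pos⟩

theorem mon_ix0 (t : Fin n → Ω) : mon t (ix0 p n) = 1 := by
  rw [mon]
  refine Finset.prod_eq_one fun i _ => ?_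
  simp [ix0]

variable [CharP Ω p]

theorem pcomb_if_sub (t : Fin n → Ω) (f : Ω) (a : (Fin n → Fin p) → Ω) :
    pcomb t (fun α => (if α = ix0 p n then f else 0) - a α) = f ^ p - pcomb t a := by
  rw [← pcomb_sub]
  congr 1
  rw [pcomb, Finset.sum_eq_single (ix0 p n)]
  · rw [if_pos rfl, mon_ix0, mul_one]
  · intro α _ hα
    rw [if_neg hα, zero_pow hp.out.ne_zero, zero_mul]
  · intro h1
    exact absurd (Finset.mem_univ _) h1

/-- The descent of the exponent. -/
theorem near_of_perfC (hpb : PBasis p A t) (hAC : A ≤ C) (hO : OI p v C t c₀) (hc0 : 0 ≤ c₀)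
    {x : Ω} (hx : x ∈ C) {b : ℝ} {a : Ω} (ha : a ∈ perfC p A) (h : v.Ge b (x - a)) :
    ∃ e ∈ A, v.Ge (b - c₀) (x - e) := by
  have hp2 : (2 : ℝ) ≤ p := by exact_mod_cast hp.out.two_le
  have hp0 : (0 : ℝ) < p := by linarith
  have key : ∀ m : ℕ, ∀ (R : ℝ) (f : Ω), f ∈ C → ∀ w ∈ A, v.Ge (p ^ m * R - c₀) (f ^ p ^ m - w) →
      ∃ w' ∈ A, v.Ge (R - c₀) (f - w') := by
    intro m
    induction m with
    | zero =>
      intro R f _ w hw h1
      rw [pow_zero, one_mul, pow_zero, pow_one] at h1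
      exact ⟨w, hw, h1⟩
    | succ m ih =>
      intro R f hf w hw h1
      obtain ⟨a, ha, h2⟩ := hpb.span w hw
      have h3 := hO (fun α => (if α = ix0 p n then f ^ p ^ m else 0) - a α) (fun α => by
        refine sub_mem ?_ (hAC (ha α))
        split_ifs
        · exact pow_mem hf _
        · exact zero_mem _) (p ^ (m + 1) * R - c₀) (by
          rw [pcomb_if_sub, ← h2, ← pow_mul, ← pow_succ]
          exact h1) (ix0 p n)
      rw [if_pos rfl, mon_ix0, mul_one] at h3
      have h6 : v.Ge ((p ^ (m + 1) * R - c₀ - c₀) / p) (f ^ p ^ m - a (ix0 p n)) := by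
        intro h7
        have h8 := h3 (pow_ne_zero _ h7)
        rw [v.map_pow h7] at h8
        rw [div_le_iff₀ hp0]
        linarith
      refine ih R f hf _ (ha _) (h6.mono ?_)
      rw [le_div_iff₀ hp0, pow_succ]
      nlinarith
  obtain ⟨m, hm⟩ := (mem_perfC p).1 ha
  refine key m b x hx _ hm ?_
  rw [← sub_pow_char_pow]
  intro h3
  have h4 : x - a ≠ 0 := fun h5 => h3 (by rw [h5, zero_pow (pow_ne_zero _ hp.out.ne_zero)])
  rw [v.map_pow h4]
  have h5 := h h4
  have h6 : (0 : ℝ) < (p : ℝ) ^ m := pow_pos hp0 m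
  push_cast
  nlinarith

variable [IsAlgClosed Ω]

/-- **Limits of algebraic elements.** -/
theorem mem_clI_of_lim (h0 : Ctx0 k v) (hC : Cld v C) (hAC : A ≤ C) (hA : hen v A = A)
    (hreg : ∀ a ∈ C, IsAlgebraic A a → a ∈ A) (hpb : PBasis p A t) (hO : OI p v C t c₀)
    {x : Ω} (hx : x ∈ C) (hlim : ∀ b : ℝ, ∃ θ, IsAlgebraic A θ ∧ v.Ge b (x - θ)) :
    x ∈ clI v A := by
  have hO' : OI p v C t (max c₀ 0) := hO.mono le_rfl (le_max_left _ _)
  have hCh : hen v C = C := TWM.C.hen_eq hC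
  refine mem_clI.2 fun b => ?_
  obtain ⟨θ, hθ, h1⟩ := hlim (b + max c₀ 0 + 1)
  have hregp : ∀ a ∈ perfC p C, IsAlgebraic (perfC p A) a → a ∈ perfC p A := by
    intro a ha halg
    obtain ⟨m, hm⟩ := (mem_perfC p).1 ha
    refine (mem_perfC p).2 ⟨m, hreg _ hm ?_⟩
    have h2 : perfC p A ≤ TWM.algc A := by
      intro b hb
      obtain ⟨l, hl⟩ := (mem_perfC p).1 hb
      exact mem_algc.2 (IsAlgebraic.of_pow (pow_pos hp.out.pos l)
        (isAlgebraic_algebraMap (⟨_, hl⟩ : A)))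
    exact (isAlgebraic_of_algc (D2P.isAlgebraic_mono h2 halg)).pow _
  obtain ⟨a, ha, h2⟩ := TWC.lim_of_alg p h0 (hen_perfC (v := v) p h0 hA) (perfC_perf p _)
    (hen_perfC (v := v) p h0 hCh) (perfC_mono p hAC) hregp (le_perfC p C hx)
    (D2P.isAlgebraic_mono (le_perfC p A) hθ) h1 (ε := 1) one_pos
  obtain ⟨e, he, h3⟩ := near_of_perfC hpb hAC hO' (le_max_right _ _) hx ha h2
  exact ⟨e, he, h3.mono (by linarith)⟩

/-- **`x` is a limit of algebraic elements.** -/
theorem exists_alg_near {ι : Type} [Fintype ι] {x : Ω} (hC : ∀ c ∈ C, c ∈ clI v (adj E x))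
    {c e : ι → Ω} (hc : ∀ i, c i ∈ C) (he : ∀ i, e i ∈ E) (hx : x = ∑ i, c i ^ p * e i) (b : ℝ) :
    ∃ θ, IsAlgebraic E θ ∧ v.Ge b (x - θ) := by
  classical
  have hp0 : (0 : ℝ) < p := by exact_mod_cast hp.out.pos
  by_contra hcon
  push Not at hcon
  have hfar : ∀ θ, IsAlgebraic E θ → x ≠ θ ∧ v (x - θ) ≤ b := by
    intro θ hθ
    have h1 := hcon θ hθ
    refine ⟨fun h2 => h1 (by rw [h2, sub_self]; exact RVal.Ge.zero), ?_⟩
    by_contra h2
    push Not at h2
    exact h1 fun _ => h2.le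
  -- approximations
  choose h hh hch using fun i => mem_clI.1 (hC (c i) (hc i)) ((b + 1 - v (e i)) / p)
  obtain ⟨D, hD, hD0, f, hf, hfe⟩ := TWC.common_frac hh
  have hg : v.Ge (b + 1) (x - ∑ i, h i ^ p * e i) := by
    rw [hx, ← Finset.sum_sub_distrib]
    refine RVal.Ge.sum _ _ fun i _ => ?_
    rw [← sub_mul, ← sub_pow_char]
    have h1 := ge_pow (hch i) p
    rw [mul_div_cancel₀ _ hp0.ne'] at h1
    exact (h1.mul (RVal.ge_self (v := v) (e i))).mono (by linarith)
  set F : Polynomial Ω := X * D ^ p - ∑ i, Polynomial.C (e i) * f i ^ p with hF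
  have hFE : F ∈ PI E := by
    refine sub_mem (mul_mem X_mem_PI (pow_mem hD p)) (sum_mem fun i _ =>
      mul_mem (C_mem_PI (he i)) (pow_mem (hf i) p))
  have hder : F.derivative = D ^ p := by
    rw [hF, derivative_sub, derivative_mul, derivative_X, one_mul, derivative_sum]
    have h1 : ∀ G : Polynomial Ω, derivative (G ^ p) = 0 := by
      intro G
      rw [derivative_pow, CharP.cast_eq_zero, map_zero, zero_mul, zero_mul]
    rw [h1, mul_zero, add_zero, Finset.sum_eq_zero, sub_zero]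
    intro i _
    rw [derivative_C_mul, h1, mul_zero]
  have hF0 : F ≠ 0 := by
    intro h1
    rw [h1, derivative_zero] at hder
    have h2 := congrArg (Polynomial.eval x) hder.symm
    rw [eval_zero, eval_pow] at h2
    exact hD0 (pow_eq_zero_iff hp.out.ne_zero |>.1 h2)
  have hFx : F.eval x = (x - ∑ i, h i ^ p * e i) * D.eval x ^ p := by
    rw [hF, eval_sub, eval_mul, eval_X, eval_pow, eval_finsetSum, sub_mul, Finset.sum_mul]
    congr 1
    refine Finset.sum_congr rfl fun i _ => ?_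
    rw [eval_mul, eval_C, eval_pow, ← hfe i, mul_pow]
    ring
  have hFx0 : F.eval x ≠ 0 := fun h1 => (hfar x (isAlgebraic_root hFE hF0 h1)).1 rfl
  have h1 := TWM.Roots.taylor_ge hF0 (z := x) (s := b) (fun θ hθ => hfar θ (isAlgebraic_root hFE hF0 hθ)) 1
  rw [taylor_coeff_one, hder, eval_pow] at h1
  have h2 := h1 (pow_ne_zero _ hD0)
  rw [hFx] at h2 hFx0
  have h3 := left_ne_zero_of_mul hFx0
  rw [v.map_mul h3 (pow_ne_zero _ hD0)] at h2
  have h4 := hg h3
  push_cast at h2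
  linarith


section Exch

omit [IsAlgClosed Ω]

omit hp [CharP Ω p] [Field k] [Algebra k Ω] in
/-- As many independent elements. -/
theorem bas_of_card {Q E : Subfield Ω} (hQE : Q ≤ E) {ι κ : Type} [Fintype ι] [Fintype κ]
    {b : ι → Ω} (hb : TW.Bas Q E b) {e : κ → Ω} (he : ∀ i, e i ∈ E) (hi : TW.Ind Q e)
    (hcard : Fintype.card κ = Fintype.card ι) : TW.Bas Q E e := by
  classical
  have hfin := TW.finite_of_spn hQE hb.span
  have hfr := hb.card hQE
  have hLI : LinearIndependent Q (fun i => (⟨e i, he i⟩ : TW.sm Q E hQE)) := by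
    rw [Fintype.linearIndependent_iff]
    intro g hg j
    refine Subtype.ext (hi (fun j => (g j : Ω)) (fun j => (g j).2) ?_ j)
    have h1 := congrArg (Submodule.subtype _) hg
    rw [map_sum, map_zero] at h1
    exact h1
  have hspan := hLI.span_eq_top_of_card_eq_finrank' (hcard.trans hfr)
  refine ⟨he, fun u hu => ?_, hi⟩
  have h1 : (⟨u, hu⟩ : TW.sm Q E hQE) ∈ Submodule.span Q
      (Set.range fun i => (⟨e i, he i⟩ : TW.sm Q E hQE)) := by
    rw [hspan]
    trivial
  obtain ⟨c, hc⟩ := (Submodule.mem_span_range_iff_exists_fun Q).1 h1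
  refine ⟨fun i => (c i : Ω), fun i => (c i).2, ?_⟩
  have h2 := congrArg (Submodule.subtype _) hc
  rw [map_sum] at h2
  exact h2.symm

open Pool.Agent.TW (Qp mem_Qp Qp_le Qp_le' bas_pow)

variable {x y z : Ω}

/-- Exchange, one half. -/
theorem pb_pair (hpb : PBasis p C ![x, y]) (hz : z ∈ C) (hy : y ∉ Qp p C)
    (hzy : z ∉ (IntermediateField.adjoin (Qp p C) {y}).toSubfield) : PBasis p C ![z, y] := by
  have hyC : y ∈ C := hpb.mem 1
  have hb1 := bas_pow hy (mem_Qp.2 ⟨y, hyC, rfl⟩)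
  set Q1 := (IntermediateField.adjoin (Qp p C) {y}).toSubfield with hQ1
  have hQQ1 : Qp p C ≤ Q1 := fun a ha =>
    (IntermediateField.adjoin (Qp p C) {y}).algebraMap_mem (⟨a, ha⟩ : Qp p C)
  have hb2 := bas_pow hzy (hQQ1 (mem_Qp.2 ⟨z, hz, rfl⟩))
  have hind := (hb2.ind.prod hb1.ind hb1.mem hQQ1).reindex
    ((finTwoArrowEquiv (Fin p)).trans (Equiv.prodComm _ _))
  have hmon : ∀ α : Fin 2 → Fin p, (y ^ (α 1 : ℕ) * z ^ (α 0 : ℕ)) = mon ![z, y] α := by
    intro α
    rw [mon, Fin.prod_univ_two, mul_comm]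
    rfl
  refine PBasis.of_bas (fun i => ?_) (bas_of_card Qp_le' hpb.bas (fun α => ?_) ?_ rfl)
  · fin_cases i
    · exact hz
    · exact hyC
  · rw [← hmon]
    exact mul_mem (pow_mem hyC _) (pow_mem hz _)
  · have h1 : (mon (p := p) ![z, y]) = fun α => (y ^ (α 1 : ℕ) * z ^ (α 0 : ℕ)) :=
      funext fun α => (hmon α).symm
    rw [h1]
    exact hind

/-- `y` is not a `p`-th power. -/
theorem pb_snd (hpb : PBasis p C ![x, y]) : y ∉ Qp p C := by
  intro h
  obtain ⟨c, hc, h1⟩ := mem_Qp.1 h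
  have hne : (iY : Fin 2 → Fin p) ≠ ix0 p 2 := by
    intro h2
    have h3 := congrArg Fin.val (congrFun h2 1)
    simp [iY, ix0] at h3
  have h2 := hpb.ind (fun α => (if α = ix0 p 2 then c else 0) - if α = iY then 1 else 0)
    (fun α => by
      refine sub_mem ?_ ?_
      · split_ifs
        · exact hc
        · exact zero_mem _
      · split_ifs
        · exact one_mem _
        · exact zero_mem _) (by
      rw [pcomb_if_sub, pcomb_iY, h1, sub_self]) iY
  simp only [if_neg hne, if_true] at h2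
  rw [zero_sub, neg_eq_zero] at h2
  exact one_ne_zero h2

omit [CharP Ω p] in
theorem sum_fst (a : Fin p → Ω) :
    ∑ α : Fin 2 → Fin p, (if α 1 = ⟨0, hp.out.pos⟩ then a (α 0) else 0) * mon ![x, y] α =
      ∑ i : Fin p, a i * x ^ (i : ℕ) := by
  rw [sum_two]
  refine Finset.sum_congr rfl fun i _ => ?_
  rw [Finset.sum_eq_single (⟨0, hp.out.pos⟩ : Fin p)]
  · rw [mon_two]
    simp
  · intro l _ hl
    have h1 : (![i, l] : Fin 2 → Fin p) 1 = l := rfl
    rw [h1, if_neg hl, zero_mul]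
  · intro h1
    exact absurd (Finset.mem_univ _) h1

omit [CharP Ω p] in
theorem sum_snd (a : Fin p → Ω) :
    ∑ α : Fin 2 → Fin p, (if α 0 = ⟨0, hp.out.pos⟩ then a (α 1) else 0) * mon ![x, y] α =
      ∑ i : Fin p, a i * y ^ (i : ℕ) := by
  rw [sum_two, Finset.sum_comm]
  refine Finset.sum_congr rfl fun i _ => ?_
  rw [Finset.sum_eq_single (⟨0, hp.out.pos⟩ : Fin p)]
  · rw [mon_two]
    simp
  · intro l _ hl
    have h1 : (![l, i] : Fin 2 → Fin p) 0 = l := rfl
    rw [h1, if_neg hl, zero_mul]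
  · intro h1
    exact absurd (Finset.mem_univ _) h1

/-- **Exchange.** -/
theorem pb_exch (hpb : PBasis p C ![x, y]) (hpb' : PBasis p C ![y, x]) (hz : z ∈ C)
    (hzn : ∀ a ∈ C, a ^ p ≠ z) : PBasis p C ![z, y] ∨ PBasis p C ![z, x] := by
  by_cases h1 : z ∉ (IntermediateField.adjoin (Qp p C) {y}).toSubfield
  · exact Or.inl (pb_pair hpb hz (pb_snd hpb) h1)
  by_cases h2 : z ∉ (IntermediateField.adjoin (Qp p C) {x}).toSubfield
  · exact Or.inr (pb_pair hpb' hz (pb_snd hpb') h2)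
  exfalso
  rw [not_not] at h1 h2
  obtain ⟨a, ha, hza⟩ := (bas_pow (pb_snd hpb) (mem_Qp.2 ⟨y, hpb.mem 1, rfl⟩)).span z h1
  obtain ⟨b, hb, hzb⟩ := (bas_pow (pb_snd hpb') (mem_Qp.2 ⟨x, hpb.mem 0, rfl⟩)).span z h2
  set z0 : Fin p := ⟨0, hp.out.pos⟩ with hz0
  have h3 := hpb.ind_Qp (fun α => (if α 0 = z0 then a (α 1) else 0) -
      (if α 1 = z0 then b (α 0) else 0)) (fun α => by
    refine sub_mem ?_ ?_
    · split_ifs
      · exact ha _
      · exact zero_mem _
    · split_ifs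
      · exact hb _
      · exact zero_mem _) (by
    simp only [sub_mul]
    rw [Finset.sum_sub_distrib, sum_snd, sum_fst, ← hza, ← hzb, sub_self])
  have h4 : ∀ j : Fin p, j ≠ z0 → a j = 0 := by
    intro j hj
    have h5 := h3 ![z0, j]
    have h6 : (![z0, j] : Fin 2 → Fin p) 0 = z0 := rfl
    have h7 : (![z0, j] : Fin 2 → Fin p) 1 = j := rfl
    simp only [h6, h7, if_true, if_neg hj, sub_zero] at h5
    exact h5
  have h5 : z = a z0 := by
    rw [hza, Finset.sum_eq_single z0]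
    · simp [hz0]
    · intro j _ hj
      rw [h4 j hj, zero_mul]
    · intro h6
      exact absurd (Finset.mem_univ _) h6
  obtain ⟨c, hc, h6⟩ := mem_Qp.1 (ha z0)
  exact hzn c hc (by rw [h6, h5])

end Exch

section Fin

variable {x y z : Ω} [CharP k p] [IsAlgClosed k]

omit hp [CharP Ω p] [IsAlgClosed Ω] [CharP k p] [IsAlgClosed k] in
/-- Swap. -/
theorem oi_swap (hO : OI p v C ![x, y] c₀) : OI p v C ![y, x] c₀ := by
  have hm : ∀ α : Fin 2 → Fin p, mon (p := p) ![y, x] α = mon ![x, y] ![α 1, α 0] := by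
    intro α
    rw [mon_two, mon, Fin.prod_univ_two, mul_comm]
    rfl
  intro c hc b hb α
  have h1 := hO (fun α => c ![α 1, α 0]) (fun α => hc _) b (by
    have h2 : pcomb ![x, y] (fun α => c ![α 1, α 0]) = pcomb ![y, x] c := by
      rw [pcomb, pcomb, sum_two, sum_two, Finset.sum_comm]
      refine Finset.sum_congr rfl fun i _ => Finset.sum_congr rfl fun l _ => ?_
      rw [hm]
      rfl
    rw [h2]
    exact hb) ![α 1, α 0]
  rw [← hm] at h1
  have h2 : (![(![α 1, α 0] : Fin 2 → Fin p) 1, (![α 1, α 0] : Fin 2 → Fin p) 0] : Fin 2 → Fin p) =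
      α := by
    funext j
    fin_cases j <;> rfl
  simp only [h2] at h1
  exact h1

/-- **`C` is finite over the closure of `k(z, y)`.** -/
theorem exists_fin (h0 : Ctx0 k v) (hc : CompleteV v) (hC : clI v (kr k ![x, y]) = C)
    (hO : OI p v C ![x, y] c₀) (hx0 : x ≠ 0) (hy0 : y ≠ 0) (hz : PBasis p C ![z, y]) :
    (∃ c₁ : ℝ, OI p v C ![z, y] c₁) ∧ ∃ x' ∈ C, IsAlgebraic (clI v (kr k ![z, y])) x' ∧
      C = adj (clI v (kr k ![z, y])) x' := by
  have hcl : Cld v C := by rw [← hC]; exact cld_clI v _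
  have hn0 : ∀ i, (![x, y] : Fin 2 → Ω) i ≠ 0 := by
    intro i
    fin_cases i
    · exact hx0
    · exact hy0
  have hpb := pbasis_of_gen hc hC hO hn0
  have hBD : BD p v C := ⟨2, ![x, y], hpb, c₀, hO.orth⟩
  obtain ⟨c₁, hc₁⟩ := hBD.orth hz
  have hO1 : OI p v C ![z, y] c₁ := OI.of_orth_pb hc₁ hz
  refine ⟨⟨c₁, hO1⟩, ?_⟩
  have hzy0 : ∀ i, (![z, y] : Fin 2 → Ω) i ≠ 0 := by
    intro i
    fin_cases i
    · rintro (h1 : z = 0)
      have h2 := hz.mon_ne_zero ![⟨1, hp.out.one_lt⟩, ⟨0, hp.out.pos⟩]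
      rw [mon_two, h1] at h2
      simp at h2
    · exact hy0
  set B := clI v (kr k ![z, y]) with hB
  have hBC : B ≤ C := by
    rw [hB]
    refine TWC.clI_le' (IntermediateField.adjoin_le_iff.2 ?_) hcl
    rintro _ ⟨i, rfl⟩
    exact hz.mem i
  have hBcl : Cld v B := cld_clI v _
  have hpbB : PBasis p B ![z, y] := pbasis_of_gen hc rfl (hO1.mono hBC le_rfl) hzy0
  set A := algIn C B with hA
  have hBA : B ≤ A := fun a ha => mem_algIn.2 ⟨hBC ha, isAlgebraic_algebraMap (⟨a, ha⟩ : B)⟩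
  have hAC : A ≤ C := fun a ha => (mem_algIn.1 ha).1
  have hAh : hen v A = A := D2P.hen_alg h0 (TWM.C.hen_eq hBcl) hBA fun a ha => (mem_algIn.1 ha).2
  have hreg : ∀ a ∈ C, IsAlgebraic A a → a ∈ A := by
    intro a ha halg
    have h1 : A ≤ TWM.algc B := fun b hb => mem_algc.2 (mem_algIn.1 hb).2
    exact mem_algIn.2 ⟨ha, isAlgebraic_of_algc (D2P.isAlgebraic_mono h1 halg)⟩
  have hsep := sep_of_ind (p := p) hBA (fun a ha => (mem_algIn.1 ha).2) hpbB.span
    fun c hcm h1 α => hO1.ind hzy0 c (fun α => hAC (hcm α)) h1 α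
  have hpbA : PBasis p A ![z, y] := hpbB.of_sep p hBA hsep
  have hxC : x ∈ C := hpb.mem 0
  have hyB : y ∈ B := hpbB.mem 1
  have hxA : x ∈ clI v A := by
    refine mem_clI_of_lim h0 hcl hAC hAh hreg hpbA hO1 hxC fun b => ?_
    obtain ⟨c, hcm, h1⟩ := hz.span x hxC
    refine exists_alg_near (C := C) (fun a ha => ?_) hcm (e := fun α => mon ![z, y] α)
      (fun α => hpbA.mon_mem α) h1 b
    rw [← hC] at ha
    refine clI_mono (IntermediateField.adjoin_le_iff.2 ?_) ha
    rintro _ ⟨i, rfl⟩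
    fin_cases i
    · exact (mem_adj_self A x).1
    · exact (mem_adj_self A x).2 (hBA hyB)
  obtain ⟨δ, hδ⟩ := pert h0 hC hO hn0
  obtain ⟨x', hx'A, hx'⟩ := mem_clI.1 hxA δ
  obtain ⟨hx'C, hx'B⟩ := mem_algIn.1 hx'A
  refine ⟨x', hx'C, hx'B, le_antisymm ?_ (D2P.adj_le hBC hx'C)⟩
  rw [← hδ ![x', y] (fun i => by
    fin_cases i
    · exact hx'C
    · exact hBC hyB) (fun i => by
    fin_cases i
    · exact hx'
    · show v.Ge δ (y - y)
      rw [sub_self]
      exact RVal.Ge.zero)]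
  refine TWC.clI_le' (IntermediateField.adjoin_le_iff.2 ?_) (cld_adj hc hBcl hx'B)
  rintro _ ⟨i, rfl⟩
  fin_cases i
  · exact (mem_adj_self B x').1
  · exact (mem_adj_self B x').2 hyB

end Fin

end Pool.Agent.TWTR
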