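import Pool.Agent.Lib.TWTR.Inh

/-!
# TANK W, LEMMA TRI: density of `W[z]` in `W(z)`

`z` is far from the algebraic elements of `W` and a limit of `W ^ (1 / p ^ n)`, radius zero: the
polynomials in `z` with coefficients in `W` are dense in `W<z>`.
-/

set_option autoImplicit false

open Polynomial

namespace Pool.Agent.TWTR

open Pool.Agent.H15JM (RVal)
open Pool.Agent.LU1 (VPos adj)
open Pool.Agent.D2 (Ctx0)
open Pool.Agent.D2P (hen clI mem_clI)
open Pool.Agent.TWM Pool.Agent.TWM.C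
open Pool.Agent.TWC

universe u

variable {k Ω : Type u} [Field k] [Field Ω] [Algebra k Ω] {v : RVal Ω}
  {A M W F : IntermediateField k Ω} {y z : Ω} {r : ℝ} {c : k}

theorem exists_gap (S : Multiset Ω) (hS : ∀ θ ∈ S, z ≠ θ ∧ v (z - θ) < 0) :
    ∃ ε : ℝ, 0 < ε ∧ ∀ θ ∈ S, v (z - θ) < -ε := by
  induction S using Multiset.induction_on with
  | empty => exact ⟨1, one_pos, fun θ h => absurd h (Multiset.notMem_zero θ)⟩
  | cons a S ih =>
    obtain ⟨ε, hε, h1⟩ := ih fun θ h => hS θ (Multiset.mem_cons_of_mem h)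
    have h2 := (hS a (Multiset.mem_cons_self a S)).2
    refine ⟨min ε (-(v (z - a)) / 2), lt_min hε (by linarith), fun θ h => ?_⟩
    rcases Multiset.mem_cons.1 h with rfl | h
    · linarith [min_le_right ε (-(v (z - θ)) / 2)]
    · linarith [min_le_left ε (-(v (z - a)) / 2), h1 θ h]

theorem prod_near {a : Ω} {ε : ℝ} (S : Multiset Ω) (hS : ∀ θ ∈ S, z ≠ θ ∧ v (z - θ) < -ε)
    (ha : v.Ge (-ε) (z - a)) :
    ((S.map fun θ => X - C θ).prod).eval z ≠ 0 ∧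
      Gt v (v (((S.map fun θ => X - C θ).prod).eval z))
        (((S.map fun θ => X - C θ).prod).eval z - ((S.map fun θ => X - C θ).prod).eval a) := by
  induction S using Multiset.induction_on with
  | empty =>
    rw [Multiset.map_zero, Multiset.prod_zero, eval_one, eval_one, sub_self]
    exact ⟨one_ne_zero, Gt.zero⟩
  | cons b S ih =>
    obtain ⟨h1, h2⟩ := ih fun θ h => hS θ (Multiset.mem_cons_of_mem h)
    obtain ⟨h4, h5⟩ := hS b (Multiset.mem_cons_self b S)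
    rw [Multiset.map_cons, Multiset.prod_cons, eval_mul, eval_mul, eval_sub, eval_sub, eval_X,
      eval_X, eval_C, eval_C]
    set P := ((S.map fun θ => X - C θ).prod) with hP
    have h6 : z - b ≠ 0 := sub_ne_zero.2 h4
    have h7 : Gt v (v (z - b)) (z - a) := fun h => h5.trans_le (ha h)
    have h8 : Gt v (v (z - b)) ((z - b) - (a - b)) := by
      rwa [sub_sub_sub_cancel_right]
    obtain ⟨h9, h10⟩ := Gt.val_eq h6 h8
    refine ⟨mul_ne_zero h6 h1, ?_⟩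
    rw [v.map_mul h6 h1, show (z - b) * P.eval z - (a - b) * P.eval a =
      (z - a) * P.eval z + (P.eval z - P.eval a) * (a - b) by ring]
    refine Gt.add (h7.mul_ge (RVal.ge_self _)) ?_
    have h11 := h2.mul_ge (RVal.ge_self (v := v) (a - b))
    rw [h10] at h11
    rwa [add_comm]

section Dense

variable (p : ℕ) [hp : Fact p.Prime] [CharP Ω p] [IsAlgClosed Ω]

/-- The inverse of `H(z)`. -/
theorem Far0.inv_dense (hF : Far0 v W z)
    (hlim : ∀ ε : ℝ, 0 < ε → ∃ (n : ℕ) (a : Ω), a ^ p ^ n ∈ W ∧ v.Ge (-ε) (z - a))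
    {H : Polynomial Ω} (hH : H ∈ PI W) (hH0 : H.eval z ≠ 0) (b : ℝ) :
    ∃ g ∈ PI W, v.Ge b ((H.eval z)⁻¹ - g.eval z) := by
  have hHne : H ≠ 0 := by
    rintro rfl
    exact hH0 eval_zero
  have hl : H.leadingCoeff ≠ 0 := leadingCoeff_ne_zero.2 hHne
  obtain ⟨ε, hε, h1⟩ := exists_gap (v := v) (z := z) H.roots fun θ hθ =>
    hF θ (isAlgebraic_root hH hHne ((mem_roots hHne).1 hθ))
  obtain ⟨n, a, ha, h2⟩ := hlim ε hε
  have h3 := (prod_near (v := v) (z := z) (a := a) (ε := ε) H.roots (fun θ hθ =>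
    ⟨(hF θ (isAlgebraic_root hH hHne ((mem_roots hHne).1 hθ))).1, h1 θ hθ⟩) h2)
  have h4 : Gt v (v (H.eval z)) (H.eval z - H.eval a) := by
    obtain ⟨h5, h6⟩ := h3
    have h7 := (IsAlgClosed.splits H).eq_prod_roots
    rw [h7, eval_mul, eval_mul, eval_C, eval_C, ← mul_sub, v.map_mul hl h5, add_comm, mul_comm]
    exact h6.mul_ge (RVal.ge_self _)
  obtain ⟨h5, h6⟩ := Gt.val_eq hH0 h4
  set N := p ^ n with hN
  have hNpos : 0 < N := pow_pos hp.out.pos n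
  set x := H.eval z with hx
  set w := H.eval a with hw
  have hwN : w ^ N ∈ W := by
    have haR : a ∈ D2P.rootF p n W := ha
    have hWR : W ≤ D2P.rootF p n W := fun t ht => pow_mem (show t ∈ W from ht) _
    exact eval_mem (PI_mono hWR hH) haR
  have hw0 : w ^ N ≠ 0 := pow_ne_zero N h5
  set t := 1 - x ^ N * (w ^ N)⁻¹ with ht
  have htv : Gt v 0 t := by
    have h7 : t = -((x - w) ^ N * (w ^ N)⁻¹) := by
      rw [ht, sub_pow_char_pow, sub_mul, mul_inv_cancel₀ hw0]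
      ring
    rw [h7]
    refine Gt.neg ?_
    intro h8
    have h9 : (x - w) ^ N ≠ 0 := left_ne_zero_of_mul h8
    have h10 : x - w ≠ 0 := by
      intro h11
      rw [h11, zero_pow hNpos.ne'] at h9
      exact h9 rfl
    rw [v.map_mul h9 (inv_ne_zero hw0), v.map_inv hw0, v.map_pow h10, v.map_pow h5, h6]
    have h11 := h4 h10
    have h12 : (0 : ℝ) < N := by exact_mod_cast hNpos
    nlinarith
  -- the geometric sum
  have hm : ∃ m : ℕ, v.Ge (b + v x) (t ^ m) := by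
    by_cases ht0 : t = 0
    · exact ⟨1, by rw [pow_one, ht0]; exact RVal.Ge.zero⟩
    · have h7 := htv ht0
      obtain ⟨m, hm⟩ := exists_nat_gt ((b + v x) / v t)
      refine ⟨m, fun _ => ?_⟩
      rw [v.map_pow ht0]
      rw [div_lt_iff₀ h7] at hm
      exact hm.le
  obtain ⟨m, hm⟩ := hm
  let T : Polynomial Ω := 1 - H ^ N * Polynomial.C (w ^ N)⁻¹
  have hcW : (w ^ N)⁻¹ ∈ W := inv_mem hwN
  have hT : T ∈ PI W := sub_mem (one_mem _) (mul_mem (pow_mem hH N) (C_mem_PI hcW))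
  have hTz : T.eval z = t := by
    show (1 - H ^ N * Polynomial.C (w ^ N)⁻¹).eval z = _
    rw [eval_sub, eval_one, eval_mul, eval_C, eval_pow, ht]
  refine ⟨H ^ (N - 1) * Polynomial.C (w ^ N)⁻¹ * ∑ i ∈ Finset.range m, T ^ i,
    mul_mem (mul_mem (pow_mem hH _) (C_mem_PI hcW)) (sum_mem fun i _ => pow_mem hT i), ?_⟩
  rw [eval_mul, eval_mul, eval_C, eval_pow, eval_finsetSum]
  simp only [eval_pow, hTz]
  have hNN : x ^ N = x * x ^ (N - 1) := by
    rw [← pow_succ', Nat.sub_add_cancel hNpos]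
  have h8 : x * (x ^ (N - 1) * (w ^ N)⁻¹) = 1 - t := by
    rw [ht, hNN]
    ring
  have h9 : (1 - t) * ∑ i ∈ Finset.range m, t ^ i = 1 - t ^ m := mul_neg_geom_sum t m
  have h10 : x⁻¹ - x ^ (N - 1) * (w ^ N)⁻¹ * ∑ i ∈ Finset.range m, t ^ i = x⁻¹ * t ^ m := by
    have h11 : x * (x⁻¹ - x ^ (N - 1) * (w ^ N)⁻¹ * ∑ i ∈ Finset.range m, t ^ i) =
        x * (x⁻¹ * t ^ m) := by
      rw [mul_sub, mul_inv_cancel₀ hH0, ← mul_assoc x (x ^ (N - 1) * (w ^ N)⁻¹), h8, h9,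
        ← mul_assoc, mul_inv_cancel₀ hH0]
      ring
    exact mul_left_cancel₀ hH0 h11
  rw [h10]
  refine (RVal.Ge.mul (RVal.Ge.of_le (v.map_inv hH0).ge) hm).mono ?_
  linarith

/-- The polynomials in `z` are dense in `W(z)`. -/
theorem Far0.poly_dense (hF : Far0 v W z)
    (hlim : ∀ ε : ℝ, 0 < ε → ∃ (n : ℕ) (a : Ω), a ^ p ^ n ∈ W ∧ v.Ge (-ε) (z - a))
    {w : Ω} (hw : w ∈ cadj v W z) (b : ℝ) : ∃ f ∈ PI W, v.Ge b (w - f.eval z) := by
  obtain ⟨a, ha, h1⟩ := hw b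
  obtain ⟨G, hG, H, hH, h2, h3⟩ := exists_frac' ha
  obtain ⟨g, hg, h4⟩ := hF.inv_dense p hlim hH h2 (b - v (G.eval z))
  refine ⟨G * g, mul_mem hG hg, ?_⟩
  have h5 : a = G.eval z * (H.eval z)⁻¹ := by
    rw [← h3, mul_assoc, mul_inv_cancel₀ h2, mul_one]
  rw [eval_mul, show w - G.eval z * g.eval z =
    (w - a) + G.eval z * ((H.eval z)⁻¹ - g.eval z) by rw [h5]; ring]
  exact h1.add (((RVal.ge_self (v := v) _).mul h4).mono (by linarith))

omit [IsAlgClosed Ω] in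
/-- The limit condition goes down. -/
theorem lim_aP (h0 : Ctx0 k v)
    (hlim : ∀ ε : ℝ, 0 < ε → ∃ (n : ℕ) (a : Ω), a ^ p ^ n ∈ W ∧ v.Ge (-ε) (z - a)) (c : k) :
    ∀ ε : ℝ, 0 < ε → ∃ (n : ℕ) (a : Ω), a ^ p ^ n ∈ W ∧ v.Ge (-ε) (aP p c z - a) := by
  intro ε hε
  have hp0 : (0 : ℝ) < p := by exact_mod_cast hp.out.pos
  obtain ⟨n, a, ha, h1⟩ := hlim (ε / p) (div_pos hε hp0)
  refine ⟨n, aP p c a, ?_, ?_⟩
  · have haR : a ∈ D2P.rootF p n W := ha
    have h2 : aP p c a ∈ D2P.rootF p n W :=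
      sub_mem (pow_mem haR p) (mul_mem ((D2P.rootF p n W).algebraMap_mem c) haR)
    exact h2
  · rw [← aP_sub]
    refine (aP_ge p h0 (by
      have := div_pos hε hp0
      linarith) h1).mono ?_
    rw [mul_neg, mul_div_cancel₀ _ hp0.ne']

variable [CharP k p] [IsAlgClosed k]

/-- `ξ` in the kernel, not strict: `z` is at distance zero of the polynomials in `aP p c z`. -/
theorem Far0.cl_of_not_str (h0 : Ctx0 k v) (hF : Far0 v W z)
    (hlim : ∀ ε : ℝ, 0 < ε → ∃ (n : ℕ) (a : Ω), a ^ p ^ n ∈ W ∧ v.Ge (-ε) (z - a))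
    (hc : c ≠ 0) {ξ : k} (hξ : Pool.Agent.TWTR.aP p c (algebraMap k Ω ξ) = 0)
    (h : ¬ StrP v W z (algebraMap k Ω ξ)) {ε : ℝ} (hε : 0 < ε) :
    ∃ f ∈ PI W, v.Ge (-ε) (z - f.eval (Pool.Agent.TWTR.aP p c z)) := by
  obtain ⟨a, ha, h1⟩ := hF.near_of_not_str p h0 hc hξ h hε
  obtain ⟨f, hf, h2⟩ := (hF.aP p c).poly_dense p (lim_aP p h0 hlim c)
    (le_clI _ ha : a ∈ cadj v W (Pool.Agent.TWTR.aP p c z)) (-ε)
  refine ⟨f, hf, ?_⟩
  rw [show z - f.eval (Pool.Agent.TWTR.aP p c z) =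
    (z - a) + (a - f.eval (Pool.Agent.TWTR.aP p c z)) by ring]
  exact (show v.Ge (-ε) (z - a) from fun _ => h1.le).add h2

end Dense

end Pool.Agent.TWTR
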