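import Pool.Agent.Lib.TWC.JD
import Pool.Agent.Lib.TWM.S3a
import Pool.Agent.Lib.TWTR.AStep

/-!
# TANK W, row R, LEMMA TRI, section 2: strict jets go up one step

`W` is a field, `y' = A(y)`, `A = X ^ p - c X`, `c ∈ k`, and `y` has distance `≤ 0` from the elements
which are algebraic over `W`.

* `root_str`: `c = 0`: if the jets of `y ^ p` over `W` are strict, then the jets of `y` are strict;
* `StP v y L r η f`: `f(y)` has value `≥ r`, the jets of orders `1 ≤ l ≤ L` have value `≥ r + η`;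
* `comp_str`: the elements of `W[y']`; `U_far`, `U_near`: the numerator of `y - h`, `h ∈ W(y')`;
* `step_str`: the jets of `y` are strict.
-/

set_option autoImplicit false

open Polynomial

namespace Pool.Agent.TWTR

open Pool.Agent.H15JM (RVal)
open Pool.Agent.LU1 (VPos adj)
open Pool.Agent.D2 (Ctx0)
open Pool.Agent.D2P (hen clI mem_clI)
open Pool.Agent.TWM (PI Gt GB C_mem_PI X_mem_PI ge_pow)
open Pool.Agent.TWC (Sd jet_ge jet_ne jet_mul jet_pow_char taylor_expand)

universe u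

variable {k Ω : Type u} [Field k] [Field Ω] [Algebra k Ω] {v : RVal Ω}
  {W : IntermediateField k Ω} {y : Ω}

/-! ### The radical step -/

/-- If the jet of order `l` of `y ^ p` is strict, then the jet of order `l` of `y` is strict. -/
theorem root_str {p : ℕ} [hp : Fact p.Prime] [CharP Ω p] {l : ℕ} {b : ℝ}
    (h : Sd v W (y ^ p) l (p * b)) : Sd v W y l b := by
  have hp0 : (0 : ℝ) < p := by exact_mod_cast hp.out.pos
  obtain ⟨η, hη, h1⟩ := h
  refine ⟨η / p, div_pos hη hp0, fun f hf r hr => ?_⟩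
  have hg : f.map (frobenius Ω p) ∈ PI W := fun i => by
    rw [coeff_map, frobenius_def]
    exact pow_mem (hf i) p
  have hev : (f.map (frobenius Ω p)).eval (y ^ p) = f.eval y ^ p := by
    rw [← expand_eval, ← map_expand, Polynomial.map_frobenius_expand, eval_pow]
  have h2 := h1 _ hg (p * r) (by rw [hev]; exact ge_pow hr p)
  have h3 : (taylor (y ^ p) (f.map (frobenius Ω p))).coeff l = (taylor y f).coeff l ^ p := by
    have h4 := jet_pow_char (z := y) p f (l * p)
    rw [if_pos (dvd_mul_left p l), Nat.mul_div_cancel _ hp.out.pos] at h4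
    rw [← h4, ← Polynomial.map_frobenius_expand, map_expand, taylor_expand p, coeff_expand_mul hp.out.pos]
  rw [h3] at h2
  intro h5
  have h6 := h2 (pow_ne_zero p h5)
  rw [v.map_pow h5] at h6
  have h7 : p * (r - b + η / p) = p * r - p * b + η := by
    field_simp
  nlinarith

/-! ### Strict jets up to the order `L` -/

/-- `f(y)` has value `≥ r`, the jets of orders `1 ≤ l ≤ L` have value `≥ r + η`. -/
def StP (v : RVal Ω) (y : Ω) (L : ℕ) (r η : ℝ) (f : Polynomial Ω) : Prop :=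
  v.Ge r (f.eval y) ∧ ∀ l, 1 ≤ l → l ≤ L → v.Ge (r + η) ((taylor y f).coeff l)

variable {L : ℕ} {r r' η η' : ℝ} {f g P U : Polynomial Ω}

theorem StP.mono (h : StP v y L r η f) (hr : r' ≤ r) (hη : η' ≤ η) : StP v y L r' η' f :=
  ⟨h.1.mono hr, fun l h1 h2 => (h.2 l h1 h2).mono (by linarith)⟩

theorem StP.ord {L' : ℕ} (h : StP v y L r η f) (hL : L' ≤ L) : StP v y L' r η f :=
  ⟨h.1, fun l h1 h2 => h.2 l h1 (h2.trans hL)⟩

theorem StP.add (hf : StP v y L r η f) (hg : StP v y L r η g) : StP v y L r η (f + g) :=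
  ⟨by rw [eval_add]; exact hf.1.add hg.1, fun l h1 h2 => by
    rw [map_add, coeff_add]
    exact (hf.2 l h1 h2).add (hg.2 l h1 h2)⟩

theorem StP.sum {ι : Type*} (S : Finset ι) (F : ι → Polynomial Ω)
    (hF : ∀ i ∈ S, StP v y L r η (F i)) : StP v y L r η (∑ i ∈ S, F i) :=
  ⟨by rw [eval_finsetSum]; exact RVal.Ge.sum _ _ fun i hi => (hF i hi).1, fun l h1 h2 => by
    rw [map_sum, finsetSum_coeff]
    exact RVal.Ge.sum _ _ fun i hi => (hF i hi).2 l h1 h2⟩

theorem StP.mul (hη : 0 ≤ η) (hf : StP v y L r η f) (hg : StP v y L r' η g) :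
    StP v y L (r + r') η (f * g) := by
  refine ⟨by rw [eval_mul]; exact hf.1.mul hg.1, fun l h1 h2 => ?_⟩
  rw [jet_mul]
  refine RVal.Ge.sum _ _ fun x hx => ?_
  have hx' : x.1 + x.2 = l := by simpa using hx
  rcases Nat.eq_zero_or_pos x.1 with h3 | h3
  · rw [h3, taylor_coeff_zero]
    refine (hf.1.mul (hg.2 x.2 (by omega) (by omega))).mono ?_
    linarith
  · rcases Nat.eq_zero_or_pos x.2 with h4 | h4
    · rw [h4, taylor_coeff_zero]
      refine ((hf.2 x.1 h3 (by omega)).mul hg.1).mono ?_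
      linarith
    · refine ((hf.2 x.1 h3 (by omega)).mul (hg.2 x.2 h4 (by omega))).mono ?_
      linarith

theorem StP.one : StP v y L 0 η (1 : Polynomial Ω) := by
  refine ⟨by rw [eval_one]; exact RVal.Ge.of_le (by rw [v.map_one]), fun l h1 _ => ?_⟩
  rw [taylor_one, C_1, coeff_one, if_neg (by omega)]
  exact RVal.Ge.zero

theorem StP.pow (hη : 0 ≤ η) (hf : StP v y L r η f) (n : ℕ) : StP v y L (n * r) η (f ^ n) := by
  induction n with
  | zero =>
    rw [pow_zero, Nat.cast_zero, zero_mul]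
    exact StP.one
  | succ n ih =>
    rw [pow_succ]
    exact (StP.mul hη ih hf).mono (by push_cast; linarith) le_rfl

/-- Division by a strict polynomial. -/
theorem div_str (hP : StP v y L (v (P.eval y)) η P) (hP0 : P.eval y ≠ 0) (hη' : η' ≤ η) {l : ℕ}
    (hl : l ≤ L) (hf : ∀ i, i < l → v.Ge r ((taylor y f).coeff i))
    (h : v.Ge (r + v (P.eval y) + η') ((taylor y (f * P)).coeff l)) :
    v.Ge (r + η') ((taylor y f).coeff l) := by
  classical
  have h1 : v.Ge (r + v (P.eval y) + η') ((taylor y f).coeff l * P.eval y) := by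
    have e1 : (taylor y f).coeff l * P.eval y = (taylor y (f * P)).coeff l -
        ∑ i ∈ Finset.range l, (taylor y f).coeff i * (taylor y P).coeff (l - i) := by
      rw [jet_mul, Finset.Nat.sum_antidiagonal_eq_sum_range_succ
        (fun i j => (taylor y f).coeff i * (taylor y P).coeff j), Finset.sum_range_succ,
        Nat.sub_self, taylor_coeff_zero]
      ring
    rw [e1]
    refine h.sub (RVal.Ge.sum _ _ fun i hi => ?_)
    rw [Finset.mem_range] at hi
    refine ((hf i hi).mul (hP.2 (l - i) (by omega) (by omega))).mono ?_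
    linarith
  intro h2
  have h3 := h1 (mul_ne_zero h2 hP0)
  rw [v.map_mul h2 hP0] at h3
  linarith

/-! ### The polynomials in `A(y)` -/

section AX

variable {p : ℕ} {c : k}

theorem APol_gb (h0 : Ctx0 k v) : GB v 0 0 (APol p c) := by
  have h1 : GB v 0 0 (X : Polynomial Ω) := GB.X
  have h2 : GB v 0 0 (X ^ p : Polynomial Ω) := (h1.pow p).mono (by simp)
  exact h2.sub ((GB.C_mul (h0.ge c) h1).mono (by simp))

theorem APol_pow_coeff [hp : Fact p.Prime] {l m : ℕ} (h : l < m) :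
    ((APol p c : Polynomial Ω) ^ m).coeff l = 0 := by
  have e1 : APol p c = X * (X ^ (p - 1) - Polynomial.C (algebraMap k Ω c)) := by
    rw [APol, mul_sub, ← pow_succ', Nat.sub_add_cancel hp.out.one_lt.le, mul_comm X (Polynomial.C _)]
  rw [e1, mul_pow, coeff_X_pow_mul', if_neg (by omega)]

/-- Change of the centre. -/
theorem taylor_comp_APol [hp : Fact p.Prime] [CharP Ω p] (g : Polynomial Ω) :
    taylor y (g.comp (APol p c)) = (taylor (aP p c y) g).comp (APol p c) := by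
  have e1 : (APol p c).comp (X + Polynomial.C y) = APol p c + Polynomial.C (aP p c y) := by
    rw [APol, aP, sub_comp, pow_comp, X_comp, mul_comp, C_comp, X_comp, add_pow_char, C_sub, C_pow,
      C_mul]
    ring
  rw [taylor_apply, comp_assoc, e1, taylor_apply, comp_assoc, add_comp, X_comp, C_comp]

/-- The polynomials in `A(y)` are strict. -/
theorem comp_str [hp : Fact p.Prime] [CharP Ω p] (h0 : Ctx0 k v) (hg : v.Ge r (g.eval (aP p c y)))
    (h : ∀ l, 1 ≤ l → l ≤ L → v.Ge (r + η) ((taylor (aP p c y) g).coeff l)) :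
    StP v y L r η (g.comp (APol p c)) := by
  classical
  refine ⟨by rwa [eval_comp, eval_APol], fun l h1 h2 => ?_⟩
  rw [taylor_comp_APol, comp, eval₂_eq_sum_range, finsetSum_coeff]
  refine RVal.Ge.sum _ _ fun m _ => ?_
  rw [coeff_C_mul]
  rcases Nat.eq_zero_or_pos m with h3 | h3
  · rw [h3, pow_zero, coeff_one, if_neg (by omega), mul_zero]
    exact RVal.Ge.zero
  · rcases lt_or_ge l m with h4 | h4
    · rw [APol_pow_coeff h4, mul_zero]
      exact RVal.Ge.zero
    · have h5 := ((APol_gb (p := p) (c := c) h0).pow m) l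
      exact ((h m h3 (h4.trans h2)).mul h5).mono (by simp)

/-! ### The numerator of a near-optimal centre -/

variable [hp : Fact p.Prime] [CharP Ω p] {B : Polynomial Ω} {u ϖ d γ : ℝ}

theorem U_far (h0 : Ctx0 k v) (hd : u + d ≤ ϖ)
    (hB : ∀ l, 1 ≤ l → l ≤ p * L → v.Ge (p * u + η) ((taylor y B).coeff l))
    (hBU : U ^ p = B + Polynomial.C (algebraMap k Ω c) * (U * P ^ (p - 1)))
    (hUP : ∀ l, v.Ge (u + (p - 1) * ϖ) ((taylor y (U * P ^ (p - 1))).coeff l)) {l : ℕ}
    (h1 : 1 ≤ l) (h2 : l ≤ L) : v.Ge (u + min η ((p - 1) * d) / p) ((taylor y U).coeff l) := by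
  have hp0 : (0 : ℝ) < p := by exact_mod_cast hp.out.pos
  have hp1 : (1 : ℝ) ≤ p := by exact_mod_cast hp.out.one_lt.le
  have h3 := jet_pow_char (z := y) p U (l * p)
  rw [if_pos (dvd_mul_left p l), Nat.mul_div_cancel _ hp.out.pos, hBU, map_add, coeff_add,
    taylor_mul, taylor_C, coeff_C_mul] at h3
  have h4 : v.Ge (p * u + min η ((p - 1) * d)) ((taylor y U).coeff l ^ p) := by
    rw [← h3]
    refine ((hB (l * p) (Nat.mul_pos h1 hp.out.pos) (by
      rw [mul_comm p L]
      exact Nat.mul_le_mul_right p h2)).mono ?_).add (((h0.ge c).mul (hUP (l * p))).mono ?_)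
    · linarith [min_le_left η ((p - 1) * d)]
    · have h5 := min_le_right η ((p - 1) * d)
      nlinarith [mul_nonneg (sub_nonneg.2 hp1) (sub_nonneg.2 hd)]
  intro h5
  have h6 := h4 (pow_ne_zero p h5)
  rw [v.map_pow h5] at h6
  have h7 : p * (u + min η ((p - 1) * d) / p) = p * u + min η ((p - 1) * d) := by
    field_simp
  nlinarith

theorem U_near (h0 : Ctx0 k v) (hc : c ≠ 0) (hη : 0 ≤ η) (hγ : (p - 1) * γ ≤ η / 2)
    (hu : v (P.eval y) - γ ≤ u)
    (hB : ∀ l, 1 ≤ l → l ≤ L → v.Ge (p * u + η) ((taylor y B).coeff l))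
    (hBU : U ^ p = B + Polynomial.C (algebraMap k Ω c) * (U * P ^ (p - 1)))
    (hU : ∀ l, v.Ge u ((taylor y U).coeff l)) (hP : StP v y L (v (P.eval y)) η P)
    (hP0 : P.eval y ≠ 0) {l : ℕ} (h1 : 1 ≤ l) (h2 : l ≤ L) :
    v.Ge (u + η / 2) ((taylor y U).coeff l) := by
  have hp2 : (2 : ℝ) ≤ p := by exact_mod_cast hp.out.two_le
  have hcv := h0.triv c hc
  have hc0 : algebraMap k Ω c ≠ 0 := (map_ne_zero_iff _ (algebraMap k Ω).injective).2 hc
  have hPp : StP v y L (v ((P ^ (p - 1)).eval y)) η (P ^ (p - 1)) := by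
    rw [eval_pow, v.map_pow hP0]
    exact StP.pow hη hP (p - 1)
  have hPp0 : (P ^ (p - 1)).eval y ≠ 0 := by
    rw [eval_pow]
    exact pow_ne_zero _ hP0
  have hPv : v ((P ^ (p - 1)).eval y) = (p - 1) * v (P.eval y) := by
    rw [eval_pow, v.map_pow hP0, Nat.cast_sub hp.out.one_lt.le, Nat.cast_one]
  induction l using Nat.strong_induction_on with
  | _ l ih =>
    refine div_str hPp hPp0 (by linarith : η / 2 ≤ η) h2 (fun i _ => hU i) ?_
    have h3 : v.Ge (p * u + η) ((taylor y (U ^ p)).coeff l) := by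
      rw [jet_pow_char (z := y) p U l]
      split_ifs with hd
      · have h4 : 1 ≤ l / p := Nat.div_pos (Nat.le_of_dvd (by omega) hd) hp.out.pos
        have h5 : l / p < l := Nat.div_lt_self (by omega) hp.out.one_lt
        refine (ge_pow (ih (l / p) h5 h4 (h5.le.trans h2)) p).mono ?_
        nlinarith
      · exact RVal.Ge.zero
    have h4 : v.Ge (p * u + η) (algebraMap k Ω c * (taylor y (U * P ^ (p - 1))).coeff l) := by
      have e1 : algebraMap k Ω c * (taylor y (U * P ^ (p - 1))).coeff l =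
          (taylor y (U ^ p)).coeff l - (taylor y B).coeff l := by
        rw [hBU, map_add, coeff_add, taylor_mul y (Polynomial.C _), taylor_C, coeff_C_mul]
        ring
      rw [e1]
      exact h3.sub (hB l h1 h2)
    intro h5
    have h6 := h4 (mul_ne_zero hc0 h5)
    rw [v.map_mul hc0 h5, hcv] at h6
    rw [hPv]
    nlinarith

end AX

/-! ### The step -/

section Step

variable {p : ℕ} [hp : Fact p.Prime] [CharP Ω p] [IsAlgClosed Ω] {c : k}

/-- Strict jets go up one step, from near-optimal centres. -/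
theorem step_str_core (h0 : Ctx0 k v) (hc : c ≠ 0)
    (hfar : ∀ θ : Ω, IsAlgebraic W θ → y ≠ θ ∧ v (y - θ) ≤ 0)
    (hs : ∀ l, 1 ≤ l → Sd v W (aP p c y) l 0) {ρ : ℝ} (hρ : ρ ≤ 0)
    (hdec : ∀ γ : ℝ, 0 < γ → ∃ G ∈ PI W, ∃ H ∈ PI W, H.eval (aP p c y) ≠ 0 ∧
      (X * H.comp (APol p c) - G.comp (APol p c)).eval y ≠ 0 ∧
      ρ - γ ≤ v ((X * H.comp (APol p c) - G.comp (APol p c)).eval y) -
        v (H.eval (aP p c y)) ∧
      v ((X * H.comp (APol p c) - G.comp (APol p c)).eval y) -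
        v (H.eval (aP p c y)) ≤ ρ ∧
      ∀ f ∈ PI W, ∃ b : ℕ → Polynomial Ω, (∀ j, b j ∈ PI W) ∧
        f * H.comp (APol p c) ^ (p - 1) = ∑ j ∈ Finset.range p, (b j).comp (APol p c) *
          (X * H.comp (APol p c) - G.comp (APol p c)) ^ j ∧
        ∀ r : ℝ, v.Ge r ((f * H.comp (APol p c) ^ (p - 1)).eval y) → ∀ j < p,
          v.Ge (r - p * γ) (((b j).comp (APol p c) *
            (X * H.comp (APol p c) - G.comp (APol p c)) ^ j).eval y)) {L : ℕ} (hL : 1 ≤ L) :
    Sd v W y L 0 := by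
  classical
  have hp0 : (0 : ℝ) < p := by exact_mod_cast hp.out.pos
  have hp1 : (1 : ℝ) ≤ p := by exact_mod_cast hp.out.one_lt.le
  have hp2 : (2 : ℝ) ≤ p := by exact_mod_cast hp.out.two_le
  have hfar' : ∀ θ : Ω, IsAlgebraic W θ → y ≠ θ ∧ v (y - θ) ≤ 0 := hfar
  have hjet : ∀ {f : Polynomial Ω}, f ∈ PI W → ∀ {r : ℝ}, v.Ge r (f.eval y) → ∀ l,
      v.Ge r ((taylor y f).coeff l) := fun hf r hr l =>
    (jet_ge hfar' hf hr l).mono (by simp)
  -- the common margin
  obtain ⟨η, hη, hun⟩ := TWC.Sd.unif (q := p * L + 1) (s := 0) (v := v) (F := W)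
    (z := aP p c y) (fun l h1 _ => by
      have := hs l h1
      rwa [mul_zero])
  have hunif : ∀ {g : Polynomial Ω}, g ∈ PI W → ∀ {r : ℝ}, v.Ge r (g.eval (aP p c y)) →
      ∀ l, 1 ≤ l → l ≤ p * L → v.Ge (r + η) ((taylor (aP p c y) g).coeff l) :=
    fun hg r hr l h1 h2 => (hun l h1 (Nat.lt_succ_of_le h2) _ hg r hr).mono (by simp)
  have hLp : L ≤ p * L := Nat.le_mul_of_pos_left L hp.out.pos
  -- the margin of `U`
  obtain ⟨η', hη'0, hη'η, hη'⟩ : ∃ η' : ℝ, 0 < η' ∧ η' ≤ η ∧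
      ((ρ < 0 ∧ η' = min η ((p - 1) * (-ρ)) / p) ∨ (ρ = 0 ∧ η' = η / 2)) := by
    rcases hρ.lt_or_eq with h1 | h1
    · refine ⟨min η ((p - 1) * (-ρ)) / p, div_pos (lt_min hη (mul_pos (by linarith)
        (by linarith))) hp0, ?_, Or.inl ⟨h1, rfl⟩⟩
      rw [div_le_iff₀ hp0]
      have := min_le_left η ((p - 1) * (-ρ))
      nlinarith
    · exact ⟨η / 2, by linarith, by linarith, Or.inr ⟨h1, rfl⟩⟩
  obtain ⟨γ, hγ⟩ : ∃ γ : ℝ, γ = η' / (2 * p) := ⟨_, rfl⟩
  have hpγ : p * γ = η' / 2 := by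
    rw [hγ]
    field_simp
  have hγ0 : 0 < γ := by
    rw [hγ]
    positivity
  obtain ⟨G, hG, H, hH, hH0, hU0, hlo, hhi, hf⟩ := hdec γ hγ0
  set A : Polynomial Ω := APol p c with hA
  set P := H.comp A with hP
  set Q := G.comp A with hQ
  set U := X * P - Q with hU
  have hPe : P.eval y = H.eval (aP p c y) := by rw [hP, eval_comp, hA, eval_APol]
  have hPW : P ∈ PI W := comp_mem_PI hH (APol_mem p c)
  have hUW : U ∈ PI W := sub_mem (mul_mem X_mem_PI hPW) (comp_mem_PI hG (APol_mem p c))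
  set u := v (U.eval y) with hu
  set ϖ := v (P.eval y) with hϖ
  rw [← hPe] at hH0 hlo hhi
  have huϖ : u ≤ ϖ := by linarith
  have hPs : StP v y (p * L) ϖ η P :=
    comp_str h0 (by rw [← hPe]; exact RVal.ge_self _)
      (hunif hH (by rw [← hPe]; exact RVal.ge_self _))
  -- the norm of `U / P`
  obtain ⟨B, hB⟩ : ∃ B : Polynomial Ω, B = X * H ^ p - G ^ p +
    Polynomial.C (algebraMap k Ω c) * (G * H ^ (p - 1)) := ⟨_, rfl⟩
  have hBW : B ∈ PI W := by
    rw [hB]
    exact add_mem (sub_mem (mul_mem X_mem_PI (pow_mem hH p)) (pow_mem hG p))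
      (mul_mem (C_mem_PI (W.algebraMap_mem c)) (mul_mem hG (pow_mem hH _)))
  have hPp : P ^ p = P * P ^ (p - 1) := by
    rw [← pow_succ', Nat.sub_add_cancel hp.out.one_lt.le]
  have hBA : U ^ p = B.comp A + Polynomial.C (algebraMap k Ω c) * (U * P ^ (p - 1)) := by
    rw [hB, add_comp, sub_comp, mul_comp, X_comp, pow_comp, pow_comp, mul_comp, C_comp, mul_comp,
      pow_comp, ← hP, ← hQ, hU, sub_pow_char, mul_pow]
    nth_rw 1 [hA]
    rw [APol, hPp]
    ring
  have hBe : B.eval (aP p c y) = U.eval y ^ p -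
      algebraMap k Ω c * (U.eval y * P.eval y ^ (p - 1)) := by
    have h1 := congrArg (eval y) hBA
    rw [eval_pow, eval_add, eval_comp, hA, eval_APol, eval_mul, eval_C, eval_mul, eval_pow] at h1
    rw [h1]
    ring
  have hp1c : ((p - 1 : ℕ) : ℝ) = p - 1 := by
    rw [Nat.cast_sub hp.out.one_lt.le, Nat.cast_one]
  have hUPe : v.Ge (u + (p - 1) * ϖ) ((U * P ^ (p - 1)).eval y) := by
    rw [eval_mul, eval_pow]
    refine ((RVal.ge_self _).mul (ge_pow (RVal.ge_self _) (p - 1))).mono ?_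
    rw [hp1c]
  have hBv : v.Ge (p * u) (B.eval (aP p c y)) := by
    have hUPe' : v.Ge (u + (p - 1) * ϖ) (U.eval y * P.eval y ^ (p - 1)) := by
      rw [← eval_pow, ← eval_mul]
      exact hUPe
    rw [hBe]
    refine (ge_pow (RVal.ge_self _) p).sub (((h0.ge c).mul hUPe').mono ?_)
    nlinarith
  have hBs : ∀ l, 1 ≤ l → l ≤ p * L → v.Ge (p * u + η) ((taylor y (B.comp A)).coeff l) :=
    (comp_str h0 hBv (hunif hBW hBv)).2
  -- `U` is strict
  have hUs : StP v y L u η' U := by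
    refine ⟨RVal.ge_self _, fun l h1 h2 => ?_⟩
    rcases hη' with ⟨h3, h4⟩ | ⟨h3, h4⟩
    · rw [h4]
      exact U_far h0 (ϖ := ϖ) (by linarith) hBs hBA
        (hjet (mul_mem hUW (pow_mem hPW _)) hUPe) h1 h2
    · rw [h4]
      refine U_near h0 hc hη.le (γ := γ) ?_ ?_ (fun l h1 h2 => hBs l h1 (h2.trans hLp)) hBA
        (hjet hUW (RVal.ge_self _)) (hPs.ord hLp) hH0 h1 h2
      · nlinarith
      · linarith
  -- the step
  refine ⟨η' / 2, by linarith, fun f hfW r hr => ?_⟩
  rw [sub_zero]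
  obtain ⟨b, hbW, hbf, hbr⟩ := hf f hfW
  have hPp' : StP v y L (v ((P ^ (p - 1)).eval y)) η (P ^ (p - 1)) := by
    rw [eval_pow, v.map_pow hH0]
    exact StP.pow hη.le (hPs.ord hLp) (p - 1)
  have hPp0 : (P ^ (p - 1)).eval y ≠ 0 := by
    rw [eval_pow]
    exact pow_ne_zero _ hH0
  refine div_str hPp' hPp0 (by linarith) le_rfl (fun i _ => hjet hfW hr i) ?_
  have hr' : v.Ge (r + v ((P ^ (p - 1)).eval y)) ((f * P ^ (p - 1)).eval y) := by
    rw [eval_mul]
    exact hr.mul (RVal.ge_self _)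
  have hsum : StP v y L (r + v ((P ^ (p - 1)).eval y) - p * γ) η' (f * P ^ (p - 1)) := by
    rw [hbf]
    refine StP.sum _ _ fun j hj => ?_
    rw [Finset.mem_range] at hj
    have hTW : (b j).comp A * U ^ j ∈ PI W := mul_mem (comp_mem_PI (hbW j) (APol_mem p c)) (pow_mem hUW j)
    by_cases hT : ((b j).comp A * U ^ j).eval y = 0
    · have hT0 : (b j).comp A * U ^ j = 0 := by
        by_contra h1
        exact jet_ne hfar' hTW h1 hT
      rw [hT0]
      refine ⟨by rw [eval_zero]; exact RVal.Ge.zero, fun l _ _ => ?_⟩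
      rw [map_zero, coeff_zero]
      exact RVal.Ge.zero
    · have h1 := hbr _ hr' j hj hT
      rw [eval_mul] at hT
      have hb0 := left_ne_zero_of_mul hT
      have e2 : v (((b j).comp A * U ^ j).eval y) = v (((b j).comp A).eval y) + j * u := by
        rw [eval_mul, v.map_mul hb0 (right_ne_zero_of_mul hT), eval_pow, v.map_pow hU0]
      have hbe : ((b j).comp A).eval y = (b j).eval (aP p c y) := by
        rw [eval_comp, hA, eval_APol]
      have h2 : StP v y L (v (((b j).comp A).eval y)) η ((b j).comp A) :=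
        (comp_str h0 (by rw [← hbe]; exact RVal.ge_self _)
          (hunif (hbW j) (by rw [← hbe]; exact RVal.ge_self _))).ord hLp
      refine (StP.mul hη'0.le (h2.mono le_rfl hη'η) (StP.pow hη'0.le hUs j)).mono ?_ le_rfl
      rwa [e2] at h1
  refine (hsum.2 L hL le_rfl).mono ?_
  linarith

/-- **Strict jets go up one step.** -/
theorem step_str [CharP k p] [IsAlgClosed k] (h0 : Ctx0 k v) (h : Far0 v W y) (c : k)
    (hs : ∀ l, 1 ≤ l → Sd v W (aP p c y) l 0) {L : ℕ} (hL : 1 ≤ L) : Sd v W y L 0 := by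
  classical
  by_cases hc : c = 0
  · refine root_str (p := p) ?_
    have h1 := hs L hL
    rw [hc, aP, map_zero, zero_mul, sub_zero] at h1
    rwa [mul_zero]
  obtain ⟨σ, hst, hle, hlim⟩ := h.exists_astep p h0 hc
  refine step_str_core h0 hc (fun θ hθ => ⟨(h θ hθ).1, (h θ hθ).2.le⟩) hs hst.le
    (fun γ hγ => ?_) hL
  obtain ⟨a, ha, h1⟩ := hlim γ hγ
  obtain ⟨G, hG, H, hH, hH0, hGH⟩ := exists_frac' ha
  have hya : y - a ≠ 0 := sub_ne_zero.2 (h.dist_adj p h0 hc ha).1
  have hUe : (X * H.comp (APol p c) - G.comp (APol p c)).eval y =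
      (y - a) * H.eval (aP p c y) := by
    rw [eval_sub, eval_mul, eval_X, eval_comp, eval_comp, eval_APol, sub_mul, hGH]
  have hUv : v ((X * H.comp (APol p c) - G.comp (APol p c)).eval y) -
      v (H.eval (aP p c y)) = v (y - a) := by
    rw [hUe, v.map_mul hya hH0]
    ring
  have hao := AO.stepA p h0 hst (h := a) (LUC.Cl.subset ha) hγ.le (fun _ => h1.le)
  refine ⟨G, hG, H, hH, hH0, by rw [hUe]; exact mul_ne_zero hya hH0, by rw [hUv]; exact h1.le,
    by rw [hUv]; exact hle a ha, fun f hf => ?_⟩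
  obtain ⟨b, hb, hfb⟩ := exists_digA_frac p c hf hG hH
  refine ⟨b, hb, hfb, fun r hr j hj => ?_⟩
  have h2 := hao (fun i => (b i).eval (aP p c y) * H.eval (aP p c y) ^ (i : ℕ)) (fun i => by
    have hm : ∀ g ∈ PI W, g.eval (aP p c y) ∈ TWM.cadj v W (aP p c y) := fun g hg =>
      TWM.eval_mem (TWM.PI_mono (TWM.le_cadj v W _) hg) (TWM.self_mem_cadj v W _)
    exact mul_mem (hm _ (hb i)) (pow_mem (hm _ hH) _)) r (by
    have h3 : ∑ i : Fin p, (b i).eval (aP p c y) * H.eval (aP p c y) ^ (i : ℕ) *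
        (y - a) ^ (i : ℕ) = (f * H.comp (APol p c) ^ (p - 1)).eval y := by
      rw [hfb, eval_finsetSum, Finset.sum_range]
      refine Finset.sum_congr rfl fun i _ => ?_
      rw [eval_mul, eval_comp, eval_pow, hUe, eval_APol, mul_pow]
      ring
    rw [h3]
    exact hr) ⟨j, hj⟩
  rw [eval_mul, eval_comp, eval_pow, hUe, eval_APol, mul_pow,
    show (b j).eval (aP p c y) * ((y - a) ^ j * H.eval (aP p c y) ^ j) =
      (b j).eval (aP p c y) * H.eval (aP p c y) ^ j * (y - a) ^ j by ring]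
  exact h2

end Step

end Pool.Agent.TWTR
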