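import Pool.Agent.Lib.TWTR.Boot2
import Pool.Agent.Lib.TWTR.AStep

/-!
# TANK W, the cover: the operators `A(z) = ∑ A_i z ^ (p ^ i)`

`k` algebraically closed of characteristic `p`; `opB p A z` (`Boot2`), `aP p c z = z ^ p - c z`
(`AStep`).

* `opB_addz`, `opB_C`, `opB_X`: additivity, constants, `A F`;
* `exists_mul_aP`: `A(z ^ p - c z) = B(z)` for some `B`, `B ≠ 0` if `A ≠ 0`;
* `exists_factor`: every `B` of degree `≥ 1` is of this form, with a smaller degree;
* `exists_frs_pow`: `A(z) ^ (p ^ n) = B(z)`.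
-/

set_option autoImplicit false
set_option linter.unusedSectionVars false

open Polynomial

namespace Pool.Agent.TWTR

open Pool.Agent.H15JM (RVal)
open Pool.Agent.D2 (Ctx0)
open Pool.Agent.TWM

universe u

variable {k Ω : Type u} [Field k] [Field Ω] [Algebra k Ω] {p : ℕ}

/-- Constants. -/
theorem opB_C (b : k) (z : Ω) : opB p (Polynomial.C b) z = algebraMap k Ω b * z := by
  rw [opB, sum_C_index (by rw [map_zero, zero_mul]), pow_zero, pow_one]

theorem opB_zero (z : Ω) : opB p (0 : Polynomial k) z = 0 := by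
  rw [opB, sum_zero_index]

/-- The operator `A F`. -/
theorem opB_X (A : Polynomial k) (z : Ω) :
    opB p (Polynomial.X * A) z = opB p A (z ^ p) := by
  have h1 : (Polynomial.X * A).natDegree < A.natDegree + 1 + 1 := by
    refine lt_of_le_of_lt natDegree_mul_le ?_
    have h3 : (Polynomial.X : Polynomial k).natDegree ≤ 1 := natDegree_X_le
    omega
  rw [opB_eq _ _ h1, opB_eq A _ (Nat.lt_succ_self _), Finset.sum_range_succ']
  have h2 : (Polynomial.X * A).coeff 0 = 0 := by
    rw [mul_coeff_zero, coeff_X_zero, zero_mul]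
  rw [h2, map_zero, zero_mul, add_zero]
  refine Finset.sum_congr rfl fun i _ => ?_
  rw [coeff_X_mul, ← pow_mul, ← pow_succ']

theorem opB_neg (A : Polynomial k) (z : Ω) : opB p (-A) z = -opB p A z := by
  have h1 : -A = (-1 : k) • A := by rw [neg_one_smul]
  rw [h1, opB_smul, map_neg, map_one, neg_one_mul]

theorem opB_sub (A B : Polynomial k) (z : Ω) : opB p (A - B) z = opB p A z - opB p B z := by
  rw [sub_eq_add_neg, opB_add, opB_neg, sub_eq_add_neg]

section

variable [hp : Fact p.Prime] [CharP Ω p]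

/-- Additivity. -/
theorem opB_addz (A : Polynomial k) (y z : Ω) :
    opB p A (y + z) = opB p A y + opB p A z := by
  rw [opB_eq A _ (Nat.lt_succ_self _), opB_eq A _ (Nat.lt_succ_self _),
    opB_eq A _ (Nat.lt_succ_self _), ← Finset.sum_add_distrib]
  refine Finset.sum_congr rfl fun i _ => ?_
  rw [add_pow_char_pow, mul_add]

theorem opB_at_zero (A : Polynomial k) : opB p A (0 : Ω) = 0 := by
  rw [opB_eq A _ (Nat.lt_succ_self _)]
  refine Finset.sum_eq_zero fun i _ => ?_
  rw [zero_pow (pow_pos hp.out.pos i).ne', mul_zero]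

theorem opB_negz (A : Polynomial k) (z : Ω) : opB p A (-z) = -opB p A z := by
  have h1 := opB_addz A z (-z)
  rw [add_neg_cancel, opB_at_zero] at h1
  exact (neg_eq_of_add_eq_zero_right h1.symm).symm

theorem opB_subz (A : Polynomial k) (y z : Ω) :
    opB p A (y - z) = opB p A y - opB p A z := by
  rw [sub_eq_add_neg, opB_addz, opB_negz, sub_eq_add_neg]

/-- The operator `A (F - c)`. -/
theorem exists_mul_aP (A : Polynomial k) (hA : A ≠ 0) (c : k) :
    ∃ B : Polynomial k, B ≠ 0 ∧ ∀ z : Ω, opB p B z = opB p A (aP p c z) := by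
  classical
  set D : Polynomial k := ∑ i ∈ Finset.range (A.natDegree + 1),
    Polynomial.C (A.coeff i * c ^ p ^ i) * Polynomial.X ^ i with hD
  have hco : ∀ j, D.coeff j = if j < A.natDegree + 1 then A.coeff j * c ^ p ^ j else 0 := by
    intro j
    rw [hD, finsetSum_coeff]
    simp only [coeff_C_mul_X_pow]
    rw [Finset.sum_ite_eq]
    simp only [Finset.mem_range]
  have hdeg : D.natDegree < A.natDegree + 1 := by
    refine Nat.lt_succ_of_le (natDegree_le_iff_coeff_eq_zero.2 fun j hj => ?_)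
    rw [hco, if_neg (by omega)]
  refine ⟨Polynomial.X * A - D, ?_, fun z => ?_⟩
  · intro h
    have h1 : (Polynomial.X * A - D).coeff (A.natDegree + 1) = 0 := by rw [h, coeff_zero]
    rw [coeff_sub, coeff_X_mul, hco, if_neg (lt_irrefl _), sub_zero] at h1
    exact hA (leadingCoeff_eq_zero.1 h1)
  · have h1 : opB p D z = opB p A (algebraMap k Ω c * z) := by
      rw [opB_eq D z hdeg, opB_eq A _ (Nat.lt_succ_self _)]
      refine Finset.sum_congr rfl fun i hi => ?_
      rw [hco, if_pos (Finset.mem_range.1 hi), map_mul, map_pow, mul_pow, mul_assoc]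
    rw [opB_sub, opB_X, h1, aP, opB_subz]

/-- Division by `F - c`, on the right. -/
theorem exists_div_aP (c : k) (n : ℕ) : ∀ B : Polynomial k, B.natDegree ≤ n + 1 →
    ∃ (A : Polynomial k) (r : k), A.natDegree ≤ n ∧ A.coeff n = B.coeff (n + 1) ∧
      ∀ z : Ω, opB p B z = opB p A (aP p c z) + algebraMap k Ω r * z := by
  induction n with
  | zero =>
    intro B hB
    refine ⟨Polynomial.C (B.coeff 1), B.coeff 0 + B.coeff 1 * c, by rw [natDegree_C],
      by rw [coeff_C_zero], fun z => ?_⟩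
    rw [opB_C, opB_eq B z (n := 2) (by omega), Finset.sum_range_succ, Finset.sum_range_one, aP,
      pow_zero, pow_one, pow_one, map_add, map_mul]
    ring
  | succ n ih =>
    intro B hB
    set b := B.coeff (n + 2) with hb
    set B' : Polynomial k := B - Polynomial.C b * Polynomial.X ^ (n + 2) +
      Polynomial.C (b * c ^ p ^ (n + 1)) * Polynomial.X ^ (n + 1) with hB'
    have hdeg : B'.natDegree ≤ n + 1 := by
      refine natDegree_le_iff_coeff_eq_zero.2 fun j hj => ?_
      rw [hB', coeff_add, coeff_sub, coeff_C_mul_X_pow, coeff_C_mul_X_pow]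
      rw [if_neg (by omega : ¬ j = n + 1), add_zero]
      by_cases h1 : j = n + 2
      · rw [if_pos h1, h1, hb, sub_self]
      · rw [if_neg h1, sub_zero]
        exact coeff_eq_zero_of_natDegree_lt (by omega)
    obtain ⟨A', r, hA1, hA2, hA3⟩ := ih B' hdeg
    refine ⟨Polynomial.C b * Polynomial.X ^ (n + 1) + A', r, ?_, ?_, fun z => ?_⟩
    · refine (natDegree_add_le _ _).trans (max_le (natDegree_C_mul_X_pow_le _ _) (by omega))
    · rw [coeff_add, coeff_C_mul_X_pow, if_pos rfl,
        coeff_eq_zero_of_natDegree_lt (by omega : A'.natDegree < n + 1), add_zero]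
    · have h1 : ∀ (a : k) (m : ℕ) (w : Ω), opB p (Polynomial.C a * Polynomial.X ^ m) w =
          algebraMap k Ω a * w ^ p ^ m := by
        intro a m w
        rw [opB, C_mul_X_pow_eq_monomial, sum_monomial_index _ _ (by rw [map_zero, zero_mul])]
      have h2 : B = Polynomial.C b * Polynomial.X ^ (n + 2) -
          Polynomial.C (b * c ^ p ^ (n + 1)) * Polynomial.X ^ (n + 1) + B' := by
        rw [hB']
        ring
      have h4 : opB p B z = algebraMap k Ω b * z ^ p ^ (n + 2) -
          algebraMap k Ω (b * c ^ p ^ (n + 1)) * z ^ p ^ (n + 1) + opB p B' z := by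
        clear_value B' b
        rw [h2, opB_add, opB_sub, h1, h1]
      rw [h4, hA3 z, opB_add, h1]
      have h3 : aP p c z ^ p ^ (n + 1) =
          z ^ p ^ (n + 2) - algebraMap k Ω c ^ p ^ (n + 1) * z ^ p ^ (n + 1) := by
        rw [aP, sub_pow_char_pow, mul_pow, ← pow_mul, ← pow_succ']
      rw [h3, map_mul, map_pow]
      ring

/-- A root in `k`, not `0`. -/
theorem exists_root_opB [IsAlgClosed k] {B : Polynomial k} (hd : 0 < B.natDegree)
    (h0 : B.coeff 0 ≠ 0) : ∃ ζ : k, ζ ≠ 0 ∧ opB p B (algebraMap k Ω ζ) = 0 := by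
  classical
  set g : Polynomial k := ∑ i ∈ Finset.range (B.natDegree + 1),
    Polynomial.C (B.coeff i) * Polynomial.X ^ (p ^ i - 1) with hg
  have hinj : ∀ i j : ℕ, p ^ i - 1 = p ^ j - 1 → i = j := by
    intro i j h
    have h1 : 1 ≤ p ^ i := Nat.one_le_pow _ _ hp.out.pos
    have h2 : 1 ≤ p ^ j := Nat.one_le_pow _ _ hp.out.pos
    exact Nat.pow_right_injective hp.out.two_le (by omega : p ^ i = p ^ j)
  have hco : ∀ j, j ≤ B.natDegree → g.coeff (p ^ j - 1) = B.coeff j := by
    intro j hj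
    rw [hg, finsetSum_coeff, Finset.sum_eq_single j]
    · rw [coeff_C_mul_X_pow, if_pos rfl]
    · intro i _ hij
      rw [coeff_C_mul_X_pow, if_neg fun h => hij (hinj _ _ h.symm)]
    · intro h
      exact absurd (Finset.mem_range.2 (by omega)) h
  have hg1 : g.degree ≠ 0 := by
    intro h
    have h1 : g.natDegree = 0 := natDegree_eq_of_degree_eq_some h
    have h2 : g.coeff (p ^ B.natDegree - 1) = 0 := by
      refine coeff_eq_zero_of_natDegree_lt ?_
      rw [h1]
      have h3 : p ^ 1 ≤ p ^ B.natDegree := Nat.pow_le_pow_right hp.out.pos hd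
      have h4 := hp.out.two_le
      rw [pow_one] at h3
      omega
    rw [hco _ le_rfl] at h2
    have h3 : B ≠ 0 := fun h4 => by rw [h4, natDegree_zero] at hd; exact lt_irrefl _ hd
    exact h3 (leadingCoeff_eq_zero.1 h2)
  obtain ⟨ζ, hζ⟩ := IsAlgClosed.exists_root g hg1
  have hζ0 : ζ ≠ 0 := by
    rintro rfl
    have h1 : g.eval 0 = B.coeff 0 := by
      rw [← coeff_zero_eq_eval_zero]
      have h2 := hco 0 (Nat.zero_le _)
      rwa [pow_zero, Nat.sub_self] at h2
    rw [IsRoot.def, h1] at hζ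
    exact h0 hζ
  refine ⟨ζ, hζ0, ?_⟩
  have h1 : opB p B (algebraMap k Ω ζ) = algebraMap k Ω (ζ * g.eval ζ) := by
    rw [opB_eq B _ (Nat.lt_succ_self _), hg, eval_finsetSum, Finset.mul_sum, map_sum]
    refine Finset.sum_congr rfl fun i _ => ?_
    rw [eval_mul, eval_C, eval_pow, eval_X, ← map_pow, ← map_mul]
    congr 1
    have h2 : 1 ≤ p ^ i := Nat.one_le_pow _ _ hp.out.pos
    have h3 : ζ ^ p ^ i = ζ * ζ ^ (p ^ i - 1) := by
      rw [← pow_succ']
      congr 1
      omega
    rw [h3]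
    ring
  rw [h1, IsRoot.def.1 hζ, mul_zero, map_zero]

/-- **Every operator of positive degree has a factor `F - c`.** -/
theorem exists_factor [IsAlgClosed k] {B : Polynomial k} (hd : 0 < B.natDegree) :
    ∃ (c : k) (A : Polynomial k), A ≠ 0 ∧ A.natDegree < B.natDegree ∧
      ∀ z : Ω, opB p B z = opB p A (aP p c z) := by
  have hB : B ≠ 0 := fun h4 => by rw [h4, natDegree_zero] at hd; exact lt_irrefl _ hd
  obtain ⟨n, hn⟩ : ∃ n, B.natDegree = n + 1 := ⟨B.natDegree - 1, by omega⟩
  by_cases h0 : B.coeff 0 = 0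
  · refine ⟨0, B.divX, ?_, ?_, fun z => ?_⟩
    · intro h
      have h1 := divX_mul_X_add B
      rw [h, zero_mul, zero_add, h0, map_zero] at h1
      exact hB h1.symm
    · rw [natDegree_divX_eq_natDegree_tsub_one]
      omega
    · have h1 := divX_mul_X_add B
      rw [h0, map_zero, add_zero, mul_comm] at h1
      rw [aP, map_zero, zero_mul, sub_zero, ← opB_X, h1]
  · obtain ⟨ζ, hζ0, hζ⟩ := exists_root_opB (Ω := Ω) (p := p) hd h0
    obtain ⟨A, r, hA1, hA2, hA3⟩ := exists_div_aP (Ω := Ω) (p := p) (ζ ^ (p - 1)) n B (by omega)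
    have h1 : aP p (ζ ^ (p - 1)) (algebraMap k Ω ζ) = 0 := by
      rw [aP, ← map_pow, ← map_mul, ← pow_succ, Nat.sub_add_cancel hp.out.one_le, sub_self]
    have hr : algebraMap k Ω r = 0 := by
      have h2 := hA3 (algebraMap k Ω ζ)
      rw [hζ, h1, opB_at_zero, zero_add] at h2
      rcases mul_eq_zero.1 h2.symm with h3 | h3
      · exact h3
      · exact absurd ((map_eq_zero _).1 h3) hζ0
    refine ⟨ζ ^ (p - 1), A, ?_, by omega, fun z => ?_⟩
    · intro h
      rw [h, coeff_zero, ← hn] at hA2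
      exact hB (leadingCoeff_eq_zero.1 hA2.symm)
    · rw [hA3 z, hr, zero_mul, add_zero]

/-- The powers. -/
theorem exists_frs_pow [CharP k p] (A : Polynomial k) (hA : A ≠ 0) (n : ℕ) :
    ∃ B : Polynomial k, B ≠ 0 ∧ ∀ z : Ω, opB p B z = opB p A z ^ p ^ n := by
  induction n with
  | zero => exact ⟨A, hA, fun z => by rw [pow_zero, pow_one]⟩
  | succ n ih =>
    obtain ⟨B, hB, h1⟩ := ih
    refine ⟨Polynomial.X * B.map (frobenius k p), mul_ne_zero X_ne_zero
      ((Polynomial.map_ne_zero_iff (frobenius_inj k p)).2 hB), fun z => ?_⟩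
    rw [opB_frs, h1, ← pow_mul, ← pow_succ]

omit [CharP Ω p] in
theorem exists_comp_pow (A : Polynomial k) (hA : A ≠ 0) (n : ℕ) :
    ∃ B : Polynomial k, B ≠ 0 ∧ ∀ z : Ω, opB p B z = opB p A (z ^ p ^ n) := by
  induction n with
  | zero => exact ⟨A, hA, fun z => by rw [pow_zero, pow_one]⟩
  | succ n ih =>
    obtain ⟨B, hB, h1⟩ := ih
    refine ⟨Polynomial.X * B, mul_ne_zero X_ne_zero hB, fun z => ?_⟩
    rw [opB_X, h1, ← pow_mul, ← pow_succ']

end

end Pool.Agent.TWTR
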