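import Pool.Agent.Lib.TWTR.Skew
import Pool.Agent.Lib.TWTR.InhD
import Pool.Agent.Lib.TWTR.InhS
import Pool.Agent.Lib.TWF.InfDefs
import Pool.Agent.Lib.TWJ2.Defs

/-!
# TANK W, the cover: finitely many strict translations

`W` closed, `z` far from the algebraic elements of `W`, a limit of the radical elements, radius `0`.

* `ThS v W z`: the constants `ζ` with `z ↦ z + ζ` strict;
* `thS_aP`: the strict translations of `z ^ p - c z` come from strict translations of `z`;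
* `exists_op_zero`: if `ThS` is finite, `A(z)` has no strict translation `≠ 0`, for some `A ≠ 0`;
* `mle_of_op`: then the gaps of `B(z')`, `z' = A(z)`, `B ≠ 0`, are as large as the gaps of `z'`;
* `t3_core`: strict jets, infinitely many strict translations, finitely many jumps, or `A` with
  gaps of `A(z)` at most `m`, and `limsup = m` for all `B(A(z))`, `B ≠ 0`.

The critical step (`T1`) and the absence of records (`T2`) are hypotheses of the core.
-/

set_option autoImplicit false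
set_option linter.unusedSectionVars false

open Polynomial

namespace Pool.Agent.TWTR

open Pool.Agent.H15JM (RVal)
open Pool.Agent.LU1 (VPos adj)
open Pool.Agent.D2 (Ctx0)
open Pool.Agent.D2P (clI mem_clI rootF mem_rootF)
open Pool.Agent.TWM
open Pool.Agent.TWC (Sd)
open Pool.Agent.TWF (StrW)
open Pool.Agent.TWJ2 (FJ)

universe u

variable {k Ω : Type u} [Field k] [Field Ω] [Algebra k Ω] {v : RVal Ω}
  {W : IntermediateField k Ω} {y z : Ω} {p : ℕ}

/-- `z` is a limit of the radical elements of `W`, up to `0`. -/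
def LimR0 (p : ℕ) (v : RVal Ω) (W : IntermediateField k Ω) (z : Ω) : Prop :=
  ∀ ε : ℝ, 0 < ε → ∃ (n : ℕ) (a : Ω), a ^ p ^ n ∈ W ∧ v.Ge (-ε) (z - a)

/-- The constants `ζ` with `z ↦ z + ζ` strict. -/
def ThS (v : RVal Ω) (W : IntermediateField k Ω) (z : Ω) : Set k :=
  {ζ | StrP v W z (algebraMap k Ω ζ)}

/-- The gaps are `≤ m` from some level on. -/
def MLeB (p : ℕ) (v : RVal Ω) (W : IntermediateField k Ω) (z : Ω) (m : ℝ) : Prop :=
  ∃ j₀ : ℕ, ∀ j, j₀ ≤ j → NearB p v W 0 j m z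

/-- **The critical step.** -/
def CritS (p : ℕ) (v : RVal Ω) (W : IntermediateField k Ω) : Prop :=
  ∀ (y : Ω) (c : k), c ≠ 0 → Far0 v W y → LimR0 p v W y →
    (∀ ε : ℝ, 0 < ε → ∃ f ∈ PI W, v.Ge (-ε) (y - f.eval (aP p c y))) →
    ∀ m : ℝ, 0 ≤ m → ∀ i : ℕ, (∀ j, i ≤ j → NearB p v W 0 j m (aP p c y)) → NearB p v W 0 i m y

/-- **No records.** -/
def NoRec (p : ℕ) [Fact p.Prime] [CharP Ω p] (v : RVal Ω) (W : IntermediateField k Ω) : Prop :=
  ∀ y : Ω, Far0 v W y → LimR0 p v W y → ∀ n : ℕ, ¬ Sd v (rootF p n W) y 1 0 →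
    ∀ m : ℝ, 0 ≤ m → ∀ i : ℕ, n ≤ i → (∀ j, i < j → NearB p v W 0 j m y) → NearB p v W 0 i m y

theorem mem_ThS {ζ : k} : ζ ∈ ThS v W z ↔ StrP v W z (algebraMap k Ω ζ) := Iff.rfl

theorem zero_mem_ThS : (0 : k) ∈ ThS v W z := by
  rw [mem_ThS, map_zero]
  exact StrP.zero

section

variable [hp : Fact p.Prime] [CharP k p] [CharP Ω p] [IsAlgClosed k] [IsAlgClosed Ω]

omit [IsAlgClosed Ω] in
theorem LimR0.aP (h0 : Ctx0 k v) (h : LimR0 p v W z) (c : k) :
    LimR0 p v W (Pool.Agent.TWTR.aP p c z) := lim_aP p h0 h c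

variable (p) in
/-- **The strict translations of `z ^ p - c z`.** -/
theorem thS_aP (h0 : Ctx0 k v) (hF : Far0 v W z) (c : k) {ξ : k} (hξ : ξ ∈ ThS v W (aP p c z)) :
    ∃ ζ ∈ ThS v W z, ζ ^ p - c * ζ = ξ := by
  obtain ⟨ζ, hζ⟩ : ∃ ζ : k, ζ ^ p - c * ζ = ξ := by
    have h1 : (APol (Ω := k) p c - Polynomial.C ξ).degree ≠ 0 := by
      intro h
      have h2 := natDegree_eq_of_degree_eq_some h
      rw [natDegree_sub_C, (APol_deg (Ω := k) p c).2] at h2
      exact hp.out.ne_zero h2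
    obtain ⟨ζ, hζ⟩ := IsAlgClosed.exists_root _ h1
    refine ⟨ζ, ?_⟩
    rw [IsRoot.def, eval_sub, eval_C, eval_APol, aP, sub_eq_zero] at hζ
    exact hζ
  have h1 : Pool.Agent.TWTR.aP p c (algebraMap k Ω ζ) = algebraMap k Ω ξ := by
    rw [Pool.Agent.TWTR.aP, ← hζ, map_sub, map_pow, map_mul]
  obtain ⟨η, hη, h2⟩ := hF.step_aut p h0 (h0.ge ζ) c (by rw [h1]; exact hξ)
  refine ⟨ζ - η, ?_, ?_⟩
  · rw [mem_ThS, map_sub]
    exact h2
  · have h3 : η ^ p - c * η = 0 := by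
      apply (algebraMap k Ω).injective
      rw [map_sub, map_pow, map_mul, map_zero]
      exact hη
    rw [sub_pow_char, mul_sub, ← hζ]
    linear_combination -h3

/-- No strict translation: this goes down. -/
theorem thS_aP_zero (h0 : Ctx0 k v) (hF : Far0 v W z) (c : k) (h : ThS v W z ⊆ {0}) :
    ThS v W (aP p c z) ⊆ {0} := by
  intro ξ hξ
  obtain ⟨ζ, hζ, h1⟩ := thS_aP p h0 hF c hξ
  rw [Set.mem_singleton_iff.1 (h hζ), zero_pow hp.out.ne_zero, mul_zero, sub_zero] at h1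
  exact Set.mem_singleton_iff.2 h1.symm

/-- **Finitely many strict translations: none, for some `A(z)`.** -/
theorem exists_op_zero (h0 : Ctx0 k v) (n : ℕ) : ∀ z : Ω, Far0 v W z → LimR0 p v W z →
    (ThS v W z).Finite → (ThS v W z).ncard ≤ n → ∃ A : Polynomial k, A ≠ 0 ∧
      Far0 v W (opB p A z) ∧ LimR0 p v W (opB p A z) ∧ ThS v W (opB p A z) ⊆ {0} ∧
      ((∀ l, 1 ≤ l → Sd v W (opB p A z) l 0) → ∀ l, 1 ≤ l → Sd v W z l 0) := by
  induction n with
  | zero =>
    intro z hF hL hfin hn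
    have h1 := (Set.ncard_eq_zero hfin).1 (Nat.le_zero.1 hn)
    exact absurd (h1 ▸ (zero_mem_ThS : (0 : k) ∈ ThS v W z)) (Set.notMem_empty 0)
  | succ n ih =>
    intro z hF hL hfin hn
    by_cases hz : ThS v W z ⊆ {0}
    · refine ⟨Polynomial.C 1, ?_, ?_⟩
      · rw [map_one]
        exact one_ne_zero
      · have h1 : opB p (Polynomial.C (1 : k)) z = z := by rw [opB_C, map_one, one_mul]
        rw [h1]
        exact ⟨hF, hL, hz, fun h => h⟩
    · rw [Set.not_subset] at hz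
      obtain ⟨ζ, hζ, hζ0⟩ := hz
      rw [Set.mem_singleton_iff] at hζ0
      set c : k := ζ ^ (p - 1) with hc
      set ψ : k → k := fun t => t ^ p - c * t with hψ
      have hψζ : ψ ζ = ψ 0 := by
        simp only [hψ, hc]
        rw [← pow_succ, Nat.sub_add_cancel hp.out.one_le, sub_self, zero_pow hp.out.ne_zero,
          mul_zero, sub_zero]
      have hsub : ThS v W (aP p c z) ⊆ ψ '' (ThS v W z) := fun ξ hξ => by
        obtain ⟨t, ht, h1⟩ := thS_aP p h0 hF c hξ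
        exact ⟨t, ht, h1⟩
      have hsub2 : ThS v W (aP p c z) ⊆ ψ '' (ThS v W z \ {ζ}) := by
        intro ξ hξ
        obtain ⟨t, ht, h1⟩ := hsub hξ
        by_cases h2 : t = ζ
        · exact ⟨0, ⟨zero_mem_ThS, fun h => hζ0 (Set.mem_singleton_iff.1 h).symm⟩, by
            rw [← h1, h2, hψζ]⟩
        · exact ⟨t, ⟨ht, h2⟩, h1⟩
      have hfin2 : (ThS v W z \ {ζ}).Finite := hfin.subset Set.sdiff_subset
      have hfin1 : (ThS v W (aP p c z)).Finite := (hfin2.image ψ).subset hsub2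
      have hcard : (ThS v W (aP p c z)).ncard ≤ n := by
        have h1 := Set.ncard_le_ncard hsub2 (hfin2.image ψ)
        have h2 := Set.ncard_image_le (f := ψ) hfin2
        have h3 := Set.ncard_sdiff_singleton_lt_of_mem hζ hfin
        omega
      obtain ⟨A, hA, h1, h2, h3, h4⟩ := ih (aP p c z) (hF.aP p c) (hL.aP h0 c) hfin1 hcard
      obtain ⟨B, hB, h5⟩ := exists_mul_aP (Ω := Ω) (p := p) A hA c
      refine ⟨B, hB, ?_⟩
      rw [h5 z]
      exact ⟨h1, h2, h3, fun h l hl => step_str h0 hF c (h4 h) hl⟩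

omit [CharP k p] [IsAlgClosed k] in
theorem nearB_one {j : ℕ} {m : ℝ} :
    NearB p v W 0 j m (z ^ p) ↔ NearB p v W 0 (j + 1) m z := by
  have h2 := nearB_pow (p := p) (v := v) (W := W) (f := z) (s := 0) (m := m) (j := j) 1
  rwa [pow_one, pow_one, mul_zero] at h2

/-- **The gaps of `B(z)`.** -/
theorem mle_of_op (h0 : Ctx0 k v) (hT1 : CritS p v W) {m : ℝ} (hm : 0 ≤ m) (n : ℕ) :
    ∀ (B : Polynomial k) (z : Ω), B.natDegree ≤ n → B ≠ 0 → Far0 v W z → LimR0 p v W z →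
      ThS v W z ⊆ {0} → MLeB p v W (opB p B z) m → MLeB p v W z m := by
  induction n with
  | zero =>
    intro B z hd hB hF hL hT h
    obtain ⟨b, rfl⟩ := natDegree_eq_zero.1 (Nat.le_zero.1 hd)
    have hb : b ≠ 0 := fun h1 => hB (by rw [h1, map_zero])
    obtain ⟨j₀, h1⟩ := h
    refine ⟨j₀, fun j hj => ?_⟩
    have h2 := (h1 j hj).smul h0 b⁻¹
    rw [opB_C, ← mul_assoc, ← map_mul, inv_mul_cancel₀ hb, map_one, one_mul] at h2
    exact h2
  | succ n ih =>
    intro B z hd hB hF hL hT h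
    by_cases hd0 : B.natDegree ≤ n
    · exact ih B z hd0 hB hF hL hT h
    obtain ⟨c, A, hA, hAd, h1⟩ := exists_factor (Ω := Ω) (p := p) (B := B) (by omega)
    rw [h1 z] at h
    obtain ⟨j₀, h2⟩ := ih A (aP p c z) (by omega) hA (hF.aP p c) (hL.aP h0 c)
      (thS_aP_zero h0 hF c hT) h
    by_cases hc : c = 0
    · refine ⟨j₀ + 1, fun j hj => ?_⟩
      have h3 := h2 (j - 1) (by omega)
      rw [hc, aP, map_zero, zero_mul, sub_zero, nearB_one, Nat.sub_add_cancel (by omega)] at h3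
      exact h3
    · refine ⟨j₀, fun j hj => ?_⟩
      obtain ⟨ξ, hξ0, hξ⟩ := exists_ker (Ω := Ω) p hc
      have h3 : ¬ StrP v W z (algebraMap k Ω ξ) := fun h4 =>
        hξ0 (Set.mem_singleton_iff.1 (hT h4))
      exact hT1 z c hc hF hL (fun ε hε => hF.cl_of_not_str p h0 hL hc hξ h3 hε) m hm j
        fun i hi => h2 i (hj.trans hi)

/-- Strict jets, or one first jet is not strict. -/
theorem strW_or (h0 : Ctx0 k v) (hF : Far0 v W z) (hL : LimR0 p v W z) :
    (∀ l, 1 ≤ l → Sd v W z l 0) ∨ ∃ n, ¬ Sd v (rootF p n W) z 1 0 := by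
  by_cases h1 : ∀ i, Sd v (rootF p i W) z 1 0
  · left
    intro l hl
    have hR : ∀ i, ∀ θ : Ω, IsAlgebraic (rootF p i W) θ → IsAlgebraic W θ := by
      intro i θ hθ
      have hle : rootF p i W ≤ algc W := fun a ha => mem_algc.2
        (IsAlgebraic.of_pow (pow_pos hp.out.pos i)
          (isAlgebraic_algebraMap (⟨_, mem_rootF.1 ha⟩ : W)))
      exact isAlgebraic_of_algc (D2P.isAlgebraic_mono hle hθ)
    have h2 := TWC.jd_root p h0 (F := fun i => rootF p i W) (s := 0) (fun i a ha => ?_)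
      (fun i θ hθ => ⟨(hF θ (hR i θ hθ)).1, (hF θ (hR i θ hθ)).2.le⟩) (fun ε hε => ?_) h1 0 hl
    · rw [mul_zero] at h2
      exact h2.mono (fun a ha => mem_rootF.2 (by rwa [pow_zero, pow_one]))
    · obtain ⟨b, hb⟩ := IsAlgClosed.exists_pow_nat_eq a hp.out.pos
      refine ⟨b, mem_rootF.2 ?_, hb⟩
      rw [pow_succ', pow_mul, hb]
      exact mem_rootF.1 ha
    · obtain ⟨j, a, ha, h3⟩ := hL ε hε
      exact ⟨j, a, mem_rootF.2 ha, by rwa [zero_sub]⟩
  · right
    push Not at h1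
    exact h1

omit [CharP k p] [IsAlgClosed k] [IsAlgClosed Ω] hp [CharP Ω p] in
theorem prod_val_le {b : ℝ} (S : Multiset Ω) (hS : ∀ θ ∈ S, z ≠ θ ∧ v (z - θ) ≤ -b) :
    ((S.map fun θ => X - C θ).prod).eval z ≠ 0 ∧
      v (((S.map fun θ => X - C θ).prod).eval z) ≤ -b * S.card := by
  induction S using Multiset.induction_on with
  | empty =>
    rw [Multiset.map_zero, Multiset.prod_zero, eval_one, v.map_one, Multiset.card_zero]
    exact ⟨one_ne_zero, by rw [Nat.cast_zero, mul_zero]⟩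
  | cons a S ih =>
    obtain ⟨h1, h2⟩ := ih fun θ h => hS θ (Multiset.mem_cons_of_mem h)
    obtain ⟨h4, h5⟩ := hS a (Multiset.mem_cons_self a S)
    rw [Multiset.map_cons, Multiset.prod_cons, eval_mul, eval_sub, eval_X, eval_C,
      Multiset.card_cons]
    refine ⟨mul_ne_zero (sub_ne_zero.2 h4) h1, ?_⟩
    rw [v.map_mul (sub_ne_zero.2 h4) h1]
    push_cast
    linarith

omit [IsAlgClosed k] [CharP k p] in
/-- **Finitely many jumps.** -/
theorem fj_of_near (h0 : Ctx0 k v) (hF : Far0 v W z) {A : Polynomial k} (hA : A ≠ 0) (n : ℕ)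
    (h : ∀ ε : ℝ, 0 < ε → ∃ a : Ω, a ^ p ^ n ∈ W ∧ v.Ge (-ε) (opB p A z - a)) :
    FJ v W z := by
  classical
  have hp0 : (0 : ℝ) < p := by exact_mod_cast hp.out.pos
  refine ⟨p ^ A.natDegree * p ^ n, fun ξ hξ => ?_⟩
  obtain ⟨hne, hlt⟩ := hF ξ hξ
  set ε : ℝ := -(v (z - ξ)) / 2 with hε
  have hε0 : 0 < ε := by linarith
  obtain ⟨a, ha, h1⟩ := h ε hε0
  -- the polynomial
  set L : Polynomial Ω := ∑ i ∈ Finset.range (A.natDegree + 1),
    C (algebraMap k Ω (A.coeff i)) * X ^ p ^ i with hL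
  have hLe : ∀ w, L.eval w = opB p A w := by
    intro w
    rw [hL, opB_eq A w (Nat.lt_succ_self _), eval_finsetSum]
    refine Finset.sum_congr rfl fun i _ => ?_
    rw [eval_mul, eval_C, eval_pow, eval_X]
  have hco : L.coeff (p ^ A.natDegree) = algebraMap k Ω A.leadingCoeff := by
    rw [hL, finsetSum_coeff, Finset.sum_eq_single A.natDegree]
    · rw [coeff_C_mul_X_pow, if_pos rfl]
      rfl
    · intro i _ hi
      rw [coeff_C_mul_X_pow, if_neg fun h2 => hi
        (Nat.pow_right_injective hp.out.two_le h2).symm]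
    · intro h2
      exact absurd (Finset.mem_range.2 (Nat.lt_succ_self _)) h2
  have hLd : L.natDegree ≤ p ^ A.natDegree := by
    rw [hL]
    refine natDegree_sum_le_of_forall_le _ _ fun i hi => ?_
    refine (natDegree_C_mul_X_pow_le _ _).trans ?_
    exact Nat.pow_le_pow_right hp.out.pos (by have := Finset.mem_range.1 hi; omega)
  have hlead0 : algebraMap k Ω A.leadingCoeff ≠ 0 :=
    (_root_.map_ne_zero _).2 (leadingCoeff_ne_zero.2 hA)
  have hpd : 0 < p ^ A.natDegree := pow_pos hp.out.pos _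
  set g : Polynomial Ω := L - C a with hg
  have hgco : g.coeff (p ^ A.natDegree) = algebraMap k Ω A.leadingCoeff := by
    rw [hg, coeff_sub, coeff_C, if_neg hpd.ne', sub_zero, hco]
  have hgd : g.natDegree = p ^ A.natDegree := by
    refine le_antisymm ?_ (le_natDegree_of_ne_zero (by rw [hgco]; exact hlead0))
    rw [hg, natDegree_sub_C]
    exact hLd
  have hg0 : g ≠ 0 := fun h2 => by rw [h2, coeff_zero] at hgco; exact hlead0 hgco.symm
  have hglc : g.leadingCoeff = algebraMap k Ω A.leadingCoeff := by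
    rw [leadingCoeff, hgd, hgco]
  -- its power is a polynomial over `W`
  have hGW : g ^ p ^ n ∈ PI W := by
    have h2 : g ^ p ^ n = (∑ i ∈ Finset.range (A.natDegree + 1),
        C (algebraMap k Ω (A.coeff i) ^ p ^ n) * X ^ (p ^ i * p ^ n)) - C (a ^ p ^ n) := by
      rw [hg, sub_pow_char_pow, hL, sum_pow_char_pow, C_pow]
      congr 1
      refine Finset.sum_congr rfl fun i _ => ?_
      rw [mul_pow, C_pow, ← pow_mul]
    rw [h2]
    refine sub_mem (sum_mem fun i _ => mul_mem (C_mem_PI ?_) (pow_mem X_mem_PI _)) (C_mem_PI ha)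
    exact pow_mem (W.algebraMap_mem _) _
  have hG0 : g ^ p ^ n ≠ 0 := pow_ne_zero _ hg0
  have halg : ∀ η ∈ g.roots, IsAlgebraic W η ∧ (minpoly W η).natDegree ≤
      p ^ A.natDegree * p ^ n := by
    intro η hη
    have h2 : (g ^ p ^ n).eval η = 0 := by
      rw [eval_pow, (mem_roots hg0).1 hη, zero_pow (pow_pos hp.out.pos n).ne']
    refine ⟨isAlgebraic_root hGW hG0 h2, ?_⟩
    obtain ⟨G', hG'⟩ := lift_PI hGW
    have h3 : G' ≠ 0 := fun h4 => hG0 (by rw [← hG', h4, Polynomial.map_zero])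
    have h4 : aeval η G' = 0 := by
      rw [← eval_map_algebraMap, hG', h2]
    have h5 := natDegree_le_natDegree (minpoly.degree_le_of_ne_zero W η h3 h4)
    have h6 : G'.natDegree = (g ^ p ^ n).natDegree := by
      rw [← hG', natDegree_map]
    rw [h6, natDegree_pow, hgd, mul_comm] at h5
    exact h5
  -- one root is near
  by_contra hcon
  push Not at hcon
  have h2 : ∀ η ∈ g.roots, z ≠ η ∧ v (z - η) ≤ -(2 * ε) := by
    intro η hη
    obtain ⟨h3, h4⟩ := halg η hη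
    refine ⟨(hF η h3).1, ?_⟩
    have h5 := hcon η h3 h4
    linarith
  obtain ⟨h3, h4⟩ := prod_val_le g.roots h2
  have h5 := (IsAlgClosed.splits g).eq_prod_roots
  have h6 : g.eval z ≠ 0 := by
    rw [h5, eval_mul, eval_C, hglc]
    exact mul_ne_zero hlead0 h3
  have h7 : v (g.eval z) ≤ -(2 * ε) := by
    have h8 : v (g.eval z) = v (((g.roots.map fun θ => X - C θ).prod).eval z) := by
      conv_lhs => rw [h5, eval_mul, eval_C, hglc]
      rw [v.map_mul hlead0 h3, h0.triv _ (leadingCoeff_ne_zero.2 hA), zero_add]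
    rw [h8]
    refine h4.trans ?_
    rw [IsAlgClosed.card_roots_eq_natDegree, hgd]
    have h9 : (1 : ℝ) ≤ ((p ^ A.natDegree : ℕ) : ℝ) := by exact_mod_cast hpd
    nlinarith
  have h8 : g.eval z = opB p A z - a := by rw [hg, eval_sub, eval_C, hLe]
  have h9 := h1 (by rw [← h8]; exact h6)
  rw [← h8] at h9
  linarith

/-- **T3.** -/
theorem t3_core (h0 : Ctx0 k v) (hT1 : CritS p v W) (hR : NoRec p v W) (hF : Far0 v W z)
    (hL : LimR0 p v W z) (hbd : ∃ b : ℝ, ∀ j, NearB p v W 0 j b z) :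
    StrW v W z 0 ∨
      (∀ n : ℕ, ∃ Θ : Finset k, n ≤ Θ.card ∧ ∀ ζ ∈ Θ, StrP v W z (algebraMap k Ω ζ)) ∨
      FJ v W z ∨
      ∃ A : Polynomial k, A ≠ 0 ∧ ∃ m : ℝ, 0 < m ∧ (∀ j, NearB p v W 0 j m (opB p A z)) ∧
        ∀ B : Polynomial k, B ≠ 0 → ∀ m' < m, ∀ j₀ : ℕ, ∃ j ≥ j₀,
          ¬ NearB p v W 0 j m' (opB p B (opB p A z)) := by
  classical
  have hp0 : (0 : ℝ) < p := by exact_mod_cast hp.out.pos
  by_cases hfin : (ThS v W z).Finite
  swap
  · right; left
    intro n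
    obtain ⟨Θ, h1, h2⟩ := Set.Infinite.exists_subset_card_eq hfin n
    exact ⟨Θ, h2.ge, fun ζ hζ => h1 hζ⟩
  obtain ⟨A, hA, hFA, hLA, hTA, hSA⟩ := exists_op_zero h0 _ z hF hL hfin le_rfl
  set z' : Ω := opB p A z with hz'
  rcases strW_or h0 hFA hLA with h1 | ⟨n₀, hn₀⟩
  · left
    intro l hl
    rw [mul_zero]
    exact hSA h1 l hl
  right; right
  -- the bound
  obtain ⟨b, hb⟩ := hbd
  have hb' : ∀ j, NearB p v W 0 j (max b 0) z' := fun j =>
    nearB_op h0 (fun i => (hb i).mono hp0 (le_max_left _ _)) A j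
  set S : Set ℝ := {m | 0 ≤ m ∧ MLeB p v W z' m} with hS
  have hSne : S.Nonempty := ⟨max b 0, le_max_right _ _, 0, fun j _ => hb' j⟩
  have hSbd : BddBelow S := ⟨0, fun m hm => hm.1⟩
  set m : ℝ := sInf S with hm
  have hm0 : 0 ≤ m := le_csInf hSne fun m hm => hm.1
  -- no records
  have key1 : ∀ m' : ℝ, m < m' → ∀ j, n₀ ≤ j → NearB p v W 0 j m' z' := by
    intro m' hm'
    obtain ⟨m₁, ⟨h1, j₀, h2⟩, h3⟩ := exists_lt_of_csInf_lt hSne hm'
    have h4 : ∀ j, j₀ ≤ j → NearB p v W 0 j m' z' := fun j hj => (h2 j hj).mono hp0 h3.le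
    have h5 : ∀ d : ℕ, ∀ j, n₀ ≤ j → j₀ ≤ j + d → NearB p v W 0 j m' z' := by
      intro d
      induction d with
      | zero => exact fun j _ hj => h4 j hj
      | succ d ih =>
        intro j hj hd
        exact hR z' hFA hLA n₀ hn₀ m' (hm0.trans hm'.le) j hj fun i hi => ih i (by omega) (by omega)
    exact fun j hj => h5 j₀ j hj (by omega)
  have key2 : ∀ j, n₀ ≤ j → NearB p v W 0 j m z' := by
    intro j hj ε hε
    have hpj : (0 : ℝ) < (p : ℝ) ^ (j + 1) := pow_pos hp0 _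
    obtain ⟨a, ha, h1⟩ := key1 (m + ε / 2 * (p : ℝ) ^ (j + 1))
      (by have := mul_pos (half_pos hε) hpj; linarith) j hj (ε / 2) (half_pos hε)
    refine ⟨a, ha, h1.mono ?_⟩
    rw [add_div, mul_div_cancel_right₀ _ hpj.ne']
    linarith
  rcases hm0.lt_or_eq with hmpos | hmz
  · right
    obtain ⟨A', hA', h1⟩ := exists_frs_pow (Ω := Ω) (p := p) A hA n₀
    refine ⟨A', hA', m, hmpos, fun j => ?_, fun B hB m' hm' j₀ => ?_⟩
    · rw [h1 z]
      have h2 := (nearB_pow (p := p) (v := v) (W := W) (f := z') (s := 0) (m := m) (j := j) n₀).2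
        (key2 (j + n₀) (by omega))
      rwa [mul_zero] at h2
    · by_contra hcon
      push Not at hcon
      obtain ⟨B', hB', h2⟩ := exists_comp_pow (Ω := Ω) (p := p) B hB n₀
      have h3 : MLeB p v W (opB p B' z') (max m' 0) := ⟨j₀, fun j hj => by
        rw [h2 z', ← h1 z]
        exact (hcon j hj).mono hp0 (le_max_left _ _)⟩
      have h4 := mle_of_op h0 hT1 (le_max_right m' 0) _ B' z' le_rfl hB' hFA hLA hTA h3
      have h5 : m ≤ max m' 0 := csInf_le hSbd ⟨le_max_right _ _, h4⟩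
      rcases le_max_iff.1 h5 with h6 | h6 <;> linarith
  · left
    refine fj_of_near h0 hF hA n₀ fun ε hε => ?_
    obtain ⟨a, ha, h1⟩ := key2 n₀ le_rfl ε hε
    refine ⟨a, ha, h1.mono ?_⟩
    rw [← hmz, zero_div]
    linarith

end

end Pool.Agent.TWTR
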