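import Pool.Agent.Lib.TWTR.Wt
import Pool.Agent.Lib.TWC.ThetaX
import Pool.Agent.Lib.TWM.S7e

/-!
# TANK W, ROW R: the upper bound for the closeness of a letter
-/

set_option autoImplicit false
set_option linter.unusedSectionVars false

open Polynomial

namespace Pool.Agent.TWTR

open Pool.Agent.H15JM (RVal)
open Pool.Agent.LU1 (VPos adj)
open Pool.Agent.D2 (Ctx0)
open Pool.Agent.TWM

universe u

variable {k Ω : Type u} [Field k] [Field Ω] [Algebra k Ω] {v : RVal Ω}


/-- The shift of a polynomial by a small element. -/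
theorem taylor_shift (v : RVal Ω) {f : Polynomial Ω} {c ε : ℝ} {δ : Ω} {L : ℕ} (hε : 0 ≤ ε)
    (hL : f.natDegree ≤ L) (hf : ∀ l, v.Ge c (f.coeff l)) (hδ : v.Ge (-ε) δ) (l : ℕ) :
    v.Ge (c - L * ε) ((taylor δ f).coeff l) := by
  rw [taylor_coeff, eval_eq_sum_range]
  refine RVal.Ge.sum _ _ fun i hi => ?_
  rw [hasseDeriv_coeff]
  have hi' : i ≤ L := by
    have h1 := Finset.mem_range.1 hi
    have h2 := natDegree_hasseDeriv_le f l
    omega
  have h1 := ((TWM.ge_natCast v ((i + l).choose l)).mul (hf (i + l))).mul (ge_pow hδ i)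
  refine h1.mono ?_
  have h2 : (i : ℝ) ≤ L := by exact_mod_cast hi'
  nlinarith

section Alg

variable (q : ℕ) (G : ℕ → Polynomial Ω) (t : Ω)

/-- The coefficient of `Z ^ a` in `∑ G_i (t + Z) ^ i`. -/
noncomputable def Ecf (a : ℕ) : Polynomial Ω :=
  ∑ i ∈ Finset.range (q + 1), C (((i.choose a : ℕ) : Ω) * t ^ (i - a)) * G i

theorem Ecf_comp (U Z : Polynomial Ω) :
    ∑ i ∈ Finset.range (q + 1), (G i).comp U * (Z + C t) ^ i =
      ∑ a ∈ Finset.range (q + 1), (Ecf q G t a).comp U * Z ^ a := by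
  have h1 : ∀ i ∈ Finset.range (q + 1), (G i).comp U * (Z + C t) ^ i =
      ∑ a ∈ Finset.range (q + 1),
        (C (((i.choose a : ℕ) : Ω) * t ^ (i - a)) * (G i).comp U) * Z ^ a := by
    intro i hi
    have hi' := Finset.mem_range.1 hi
    rw [add_pow, Finset.mul_sum]
    have h2 : Finset.range (i + 1) ⊆ Finset.range (q + 1) := by
      intro j hj
      rw [Finset.mem_range] at *
      omega
    rw [← Finset.sum_subset h2]
    · refine Finset.sum_congr rfl fun a _ => ?_
      rw [C_mul, C_pow, map_natCast]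
      ring
    · intro a _ ha
      have : i < a := by
        rw [Finset.mem_range] at ha
        omega
      rw [Nat.choose_eq_zero_of_lt this]
      simp
  rw [Finset.sum_congr rfl h1, Finset.sum_comm]
  refine Finset.sum_congr rfl fun a _ => ?_
  rw [Ecf, sum_comp, Finset.sum_mul]
  refine Finset.sum_congr rfl fun i _ => ?_
  rw [mul_comp, C_comp]

theorem Ecf_top (hq : G q = 1) : Ecf q G t q = 1 := by
  rw [Ecf, Finset.sum_eq_single q]
  · rw [hq, Nat.choose_self, Nat.sub_self]
    simp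
  · intro i hi hne
    have : i < q := by
      have := Finset.mem_range.1 hi
      omega
    rw [Nat.choose_eq_zero_of_lt this]
    simp
  · intro h
    exact absurd (Finset.mem_range.2 (Nat.lt_succ_self q)) h

theorem Ecf_mem {W P : IntermediateField k Ω} (hWP : W ≤ P) {q : ℕ} {G : ℕ → Polynomial Ω}
    (hG : ∀ i, G i ∈ PI W) {t : Ω} (ht : t ∈ P) (a : ℕ) : Ecf q G t a ∈ PI P :=
  sum_mem fun i _ => mul_mem (C_mem_PI (mul_mem (natCast_mem P _) (pow_mem ht _)))
    (PI_mono hWP (hG i))

end Alg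

/-- THE UPPER BOUND, abstract form. -/
theorem upper_core {p : ℕ} [hp : Fact p.Prime] [CharP Ω p] {W P : IntermediateField k Ω}
    {x : ℕ → Ω} {z : Ω} {A B D : ℝ} {n d : ℕ} (hr : ∀ n, x (n + 1) ^ p = x n)
    (hWP : W ≤ P) (hxP : ∀ n, x n ∈ P)
    (hnb : ∀ N, ∀ Q ∈ PI W, ∀ F < p ^ N, ∀ b, v.Ge b (Q.eval (x N)) →
      v.Ge (b - F * (B / p ^ N)) ((taylor (x N) Q).coeff F))
    (hz : ∀ f ∈ PI P, ∀ r, v.Ge r (f.eval z) → ∀ l, v.Ge r ((taylor z f).coeff l))
    (hw : ∀ ε : ℝ, 0 < ε → ∀ N₀ : ℕ, ∃ N ≥ N₀, ∃ w ∈ PI W, v.Ge (-ε) (z - w.eval (x N)) ∧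
      ∀ j : ℕ, 1 ≤ j → v.Ge (-(j * ((A + ε) / p ^ N))) ((taylor (x N) w).coeff j))
    (hBA : B ≤ A) (hdn : d < n) {G : ℕ → Polynomial Ω} (hG : ∀ i, G i ∈ PI W)
    (hG1 : G (p ^ d) = 1) {S : Multiset Ω} (hcard : S.card = p ^ d)
    (hprod : ∑ i ∈ Finset.range (p ^ d + 1), C ((G i).eval z) * X ^ i =
      (S.map fun c => X - C c).prod)
    (hS : ∀ c ∈ S, v.Ge D (x n - c)) : D ≤ A / p ^ n := by
  classical
  by_contra hcon
  push Not at hcon
  have hp0 : (0 : ℝ) < p := by exact_mod_cast hp.out.pos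
  set q := p ^ d with hq
  have hq1 : 1 ≤ q := Nat.one_le_pow _ _ hp.out.pos
  set E : ℕ → Polynomial Ω := fun a => Ecf q G (x n) a with hE
  set L : ℕ := ∑ a ∈ Finset.range (q + 1), (E a).natDegree with hL
  have hEL : ∀ a ∈ Finset.range (q + 1), (E a).natDegree ≤ L := fun a ha =>
    Finset.single_le_sum (f := fun a => (E a).natDegree) (fun _ _ => Nat.zero_le _) ha
  set gap : ℝ := D - A / p ^ n with hgap
  have hgap0 : 0 < gap := by linarith
  set ε : ℝ := gap / (q + L + 1) with hε
  have hε0 : 0 < ε := by positivity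
  have hεe : (q + L + 1 : ℝ) * ε = gap := by
    rw [hε]
    field_simp
  obtain ⟨N, hN, w, hwm, hw1, hw2⟩ := hw ε hε0 n
  set F := p ^ (N - n) with hF
  set wN := w.eval (x N) with hwN
  have hF0 : 0 < F := pow_pos hp.out.pos _
  have hxF : x N ^ F = x n := by
    have h1 := TWC.root_pow_add hr n (N - n)
    rwa [Nat.add_sub_cancel' hN] at h1
  have hFN : (F : ℝ) / p ^ N = 1 / p ^ n := by
    rw [hF]
    push_cast
    rw [div_eq_div_iff (by positivity) (by positivity), one_mul, ← pow_add,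
      Nat.sub_add_cancel hN]
  -- the values at `z`
  have hEz : ∀ a ∈ Finset.range (q + 1), v.Ge (((q : ℝ) - a) * D) ((E a).eval z) := by
    intro a ha
    have h1 := Ecf_comp q G (x n) (C z) X
    have h2 : ∑ i ∈ Finset.range (q + 1), (G i).comp (C z) * (X + C (x n)) ^ i =
        (S.map fun c => X + C (x n - c)).prod := by
      have h3 := congrArg (fun f : Polynomial Ω => f.comp (X + C (x n))) hprod
      simp only [sum_comp, mul_comp, C_comp, pow_comp, X_comp, multiset_prod_comp] at h3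
      rw [Multiset.map_map] at h3
      have h4 : (S.map ((fun f : Polynomial Ω => f.comp (X + C (x n))) ∘ fun c => X - C c)) =
          S.map fun c => X + C (x n - c) := by
        refine Multiset.map_congr rfl fun c _ => ?_
        simp only [Function.comp_apply, sub_comp, X_comp, C_comp, C_sub]
        ring
      rw [h4] at h3
      rw [← h3]
      refine Finset.sum_congr rfl fun i _ => ?_
      rw [comp_C]
    have h5 := Wt.prod_add (v := v) (a := D) (S.map fun c => x n - c) (by
      intro b hb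
      obtain ⟨c, hc, rfl⟩ := Multiset.mem_map.1 hb
      exact hS c hc)
    rw [Multiset.map_map, Multiset.card_map, hcard] at h5
    have h6 : (S.map ((fun b => X + C b) ∘ fun c => x n - c)).prod =
        (S.map fun c => X + C (x n - c)).prod := rfl
    rw [h6, ← h2, h1] at h5
    have h7 := h5 a
    have h8 : (∑ b ∈ Finset.range (q + 1), (Ecf q G (x n) b).comp (C z) * X ^ b).coeff a =
        (E a).eval z := by
      rw [finsetSum_coeff, Finset.sum_eq_single a]
      · rw [comp_C, coeff_C_mul, coeff_X_pow, if_pos rfl, mul_one]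
      · intro b _ hb
        rw [comp_C, coeff_C_mul, coeff_X_pow, if_neg (Ne.symm hb), mul_zero]
      · exact fun h => absurd ha h
    rw [h8] at h7
    refine h7.mono (le_of_eq ?_)
    ring
  have hEj : ∀ a ∈ Finset.range (q + 1), ∀ l,
      v.Ge (((q : ℝ) - a) * D - L * ε) ((taylor wN (E a)).coeff l) := by
    intro a ha l
    have h1 := hz (E a) (Ecf_mem hWP hG (hxP n) a) _ (hEz a ha)
    have h2 : v.Ge (-ε) (wN - z) := by
      have := hw1.neg
      rwa [neg_sub] at this
    have h3 := taylor_shift v hε0.le (L := L) (by rw [natDegree_taylor]; exact hEL a ha) h1 h2 l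
    rwa [taylor_taylor, sub_add_cancel] at h3
  -- the polynomial `H`
  set H : Polynomial Ω := ∑ i ∈ Finset.range (q + 1), (G i).comp w * (X ^ F) ^ i with hH
  have hHm : H ∈ PI W := sum_mem fun i _ => mul_mem (comp_mem (hG i) hwm)
    (pow_mem (pow_mem X_mem_PI _) _)
  set wh := taylor (x N) w with hwh
  set η := wh - C wN with hη
  have hηw : Wt v ((A + ε) / p ^ N) 0 η := by
    intro j
    rw [hη, coeff_sub, coeff_C]
    split_ifs with hj
    · subst hj
      rw [hwh, taylor_coeff_zero, sub_self]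
      exact RVal.Ge.zero
    · rw [sub_zero, zero_sub]
      exact hw2 j (Nat.one_le_iff_ne_zero.2 hj)
  have hTH : taylor (x N) H = ∑ a ∈ Finset.range (q + 1), (taylor wN (E a)).comp η * (X ^ F) ^ a := by
    have h1 : taylor (x N) H =
        ∑ i ∈ Finset.range (q + 1), (G i).comp wh * (X ^ F + C (x n)) ^ i := by
      rw [taylor_apply, hH, sum_comp]
      refine Finset.sum_congr rfl fun i _ => ?_
      rw [mul_comp, pow_comp, pow_comp, X_comp, comp_assoc, hwh, taylor_apply, hF,
        add_pow_char_pow, ← C_pow, ← hF, hxF]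
    rw [h1, Ecf_comp]
    refine Finset.sum_congr rfl fun a _ => ?_
    congr 1
    rw [taylor_apply, comp_assoc, add_comp, X_comp, C_comp, hη, sub_add_cancel]
  have hterm : ∀ a ∈ Finset.range q, v.Ge ε (((taylor wN (E a)).comp η * (X ^ F) ^ a).coeff (q * F)) := by
    intro a ha
    have haq := Finset.mem_range.1 ha
    have haq' : a ∈ Finset.range (q + 1) := Finset.mem_range.2 (by omega)
    rw [← pow_mul, coeff_mul_X_pow', if_pos (by nlinarith)]
    have hj : q * F - F * a = (q - a) * F := by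
      rw [Nat.sub_mul, mul_comm a F]
    rw [hj]
    have hj1 : 1 ≤ (q - a) * F := Nat.one_le_iff_ne_zero.2 (by
      have : 0 < q - a := by omega
      positivity)
    refine (Wt.comp hηw (fun l _ => hEj a haq' l) hj1).mono ?_
    have hqa : ((q - a : ℕ) : ℝ) = (q : ℝ) - a := by
      rw [Nat.cast_sub haq.le]
    rw [Nat.cast_mul, hqa]
    have h1 : ((q : ℝ) - a) * F * ((A + ε) / p ^ N) = ((q : ℝ) - a) * ((A + ε) / p ^ n) := by
      have : (F : ℝ) * ((A + ε) / p ^ N) = (F / p ^ N) * (A + ε) := by ring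
      rw [mul_assoc, this, hFN]
      ring
    rw [h1]
    have h2 : (1 : ℝ) ≤ (q : ℝ) - a := by
      rw [← hqa]
      exact_mod_cast (by omega : 1 ≤ q - a)
    have h3 : (q : ℝ) - a ≤ q := by
      have : (0 : ℝ) ≤ a := Nat.cast_nonneg _
      linarith
    have hpn : (1 : ℝ) ≤ (p : ℝ) ^ n := one_le_pow₀ (by exact_mod_cast hp.out.one_le)
    have h4 : ε / p ^ n ≤ ε := div_le_self hε0.le hpn
    have h5 : (A + ε) / p ^ n = A / p ^ n + ε / p ^ n := add_div _ _ _
    rw [h5]
    have h6 : ((q : ℝ) - a) * (ε / p ^ n) ≤ q * ε := by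
      have h60 : 0 ≤ ε / p ^ n := by positivity
      calc ((q : ℝ) - a) * (ε / p ^ n) ≤ q * (ε / p ^ n) := mul_le_mul_of_nonneg_right h3 h60
        _ ≤ q * ε := mul_le_mul_of_nonneg_left h4 (by positivity)
    have h7 : gap ≤ ((q : ℝ) - a) * gap := by nlinarith
    have h8 : ((q : ℝ) - a) * gap = ((q : ℝ) - a) * D - ((q : ℝ) - a) * (A / p ^ n) := by
      rw [hgap]
      ring
    nlinarith
  -- the coefficient, by the bounds of the jets
  have hup : v.Ge ε ((taylor (x N) H).coeff (q * F)) := by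
    have h1 : H.eval (x N) = (taylor wN (E 0)).coeff 0 := by
      rw [taylor_coeff_zero, hH, eval_finsetSum, hE]
      simp only [Ecf]
      rw [eval_finsetSum]
      refine Finset.sum_congr rfl fun i _ => ?_
      rw [eval_mul, eval_comp, eval_pow, eval_pow, eval_X, hxF, eval_mul, eval_C,
        Nat.choose_zero_right, Nat.cast_one, one_mul, Nat.sub_zero, ← hwN, mul_comm]
    have h2 := hEj 0 (Finset.mem_range.2 (by omega)) 0
    rw [← h1] at h2
    have hlt : q * F < p ^ N := by
      rw [hq, hF, ← pow_add]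
      exact Nat.pow_lt_pow_right hp.out.one_lt (by omega)
    refine (hnb N H hHm (q * F) hlt _ h2).mono ?_
    have h3 : ((q * F : ℕ) : ℝ) * (B / p ^ N) = q * (B / p ^ n) := by
      push_cast
      have : (F : ℝ) * (B / p ^ N) = (F / p ^ N) * B := by ring
      rw [mul_assoc, this, hFN]
      ring
    rw [h3]
    push_cast
    have h4 : B / p ^ n ≤ A / p ^ n := div_le_div_of_nonneg_right hBA (by positivity)
    have h5 : (1 : ℝ) ≤ q := by exact_mod_cast hq1
    have h6 : (q : ℝ) * (A / p ^ n) + q * gap = q * D := by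
      rw [hgap]
      ring
    have h7 : gap ≤ q * gap := by nlinarith
    have h8 : (q : ℝ) * (B / p ^ n) ≤ q * (A / p ^ n) := mul_le_mul_of_nonneg_left h4 (by positivity)
    have h9 : (0 : ℝ) ≤ q * ε := by positivity
    nlinarith
  -- the contradiction
  rw [hTH, finsetSum_coeff, Finset.sum_range_succ] at hup
  have htop : ((taylor wN (E q)).comp η * (X ^ F) ^ q).coeff (q * F) = 1 := by
    have h1 : E q = 1 := Ecf_top q G (x n) hG1
    rw [h1, taylor_one, C_comp, C_1, one_mul, ← pow_mul, mul_comm F q, coeff_X_pow, if_pos rfl]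
  rw [htop] at hup
  have h1 : v.Ge ε (∑ a ∈ Finset.range q, ((taylor wN (E a)).comp η * (X ^ F) ^ a).coeff (q * F)) :=
    RVal.Ge.sum _ _ hterm
  have h2 := hup.sub h1
  rw [add_sub_cancel_left] at h2
  have h3 := h2 one_ne_zero
  rw [v.map_one] at h3
  linarith

end Pool.Agent.TWTR
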