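import Pool.Agent.Lib.TWTR.UpC

/-!
# TANK W, the cover: the upper bound for the closeness of a letter, any radius

`W` with a letter `t` (`Lt p v W t ν`), `z` of radius `s` over `P ≥ W(t 0, t 1, ..)`, and `z` within
`s - M / p ^ (j + 1)` of the roots of order `p ^ j` of `W`, for all `j`. If `2 ν ≤ (p - 1) M`, no
element of `W<z>` is at distance `> (v (t 0) + ν + M) / p ^ n` of `t n`, `n ≥ 1` (`Lt.upperS`).
-/

set_option autoImplicit false
set_option linter.unusedSectionVars false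

open Polynomial

namespace Pool.Agent.TWTR

open Pool.Agent.H15JM (RVal)
open Pool.Agent.LU1 (VPos adj)
open Pool.Agent.D2 (Ctx0)
open Pool.Agent.D2P (hen clI mem_clI rootF mem_rootF)
open Pool.Agent.TWM hiding comp_mem_PI
open Pool.Agent.TWC (EW NBX Dst taylor_expand_pow)

universe u

variable {k Ω : Type u} [Field k] [Field Ω] [Algebra k Ω] {v : RVal Ω}
  {W P : IntermediateField k Ω} {t : ℕ → Ω} {z : Ω} {ν M ε s : ℝ} {p : ℕ}

/-- The shift of a polynomial, weight `s`. -/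
theorem taylor_shiftS (v : RVal Ω) {f : Polynomial Ω} {c ε s : ℝ} {δ : Ω} {L : ℕ} (hε : 0 ≤ ε)
    (hL : f.natDegree ≤ L) (hf : ∀ l : ℕ, v.Ge (c - l * s) (f.coeff l)) (hδ : v.Ge (s - ε) δ)
    (l : ℕ) : v.Ge (c - l * s - L * ε) ((taylor δ f).coeff l) := by
  rw [taylor_coeff, eval_eq_sum_range]
  refine RVal.Ge.sum _ _ fun i hi => ?_
  rw [hasseDeriv_coeff]
  have hi' : i ≤ L := by
    have h1 := Finset.mem_range.1 hi
    have h2 := natDegree_hasseDeriv_le f l
    omega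
  have h1 := ((TWM.ge_natCast v ((i + l).choose l)).mul (hf (i + l))).mul (ge_pow hδ i)
  refine h1.mono ?_
  have h2 : (i : ℝ) ≤ L := by exact_mod_cast hi'
  have h3 : (i : ℝ) * ε ≤ L * ε := mul_le_mul_of_nonneg_right h2 hε
  push_cast
  linarith

/-- The composition with a polynomial of weight `s`, without constant term. -/
theorem comp_coeffS {a c s : ℝ} {f η : Polynomial Ω} (hη : Wt v a s η)
    (hf : ∀ l : ℕ, 1 ≤ l → v.Ge (c - l * s) (f.coeff l)) {j : ℕ} (hj : 1 ≤ j) :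
    v.Ge (c - j * a) ((f.comp η).coeff j) := by
  have h1 : f.comp η = ∑ l ∈ Finset.range (f.natDegree + 1), Polynomial.C (f.coeff l) * η ^ l := by
    rw [Polynomial.comp, eval₂_eq_sum_range]
  rw [h1, finsetSum_coeff]
  refine RVal.Ge.sum _ _ fun l _ => ?_
  rcases Nat.eq_zero_or_pos l with rfl | hl
  · rw [pow_zero, mul_one, coeff_C, if_neg (by omega)]
    exact RVal.Ge.zero
  · have h2 := (Wt.C (a := a) (hf l hl)).mul (hη.pow l)
    refine (h2 j).mono (le_of_eq ?_)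
    ring

/-- THE UPPER BOUND, abstract form, any radius. -/
theorem upper_coreS {p : ℕ} [hp : Fact p.Prime] [CharP Ω p] {W P : IntermediateField k Ω}
    {x : ℕ → Ω} {z : Ω} {A B D : ℝ} {n : ℕ} (hr : ∀ n, x (n + 1) ^ p = x n)
    (hWP : W ≤ P) (hxP : ∀ n, x n ∈ P)
    (hnb : ∀ N, ∀ Q ∈ PI W, ∀ F < p ^ N, ∀ b, v.Ge b (Q.eval (x N)) →
      v.Ge (b - F * (B / p ^ N)) ((taylor (x N) Q).coeff F))
    (hz : ∀ f ∈ PI P, ∀ r, v.Ge r (f.eval z) → ∀ l : ℕ, v.Ge (r - l * s) ((taylor z f).coeff l))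
    (hw : ∀ ε : ℝ, 0 < ε → ∀ N₀ : ℕ, ∃ N ≥ N₀, ∃ w ∈ PI W, v.Ge (s - ε) (z - w.eval (x N)) ∧
      ∀ j : ℕ, 1 ≤ j → v.Ge (s - j * ((A + ε) / p ^ N)) ((taylor (x N) w).coeff j))
    (hBA : B ≤ A) (hn : 1 ≤ n) {f : Polynomial Ω} (hf : f ∈ PI W)
    (hD : v.Ge D (x n - f.eval z)) : D ≤ A / p ^ n := by
  by_contra hcon
  push Not at hcon
  have hp0 : (0 : ℝ) < p := by exact_mod_cast hp.out.pos
  set g : Polynomial Ω := C (x n) - f with hg
  have hgP : g ∈ PI P := sub_mem (C_mem_PI (hxP n)) (PI_mono hWP hf)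
  set L : ℕ := g.natDegree with hL
  set gap : ℝ := D - A / p ^ n with hgap
  have hgap0 : 0 < gap := by linarith
  set ε : ℝ := gap / (L + 2) with hε
  have hε0 : 0 < ε := by positivity
  have hεe : (L + 2 : ℝ) * ε = gap := by
    rw [hε]
    field_simp
  obtain ⟨N, hN, w, hwm, hw1, hw2⟩ := hw ε hε0 n
  set F := p ^ (N - n) with hF
  set wN := w.eval (x N) with hwN
  have hF1 : 1 ≤ F := Nat.one_le_pow _ _ hp.out.pos
  have hxF : x N ^ F = x n := by
    have h1 := TWC.root_pow_add hr n (N - n)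
    rwa [Nat.add_sub_cancel' hN] at h1
  have hFN : (F : ℝ) / p ^ N = 1 / p ^ n := by
    rw [hF]
    push_cast
    rw [div_eq_div_iff (by positivity) (by positivity), one_mul, ← pow_add,
      Nat.sub_add_cancel hN]
  have hpn : (1 : ℝ) ≤ (p : ℝ) ^ n := one_le_pow₀ (by exact_mod_cast hp.out.one_le)
  -- the jets of `g` at `z`, at `wN`
  have hgz : v.Ge D (g.eval z) := by rwa [hg, eval_sub, eval_C]
  have hgw : ∀ l : ℕ, v.Ge (D - l * s - L * ε) ((taylor wN g).coeff l) := by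
    intro l
    have h2 : v.Ge (s - ε) (wN - z) := by
      have := hw1.neg
      rwa [neg_sub] at this
    have h3 := taylor_shiftS v hε0.le (L := L) (f := taylor z g) (by rw [natDegree_taylor])
      (hz g hgP D hgz) h2 l
    rwa [taylor_taylor, sub_add_cancel] at h3
  -- the polynomial `H`
  set H : Polynomial Ω := X ^ F - f.comp w with hH
  have hHm : H ∈ PI W := sub_mem (pow_mem X_mem_PI _) (comp_mem hf hwm)
  set wh := taylor (x N) w with hwh
  set η := wh - C wN with hη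
  have hηw : Wt v ((A + ε) / p ^ N) s η := by
    intro j
    rw [hη, coeff_sub, coeff_C]
    split_ifs with hj
    · subst hj
      rw [hwh, taylor_coeff_zero, sub_self]
      exact RVal.Ge.zero
    · rw [sub_zero]
      exact hw2 j (Nat.one_le_iff_ne_zero.2 hj)
  have hTH : taylor (x N) H = X ^ F + (taylor wN g).comp η := by
    have h1 : (taylor wN g).comp η = g.comp wh := by
      rw [taylor_apply, comp_assoc, add_comp, X_comp, C_comp, hη, sub_add_cancel]
    rw [h1, hg, sub_comp, C_comp, hH, map_sub, taylor_apply, taylor_apply, pow_comp, X_comp, hF,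
      add_pow_char_pow, ← C_pow, ← hF, hxF, hwh, comp_assoc, taylor_apply]
    ring
  -- the coefficient, by the bounds of the jets
  have hF0 : H.eval (x N) = g.eval wN := by
    rw [hH, eval_sub, eval_pow, eval_X, hxF, eval_comp, hg, eval_sub, eval_C]
  have hup : v.Ge (D - L * ε - A / p ^ n) ((taylor (x N) H).coeff F) := by
    have h2 := hgw 0
    rw [taylor_coeff_zero, ← hF0, Nat.cast_zero, zero_mul, sub_zero] at h2
    have hlt : F < p ^ N := Nat.pow_lt_pow_right hp.out.one_lt (by omega)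
    refine (hnb N H hHm F hlt _ h2).mono ?_
    have h3 : (F : ℝ) * (B / p ^ N) = B / p ^ n := by
      have : (F : ℝ) * (B / p ^ N) = (F / p ^ N) * B := by ring
      rw [this, hFN]
      ring
    rw [h3]
    have h4 : B / p ^ n ≤ A / p ^ n := div_le_div_of_nonneg_right hBA (by positivity)
    linarith
  have hlow : v.Ge (D - L * ε - (A + ε) / p ^ n) (((taylor wN g).comp η).coeff F) := by
    refine (comp_coeffS (c := D - L * ε) hηw (fun l _ => (hgw l).mono (by linarith)) hF1).mono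
      (le_of_eq ?_)
    have h3 : (F : ℝ) * ((A + ε) / p ^ N) = (A + ε) / p ^ n := by
      have : (F : ℝ) * ((A + ε) / p ^ N) = (F / p ^ N) * (A + ε) := by ring
      rw [this, hFN]
      ring
    rw [h3]
  have hdiv : (A + ε) / (p : ℝ) ^ n ≤ A / p ^ n + ε := by
    rw [add_div]
    have := div_le_self hε0.le hpn
    linarith
  rw [hTH, coeff_add, coeff_X_pow, if_pos rfl] at hup
  have h2 := (hup.mono (show ε ≤ D - L * ε - A / p ^ n by nlinarith)).sub
    (hlow.mono (show ε ≤ D - L * ε - (A + ε) / p ^ n by nlinarith))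
  rw [add_sub_cancel_right] at h2
  have h3 := h2 one_ne_zero
  rw [v.map_one] at h3
  linarith

variable [hp : Fact p.Prime] [CharP k p] [CharP Ω p] [IsAlgClosed Ω]

/-- The jets of a digit, any radius. -/
theorem Lt.digitS (h0 : Ctx0 k v) (hc : CompleteV v) (h : Lt p v W t ν) (hM : 0 ≤ M)
    (hνM : 2 * ν ≤ (p - 1) * M) (hε : 0 ≤ ε) {i : ℕ} {ω : Ω} (hω : ω ^ p ^ (i + 1) ∈ W)
    (hb : v.Ge (s - (M + ε) / p ^ (i + 1)) ω) :
    ∃ Q ∈ PI W, Q.eval (t (i + 1)) = ω ∧ ∀ F : ℕ, 1 ≤ F →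
      v.Ge (s - F * ((v (t 0) + ν + M + ε) / p ^ (i + 1))) ((taylor (t (i + 1)) Q).coeff F) := by
  have hp0 : (0 : ℝ) < p := by exact_mod_cast hp.out.pos
  have hp2 : (2 : ℝ) ≤ p := by exact_mod_cast hp.out.two_le
  have hpn : (0 : ℝ) < (p : ℝ) ^ (i + 1) := by positivity
  obtain ⟨Q0, hQ0, hev0⟩ := h.rts hω
  have ht : t (i + 1) ^ p ^ (i + 1) = t 0 := by
    have := h.tpow 0 (i + 1)
    rwa [zero_add] at this
  obtain ⟨Q, hQ, hdeg, hev⟩ := exists_low (pow_pos hp.out.pos (i + 1)) h.mem ht hQ0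
  rw [hev0] at hev
  refine ⟨Q, hQ, hev, fun F hF => ?_⟩
  rw [← hev] at hb
  rcases Nat.lt_or_ge F (p ^ (i + 1)) with hlt | hge
  swap
  · rw [coeff_eq_zero_of_natDegree_lt (by rw [natDegree_taylor]; omega)]
    exact RVal.Ge.zero
  rcases Nat.lt_or_ge 1 F with h1 | h1
  · -- the higher jets
    have h2 := (h.nbx h0 hc).nb (i + 1) Q hQ F hlt _ hb
    refine h2.mono ?_
    have hF2 : (2 : ℝ) ≤ F := by exact_mod_cast h1
    have hq : (0 : ℝ) < (p : ℝ) - 1 := by linarith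
    have h3 : s - F * ((v (t 0) + ν + M + ε) / (p : ℝ) ^ (i + 1)) =
        s + -(F * (v (t 0) + ν + M + ε)) / (p : ℝ) ^ (i + 1) := by ring
    have h4 : s - (M + ε) / (p : ℝ) ^ (i + 1) -
        F * (v (t 0) + ν * (p / (p - 1))) / (p : ℝ) ^ (i + 1) =
        s + (-(M + ε) - F * (v (t 0) + ν * (p / (p - 1)))) / (p : ℝ) ^ (i + 1) := by ring
    rw [h3, h4]
    have h7 : -(F * (v (t 0) + ν + M + ε)) / (p : ℝ) ^ (i + 1) ≤
        (-(M + ε) - F * (v (t 0) + ν * (p / (p - 1)))) / (p : ℝ) ^ (i + 1) := by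
      refine div_le_div_of_nonneg_right ?_ hpn.le
      have h5 : ν * (p / (p - 1)) = ν + ν / (p - 1) := by
        field_simp
        ring
      have h6 : ν / (p - 1) ≤ M / 2 := by
        rw [div_le_div_iff₀ hq two_pos]
        nlinarith
      rw [h5]
      nlinarith
    linarith
  · -- the first jet
    have hF1 : F = 1 := le_antisymm h1 hF
    subst hF1
    have h2 := h.ld' h0 hc hQ i (a := 0) (by
      rw [zero_pow (pow_pos hp.out.pos _).ne']
      exact zero_mem W) (b := s - (M + ε) / p ^ (i + 1)) (by rwa [sub_zero])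
    rw [taylor_coeff_one, Nat.cast_one, one_mul]
    have h3 : (derivative Q).eval (t (i + 1)) =
        (t (i + 1))⁻¹ * (t (i + 1) * (derivative Q).eval (t (i + 1))) := by
      rw [inv_mul_cancel_left₀ (h.tne _)]
    rw [h3]
    have h4 : v.Ge (-(v (t 0) / p ^ (i + 1))) (t (i + 1))⁻¹ := fun _ => by
      rw [v.map_inv (h.tne _), h.val (i + 1)]
    refine (h4.mul h2).mono (le_of_eq ?_)
    field_simp
    ring

/-- The natural jets of `z`, any radius. -/
theorem Lt.natS (h0 : Ctx0 k v) (hc : CompleteV v) (h : Lt p v W t ν) (hM : 0 ≤ M)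
    (hνM : 2 * ν ≤ (p - 1) * M)
    (hN : ∀ (j : ℕ) (ε : ℝ), 0 < ε → ∃ a : Ω, a ^ p ^ j ∈ W ∧
      v.Ge (s - M / p ^ (j + 1) - ε) (z - a)) (hε : 0 < ε) (N₀ : ℕ) :
    ∃ N ≥ N₀, ∃ w ∈ PI W, v.Ge (s - ε) (z - w.eval (t N)) ∧
      ∀ j : ℕ, 1 ≤ j →
        v.Ge (s - j * ((v (t 0) + ν + M + ε) / p ^ N)) ((taylor (t N) w).coeff j) := by
  have hp0 : (0 : ℝ) < p := by exact_mod_cast hp.out.pos
  have hp1 : (1 : ℝ) < p := by exact_mod_cast hp.out.one_lt
  -- `N`
  obtain ⟨N₁, hN₁⟩ := pow_unbounded_of_one_lt (2 * M / ε) hp1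
  set N := max N₀ N₁ with hNdef
  have hNM : M / p ^ (N + 1) ≤ ε / 2 := by
    rw [div_le_div_iff₀ (by positivity) two_pos]
    have h1 : (p : ℝ) ^ N₁ ≤ p ^ (N + 1) := pow_le_pow_right₀ hp1.le (by omega)
    rw [div_lt_iff₀ hε] at hN₁
    nlinarith
  set ε' : ℝ := ε / (2 * p ^ N) with hε'
  have hε'0 : 0 < ε' := by positivity
  have hε'1 : ∀ i ≤ N, ε' ≤ ε / p ^ i := by
    intro i hi
    rw [hε']
    refine div_le_div_of_nonneg_left hε.le (by positivity) ?_
    have h1 : (p : ℝ) ^ i ≤ p ^ N := pow_le_pow_right₀ hp1.le hi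
    nlinarith [pow_pos hp0 N]
  have hε'2 : ε' ≤ ε / 2 := by
    rw [hε']
    refine div_le_div_of_nonneg_left hε.le two_pos ?_
    have h1 : (1 : ℝ) ≤ p ^ N := one_le_pow₀ hp1.le
    linarith
  choose a ha1 ha2 using fun j => hN j ε' hε'0
  have key : ∀ i ≤ N, ∃ w ∈ PI W, w.eval (t i) = a i ∧ ∀ j : ℕ, 1 ≤ j →
      v.Ge (s - j * ((v (t 0) + ν + M + ε) / p ^ i)) ((taylor (t i) w).coeff j) := by
    intro i
    induction i with
    | zero =>
      intro _
      refine ⟨C (a 0), C_mem_PI ?_, eval_C, fun j hj => ?_⟩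
      · have := ha1 0
        rwa [pow_zero, pow_one] at this
      · rw [taylor_C, coeff_C, if_neg (by omega)]
        exact RVal.Ge.zero
    | succ i ih =>
      intro hi
      obtain ⟨w, hw, hwe, hwj⟩ := ih (by omega)
      have hω : (a (i + 1) - a i) ^ p ^ (i + 1) ∈ W := by
        rw [sub_pow_char_pow]
        refine sub_mem (ha1 (i + 1)) ?_
        rw [pow_succ, pow_mul]
        exact pow_mem (ha1 i) p
      have hωb : v.Ge (s - (M + ε) / p ^ (i + 1)) (a (i + 1) - a i) := by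
        have h1 : a (i + 1) - a i = (z - a i) - (z - a (i + 1)) := by ring
        rw [h1]
        have h2 := hε'1 (i + 1) hi
        have h3 : (M + ε) / p ^ (i + 1) = M / p ^ (i + 1) + ε / p ^ (i + 1) := add_div _ _ _
        refine RVal.Ge.sub ((ha2 i).mono ?_) ((ha2 (i + 1)).mono ?_)
        · rw [h3]
          linarith
        · rw [h3]
          have h4 : M / p ^ (i + 1 + 1) ≤ M / p ^ (i + 1) :=
            div_le_div_of_nonneg_left hM (by positivity)
              (pow_le_pow_right₀ hp1.le (by omega))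
          linarith
      obtain ⟨Q, hQ, hQe, hQj⟩ := h.digitS h0 hc hM hνM hε.le hω hωb
      refine ⟨expand Ω p w + Q, add_mem (TWC.expand_mem_PI hp.out.pos hw) hQ, ?_, fun j hj => ?_⟩
      · rw [eval_add, expand_eval, h.root, hwe, hQe]
        ring
      · rw [map_add, coeff_add]
        refine RVal.Ge.add ?_ (hQj j hj)
        have h1 := taylor_expand_pow (p := p) 1 (t (i + 1)) w
        rw [pow_one, h.root] at h1
        rw [h1, coeff_expand hp.out.pos]
        split_ifs with hd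
        · obtain ⟨m, rfl⟩ := hd
          rw [Nat.mul_div_cancel_left _ hp.out.pos]
          have hm : 1 ≤ m := Nat.one_le_iff_ne_zero.2 (by
            rintro rfl
            omega)
          refine (hwj m hm).mono (le_of_eq ?_)
          push_cast
          rw [pow_succ]
          field_simp
        · exact RVal.Ge.zero
  obtain ⟨w, hw, hwe, hwj⟩ := key N le_rfl
  refine ⟨N, le_max_left _ _, w, hw, ?_, hwj⟩
  rw [hwe]
  exact (ha2 N).mono (by linarith)

/-- **The upper bound**, any radius. -/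
theorem Lt.upperS (h0 : Ctx0 k v) (hc : CompleteV v) (h : Lt p v W t ν) (hM : 0 ≤ M)
    (hνM : 2 * ν ≤ (p - 1) * M) (hWP : W ≤ P) (htP : ∀ n, t n ∈ P) (hz : TL v P z s)
    (hN : ∀ (j : ℕ) (ε : ℝ), 0 < ε → ∃ a : Ω, a ^ p ^ j ∈ W ∧
      v.Ge (s - M / p ^ (j + 1) - ε) (z - a)) {n : ℕ} (hn : 1 ≤ n) {c : Ω}
    (hcm : c ∈ cadj v W z) {D : ℝ} (hD : v.Ge D (t n - c)) :
    D ≤ (v (t 0) + ν + M) / p ^ n := by
  have hp0 : (0 : ℝ) < p := by exact_mod_cast hp.out.pos
  have hp1 : (1 : ℝ) < p := by exact_mod_cast hp.out.one_lt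
  have hq : (0 : ℝ) < (p : ℝ) - 1 := by linarith
  have hlim : ∀ ε : ℝ, 0 < ε → ∃ (j : ℕ) (a : Ω), a ^ p ^ j ∈ W ∧ v.Ge (s - ε) (z - a) := by
    intro ε hε
    obtain ⟨N₁, hN₁⟩ := pow_unbounded_of_one_lt (2 * M / ε) hp1
    obtain ⟨a, ha, h1⟩ := hN N₁ (ε / 2) (by positivity)
    refine ⟨N₁, a, ha, h1.mono ?_⟩
    have h2 : M / p ^ (N₁ + 1) ≤ ε / 2 := by
      rw [div_le_div_iff₀ (by positivity) two_pos]
      have h3 : (p : ℝ) ^ N₁ ≤ p ^ (N₁ + 1) := pow_le_pow_right₀ hp1.le (by omega)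
      rw [div_lt_iff₀ hε] at hN₁
      nlinarith
    linarith
  obtain ⟨f, hf, hfc⟩ := dense_root hz hWP hlim hcm D
  have hDf : v.Ge D (t n - f.eval z) := by
    have h1 : t n - f.eval z = (t n - c) + (c - f.eval z) := by ring
    rw [h1]
    exact hD.add hfc
  refine upper_coreS (v := v) (p := p) (W := W) (P := P) (x := t) (z := z) (s := s)
    (A := v (t 0) + ν + M) (B := v (t 0) + ν * (p / (p - 1))) (D := D) (n := n) (f := f)
    h.root hWP htP ?_ ?_ ?_ ?_ hn hf hDf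
  · intro N Q hQ F hF b hb
    have h1 := (h.nbx h0 hc).nb N Q hQ F hF b hb
    rwa [mul_div_assoc] at h1
  · intro g hg r hr l
    by_cases hg0 : g = 0
    · rw [hg0, map_zero, coeff_zero]
      exact RVal.Ge.zero
    · have h1 := hz.weak (PI_mono (le_algc P) hg) hg0 l
      refine h1.mono ?_
      have := hr (hz.eval_ne (PI_mono (le_algc P) hg) hg0)
      linarith
  · intro ε hε N₀
    exact h.natS h0 hc hM hνM hN hε N₀
  · have h1 : ν * (p / (p - 1)) = ν + ν / (p - 1) := by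
      field_simp
      ring
    have h2 : ν / (p - 1) ≤ M := by
      rw [div_le_iff₀ hq]
      have := h.nonneg
      nlinarith
    rw [h1]
    linarith

end Pool.Agent.TWTR
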